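import Pool.Agent.NH57.BL.Stm2
import Pool.Agent.R426.QK.Asy

/-!
# Project BL, BL-25 ASY8: the final asymptotics, all classes modulo `8`
(port of `Pool/Agent/R426/QK/Asy.lean`)
-/

set_option autoImplicit false

open scoped Classical
open Finset Filter

namespace Pool.Agent.NH57.BO

open Pool.Agent.R426.QK
open Pool.Agent.Y698 (RR)

namespace ASY

open Pool.Agent.R426.QK.Asy
open Pool.Agent.Y703.CX (jj XX eL zz kk eL_tendsto logX_eq rpow_eL HH NN ev_eL one_le_exp
  HH_ge HH_le HH_pos kk_ge kk_le X_pos one_add_log lin_le zz_ge zz_pos)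

/-- a sum over a set is the sum over the small and the large primes -/
theorem sum_sm_la (z : ℕ) (S : Finset RR) (h : RR → ZMod 2) :
    ∑ π ∈ sm z S, h π + ∑ π ∈ la z S, h π = ∑ π ∈ S, h π := by
  unfold sm la
  exact Finset.sum_filter_add_sum_filter_not S _ _

/-- the sets outside the regular part -/
theorem out_sub5 (x y : ZMod 2) (X z H k V : ℕ) :
    SS5 x y X \ ((Rg X z H k V).filter fun S => ND5 x y (sm z S) (la z S)) ⊆
      (((((SS X).filter fun S => k < S.card) ∪
      ((SS X).filter fun S => S.card ≤ k ∧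
        X < (∏ π ∈ sm z S, nrm π) * ∏ π ∈ la z S, XX H (bl H π))) ∪
      ((SS X).filter fun S => ¬ Set.InjOn (bl H) (la z S : Set RR))) ∪
      ((SS X).filter fun S => S.card ≤ k ∧ (lt3 z S).card < 4 * (sm z S).card + V)) ∪
      ((SS X).filter fun S => S.card ≤ k ∧ ¬ Nd5 x y (sm z S) (la z S)) := by
  intro S hS
  rw [Finset.mem_sdiff, Finset.mem_filter] at hS
  obtain ⟨h5, h2⟩ := hS
  unfold SS5 at h5
  obtain ⟨h1, e1, e2⟩ := mem_filter.1 h5
  simp only [mem_union, mem_filter]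
  by_contra hc
  push Not at hc
  obtain ⟨⟨⟨⟨c1, c2⟩, c3⟩, c4⟩, c5⟩ := hc
  have d1 : S.card ≤ k := c1 h1
  have d2 := c2 h1 d1
  have d3 := c3 h1
  have d4 := c4 h1 d1
  have d5 := c5 h1 d1
  apply h2
  refine ⟨?_, d5, ?_, ?_⟩
  · unfold Rg
    rw [mem_filter]
    exact ⟨h1, d3, d1, d2, d4⟩
  · rw [sum_sm_la]
    exact e1
  · rw [sum_sm_la]
    exact e2

/-- the regular sets are in the class -/
theorem sub5 (x y : ZMod 2) (X z H k V : ℕ) :
    ((Rg X z H k V).filter fun S => ND5 x y (sm z S) (la z S)) ⊆ SS5 x y X := by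
  intro S hS
  obtain ⟨h1, -, h2, h3⟩ := mem_filter.1 hS
  rw [sum_sm_la] at h2 h3
  unfold SS5
  refine mem_filter.2 ⟨?_, h2, h3⟩
  unfold Rg at h1
  exact (mem_filter.1 h1).1

/-- the number of the true ones among three statements is zero or two -/
theorem ind {P Q R : Prop}
    (h : ((if P then 1 else 0) + (if Q then 1 else 0) + (if R then 1 else 0) : ℕ) =
      if P ∧ Q ∨ P ∧ R ∨ Q ∧ R then 2 else 0) :
    ((if P ∧ Q then 1 else 0 : ℝ)) = ((if P then 1 else 0) + (if Q then 1 else 0) -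
      (if R then 1 else 0)) / 2 := by
  by_cases hP : P <;> by_cases hQ : Q <;> by_cases hR : R <;> simp_all

theorem ind2 {P Q R : Prop}
    (h : ((if P then 1 else 0) + (if Q then 1 else 0) + (if R then 1 else 0) : ℕ) =
      if P ∧ Q ∨ P ∧ R ∨ Q ∧ R then 2 else 0) :
    ((if P ∧ R then 1 else 0 : ℝ)) = ((if P then 1 else 0) + (if R then 1 else 0) -
      (if Q then 1 else 0)) / 2 := by
  by_cases hP : P <;> by_cases hQ : Q <;> by_cases hR : R <;> simp_all

end ASY

open ASY Pool.Agent.R426.QK.Asy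
open Pool.Agent.Y703.CX (jj XX eL zz kk eL_tendsto logX_eq rpow_eL HH NN ev_eL one_le_exp
  HH_ge HH_le HH_pos kk_ge kk_le X_pos one_add_log lin_le zz_ge zz_pos)

theorem t_ASY5 : S_ASY5 := by
  intro hR h1 h3 h4 h5 hK hC hB hF hLo hc2 x y a b hab
  obtain ⟨C, hC1, hkey⟩ := hK hR h1 h3 h5
  obtain ⟨D, hD⟩ := hC
  obtain ⟨c, X₀, hc, hlow⟩ := hLo x y
  have hD1 := hD.one
  have hD0 : (0 : ℝ) < D := by linarith
  rw [Metric.tendsto_nhds]
  intro ε hε
  obtain ⟨η, hη⟩ : ∃ η : ℝ, η = ε * c / (6 * D) := ⟨_, rfl⟩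
  have hη0 : 0 < η := by rw [hη]; positivity
  have hηD : η * D = ε * c / 6 := by
    rw [hη]
    field_simp
  obtain ⟨V, hV⟩ := h4 η hη0
  have s1 := sml_many hD
  have s2 := sml_cut hD
  have s3 := sml_coll hD
  have s4 := sml_eps (hF V)
  have s5 := sml_eps (hB x y)
  have s6 := sml_main hC1
  have s := sml_add (sml_add (sml_add (sml_add (sml_add s1 s2) s3) s4) s5) s6
  have hδ : (0 : ℝ) < c * ε / 4 := by positivity
  filter_upwards [s (c * ε / 4) hδ, ev_eL 1, eventually_ge_atTop X₀] with X hX hl hX0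
  rw [neg_zero, zero_mul, Real.exp_zero, mul_one] at hX
  have hl0 : 0 < eL X := by linarith
  have hlo := hlow X hX0
  have hXp := X_pos hl0
  have hXp' : (0 : ℝ) < X := by exact_mod_cast hXp
  have hSpos : (0 : ℝ) < ((SS5 x y X).card : ℝ) := by
    refine lt_of_lt_of_le ?_ hlo
    positivity
  have hN : (HH X : ℝ) * Real.log X < NN X := by
    unfold NN
    push_cast
    exact Nat.lt_floor_add_one _
  have hmain := hkey η V hη0 hV x y a b hab X (zz X) (HH X) (kk X) (NN X) (kap C X) hXp (HH_pos hl0)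
    (zz_pos hl)
    (kap_nonneg hC1 X) (kap_pow hC1 hl) hN
  obtain ⟨T, hT⟩ : ∃ T, T = (Rg X (zz X) (HH X) (kk X) V).filter
    fun S => ND5 x y (sm (zz X) S) (la (zz X) S) := ⟨_, rfl⟩
  have hTG : (Rg X (zz X) (HH X) (kk X) V).filter
      (fun S => ND5 x y (sm (zz X) S) (la (zz X) S) ∧ Gd5 x y a b S) = T.filter (Gd5 x y a b) := by
    rw [hT, filter_filter]
  rw [hTG, ← hT] at hmain
  have hTS : T ⊆ SS5 x y X := by
    rw [hT]
    exact sub5 x y X (zz X) (HH X) (kk X) V
  have hRS : ((Rg X (zz X) (HH X) (kk X) V).card : ℝ) ≤ ((SS X).card : ℝ) := by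
    exact_mod_cast card_le_card (filter_subset _ _)
  have hall := hD.all X hXp
  have hcmp := cmp (Gd5 x y a b) T (SS5 x y X) hTS c2 hc2.2.1.le hc2.2.2.1.le
  have hout : ((SS5 x y X \ T).card : ℝ) ≤
      ((((SS X).filter fun S => kk X < S.card).card : ℝ) +
      (((SS X).filter fun S => S.card ≤ kk X ∧
        X < (∏ π ∈ sm (zz X) S, nrm π) * ∏ π ∈ la (zz X) S, XX (HH X) (bl (HH X) π)).card : ℝ) +
      (((SS X).filter fun S => ¬ Set.InjOn (bl (HH X)) (la (zz X) S : Set RR)).card : ℝ) +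
      (((SS X).filter fun S => S.card ≤ kk X ∧
        (lt3 (zz X) S).card < 4 * (sm (zz X) S).card + V).card : ℝ)) +
      (((SS X).filter fun S => S.card ≤ kk X ∧ ¬ Nd5 x y (sm (zz X) S) (la (zz X) S)).card : ℝ) := by
    have g := card_le_card (out_sub5 x y X (zz X) (HH X) (kk X) V)
    rw [← hT] at g
    have g2 := (g.trans (card_union_le _ _)).trans (Nat.add_le_add_right ((card_union_le _ _).trans
      (Nat.add_le_add_right ((card_union_le _ _).trans
      (Nat.add_le_add_right (card_union_le _ _) _)) _)) _)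
    exact_mod_cast g2
  have g1 : η * ((Rg X (zz X) (HH X) (kk X) V).card : ℝ) ≤ ε * c / 6 * X := by
    calc η * ((Rg X (zz X) (HH X) (kk X) V).card : ℝ) ≤ η * (D * X) :=
          mul_le_mul_of_nonneg_left (hRS.trans hall) hη0.le
      _ = ε * c / 6 * X := by rw [← mul_assoc, hηD]
  have htot : |(((SS5 x y X).filter (Gd5 x y a b)).card : ℝ) - c2 * ((SS5 x y X).card : ℝ)| ≤
      ε * c / 6 * X + c * ε / 4 * X := by
    linarith
  rw [Real.dist_eq]
  have e3 : (((SS5 x y X).filter (Gd5 x y a b)).card : ℝ) / ((SS5 x y X).card : ℝ) - c2 =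
      ((((SS5 x y X).filter (Gd5 x y a b)).card : ℝ) - c2 * ((SS5 x y X).card : ℝ)) /
        ((SS5 x y X).card : ℝ) := by
    field_simp
  rw [e3, abs_div, abs_of_pos hSpos, div_lt_iff₀ hSpos]
  refine lt_of_le_of_lt htot ?_
  have g2 : ε * c / 6 * X + c * ε / 4 * X ≤ 5 * ε / 12 * ((SS5 x y X).card : ℝ) := by
    calc ε * c / 6 * X + c * ε / 4 * X = 5 * ε / 12 * (c * X) := by ring
      _ ≤ _ := mul_le_mul_of_nonneg_left hlo (by positivity)
  have g4 : 0 < ε * ((SS5 x y X).card : ℝ) := by positivity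
  linarith

theorem t_TWO5 : S_TWO5 := by
  intro _ hP hQ x y a
  have hA := hQ x y 1 0 (Or.inl one_ne_zero)
  have hB := hQ x y 1 1 (Or.inl one_ne_zero)
  have hC := hQ x y 0 1 (Or.inr one_ne_zero)
  have ha : a = 0 ∨ a = 1 := by
    revert a
    decide
  rcases ha with rfl | rfl
  · have h := ((hA.add hC).sub hB).div_const 2
    rw [add_sub_cancel_right] at h
    refine h.congr fun X => ?_
    have key : (((SS5 x y X).filter fun S => Gd5 x y 1 0 S ∧ Gd5 x y 0 1 S).card : ℝ) =
        ((((SS5 x y X).filter (Gd5 x y 1 0)).card : ℝ) +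
          (((SS5 x y X).filter (Gd5 x y 0 1)).card : ℝ) -
          (((SS5 x y X).filter (Gd5 x y 1 1)).card : ℝ)) / 2 := by
      rw [card_filter, card_filter, card_filter, card_filter]
      push_cast
      rw [← sum_add_distrib, ← sum_sub_distrib, sum_div]
      refine sum_congr rfl fun S _ => ?_
      exact ind2 (hP RR S ss (dd x) (gg y) cs)
    rw [key]
    ring
  · have h := ((hA.add hB).sub hC).div_const 2
    rw [add_sub_cancel_right] at h
    refine h.congr fun X => ?_
    have key : (((SS5 x y X).filter fun S => Gd5 x y 1 0 S ∧ Gd5 x y 1 1 S).card : ℝ) =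
        ((((SS5 x y X).filter (Gd5 x y 1 0)).card : ℝ) +
          (((SS5 x y X).filter (Gd5 x y 1 1)).card : ℝ) -
          (((SS5 x y X).filter (Gd5 x y 0 1)).card : ℝ)) / 2 := by
      rw [card_filter, card_filter, card_filter, card_filter]
      push_cast
      rw [← sum_add_distrib, ← sum_sub_distrib, sum_div]
      refine sum_congr rfl fun S _ => ?_
      exact ind (hP RR S ss (dd x) (gg y) cs)
    rw [key]
    ring

end Pool.Agent.NH57.BO
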