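import Pool.Agent.NH57.BL.Stm3
import Pool.Agent.NH57.BL.ASY2
import Pool.Agent.R426.QJ.Asy

/-!
# Project BL, BL-48 ASYJ: the final asymptotics of the joint proportions
(union of `Pool/Agent/R426/QJ/Asy.lean` and `Pool/Agent/NH57/BL/ASY2.lean`)
-/

set_option autoImplicit false

open scoped Classical
open Finset Filter

namespace Pool.Agent.NH57.BP

open Pool.Agent.R426.QK
open Pool.Agent.R426.QJ (Fx ZZ SSJ RgJ)
open Pool.Agent.R426.QJ.Asy (ev_Z)
open Pool.Agent.NH57.BO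
open Pool.Agent.NH57.BJ (LAXJ S_LAXJ)
open Pool.Agent.Y698 (RR)

namespace ASYJ

open Pool.Agent.R426.QK.Asy
open Pool.Agent.NH57.BO.ASY (sum_sm_la ind ind2)
open Pool.Agent.Y703.CX (jj XX eL zz kk eL_tendsto logX_eq rpow_eL HH NN ev_eL one_le_exp
  HH_ge HH_le HH_pos kk_ge kk_le X_pos one_add_log lin_le zz_ge zz_pos)

/-- the regular sets are in the class -/
theorem subJ {I : Type} [Fintype I] (F : I → Finset RR) (x y : ZMod 2) (K V X z H k : ℕ) :
    ((RgJ (ZZ F) X z H k).filter fun S => NdJ5 F K V x y (sm z S) (la z S)) ⊆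
      SSJ5 (ZZ F) x y X := by
  intro S hS
  obtain ⟨h1, -, h2, h3⟩ := mem_filter.1 hS
  rw [sum_sm_la] at h2 h3
  unfold RgJ at h1
  have h4 := (mem_filter.1 h1).1
  unfold SSJ at h4
  obtain ⟨h5, h6⟩ := mem_filter.1 h4
  unfold SSJ5 SS5
  exact mem_filter.2 ⟨mem_filter.2 ⟨h5, h2, h3⟩, h6⟩

/-- the sets outside the regular part -/
theorem out_subJ {I : Type} [Fintype I] (F : I → Finset RR) (x y : ZMod 2) (K V X z H k : ℕ) :
    SSJ5 (ZZ F) x y X \
      ((RgJ (ZZ F) X z H k).filter fun S => NdJ5 F K V x y (sm z S) (la z S)) ⊆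
      ((((SS X).filter fun S => k < S.card) ∪
      ((SS X).filter fun S => S.card ≤ k ∧
        X < (∏ π ∈ sm z S, nrm π) * ∏ π ∈ la z S, XX H (bl H π))) ∪
      ((SS X).filter fun S => ¬ Set.InjOn (bl H) (la z S : Set RR))) ∪
      ((SSJ (ZZ F) X).filter fun S => S.card ≤ k ∧ ¬ NdC F K V x y (sm z S) (la z S)) := by
  intro S hS
  rw [Finset.mem_sdiff, Finset.mem_filter] at hS
  obtain ⟨h5, h2⟩ := hS
  unfold SSJ5 at h5
  obtain ⟨h6, h7⟩ := mem_filter.1 h5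
  unfold SS5 at h6
  obtain ⟨h1, e1, e2⟩ := mem_filter.1 h6
  have h8 : S ∈ SSJ (ZZ F) X := by
    unfold SSJ
    exact mem_filter.2 ⟨h1, h7⟩
  simp only [mem_union, mem_filter]
  by_contra hc
  push Not at hc
  obtain ⟨⟨⟨c1, c2⟩, c3⟩, c5⟩ := hc
  have d1 : S.card ≤ k := c1 h1
  have d2 := c2 h1 d1
  have d3 := c3 h1
  have d5 := c5 h8 d1
  apply h2
  refine ⟨?_, d5, ?_, ?_⟩
  · unfold RgJ
    rw [mem_filter]
    exact ⟨h8, d3, d1, d2⟩
  · rw [sum_sm_la]
    exact e1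
  · rw [sum_sm_la]
    exact e2

/-- the signs of the three systems -/
noncomputable def sg : Fin 3 → ℝ := ![1, 1, -1]

/-- the first parameters of the three systems -/
def pa (a : ZMod 2) : Fin 3 → ZMod 2 := ![1, a, 1 + a]

/-- the second parameters of the three systems -/
def pb : Fin 3 → ZMod 2 := ![0, 1, 1]

theorem pab (a : ZMod 2) (k : Fin 3) : pa a k ≠ 0 ∨ pb k ≠ 0 := by
  revert a k
  decide

theorem three (hP : Pool.Agent.NH57.BL.S_PAR) (x y a : ZMod 2) (S : Finset RR) :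
    (if Gd5 x y 1 0 S ∧ Gd5 x y a 1 S then (1 : ℝ) else 0) =
      ∑ k : Fin 3, sg k / 2 * (if Gd5 x y (pa a k) (pb k) S then 1 else 0) := by
  have h := hP RR S ss (dd x) (gg y) cs
  have ha : a = 0 ∨ a = 1 := by
    revert a
    decide
  have s0 : sg 0 = 1 := rfl
  have s1 : sg 1 = 1 := rfl
  have s2 : sg 2 = -1 := rfl
  have b0 : pb 0 = 0 := rfl
  have b1 : pb 1 = 1 := rfl
  have b2 : pb 2 = 1 := rfl
  have a0 : pa a 0 = 1 := rfl
  have a1 : pa a 1 = a := rfl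
  have a2 : pa a 2 = 1 + a := rfl
  rw [Fin.sum_univ_three, s0, s1, s2, b0, b1, b2, a0, a1, a2]
  rcases ha with rfl | rfl
  · have h2 : (if Gd5 x y 1 0 S ∧ Gd5 x y 0 1 S then (1 : ℝ) else 0) =
        ((if Gd5 x y 1 0 S then 1 else 0) + (if Gd5 x y 0 1 S then 1 else 0) -
          (if Gd5 x y 1 1 S then 1 else 0)) / 2 := ind2 h
    rw [h2, add_zero]
    ring
  · have h2 : (if Gd5 x y 1 0 S ∧ Gd5 x y 1 1 S then (1 : ℝ) else 0) =
        ((if Gd5 x y 1 0 S then 1 else 0) + (if Gd5 x y 1 1 S then 1 else 0) -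
          (if Gd5 x y 0 1 S then 1 else 0)) / 2 := ind h
    have e : (1 + 1 : ZMod 2) = 0 := by decide
    rw [h2, e]
    ring

theorem prod_ind {I : Type} [Fintype I] (Q : I → Prop) [∀ i, Decidable (Q i)]
    [Decidable (∀ i, Q i)] : (∏ i, if Q i then (1 : ℝ) else 0) = if ∀ i, Q i then 1 else 0 := by
  by_cases h : ∀ i, Q i
  · rw [if_pos h]
    exact prod_eq_one fun i _ => if_pos (h i)
  · rw [if_neg h]
    push Not at h
    obtain ⟨i, hi⟩ := h
    exact prod_eq_zero (mem_univ i) (if_neg hi)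

end ASYJ

open ASYJ Pool.Agent.R426.QK.Asy
open Pool.Agent.Y703.CX (jj XX eL zz kk eL_tendsto logX_eq rpow_eL HH NN ev_eL one_le_exp
  HH_ge HH_le HH_pos kk_ge kk_le X_pos one_add_log lin_le zz_ge zz_pos)

theorem t_ASYJ5 : S_ASYJ5 := by
  intro hR h1 h3 h4 h5 hK hC hB _ hLo hc2 I hI F hFx x y a b hab
  obtain ⟨C, hC1, hkey⟩ := hK hR h1 h3 h5
  obtain ⟨D, hD⟩ := hC
  have hZq : ∀ u ∈ ZZ F, Pq u := by
    intro u hu
    unfold ZZ at hu
    obtain ⟨i, -, hi⟩ := mem_biUnion.1 hu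
    exact (hFx.cl i).1 u hi
  obtain ⟨c, X₀, hc, hlow⟩ := hLo (ZZ F) hZq x y
  have hg0 : (0 : ℝ) ≤ c2 ^ Fintype.card I := pow_nonneg hc2.2.1.le _
  have hg1 : (c2 : ℝ) ^ Fintype.card I ≤ 1 := pow_le_one₀ hc2.2.1.le hc2.2.2.1.le
  have hD1 := hD.one
  have hD0 : (0 : ℝ) < D := by linarith
  rw [Metric.tendsto_nhds]
  intro ε hε
  obtain ⟨η, hη⟩ : ∃ η : ℝ, η = ε * c / (6 * D) := ⟨_, rfl⟩
  have hη0 : 0 < η := by rw [hη]; positivity
  have hηD : η * D = ε * c / 6 := by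
    rw [hη]
    field_simp
  obtain ⟨K, V, hV⟩ := h4 I η hη0
  have s1 := sml_many hD
  have s2 := sml_cut hD
  have s3 := sml_coll hD
  have s4 := sml_eps (hB I F hFx x y K V)
  have s6 := sml_main hC1
  have s := sml_add (sml_add (sml_add (sml_add s1 s2) s3) s4) s6
  have hδ : (0 : ℝ) < c * ε / 4 := by positivity
  filter_upwards [s (c * ε / 4) hδ, ev_eL 1, ev_Z (ZZ F), eventually_ge_atTop X₀] with
    X hX hl hZ hX0
  rw [neg_zero, zero_mul, Real.exp_zero, mul_one] at hX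
  have hl0 : 0 < eL X := by linarith
  have hlo := hlow X hX0
  have hXp := X_pos hl0
  have hXp' : (0 : ℝ) < X := by exact_mod_cast hXp
  have hSpos : (0 : ℝ) < ((SSJ5 (ZZ F) x y X).card : ℝ) := by
    refine lt_of_lt_of_le ?_ hlo
    positivity
  have hN : (HH X : ℝ) * Real.log X < NN X := by
    unfold NN
    push_cast
    exact Nat.lt_floor_add_one _
  have hmain := hkey I F hFx η K V hη0 hV x y a b hab X (zz X) (HH X) (kk X) (NN X) (kap C X) hXp
    (HH_pos hl0) (zz_pos hl) (kap_nonneg hC1 X) (kap_pow hC1 hl) hN hZ.1 hZ.2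
  obtain ⟨T, hT⟩ : ∃ T, T = (RgJ (ZZ F) X (zz X) (HH X) (kk X)).filter
    fun S => NdJ5 F K V x y (sm (zz X) S) (la (zz X) S) := ⟨_, rfl⟩
  have hTG : (RgJ (ZZ F) X (zz X) (HH X) (kk X)).filter
      (fun S => NdJ5 F K V x y (sm (zz X) S) (la (zz X) S) ∧ GdJ5 F x y a b S) =
        T.filter (GdJ5 F x y a b) := by
    rw [hT, filter_filter]
  rw [hTG, ← hT] at hmain
  have hTS : T ⊆ SSJ5 (ZZ F) x y X := by
    rw [hT]
    exact subJ F x y K V X (zz X) (HH X) (kk X)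
  have hRS : ((RgJ (ZZ F) X (zz X) (HH X) (kk X)).card : ℝ) ≤ ((SS X).card : ℝ) := by
    exact_mod_cast card_le_card ((filter_subset _ _).trans (filter_subset _ _))
  have hall := hD.all X hXp
  have hcmp := cmp (GdJ5 F x y a b) T (SSJ5 (ZZ F) x y X) hTS (c2 ^ Fintype.card I) hg0 hg1
  have hout : ((SSJ5 (ZZ F) x y X \ T).card : ℝ) ≤
      ((((SS X).filter fun S => kk X < S.card).card : ℝ) +
      (((SS X).filter fun S => S.card ≤ kk X ∧
        X < (∏ π ∈ sm (zz X) S, nrm π) * ∏ π ∈ la (zz X) S, XX (HH X) (bl (HH X) π)).card : ℝ) +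
      (((SS X).filter fun S => ¬ Set.InjOn (bl (HH X)) (la (zz X) S : Set RR)).card : ℝ)) +
      (((SSJ (ZZ F) X).filter fun S => S.card ≤ kk X ∧
        ¬ NdC F K V x y (sm (zz X) S) (la (zz X) S)).card : ℝ) := by
    have g := card_le_card (out_subJ F x y K V X (zz X) (HH X) (kk X))
    rw [← hT] at g
    have g2 := (g.trans (card_union_le _ _)).trans (Nat.add_le_add_right ((card_union_le _ _).trans
      (Nat.add_le_add_right (card_union_le _ _) _)) _)
    exact_mod_cast g2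
  have g1 : η * ((RgJ (ZZ F) X (zz X) (HH X) (kk X)).card : ℝ) ≤ ε * c / 6 * X := by
    calc η * ((RgJ (ZZ F) X (zz X) (HH X) (kk X)).card : ℝ) ≤ η * (D * X) :=
          mul_le_mul_of_nonneg_left (hRS.trans hall) hη0.le
      _ = ε * c / 6 * X := by rw [← mul_assoc, hηD]
  have htot : |(((SSJ5 (ZZ F) x y X).filter (GdJ5 F x y a b)).card : ℝ) -
      c2 ^ Fintype.card I * ((SSJ5 (ZZ F) x y X).card : ℝ)| ≤ ε * c / 6 * X + c * ε / 4 * X := by
    linarith
  rw [Real.dist_eq]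
  have e3 : (((SSJ5 (ZZ F) x y X).filter (GdJ5 F x y a b)).card : ℝ) /
      ((SSJ5 (ZZ F) x y X).card : ℝ) - c2 ^ Fintype.card I =
      ((((SSJ5 (ZZ F) x y X).filter (GdJ5 F x y a b)).card : ℝ) -
      c2 ^ Fintype.card I * ((SSJ5 (ZZ F) x y X).card : ℝ)) /
        ((SSJ5 (ZZ F) x y X).card : ℝ) := by
    rw [sub_div, mul_div_cancel_right₀ _ hSpos.ne']
  rw [e3, abs_div, abs_of_pos hSpos, div_lt_iff₀ hSpos]
  refine lt_of_le_of_lt htot ?_
  have g2 : ε * c / 6 * X + c * ε / 4 * X ≤ 5 * ε / 12 * ((SSJ5 (ZZ F) x y X).card : ℝ) := by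
    calc ε * c / 6 * X + c * ε / 4 * X = 5 * ε / 12 * (c * X) := by ring
      _ ≤ _ := mul_le_mul_of_nonneg_left hlo (by positivity)
  have g4 : 0 < ε * ((SSJ5 (ZZ F) x y X).card : ℝ) := by positivity
  linarith

theorem t_TWOJ5 : S_TWOJ5 := by
  intro _ hP hQ I hI F hFx x y a
  have key : ∀ X : ℕ, (((SSJ5 (ZZ F) x y X).filter fun S =>
      ∀ i, Gd5 (x + xc (F i)) (y + yc (F i)) 1 0 (S ∪ F i) ∧
        Gd5 (x + xc (F i)) (y + yc (F i)) (a i) 1 (S ∪ F i)).card : ℝ) =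
      ∑ s : I → Fin 3, (∏ i, sg (s i) / 2) * (((SSJ5 (ZZ F) x y X).filter
        (GdJ5 F x y (fun i => pa (a i) (s i)) (fun i => pb (s i)))).card : ℝ) := by
    intro X
    rw [card_filter]
    push_cast
    have e1 : ∀ S : Finset RR, (if ∀ i, Gd5 (x + xc (F i)) (y + yc (F i)) 1 0 (S ∪ F i) ∧
        Gd5 (x + xc (F i)) (y + yc (F i)) (a i) 1 (S ∪ F i) then (1 : ℝ) else 0) =
        ∑ s : I → Fin 3, (∏ i, sg (s i) / 2) *
          (if GdJ5 F x y (fun i => pa (a i) (s i)) (fun i => pb (s i)) S then 1 else 0) := by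
      intro S
      rw [← prod_ind, prod_congr rfl fun i _ =>
        three hP (x + xc (F i)) (y + yc (F i)) (a i) (S ∪ F i), prod_univ_sum,
        Fintype.piFinset_univ]
      refine sum_congr rfl fun s _ => ?_
      rw [prod_mul_distrib, prod_ind]
      exact congrArg (fun r : ℝ => (∏ i, sg (s i) / 2) * r) (if_congr Iff.rfl rfl rfl)
    rw [sum_congr rfl fun S _ => e1 S, sum_comm]
    refine sum_congr rfl fun s _ => ?_
    rw [← mul_sum, card_filter]
    push_cast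
    rfl
  have hlim : ∀ s : I → Fin 3, Tendsto (fun X : ℕ => (((SSJ5 (ZZ F) x y X).filter
        (GdJ5 F x y (fun i => pa (a i) (s i)) (fun i => pb (s i)))).card : ℝ) /
          ((SSJ5 (ZZ F) x y X).card : ℝ)) atTop (nhds (c2 ^ Fintype.card I)) :=
    fun s => hQ I F hFx x y _ _ fun i => pab (a i) (s i)
  have hsum := tendsto_finsetSum (univ : Finset (I → Fin 3))
    (fun s _ => (hlim s).const_mul (∏ i, sg (s i) / 2))
  have e2 : ∑ s : I → Fin 3, (∏ i, sg (s i) / 2) * c2 ^ Fintype.card I =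
      (c2 / 2) ^ Fintype.card I := by
    have e3 : ∑ s : I → Fin 3, ∏ i, sg (s i) / 2 = (1 / 2 : ℝ) ^ Fintype.card I := by
      have e4 : ∏ _i : I, ∑ k : Fin 3, sg k / 2 = ∑ s : I → Fin 3, ∏ i, sg (s i) / 2 := by
        rw [prod_univ_sum, Fintype.piFinset_univ]
      have e5 : ∑ k : Fin 3, sg k / 2 = 1 / 2 := by
        have s0 : sg 0 = 1 := rfl
        have s1 : sg 1 = 1 := rfl
        have s2 : sg 2 = -1 := rfl
        rw [Fin.sum_univ_three, s0, s1, s2]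
        norm_num
      rw [← e4, e5, prod_const, card_univ]
    rw [← sum_mul, e3, ← mul_pow]
    congr 1
    ring
  rw [e2] at hsum
  refine hsum.congr fun X => ?_
  rw [key X, sum_div]
  exact sum_congr rfl fun s _ => (mul_div_assoc _ _ _).symm

end Pool.Agent.NH57.BP
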