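import Pool.Agent.NH57.BL.Gal
import Pool.Agent.NH57.BK.Alg

/-!
# BL-6: the elements that satisfy the local conditions
-/

set_option autoImplicit false
set_option linter.unusedSectionVars false

namespace Pool.Agent.NH57.BG

open Pool.Agent.R384
open Pool.Agent.NH57.BK
open Pool.Agent.NH57.BK.AlgP
open QuadraticAlgebra
open scoped Classical

namespace A8

/-! ### Linear algebra -/

/-- transposed systems -/
lemma transp8 (S : Finset OO) (M : OO → OO → ZMod 2)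
    (h : ∀ v : OO → ZMod 2, (∀ π ∈ S, ∑ ρ ∈ S, M π ρ * v ρ = 0) → ∀ π ∈ S, v π = 0)
    (x : OO → ZMod 2) (hx : ∀ π ∈ S, ∑ ρ ∈ S, M ρ π * x ρ = 0) : ∀ π ∈ S, x π = 0 := by
  let A : Matrix S S (ZMod 2) := fun π ρ => M π ρ
  have hdet : A.det ≠ 0 := by
    intro h0
    obtain ⟨v, hv, hv0⟩ := Matrix.exists_mulVec_eq_zero_iff.2 h0
    apply hv
    let V : OO → ZMod 2 := fun ρ => if hρ : ρ ∈ S then v ⟨ρ, hρ⟩ else 0
    have hV : ∀ ρ : S, V ρ = v ρ := fun ρ => by simp [V]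
    have h1 := h V (by
      intro π hπ
      have h2 := congrFun hv0 ⟨π, hπ⟩
      rw [Pi.zero_apply, Matrix.mulVec, dotProduct] at h2
      rw [← h2, ← Finset.sum_coe_sort S (fun ρ => M π ρ * V ρ)]
      refine Finset.sum_congr rfl fun ρ _ => ?_
      rw [hV])
    ext ρ
    rw [← hV ρ, h1 ρ ρ.2]
    rfl
  intro π hπ
  by_contra hne
  apply hdet
  rw [← Matrix.det_transpose]
  refine Matrix.exists_mulVec_eq_zero_iff.1 ⟨fun ρ => x ρ, fun h0 => hne (congrFun h0 ⟨π, hπ⟩), ?_⟩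
  ext ρ
  rw [Pi.zero_apply, Matrix.mulVec, dotProduct]
  have h2 := hx ρ ρ.2
  rw [← Finset.sum_coe_sort S (fun ρ' => M ρ' ρ * x ρ')] at h2
  exact h2

/-- the matrix `M + g d^T` -/
noncomputable def MM (S : Finset OO) (π ρ : OO) : ZMod 2 :=
  (if π = ρ then qs s7 π + ∑ τ ∈ S, qs τ π else 0) + qs ρ π + qs π (-(1 - om)) * qs ρ (-om)

lemma MM_row {S : Finset OO} {π : OO} (hπ : π ∈ S) (v : OO → ZMod 2) :
    ∑ ρ ∈ S, MM S π ρ * v ρ = qs s7 π * v π + ∑ ρ ∈ S, qs ρ π * (v π + v ρ) +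
      qs π (-(1 - om)) * ∑ ρ ∈ S, qs ρ (-om) * v ρ := by
  have h1 : ∀ ρ ∈ S, MM S π ρ * v ρ = (if π = ρ then (qs s7 π + ∑ τ ∈ S, qs τ π) * v ρ else 0) +
      qs ρ π * v ρ + qs π (-(1 - om)) * (qs ρ (-om) * v ρ) := by
    intro ρ _
    unfold MM
    split_ifs <;> ring
  rw [Finset.sum_congr rfl h1, Finset.sum_add_distrib, Finset.sum_add_distrib, Finset.sum_ite_eq,
    if_pos hπ, ← Finset.mul_sum]
  simp only [mul_add, Finset.sum_add_distrib, ← Finset.sum_mul]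
  ring

lemma MM_col {S : Finset OO} {π : OO} (hπ : π ∈ S) (x : OO → ZMod 2) :
    ∑ ρ ∈ S, MM S ρ π * x ρ = (qs s7 π + ∑ τ ∈ S, qs τ π) * x π + ∑ ρ ∈ S, qs π ρ * x ρ +
      qs π (-om) * ∑ ρ ∈ S, qs ρ (-(1 - om)) * x ρ := by
  have h1 : ∀ ρ ∈ S, MM S ρ π * x ρ = (if ρ = π then (qs s7 ρ + ∑ τ ∈ S, qs τ ρ) * x ρ else 0) +
      qs π ρ * x ρ + qs π (-om) * (qs ρ (-(1 - om)) * x ρ) := by
    intro ρ _
    unfold MM
    split_ifs <;> ring
  rw [Finset.sum_congr rfl h1, Finset.sum_add_distrib, Finset.sum_add_distrib, Finset.sum_ite_eq',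
    if_pos hπ, ← Finset.mul_sum]

lemma regT {S : Finset OO} (hG : GoodT S) (x : OO → ZMod 2)
    (hx : ∀ π ∈ S, (qs s7 π + ∑ τ ∈ S, qs τ π) * x π + ∑ ρ ∈ S, qs π ρ * x ρ +
      qs π (-om) * ∑ ρ ∈ S, qs ρ (-(1 - om)) * x ρ = 0) : ∀ π ∈ S, x π = 0 := by
  apply transp8 S (MM S)
  · intro v hv
    apply hG.reg
    intro π hπ
    rw [← MM_row hπ]
    exact hv π hπ
  · intro π hπ
    rw [MM_col hπ]
    exact hx π hπ

lemma sum_ind {S T : Finset OO} (hTS : T ⊆ S) (c x : OO → ZMod 2)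
    (hx : ∀ ρ, x ρ = if ρ ∈ T then 1 else 0) : ∑ ρ ∈ S, c ρ * x ρ = ∑ ρ ∈ T, c ρ := by
  rw [← Finset.sum_subset hTS]
  · refine Finset.sum_congr rfl fun ρ hρ => ?_
    rw [hx, if_pos hρ, mul_one]
  · intro ρ _ hρ
    rw [hx, if_neg hρ, mul_zero]

/-! ### The classes modulo eight -/

/-- the class modulo `± 1` of a unit of `ℤ/8` -/
def cl (z : ZMod 8) : ZMod 2 := if z = 1 ∨ z = 7 then 0 else 1

lemma cl_mul : ∀ a b : ZMod 8, a * a = 1 → b * b = 1 → cl (a * b) = cl a + cl b := by decide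

lemma sq_mul {a b : ZMod 8} (ha : a * a = 1) (hb : b * b = 1) : a * b * (a * b) = 1 := by
  linear_combination a ^ 2 * hb + ha

lemma cl_prod {w8 : ZMod 8} (hw8 : w8 ^ 2 = w8 - 2) {T : Finset OO}
    (hT : ∀ ρ ∈ T, em hw8 ρ * em hw8 ρ = 1) :
    em hw8 (∏ ρ ∈ T, ρ) * em hw8 (∏ ρ ∈ T, ρ) = 1 ∧
      cl (em hw8 (∏ ρ ∈ T, ρ)) = ∑ ρ ∈ T, cl (em hw8 ρ) := by
  induction T using Finset.induction_on with
  | empty => rw [Finset.prod_empty, Finset.sum_empty, map_one]; exact ⟨by decide, by decide⟩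
  | insert i S hi ih =>
    obtain ⟨h1, h2⟩ := ih fun ρ hρ => hT ρ (Finset.mem_insert_of_mem hρ)
    have h3 := hT i (Finset.mem_insert_self _ _)
    rw [Finset.prod_insert hi, Finset.sum_insert hi, map_mul]
    exact ⟨sq_mul h3 h1, by rw [cl_mul _ _ h3 h1, h2]⟩

/-- the supplementary laws -/
lemma sup (hs : S_SUPO) {ϖ' : OO} {w8 : ZMod 8} (hw8 : w8 ^ 2 = w8 - 2)
    (hc : (ϖ' = 1 - om ∧ w8 = 3) ∨ (ϖ' = om ∧ w8 = 6)) {q : OO} (hq : Pp q) :
    em hw8 q * em hw8 q = 1 ∧ cl (em hw8 q) = qs q (-ϖ') := by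
  rcases hc with ⟨rfl, rfl⟩ | ⟨rfl, rfl⟩
  · have he : em hw8 q = em e3 q := rfl
    rw [he]
    rcases (hs q hq).2 with ⟨h | h, h'⟩ | ⟨h | h, h'⟩ <;> rw [h', h] <;>
      exact ⟨by decide, by decide⟩
  · have he : em hw8 q = em e6 q := rfl
    rw [he]
    rcases (hs q hq).1 with ⟨h, h'⟩ | ⟨h, h'⟩ <;> rw [h', h] <;>
      exact ⟨by decide, by decide⟩

/-- the linear algebra -/
lemma lin8 (hrec : S_REC) {S : Finset OO} (hG : GoodT S) {T : Finset OO} (hTS : T ⊆ S)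
    {u v ϖ ϖ' : OO} {a : ZMod 2} {w4 : ZMod 4} (hw4 : w4 ^ 2 = w4 - 2) (hu : u = 1 ∨ u = -1)
    (hv : (v = -1 ∧ ϖ = om ∧ ϖ' = 1 - om ∧ w4 = 2) ∨ (v = 1 ∧ ϖ = 1 - om ∧ ϖ' = om ∧ w4 = 3))
    (ha : ∀ q ∈ S, q ∉ T → qs q u + a * qs q (-ϖ) + ∑ ρ ∈ T, qs q ρ = 0)
    (hb : ∀ q ∈ T, qs q (u * v) + a * qs q (-ϖ) + qs q s7 + ∑ ρ ∈ S \ T, qs q ρ = 0)
    (hc : em hw4 (u * ∏ ρ ∈ T, ρ) = 1) (hd : a = ∑ ρ ∈ T, qs ρ (-ϖ')) : T = ∅ ∧ u = 1 := by
  have hS := hG.gs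
  obtain ⟨e, he1, he2, he3⟩ := eps_of hrec hu
  have hTp : ∀ ρ ∈ T, Pp ρ := fun ρ hρ => hS.pp ρ (hTS hρ)
  have h5 : ∀ y : ZMod 2, y + y = 0 := by decide
  set x : OO → ZMod 2 := fun ρ => if ρ ∈ T then 1 else 0 with hxdef
  have hx : ∀ ρ, x ρ = if ρ ∈ T then 1 else 0 := fun ρ => rfl
  rw [map_mul, he2] at hc
  rcases hv with ⟨rfl, rfl, rfl, rfl⟩ | ⟨rfl, rfl, rfl, rfl⟩
  · rw [em2_prod hTp, mul_one] at hc
    have he0 := sg_one _ hc
    have hu1 := he3 he0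
    refine ⟨?_, hu1⟩
    subst hu1
    apply empty_of hx hTS
    apply regT hG
    intro q hq
    have hpq := hS.pp q hq
    have h1 := comb hTS (fun ρ => qs q ρ) (tO q + qs q s7) (a * qs q (-om)) q x hx
      (fun h => by
        have := ha q hq h
        rw [qs_one, zero_add] at this
        exact this)
      (fun h => by
        have := hb q h
        rw [one_mul, (hrec.2 q hpq).2] at this
        rw [← this]
        ring)
    have h2 : ∑ ρ ∈ S, qs ρ q = ∑ ρ ∈ S, qs q ρ + tO q := by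
      rw [Finset.sum_congr rfl fun ρ hρ => rec_all hrec hS hq hρ, Finset.sum_add_distrib,
        Finset.sum_add_distrib, ← Finset.mul_sum, sum_t hS, mul_zero, add_zero,
        Finset.sum_ite_eq', if_pos hq]
    rw [sum_ind hTS (fun ρ => qs ρ (-(1 - om))) x hx, ← hd, h2, ← (hrec.2 q hpq).1]
    simp only [mul_add, Finset.sum_add_distrib, ← Finset.sum_mul] at h1
    linear_combination h1
  · rw [em3_prod hTp, ← sg_add] at hc
    have he0 := sg_one _ hc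
    have hT : T = ∅ := by
      apply empty_of hx hTS
      apply hG.reg
      intro q hq
      have hpq := hS.pp q hq
      have h1 := comb hTS (fun ρ => qs q ρ) (qs q s7) (qs q u + a * qs q (-(1 - om))) q x hx
        (fun h => ha q hq h)
        (fun h => by
          have := hb q h
          rw [mul_one] at this
          exact this)
      have h3 : ∑ ρ ∈ S, tO ρ * x ρ = e := by
        rw [sum_ind hTS tO x hx]
        linear_combination he0 - h5 e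
      have h2 : ∑ ρ ∈ S, qs ρ q * (x q + x ρ) =
          ∑ ρ ∈ S, qs q ρ * (x ρ + x q) + tO q * e := by
        have h6 : ∑ ρ ∈ S, qs ρ q * (x q + x ρ) = ∑ ρ ∈ S, (qs q ρ * (x ρ + x q) +
            (tO q * x q * tO ρ + tO q * (tO ρ * x ρ)) + (if ρ = q then tO q * (x q + x q) else 0)) := by
          refine Finset.sum_congr rfl fun ρ hρ => ?_
          rw [rec_all hrec hS hq hρ]
          by_cases h : ρ = q
          · rw [if_pos h, if_pos h, h]; ring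
          · rw [if_neg h, if_neg h]; ring
        rw [h6, Finset.sum_add_distrib, Finset.sum_add_distrib, Finset.sum_add_distrib,
          ← Finset.mul_sum, ← Finset.mul_sum, h3, sum_t hS, mul_zero, zero_add,
          Finset.sum_ite_eq', if_pos hq, h5, mul_zero, add_zero]
      rw [h2, sum_ind hTS (fun ρ => qs ρ (-om)) x hx, ← hd, ← (hrec.2 q hpq).1]
      rw [he1 q hpq] at h1
      linear_combination h1
    refine ⟨hT, he3 ?_⟩
    rw [hT, Finset.sum_empty, add_zero] at he0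
    exact he0

end A8

open A8

theorem t_ALG8 : S_ALG8 := by
  intro hrec hsupo S hG m ϖ ϖ' δ w4 hw4 w8 hw8 hcase hδ hem8 hem4 hsup hloc
  have hS := hG.gs
  have hc8 : (ϖ' = 1 - om ∧ w8 = 3) ∨ (ϖ' = om ∧ w8 = 6) := by
    rcases hcase with ⟨-, -, h2, -, h5⟩ | ⟨-, -, h2, -, h5⟩
    · exact Or.inl ⟨h2, h5⟩
    · exact Or.inr ⟨h2, h5⟩
  obtain ⟨v, hvc, hmv⟩ : ∃ v : OO, ((v = -1 ∧ ϖ = om ∧ ϖ' = 1 - om ∧ w4 = 2) ∨
      (v = 1 ∧ ϖ = 1 - om ∧ ϖ' = om ∧ w4 = 3)) ∧ m = v * (s7 * ∏ q ∈ S, q) := by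
    rcases hcase with ⟨h, h1, h2, h4, -⟩ | ⟨h, h1, h2, h4, -⟩
    · exact ⟨-1, Or.inl ⟨rfl, h1, h2, h4⟩, by rw [h]; ring⟩
    · exact ⟨1, Or.inr ⟨rfl, h1, h2, h4⟩, by rw [h]; ring⟩
  have hvu : v = 1 ∨ v = -1 := by
    rcases hvc with ⟨h, -⟩ | ⟨h, -⟩
    · exact Or.inr h
    · exact Or.inl h
  -- the two places
  have hϖ4 : em hw4 ϖ = 2 := by
    rcases hvc with ⟨-, h1, -, rfl⟩ | ⟨-, h1, -, rfl⟩
    · rw [h1, em_apply]; simp only [om]; decide
    · rw [h1, map_sub, map_one, em_apply]; simp only [om]; decide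
  have hϖ8 : em hw8 ϖ' = 6 ∧ em hw8 (-ϖ) = 5 ∧ em hw8 s7 * em hw8 s7 = 1 ∧
      cl (em hw8 s7) = 1 := by
    rcases hcase with ⟨-, h1, h2, -, rfl⟩ | ⟨-, h1, h2, -, rfl⟩
    · rw [h1, h2, map_sub, map_neg, map_one, em_apply, em_apply]; simp only [om, s7]; decide
    · rw [h1, h2, map_neg, map_sub, map_one, em_apply, em_apply]; simp only [om, s7]; decide
  have hϖϖ : ϖ * ϖ' = 2 := by
    rcases hvc with ⟨-, h1, h2, -⟩ | ⟨-, h1, h2, -⟩
    · rw [h1, h2, om_mul]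
    · rw [h1, h2, mul_comm, om_mul]
  obtain ⟨a, δ0, ha, hδa, h40⟩ : ∃ (a : ℕ) (δ0 : OO), (a = 0 ∨ a = 1) ∧ δ = (-ϖ) ^ a * δ0 ∧
      em hw4 δ0 = 1 := by
    rcases hem4 with h | ⟨δ', h, h'⟩
    · exact ⟨0, δ, Or.inl rfl, by rw [pow_zero, one_mul], h⟩
    · exact ⟨1, δ', Or.inr rfl, by rw [pow_one]; exact h, h'⟩
  have hδ0d : δ0 ∣ δ := by rw [hδa]; exact Dvd.intro_left _ rfl
  have hδ0 : Squarefree δ0 := hδ.squarefree_of_dvd hδ0d
  have hϖ : ¬ ϖ ∣ δ0 := by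
    rintro ⟨t, ht⟩
    have h := h40
    rw [ht, map_mul, hϖ4] at h
    have h' : ∀ y : ZMod 4, 2 * y ≠ 1 := by decide
    exact h' _ h
  have hϖ' : ¬ ϖ' ∣ δ0 := by
    rintro h0
    obtain ⟨t, ht⟩ := h0.trans hδ0d
    have h := hem8
    rw [ht, map_mul, hϖ8.1] at h
    have h' : ∀ y : ZMod 8, ¬ (6 * y = 1 ∨ 6 * y = 7) := by decide
    exact h' _ h
  have hom : ¬ om ∣ δ0 ∧ ¬ (1 - om) ∣ δ0 := by
    rcases hvc with ⟨-, h1, h2, -⟩ | ⟨-, h1, h2, -⟩
    · rw [h1] at hϖ; rw [h2] at hϖ'; exact ⟨hϖ, hϖ'⟩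
    · rw [h1] at hϖ; rw [h2] at hϖ'; exact ⟨hϖ', hϖ⟩
  have h2δ : ∀ π : OO, Prime π → π ∣ δ0 → ¬ π ∣ 2 := by
    intro π hπ hd h2
    have e : (2 : OO) = om * (1 - om) := om_mul.symm
    rw [e] at h2
    rcases hπ.dvd_or_dvd h2 with h1 | h1
    · exact hom.1 (((hπ.dvd_prime_iff_associated prime_om).1 h1).symm.dvd.trans hd)
    · exact hom.2 (((hπ.dvd_prime_iff_associated prime_om').1 h1).symm.dvd.trans hd)
  have hs70 : s7 ≠ 0 := prime_s7.ne_zero
  -- the part prime to `√-7`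
  obtain ⟨f, δ', hf, hδf, hδ7⟩ :
      ∃ (f : ℕ) (δ' : OO), (f = 0 ∨ f = 1) ∧ δ0 = s7 ^ f * δ' ∧ ¬ s7 ∣ δ' := by
    by_cases h : s7 ∣ δ0
    · obtain ⟨δ', h'⟩ := h
      refine ⟨1, δ', Or.inr rfl, by rw [h', pow_one], ?_⟩
      rintro ⟨t, ht⟩
      apply prime_s7.not_isUnit
      apply hδ0 s7
      rw [h', ht]
      exact ⟨t, by ring⟩
    · exact ⟨0, δ0, Or.inl rfl, by rw [pow_zero, one_mul], h⟩
  have hδd : δ' ∣ δ0 := by rw [hδf]; exact Dvd.intro_left _ rfl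
  have hδ' : Squarefree δ' := hδ0.squarefree_of_dvd hδd
  set T : Finset OO := S.filter fun q => q ∣ δ' with hT
  have hTS : T ⊆ S := Finset.filter_subset _ _
  have hmem : ∀ q, q ∈ T ↔ q ∈ S ∧ q ∣ δ' := fun q => by simp [hT]
  have hTp : ∀ ρ ∈ T, Pp ρ := fun ρ hρ => hS.pp ρ (hTS hρ)
  obtain ⟨u, hu, hδe⟩ : ∃ u : OO, (u = 1 ∨ u = -1) ∧ δ' = u * ∏ q ∈ T, q := by
    have hP : ∏ q ∈ T, q ∣ δ' := by
      apply Finset.prod_dvd_of_coprime
      · intro i hi k hk hik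
        exact ((hTp i hi).prime.irreducible.coprime_iff_not_dvd).2 (AlgP.nd (hTp i hi) (hTp k hk) hik)
      · intro i hi
        exact ((hmem i).1 hi).2
    obtain ⟨δ2, h2⟩ := hP
    have hδ20 : δ2 ≠ 0 := by
      rintro rfl
      rw [mul_zero] at h2
      exact hδ'.ne_zero h2
    have hno : ∀ q ∈ S, ¬ q ∣ δ2 := by
      rintro i hi ⟨t, ht⟩
      have hiT : i ∈ T := (hmem i).2 ⟨hi, by rw [h2, ht]; exact ⟨(∏ q ∈ T, q) * t, by ring⟩⟩
      obtain ⟨v, hv⟩ := Finset.dvd_prod_of_mem (fun q : OO => q) hiT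
      apply (hS.pp i hi).prime.not_isUnit
      apply hδ' i
      rw [h2, ht, hv]
      exact ⟨v * t, by ring⟩
    have hunit : IsUnit δ2 := by
      by_contra hcon
      obtain ⟨π, hπ, hπy⟩ := WfDvdMonoid.exists_irreducible_factor hcon hδ20
      have hπp := hπ.prime
      have hπδ' : π ∣ δ' := hπy.trans (by rw [h2]; exact Dvd.intro_left _ rfl)
      have hπδ : π ∣ δ0 := hπδ'.trans hδd
      have hπm := hsup π hπp (hπδ.trans hδ0d) (h2δ π hπp hπδ)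
      rw [hmv] at hπm
      rcases hπp.dvd_or_dvd hπm with h3 | h3
      · apply hπp.not_isUnit
        rcases hvu with rfl | rfl
        · exact isUnit_of_dvd_one h3
        · exact isUnit_of_dvd_one ((dvd_neg).1 h3)
      · rcases hπp.dvd_or_dvd h3 with h4 | h4
        · exact hδ7 (((hπp.dvd_prime_iff_associated prime_s7).1 h4).symm.dvd.trans hπδ')
        · obtain ⟨q, hq, h5⟩ := (hπp.dvd_finsetProd_iff _).1 h4
          exact hno q hq
            ((((hπp.dvd_prime_iff_associated (hS.pp q hq).prime).1 h5).symm.dvd.trans hπy))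
    exact ⟨δ2, unit_cases hunit, by rw [h2]; ring⟩
  have hsa : ∀ q, Pp q → ¬ q ∣ (-ϖ) ^ a ∧ qs q ((-ϖ) ^ a) = a * qs q (-ϖ) := by
    intro q hq
    rcases ha with rfl | rfl
    · refine ⟨fun h => hq.prime.not_isUnit (isUnit_of_dvd_one (by simpa using h)), ?_⟩
      rw [pow_zero, qs_one]; simp
    · rw [pow_one]
      refine ⟨fun h => AlgP.not_two hq ?_, by simp⟩
      rw [← hϖϖ]
      exact Dvd.dvd.mul_right ((dvd_neg).1 h) _
  have hTdvd : ∀ q ∈ S, (q ∈ T ↔ q ∣ δ) := by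
    intro q hq
    rw [hmem, hδa, hδf]
    constructor
    · exact fun h => Dvd.dvd.mul_left (Dvd.dvd.mul_left h.2 _) _
    · intro h
      refine ⟨hq, ?_⟩
      rcases (hS.pp q hq).prime.dvd_or_dvd h with h1 | h1
      · exact absurd h1 (hsa q (hS.pp q hq)).1
      · rcases (hS.pp q hq).prime.dvd_or_dvd h1 with h1 | h1
        · exact absurd ((hS.pp q hq).prime.dvd_of_dvd_pow h1) (AlgP.not_s7 (hS.pp q hq))
        · exact h1
  have hsf : ∀ q, Pp q → ¬ q ∣ s7 ^ f ∧ qs q (s7 ^ f) = f * qs q s7 := by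
    intro q hq
    rcases hf with rfl | rfl
    · refine ⟨fun h => hq.prime.not_isUnit (isUnit_of_dvd_one (by simpa using h)), ?_⟩
      rw [pow_zero, qs_one]; simp
    · rw [pow_one]
      exact ⟨AlgP.not_s7 hq, by simp⟩
  have huv : u * v = 1 ∨ u * v = -1 := by
    rcases hu with rfl | rfl <;> rcases hvu with rfl | rfl <;> simp
  have hqm : ∀ q ∈ S, q ∣ m := by
    intro q hq
    rw [hmv]
    exact Dvd.dvd.mul_left (Dvd.dvd.mul_left (Finset.dvd_prod_of_mem (fun q : OO => q) hq) _) _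
  -- the conditions
  have c1 : ∀ q ∈ S, q ∉ T →
      qs q u + a * qs q (-ϖ) + f * qs q s7 + ∑ ρ ∈ T, qs q ρ = 0 := by
    intro q hq hqT
    have hp := hS.pp q hq
    have h2 := AlgP.not_two hp
    rcases hloc q hp.prime (hqm q hq) with ⟨-, h1⟩ | ⟨δ1, m1, h1, -⟩
    · have n1 := AlgP.nd_prod hTp hp hqT
      have n0 := AlgP.not_unit hp hu
      have n3 : ¬ q ∣ u * ∏ ρ ∈ T, ρ := fun h => (hp.prime.dvd_or_dvd h).elim n0 n1
      have n4 : ¬ q ∣ s7 ^ f * (u * ∏ ρ ∈ T, ρ) := fun h =>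
        (hp.prime.dvd_or_dvd h).elim (hsf q hp).1 n3
      rw [← qs_zero, hδa, hδf, hδe, AlgP.qs_mul hp.prime h2 (hsa q hp).1 n4,
        AlgP.qs_mul hp.prime h2 (hsf q hp).1 n3,
        AlgP.qs_mul hp.prime h2 n0 n1, (hsa q hp).2, (hsf q hp).2, AlgP.qs_prod hp.prime h2 T
          (fun ρ hρ => AlgP.nd hp (hTp ρ hρ) (fun h => hqT (h ▸ hρ)))] at h1
      rw [← h1]
      ring
    · exact absurd ((hTdvd q hq).2 ⟨δ1, h1⟩) hqT
  have c2 : ∀ q ∈ T, qs q (u * v) + a * qs q (-ϖ) + (f * qs q s7 + qs q s7) +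
      ∑ ρ ∈ S \ T, qs q ρ = 0 := by
    intro q hqT
    have hq := hTS hqT
    have hp := hS.pp q hq
    have h2' := AlgP.not_two hp
    rcases hloc q hp.prime (hqm q hq) with ⟨h1, -⟩ | ⟨δ1, m1, h1, h2, h3⟩
    · exact absurd ((hTdvd q hq).1 hqT) h1
    · have hq0 := hp.prime.ne_zero
      have e1 : δ1 = (-ϖ) ^ a * (s7 ^ f * (u * ∏ ρ ∈ T.erase q, ρ)) := by
        apply mul_left_cancel₀ hq0
        rw [← h1, hδa, hδf, hδe, ← Finset.mul_prod_erase T (fun q => q) hqT]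
        ring
      have e2 : m1 = v * (s7 * ((∏ ρ ∈ T.erase q, ρ) * ∏ ρ ∈ S \ T, ρ)) := by
        apply mul_left_cancel₀ hq0
        rw [← h2, hmv, ← Finset.prod_sdiff hTS, ← Finset.mul_prod_erase T (fun q => q) hqT]
        ring
      have e3 : δ1 * m1 = ((-ϖ) ^ a * (s7 ^ f * (s7 * (u * v * ∏ ρ ∈ S \ T, ρ)))) *
          (∏ ρ ∈ T.erase q, ρ) ^ 2 := by
        rw [e1, e2]
        ring
      have hqT' : q ∉ S \ T := fun h => (Finset.mem_sdiff.1 h).2 hqT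
      have hSTp : ∀ ρ ∈ S \ T, Pp ρ := fun ρ hρ => hS.pp ρ (Finset.mem_sdiff.1 hρ).1
      have n1 := AlgP.nd_prod hSTp hp hqT'
      have n2 := AlgP.not_unit hp huv
      have n3 : ¬ q ∣ u * v * ∏ ρ ∈ S \ T, ρ := fun h => (hp.prime.dvd_or_dvd h).elim n2 n1
      have n4 : ¬ q ∣ s7 * (u * v * ∏ ρ ∈ S \ T, ρ) := fun h =>
        (hp.prime.dvd_or_dvd h).elim (AlgP.not_s7 hp) n3
      have n5 : ¬ q ∣ s7 ^ f * (s7 * (u * v * ∏ ρ ∈ S \ T, ρ)) := fun h =>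
        (hp.prime.dvd_or_dvd h).elim (hsf q hp).1 n4
      have n7 : ¬ q ∣ (-ϖ) ^ a * (s7 ^ f * (s7 * (u * v * ∏ ρ ∈ S \ T, ρ))) := fun h =>
        (hp.prime.dvd_or_dvd h).elim (hsa q hp).1 n5
      have n6 : ¬ q ∣ ∏ ρ ∈ T.erase q, ρ :=
        AlgP.nd_prod (fun ρ hρ => hTp ρ (Finset.mem_of_mem_erase hρ)) hp (Finset.notMem_erase q T)
      rw [← qs_zero, e3, AlgP.qs_mul_sq hp.prime h2' n7 n6,
        AlgP.qs_mul hp.prime h2' (hsa q hp).1 n5,
        AlgP.qs_mul hp.prime h2' (hsf q hp).1 n4, AlgP.qs_mul hp.prime h2' (AlgP.not_s7 hp) n3,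
        AlgP.qs_mul hp.prime h2' n2 n1, (hsa q hp).2, (hsf q hp).2,
        AlgP.qs_prod hp.prime h2' (S \ T)
          (fun ρ hρ => AlgP.nd hp (hSTp ρ hρ) (fun h => hqT' (h ▸ hρ)))] at h3
      rw [← h3]
      ring
  -- the classes modulo eight
  have hcT : ∀ R : Finset OO, R ⊆ S → em hw8 (∏ ρ ∈ R, ρ) * em hw8 (∏ ρ ∈ R, ρ) = 1 ∧
      cl (em hw8 (∏ ρ ∈ R, ρ)) = ∑ ρ ∈ R, qs ρ (-ϖ') := by
    intro R hR
    obtain ⟨h1, h2⟩ := cl_prod hw8 (T := R) (fun ρ hρ => (sup hsupo hw8 hc8 (hS.pp ρ (hR hρ))).1)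
    refine ⟨h1, ?_⟩
    rw [h2]
    exact Finset.sum_congr rfl fun ρ hρ => (sup hsupo hw8 hc8 (hS.pp ρ (hR hρ))).2
  have hSum : ∑ ρ ∈ S, qs ρ (-ϖ') = 1 := by
    rw [← (hcT S (Finset.Subset.refl S)).2]
    obtain ⟨t, ht⟩ := hG.five
    have h1 := congrArg (em hw8) ht
    rw [map_sub, map_mul, map_ofNat, map_ofNat] at h1
    have h80 : (8 : ZMod 8) = 0 := by decide
    rw [h80, zero_mul] at h1
    rw [sub_eq_zero.1 h1]
    decide
  have hU : em hw8 u * em hw8 u = 1 ∧ cl (em hw8 u) = 0 := by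
    rcases hu with rfl | rfl
    · rw [map_one]; decide
    · rw [map_neg, map_one]; decide
  have hA : em hw8 ((-ϖ) ^ a) * em hw8 ((-ϖ) ^ a) = 1 ∧ cl (em hw8 ((-ϖ) ^ a)) = a := by
    rcases ha with rfl | rfl
    · rw [pow_zero, map_one]; decide
    · rw [pow_one, hϖ8.2.1]; decide
  have hcl0 : cl (em hw8 δ) = 0 := by
    rcases hem8 with h | h <;> rw [h] <;> decide
  have hfin : (a : ZMod 2) = 0 → a = 0 := by
    intro h
    rcases ha with rfl | rfl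
    · rfl
    · exact absurd h (by decide)
  have h2x : ∀ x : ZMod 2, x + x = 0 := by decide
  rcases hf with rfl | rfl
  · -- `√-7` does not divide `δ`
    rw [pow_zero, one_mul] at hδf
    left
    have had : (a : ZMod 2) = ∑ ρ ∈ T, qs ρ (-ϖ') := by
      rw [hδa, hδf, hδe, map_mul, map_mul, cl_mul _ _ hA.1 (sq_mul hU.1 (hcT T hTS).1),
        cl_mul _ _ hU.1 (hcT T hTS).1, hA.2, hU.2, (hcT T hTS).2, zero_add] at hcl0
      linear_combination hcl0 - h2x (∑ ρ ∈ T, qs ρ (-ϖ'))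
    obtain ⟨g1, g2⟩ := lin8 hrec hG hTS hw4 hu hvc
      (fun q hq hqT => by
        have := c1 q hq hqT
        rw [Nat.cast_zero, zero_mul, add_zero] at this
        exact this)
      (fun q hqT => by
        have := c2 q hqT
        rw [Nat.cast_zero, zero_mul, zero_add] at this
        exact this) (by rw [← hδe, ← hδf]; exact h40) had
    have ha0 : a = 0 := hfin (by rw [had, g1, Finset.sum_empty])
    rw [hδa, hδf, hδe, g1, g2, ha0, Finset.prod_empty, mul_one, pow_zero, mul_one]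
  · -- `√-7` divides `δ`
    rw [pow_one] at hδf
    right
    have hm1 : em hw4 m = 1 := by
      rw [hmv, map_mul, map_mul]
      rcases hvc with ⟨rfl, -, -, rfl⟩ | ⟨rfl, -, -, rfl⟩
      · have h1 : em hw4 s7 = -1 := by rw [em_apply]; simp only [s7]; decide
        have h2 : em hw4 (∏ q ∈ S, q) = 1 := AlgP.em2_prod hS.pp
        rw [h1, h2, map_neg, map_one]
        decide
      · have h1 : em hw4 s7 = 1 := by rw [em_apply]; simp only [s7]; decide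
        have h2 : em hw4 (∏ q ∈ S, q) = 1 := by
          have := AlgP.em3_prod hS.pp
          rw [AlgP.sum_t hS] at this
          exact this
        rw [h1, h2, map_one]
        decide
    have huu : em hw4 u * em hw4 u = 1 := by
      rcases hu with rfl | rfl
      · rw [map_one, one_mul]
      · rw [map_neg, map_one]; decide
    have hc : em hw4 (u * v * ∏ ρ ∈ S \ T, ρ) = 1 := by
      rw [hδf, hδe, map_mul, map_mul] at h40
      rw [hmv, ← Finset.prod_sdiff hTS, map_mul, map_mul, map_mul] at hm1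
      rw [map_mul, map_mul]
      calc em hw4 u * em hw4 v * em hw4 (∏ ρ ∈ S \ T, ρ)
          = em hw4 u * em hw4 v * em hw4 (∏ ρ ∈ S \ T, ρ) *
            (em hw4 s7 * (em hw4 u * em hw4 (∏ ρ ∈ T, ρ))) := by rw [h40, mul_one]
        _ = (em hw4 u * em hw4 u) * (em hw4 v * (em hw4 s7 * (em hw4 (∏ ρ ∈ S \ T, ρ) *
            em hw4 (∏ ρ ∈ T, ρ)))) := by ring
        _ = 1 := by rw [huu, hm1, mul_one]
    have hvv : v * v = 1 := by rcases hvu with rfl | rfl <;> ring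
    have had : (a : ZMod 2) = ∑ ρ ∈ S \ T, qs ρ (-ϖ') := by
      have h1 := Finset.sum_sdiff hTS (f := fun ρ => qs ρ (-ϖ'))
      rw [hSum] at h1
      rw [hδa, hδf, hδe, map_mul, map_mul, map_mul,
        cl_mul _ _ hA.1 (sq_mul hϖ8.2.2.1 (sq_mul hU.1 (hcT T hTS).1)),
        cl_mul _ _ hϖ8.2.2.1 (sq_mul hU.1 (hcT T hTS).1),
        cl_mul _ _ hU.1 (hcT T hTS).1, hA.2, hϖ8.2.2.2, hU.2, (hcT T hTS).2, zero_add] at hcl0
      linear_combination hcl0 - h1 - h2x 1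
    obtain ⟨g1, g2⟩ := lin8 hrec hG (T := S \ T) Finset.sdiff_subset hw4 huv hvc
      (fun q hq hqT => by
        have hqT' : q ∈ T := by
          by_contra h
          exact hqT (Finset.mem_sdiff.2 ⟨hq, h⟩)
        have := c2 q hqT'
        rw [Nat.cast_one, one_mul, h2x, add_zero] at this
        exact this)
      (fun q hqT => by
        have h1 := Finset.mem_sdiff.1 hqT
        have := c1 q h1.1 h1.2
        rw [Nat.cast_one, one_mul] at this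
        rw [Finset.sdiff_sdiff_eq_self hTS, mul_assoc, hvv, mul_one]
        exact this) hc had
    have hTS' : T = S := by
      apply Finset.Subset.antisymm hTS
      rw [← Finset.sdiff_eq_empty_iff_subset]
      exact g1
    have huv' : u = v := by
      calc u = u * v * v := by rw [mul_assoc, hvv, mul_one]
        _ = v := by rw [g2, one_mul]
    have ha0 : a = 0 := hfin (by rw [had, g1, Finset.sum_empty])
    rw [hδa, ha0, pow_zero, one_mul, hδf, hδe, hmv, hTS', huv']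
    ring

end Pool.Agent.NH57.BG
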