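import Pool.Agent.NH57.BL.Gal2
import Pool.Agent.NH57.BL.Alg8

/-!
# BL-36: the elements that satisfy the local conditions, all classes
-/

set_option autoImplicit false
set_option linter.unusedSectionVars false
set_option linter.unusedVariables false

namespace Pool.Agent.NH57.BH

open Pool.Agent.R384
open Pool.Agent.NH57.BK
open Pool.Agent.NH57.BK.AlgP
open Pool.Agent.NH57.BG (e6 e3 S_SUPO)
open Pool.Agent.NH57.BG.A8 (sum_ind cl cl_mul sq_mul)
open QuadraticAlgebra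
open scoped Classical

namespace AG

/-! ### Linear algebra -/

/-- transposed bordered systems -/
lemma transpB (S : Finset OO) (M : OO → OO → ZMod 2) (g d : OO → ZMod 2) (c : ZMod 2)
    (h : ∀ (v : OO → ZMod 2) (e : ZMod 2), (∀ π ∈ S, ∑ ρ ∈ S, M π ρ * v ρ + e * g π = 0) →
      c * e + ∑ ρ ∈ S, d ρ * v ρ = 0 → (∀ π ∈ S, v π = 0) ∧ e = 0)
    (x : OO → ZMod 2) (a : ZMod 2) (hx : ∀ π ∈ S, ∑ ρ ∈ S, M ρ π * x ρ + a * d π = 0)
    (hx0 : c * a + ∑ ρ ∈ S, g ρ * x ρ = 0) : (∀ π ∈ S, x π = 0) ∧ a = 0 := by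
  let A : Matrix (Option S) (Option S) (ZMod 2) := fun i k => match i, k with
    | none, none => c
    | none, some ρ => d ρ
    | some π, none => g π
    | some π, some ρ => M π ρ
  have hdet : A.det ≠ 0 := by
    intro h0
    obtain ⟨v, hv, hv0⟩ := Matrix.exists_mulVec_eq_zero_iff.2 h0
    apply hv
    let V : OO → ZMod 2 := fun ρ => if hρ : ρ ∈ S then v (some ⟨ρ, hρ⟩) else 0
    have hV : ∀ ρ : S, V ρ = v (some ρ) := fun ρ => by simp [V]
    obtain ⟨h1, h1'⟩ := h V (v none) (by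
        intro π hπ
        have h2 := congrFun hv0 (some ⟨π, hπ⟩)
        rw [Pi.zero_apply, Matrix.mulVec, dotProduct, Fintype.sum_option] at h2
        rw [← h2, ← Finset.sum_coe_sort S (fun ρ => M π ρ * V ρ), add_comm]
        simp only [hV]
        congr 1
        exact mul_comm _ _) (by
        have h2 := congrFun hv0 none
        rw [Pi.zero_apply, Matrix.mulVec, dotProduct, Fintype.sum_option] at h2
        rw [← h2, ← Finset.sum_coe_sort S (fun ρ => d ρ * V ρ)]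
        simp only [hV]
        rfl)
    ext o
    rcases o with _ | ρ
    · exact h1'
    · rw [← hV ρ, h1 ρ ρ.2]
      rfl
  by_contra hne
  apply hdet
  rw [← Matrix.det_transpose]
  refine Matrix.exists_mulVec_eq_zero_iff.1 ⟨fun o => match o with
    | none => a
    | some ρ => x ρ, fun h0 => hne ⟨fun π hπ => congrFun h0 (some ⟨π, hπ⟩), congrFun h0 none⟩, ?_⟩
  ext o
  rw [Pi.zero_apply, Matrix.mulVec, dotProduct, Fintype.sum_option]
  rcases o with _ | ρ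
  · rw [← hx0, ← Finset.sum_coe_sort S (fun ρ' => g ρ' * x ρ')]
    rfl
  · have h2 := hx ρ ρ.2
    rw [← Finset.sum_coe_sort S (fun ρ' => M ρ' ρ * x ρ'), add_comm, mul_comm a] at h2
    exact h2

/-- the matrix `M` -/
noncomputable def MM (S : Finset OO) (π ρ : OO) : ZMod 2 :=
  (if π = ρ then qs s7 π + ∑ τ ∈ S, qs τ π else 0) + qs ρ π

lemma MM_row {S : Finset OO} {π : OO} (hπ : π ∈ S) (v : OO → ZMod 2) :
    ∑ ρ ∈ S, MM S π ρ * v ρ = qs s7 π * v π + ∑ ρ ∈ S, qs ρ π * (v π + v ρ) := by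
  have h1 : ∀ ρ ∈ S, MM S π ρ * v ρ = (if π = ρ then (qs s7 π + ∑ τ ∈ S, qs τ π) * v ρ else 0) +
      qs ρ π * v ρ := by
    intro ρ _
    unfold MM
    split_ifs <;> ring
  rw [Finset.sum_congr rfl h1, Finset.sum_add_distrib, Finset.sum_ite_eq, if_pos hπ]
  simp only [mul_add, Finset.sum_add_distrib, ← Finset.sum_mul]
  ring

lemma MM_col {S : Finset OO} {π : OO} (hπ : π ∈ S) (x : OO → ZMod 2) :
    ∑ ρ ∈ S, MM S ρ π * x ρ = (qs s7 π + ∑ τ ∈ S, qs τ π) * x π + ∑ ρ ∈ S, qs π ρ * x ρ := by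
  have h1 : ∀ ρ ∈ S, MM S ρ π * x ρ = (if ρ = π then (qs s7 ρ + ∑ τ ∈ S, qs τ ρ) * x ρ else 0) +
      qs π ρ * x ρ := by
    intro ρ _
    unfold MM
    split_ifs <;> ring
  rw [Finset.sum_congr rfl h1, Finset.sum_add_distrib, Finset.sum_ite_eq', if_pos hπ]

lemma regT {x y : ZMod 2} {S : Finset OO} (hG : GoodX x y S) (X : OO → ZMod 2) (a : ZMod 2)
    (hx : ∀ π ∈ S, (qs s7 π + ∑ τ ∈ S, qs τ π) * X π + ∑ ρ ∈ S, qs π ρ * X ρ + a * dO x π = 0)
    (h0 : aa x y * a + ∑ ρ ∈ S, gO y ρ * X ρ = 0) : (∀ π ∈ S, X π = 0) ∧ a = 0 := by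
  apply transpB S (MM S) (gO y) (dO x) (aa x y)
  · intro v e hv he
    apply hG.reg v e _ he
    intro π hπ
    rw [← MM_row hπ]
    exact hv π hπ
  · intro π hπ
    rw [MM_col hπ]
    exact hx π hπ
  · exact h0

/-! ### The classes modulo eight -/

/-- the class modulo `{1, 3}` of a unit of `ℤ/8` -/
def cl3 (w : ZMod 8) : ZMod 2 := if w = 1 ∨ w = 3 then 0 else 1

/-- the class modulo `± 1` if `z = 1`, modulo `{1, 3}` if `z = 0` -/
def C (z : ZMod 2) (w : ZMod 8) : ZMod 2 := if z = 1 then cl w else cl3 w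

lemma C_mul : ∀ (z : ZMod 2) (a b : ZMod 8), a * a = 1 → b * b = 1 →
    C z (a * b) = C z a + C z b := by decide

lemma C_prod {w8 : ZMod 8} (hw8 : w8 ^ 2 = w8 - 2) (z : ZMod 2) {T : Finset OO}
    (hT : ∀ ρ ∈ T, em hw8 ρ * em hw8 ρ = 1) :
    em hw8 (∏ ρ ∈ T, ρ) * em hw8 (∏ ρ ∈ T, ρ) = 1 ∧
      C z (em hw8 (∏ ρ ∈ T, ρ)) = ∑ ρ ∈ T, C z (em hw8 ρ) := by
  induction T using Finset.induction_on with
  | empty =>
    rw [Finset.prod_empty, Finset.sum_empty, map_one]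
    exact ⟨by decide, by revert z; decide⟩
  | insert i S hi ih =>
    obtain ⟨h1, h2⟩ := ih fun ρ hρ => hT ρ (Finset.mem_insert_of_mem hρ)
    have h3 := hT i (Finset.mem_insert_self _ _)
    rw [Finset.prod_insert hi, Finset.sum_insert hi, map_mul]
    exact ⟨sq_mul h3 h1, by rw [C_mul z _ _ h3 h1, h2]⟩

lemma e3_cast (q : OO) : ZMod.castHom (by norm_num : 4 ∣ 8) (ZMod 4) (em e3 q) = em AlgP.h3 q := by
  rw [em_apply, em_apply, map_add, map_mul, map_intCast, map_intCast]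
  congr 2

/-- the supplementary laws -/
lemma sup (hs : S_SUPO) {ϖ' : OO} {w8 : ZMod 8} (hw8 : w8 ^ 2 = w8 - 2) {s : ZMod 2}
    (hc : (ϖ' = 1 - om ∧ w8 = 3 ∧ s = 1) ∨ (ϖ' = om ∧ w8 = 6 ∧ s = 0)) (z : ZMod 2) {q : OO}
    (hq : Pp q) : em hw8 q * em hw8 q = 1 ∧
      C z (em hw8 q) = qs q (-ϖ') + (1 + z) * s * tO q := by
  rcases hc with ⟨rfl, rfl, rfl⟩ | ⟨rfl, rfl, rfl⟩
  · have he : em hw8 q = em e3 q := rfl
    rw [he]
    have h1 := e3_cast q
    rw [AlgP.em3 hq] at h1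
    have key : ∀ (z t h : ZMod 2) (w : ZMod 8), ZMod.castHom (by norm_num : 4 ∣ 8) (ZMod 4) w = sg t →
        (((w = 1 ∨ w = 7) ∧ h = 0) ∨ ((w = 3 ∨ w = 5) ∧ h = 1)) →
        w * w = 1 ∧ C z w = h + (1 + z) * 1 * t := by decide
    exact key z _ _ _ h1 (hs q hq).2
  · have he : em hw8 q = em e6 q := rfl
    rw [he]
    have key : ∀ (z t h : ZMod 2) (w : ZMod 8), (((w = 1) ∧ h = 0) ∨ ((w = 5) ∧ h = 1)) →
        w * w = 1 ∧ C z w = h + (1 + z) * 0 * t := by decide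
    exact key z _ _ _ (hs q hq).1

lemma aa_eq : ∀ x y : ZMod 2, (if x = 0 ∧ y = 0 then (0 : ZMod 2) else 1) = 1 + (1 + x) * (1 + y) := by
  decide

/-- the linear algebra -/
lemma linG (hrec : S_REC) {x y : ZMod 2} {S : Finset OO} (hG : GoodX x y S) {T : Finset OO}
    (hTS : T ⊆ S) {u v b ϖ ϖ' : OO} {a z z' s e : ZMod 2} {w4 : ZMod 4} (hw4 : w4 ^ 2 = w4 - 2)
    (hu : (u = 1 ∧ e = 0) ∨ (u = -1 ∧ e = 1))
    (hv : (v = -1 ∧ ϖ = om ∧ ϖ' = 1 - om ∧ w4 = 2 ∧ z = x ∧ z' = y ∧ s = 1) ∨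
      (v = 1 ∧ ϖ = 1 - om ∧ ϖ' = om ∧ w4 = 3 ∧ z = y ∧ z' = x ∧ s = 0))
    (hbq : ∀ q ∈ S, qs q b = qs q (-ϖ) + (1 + z) * tO q)
    (ha : ∀ q ∈ S, q ∉ T → qs q u + a * qs q b + ∑ ρ ∈ T, qs q ρ = 0)
    (hb : ∀ q ∈ T, qs q (u * v) + a * qs q b + qs q s7 + ∑ ρ ∈ S \ T, qs q ρ = 0)
    (hc : em hw4 (u * ∏ ρ ∈ T, ρ) = 1)
    (hd : (1 + z') * e + a * (1 + (1 + z') * (1 + z)) +
      ∑ ρ ∈ T, (qs ρ (-ϖ') + (1 + z') * s * tO ρ) = 0) : T = ∅ ∧ u = 1 ∧ a = 0 := by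
  have hS := hG.gs
  have he1 : ∀ q, Pp q → qs q u = e * tO q := by
    intro q hq
    rcases hu with ⟨rfl, rfl⟩ | ⟨rfl, rfl⟩
    · rw [qs_one, zero_mul]
    · rw [(hrec.2 q hq).2, one_mul]
  have he2 : em hw4 u = sg e := by
    rcases hu with ⟨rfl, rfl⟩ | ⟨rfl, rfl⟩
    · rw [map_one]; rfl
    · rw [map_neg, map_one]; rfl
  have he3 : e = 0 → u = 1 := by
    intro h
    rcases hu with ⟨h1, -⟩ | ⟨-, h1⟩
    · exact h1
    · rw [h1] at h; exact absurd h (by decide)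
  have hTp : ∀ ρ ∈ T, Pp ρ := fun ρ hρ => hS.pp ρ (hTS hρ)
  have h5 : ∀ y : ZMod 2, y + y = 0 := by decide
  set X : OO → ZMod 2 := fun ρ => if ρ ∈ T then 1 else 0 with hxdef
  have hx : ∀ ρ, X ρ = if ρ ∈ T then 1 else 0 := fun ρ => rfl
  rw [map_mul, he2] at hc
  rcases hv with ⟨rfl, rfl, rfl, rfl, rfl, rfl, rfl⟩ | ⟨rfl, rfl, rfl, rfl, rfl, rfl, rfl⟩
  · rw [em2_prod hTp, mul_one] at hc
    have he0 := sg_one _ hc
    have hu1 := he3 he0
    obtain ⟨g1, g2⟩ := regT hG X a (by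
      intro q hq
      have hpq := hS.pp q hq
      have h1 := comb hTS (fun ρ => qs q ρ) (tO q + qs q s7) (a * qs q b) q X hx
        (fun h => by
          have := ha q hq h
          rw [hu1, qs_one, zero_add] at this
          exact this)
        (fun h => by
          have := hb q h
          rw [hu1, one_mul, (hrec.2 q hpq).2] at this
          rw [← this]
          ring)
      have h2 : ∑ ρ ∈ S, qs ρ q = ∑ ρ ∈ S, qs q ρ + tO q := by
        rw [Finset.sum_congr rfl fun ρ hρ => rec_all hrec hS hq hρ, Finset.sum_add_distrib,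
          Finset.sum_add_distrib, ← Finset.mul_sum, sum_t hS, mul_zero, add_zero,
          Finset.sum_ite_eq', if_pos hq]
      rw [h2, ← (hrec.2 q hpq).1]
      unfold dO
      rw [← hbq q hq]
      simp only [mul_add, Finset.sum_add_distrib, ← Finset.sum_mul] at h1
      linear_combination h1) (by
      have h3 := sum_ind hTS (fun ρ => gO z' ρ) X hx
      rw [h3]
      unfold aa gO
      rw [aa_eq]
      rw [he0] at hd
      have h4 : ∀ ρ ∈ T, qs ρ (-(1 - om)) + (1 + z') * tO ρ =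
          qs ρ (-(1 - om)) + (1 + z') * 1 * tO ρ := fun ρ _ => by rw [mul_one]
      rw [Finset.sum_congr rfl h4]
      linear_combination hd)
    exact ⟨empty_of hx hTS g1, hu1, g2⟩
  · rw [em3_prod hTp, ← sg_add] at hc
    have he0 := sg_one _ hc
    have h3 : ∑ ρ ∈ S, tO ρ * X ρ = e := by
      rw [sum_ind hTS tO X hx]
      linear_combination he0 - h5 e
    obtain ⟨g1, g2⟩ := hG.reg X a (by
      intro q hq
      have hpq := hS.pp q hq
      have h1 := comb hTS (fun ρ => qs q ρ) (qs q s7) (qs q u + a * qs q b) q X hx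
        (fun h => ha q hq h)
        (fun h => by
          have := hb q h
          rw [mul_one] at this
          exact this)
      have h2 : ∑ ρ ∈ S, qs ρ q * (X q + X ρ) =
          ∑ ρ ∈ S, qs q ρ * (X ρ + X q) + tO q * e := by
        have h6 : ∑ ρ ∈ S, qs ρ q * (X q + X ρ) = ∑ ρ ∈ S, (qs q ρ * (X ρ + X q) +
            (tO q * X q * tO ρ + tO q * (tO ρ * X ρ)) +
              (if ρ = q then tO q * (X q + X q) else 0)) := by
          refine Finset.sum_congr rfl fun ρ hρ => ?_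
          rw [rec_all hrec hS hq hρ]
          by_cases h : ρ = q
          · rw [if_pos h, if_pos h, h]; ring
          · rw [if_neg h, if_neg h]; ring
        rw [h6, Finset.sum_add_distrib, Finset.sum_add_distrib, Finset.sum_add_distrib,
          ← Finset.mul_sum, ← Finset.mul_sum, h3, sum_t hS, mul_zero, zero_add,
          Finset.sum_ite_eq', if_pos hq, h5, mul_zero, add_zero]
      rw [h2, ← (hrec.2 q hpq).1]
      rw [he1 q hpq] at h1
      unfold gO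
      rw [← hbq q hq]
      linear_combination h1) (by
      have h4 := sum_ind hTS (fun ρ => dO z' ρ) X hx
      rw [h4]
      unfold aa dO
      rw [aa_eq]
      have h6 : ∑ ρ ∈ T, tO ρ = e := by
        linear_combination he0 - h5 e
      rw [Finset.sum_add_distrib, ← Finset.mul_sum, h6]
      rw [Finset.sum_congr rfl fun ρ _ => show qs ρ (-om) + (1 + z') * 0 * tO ρ = qs ρ (-om) by ring]
        at hd
      linear_combination hd)
    have hT : T = ∅ := empty_of hx hTS g1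
    refine ⟨hT, he3 ?_, g2⟩
    rw [hT, Finset.sum_empty, add_zero] at he0
    exact he0

end AG

open AG

theorem t_ALGG : S_ALGG := by
  intro hrec hsupo x y S hG m ϖ ϖ' δ w4 hw4 w8 hw8 z hcase hδ hem8 hem4 hsup hloc
  have hS := hG.gs
  obtain ⟨v, z', s, hvc, hw8c, hmv⟩ : ∃ (v : OO) (z' s : ZMod 2),
      ((v = -1 ∧ ϖ = om ∧ ϖ' = 1 - om ∧ w4 = 2 ∧ z = x ∧ z' = y ∧ s = 1) ∨
      (v = 1 ∧ ϖ = 1 - om ∧ ϖ' = om ∧ w4 = 3 ∧ z = y ∧ z' = x ∧ s = 0)) ∧
      ((ϖ' = 1 - om ∧ w8 = 3 ∧ s = 1) ∨ (ϖ' = om ∧ w8 = 6 ∧ s = 0)) ∧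
      m = v * (s7 * ∏ q ∈ S, q) := by
    rcases hcase with ⟨h, h1, h2, h4, h5, h6⟩ | ⟨h, h1, h2, h4, h5, h6⟩
    · exact ⟨-1, y, 1, Or.inl ⟨rfl, h1, h2, h4, h6, rfl, rfl⟩, Or.inl ⟨h2, h5, rfl⟩, by rw [h]; ring⟩
    · exact ⟨1, x, 0, Or.inr ⟨rfl, h1, h2, h4, h6, rfl, rfl⟩, Or.inr ⟨h2, h5, rfl⟩, by rw [h]; ring⟩
  have hvu : v = 1 ∨ v = -1 := by
    rcases hvc with ⟨h, -⟩ | ⟨h, -⟩
    · exact Or.inr h
    · exact Or.inl h
  -- the two places
  have hϖ4 : em hw4 ϖ = 2 := by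
    rcases hvc with ⟨-, h1, -, rfl, -⟩ | ⟨-, h1, -, rfl, -⟩
    · rw [h1, em_apply]; simp only [om]; decide
    · rw [h1, map_sub, map_one, em_apply]; simp only [om]; decide
  have hϖ8 : em hw8 ϖ' = 6 ∧ em hw8 ϖ = 3 ∧ em hw8 s7 * em hw8 s7 = 1 := by
    rcases hvc with ⟨-, h1, h2, -⟩ | ⟨-, h1, h2, -⟩ <;> rcases hw8c with ⟨h3, rfl, -⟩ | ⟨h3, rfl, -⟩
    · rw [h1, h2, map_sub, map_one, em_apply, em_apply]; simp only [om, s7]; decide
    · exfalso
      rw [h2] at h3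
      have := congrArg (em AlgP.h3) h3
      rw [map_sub, map_one, em_apply] at this
      simp only [om] at this
      exact absurd this (by decide)
    · exfalso
      rw [h2] at h3
      have := congrArg (em AlgP.h3) h3
      rw [map_sub, map_one, em_apply] at this
      simp only [om] at this
      exact absurd this (by decide)
    · rw [h1, h2, map_sub, map_one, em_apply, em_apply]; simp only [om, s7]; decide
  have hϖϖ : ϖ * ϖ' = 2 := by
    rcases hvc with ⟨-, h1, h2, -⟩ | ⟨-, h1, h2, -⟩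
    · rw [h1, h2, om_mul]
    · rw [h1, h2, mul_comm, om_mul]
  set b : OO := if z = 1 then -ϖ else ϖ with hbdef
  have hbc : b = -ϖ ∧ z = 1 ∨ b = ϖ ∧ z = 0 := by
    by_cases h : z = 1
    · left; rw [hbdef, if_pos h]; exact ⟨rfl, h⟩
    · right; rw [hbdef, if_neg h]
      exact ⟨rfl, by revert h; generalize z = t; revert t; decide⟩
  obtain ⟨a, δ0, ha, hδa, h40⟩ : ∃ (a : ℕ) (δ0 : OO), (a = 0 ∨ a = 1) ∧ δ = b ^ a * δ0 ∧
      em hw4 δ0 = 1 := by
    rcases hem4 with h | ⟨δ', h, h'⟩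
    · exact ⟨0, δ, Or.inl rfl, by rw [pow_zero, one_mul], h⟩
    · exact ⟨1, δ', Or.inr rfl, by rw [pow_one]; exact h, h'⟩
  have hδ0d : δ0 ∣ δ := by rw [hδa]; exact Dvd.intro_left _ rfl
  have hδ0 : Squarefree δ0 := hδ.squarefree_of_dvd hδ0d
  have hϖ : ¬ ϖ ∣ δ0 := by
    rintro ⟨t, ht⟩
    have h := h40
    rw [ht, map_mul, hϖ4] at h
    have h' : ∀ y : ZMod 4, 2 * y ≠ 1 := by decide
    exact h' _ h
  have hϖ' : ¬ ϖ' ∣ δ0 := by
    rintro h0
    obtain ⟨t, ht⟩ := h0.trans hδ0d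
    have h' : ∀ y : ZMod 8, 6 * y ≠ 1 := by decide
    rcases hem8 with h | h
    · rw [ht, map_mul, hϖ8.1] at h
      exact h' _ h
    · rw [ht, mul_assoc, map_mul, hϖ8.1] at h
      exact h' _ h
  have hom : ¬ om ∣ δ0 ∧ ¬ (1 - om) ∣ δ0 := by
    rcases hvc with ⟨-, h1, h2, -⟩ | ⟨-, h1, h2, -⟩
    · rw [h1] at hϖ; rw [h2] at hϖ'; exact ⟨hϖ, hϖ'⟩
    · rw [h1] at hϖ; rw [h2] at hϖ'; exact ⟨hϖ', hϖ⟩
  have h2δ : ∀ π : OO, Prime π → π ∣ δ0 → ¬ π ∣ 2 := by
    intro π hπ hd h2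
    have e : (2 : OO) = om * (1 - om) := om_mul.symm
    rw [e] at h2
    rcases hπ.dvd_or_dvd h2 with h1 | h1
    · exact hom.1 (((hπ.dvd_prime_iff_associated prime_om).1 h1).symm.dvd.trans hd)
    · exact hom.2 (((hπ.dvd_prime_iff_associated prime_om').1 h1).symm.dvd.trans hd)
  have hs70 : s7 ≠ 0 := prime_s7.ne_zero
  -- the part prime to `√-7`
  obtain ⟨f, δ', hf, hδf, hδ7⟩ :
      ∃ (f : ℕ) (δ' : OO), (f = 0 ∨ f = 1) ∧ δ0 = s7 ^ f * δ' ∧ ¬ s7 ∣ δ' := by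
    by_cases h : s7 ∣ δ0
    · obtain ⟨δ', h'⟩ := h
      refine ⟨1, δ', Or.inr rfl, by rw [h', pow_one], ?_⟩
      rintro ⟨t, ht⟩
      apply prime_s7.not_isUnit
      apply hδ0 s7
      rw [h', ht]
      exact ⟨t, by ring⟩
    · exact ⟨0, δ0, Or.inl rfl, by rw [pow_zero, one_mul], h⟩
  have hδd : δ' ∣ δ0 := by rw [hδf]; exact Dvd.intro_left _ rfl
  have hδ' : Squarefree δ' := hδ0.squarefree_of_dvd hδd
  set T : Finset OO := S.filter fun q => q ∣ δ' with hT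
  have hTS : T ⊆ S := Finset.filter_subset _ _
  have hmem : ∀ q, q ∈ T ↔ q ∈ S ∧ q ∣ δ' := fun q => by simp [hT]
  have hTp : ∀ ρ ∈ T, Pp ρ := fun ρ hρ => hS.pp ρ (hTS hρ)
  obtain ⟨u, hu, hδe⟩ : ∃ u : OO, (u = 1 ∨ u = -1) ∧ δ' = u * ∏ q ∈ T, q := by
    have hP : ∏ q ∈ T, q ∣ δ' := by
      apply Finset.prod_dvd_of_coprime
      · intro i hi k hk hik
        exact ((hTp i hi).prime.irreducible.coprime_iff_not_dvd).2 (AlgP.nd (hTp i hi) (hTp k hk) hik)
      · intro i hi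
        exact ((hmem i).1 hi).2
    obtain ⟨δ2, h2⟩ := hP
    have hδ20 : δ2 ≠ 0 := by
      rintro rfl
      rw [mul_zero] at h2
      exact hδ'.ne_zero h2
    have hno : ∀ q ∈ S, ¬ q ∣ δ2 := by
      rintro i hi ⟨t, ht⟩
      have hiT : i ∈ T := (hmem i).2 ⟨hi, by rw [h2, ht]; exact ⟨(∏ q ∈ T, q) * t, by ring⟩⟩
      obtain ⟨v, hv⟩ := Finset.dvd_prod_of_mem (fun q : OO => q) hiT
      apply (hS.pp i hi).prime.not_isUnit
      apply hδ' i
      rw [h2, ht, hv]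
      exact ⟨v * t, by ring⟩
    have hunit : IsUnit δ2 := by
      by_contra hcon
      obtain ⟨π, hπ, hπy⟩ := WfDvdMonoid.exists_irreducible_factor hcon hδ20
      have hπp := hπ.prime
      have hπδ' : π ∣ δ' := hπy.trans (by rw [h2]; exact Dvd.intro_left _ rfl)
      have hπδ : π ∣ δ0 := hπδ'.trans hδd
      have hπm := hsup π hπp (hπδ.trans hδ0d) (h2δ π hπp hπδ)
      rw [hmv] at hπm
      rcases hπp.dvd_or_dvd hπm with h3 | h3
      · apply hπp.not_isUnit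
        rcases hvu with rfl | rfl
        · exact isUnit_of_dvd_one h3
        · exact isUnit_of_dvd_one ((dvd_neg).1 h3)
      · rcases hπp.dvd_or_dvd h3 with h4 | h4
        · exact hδ7 (((hπp.dvd_prime_iff_associated prime_s7).1 h4).symm.dvd.trans hπδ')
        · obtain ⟨q, hq, h5⟩ := (hπp.dvd_finsetProd_iff _).1 h4
          exact hno q hq
            ((((hπp.dvd_prime_iff_associated (hS.pp q hq).prime).1 h5).symm.dvd.trans hπy))
    exact ⟨δ2, unit_cases hunit, by rw [h2]; ring⟩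
  obtain ⟨e, hue⟩ : ∃ e : ZMod 2, (u = 1 ∧ e = 0) ∨ (u = -1 ∧ e = 1) := by
    rcases hu with h | h
    · exact ⟨0, Or.inl ⟨h, rfl⟩⟩
    · exact ⟨1, Or.inr ⟨h, rfl⟩⟩
  obtain ⟨ev, hve⟩ : ∃ e : ZMod 2, (v = 1 ∧ e = 0) ∨ (v = -1 ∧ e = 1) := by
    rcases hvu with h | h
    · exact ⟨0, Or.inl ⟨h, rfl⟩⟩
    · exact ⟨1, Or.inr ⟨h, rfl⟩⟩
  have huve : (u * v = 1 ∧ e + ev = 0) ∨ (u * v = -1 ∧ e + ev = 1) := by
    rcases hue with ⟨rfl, rfl⟩ | ⟨rfl, rfl⟩ <;> rcases hve with ⟨h, rfl⟩ | ⟨h, rfl⟩ <;> rw [h]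
    · left; exact ⟨by ring, by decide⟩
    · right; exact ⟨by ring, by decide⟩
    · right; exact ⟨by ring, by decide⟩
    · left; exact ⟨by ring, by decide⟩
  have hbϖ : ∀ q : OO, q ∣ b → q ∣ ϖ := by
    intro q hq
    rcases hbc with ⟨h, -⟩ | ⟨h, -⟩
    · rw [h] at hq; exact (dvd_neg).1 hq
    · rw [h] at hq; exact hq
  have hqϖ : ∀ q, Pp q → ¬ q ∣ ϖ := by
    intro q hq hd
    refine AlgP.not_two hq ?_
    rw [← hϖϖ]
    exact Dvd.dvd.mul_right hd _
  have hbq : ∀ q, Pp q → qs q b = qs q (-ϖ) + (1 + z) * tO q := by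
    intro q hq
    rcases hbc with ⟨h, h'⟩ | ⟨h, h'⟩
    · rw [h, h']
      have : (1 + 1 : ZMod 2) = 0 := by decide
      rw [this, zero_mul, add_zero]
    · rw [h, h', add_zero, one_mul]
      have h1 : qs q (-1 * -ϖ) = qs q (-1) + qs q (-ϖ) :=
        AlgP.qs_mul hq.prime (AlgP.not_two hq) (AlgP.not_unit hq (Or.inr rfl))
          (fun h => hqϖ q hq ((dvd_neg).1 h))
      rw [(hrec.2 q hq).2] at h1
      rw [show (-1 : OO) * -ϖ = ϖ by ring] at h1
      rw [h1]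
      ring
  have hsa : ∀ q, Pp q → ¬ q ∣ b ^ a ∧ qs q (b ^ a) = a * qs q b := by
    intro q hq
    rcases ha with rfl | rfl
    · refine ⟨fun h => hq.prime.not_isUnit (isUnit_of_dvd_one (by simpa using h)), ?_⟩
      rw [pow_zero, qs_one]; simp
    · rw [pow_one]
      exact ⟨fun h => hqϖ q hq (hbϖ q h), by simp⟩
  have hTdvd : ∀ q ∈ S, (q ∈ T ↔ q ∣ δ) := by
    intro q hq
    rw [hmem, hδa, hδf]
    constructor
    · exact fun h => Dvd.dvd.mul_left (Dvd.dvd.mul_left h.2 _) _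
    · intro h
      refine ⟨hq, ?_⟩
      rcases (hS.pp q hq).prime.dvd_or_dvd h with h1 | h1
      · exact absurd h1 (hsa q (hS.pp q hq)).1
      · rcases (hS.pp q hq).prime.dvd_or_dvd h1 with h1 | h1
        · exact absurd ((hS.pp q hq).prime.dvd_of_dvd_pow h1) (AlgP.not_s7 (hS.pp q hq))
        · exact h1
  have hsf : ∀ q, Pp q → ¬ q ∣ s7 ^ f ∧ qs q (s7 ^ f) = f * qs q s7 := by
    intro q hq
    rcases hf with rfl | rfl
    · refine ⟨fun h => hq.prime.not_isUnit (isUnit_of_dvd_one (by simpa using h)), ?_⟩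
      rw [pow_zero, qs_one]; simp
    · rw [pow_one]
      exact ⟨AlgP.not_s7 hq, by simp⟩
  have huv : u * v = 1 ∨ u * v = -1 := by
    rcases huve with ⟨h, -⟩ | ⟨h, -⟩
    · exact Or.inl h
    · exact Or.inr h
  have hqm : ∀ q ∈ S, q ∣ m := by
    intro q hq
    rw [hmv]
    exact Dvd.dvd.mul_left (Dvd.dvd.mul_left (Finset.dvd_prod_of_mem (fun q : OO => q) hq) _) _
  -- the conditions
  have c1 : ∀ q ∈ S, q ∉ T →
      qs q u + a * qs q b + f * qs q s7 + ∑ ρ ∈ T, qs q ρ = 0 := by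
    intro q hq hqT
    have hp := hS.pp q hq
    have h2 := AlgP.not_two hp
    rcases hloc q hp.prime (hqm q hq) with ⟨-, h1⟩ | ⟨δ1, m1, h1, -⟩
    · have n1 := AlgP.nd_prod hTp hp hqT
      have n0 := AlgP.not_unit hp hu
      have n3 : ¬ q ∣ u * ∏ ρ ∈ T, ρ := fun h => (hp.prime.dvd_or_dvd h).elim n0 n1
      have n4 : ¬ q ∣ s7 ^ f * (u * ∏ ρ ∈ T, ρ) := fun h =>
        (hp.prime.dvd_or_dvd h).elim (hsf q hp).1 n3
      rw [← qs_zero, hδa, hδf, hδe, AlgP.qs_mul hp.prime h2 (hsa q hp).1 n4,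
        AlgP.qs_mul hp.prime h2 (hsf q hp).1 n3,
        AlgP.qs_mul hp.prime h2 n0 n1, (hsa q hp).2, (hsf q hp).2, AlgP.qs_prod hp.prime h2 T
          (fun ρ hρ => AlgP.nd hp (hTp ρ hρ) (fun h => hqT (h ▸ hρ)))] at h1
      rw [← h1]
      ring
    · exact absurd ((hTdvd q hq).2 ⟨δ1, h1⟩) hqT
  have c2 : ∀ q ∈ T, qs q (u * v) + a * qs q b + (f * qs q s7 + qs q s7) +
      ∑ ρ ∈ S \ T, qs q ρ = 0 := by
    intro q hqT
    have hq := hTS hqT
    have hp := hS.pp q hq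
    have h2' := AlgP.not_two hp
    rcases hloc q hp.prime (hqm q hq) with ⟨h1, -⟩ | ⟨δ1, m1, h1, h2, h3⟩
    · exact absurd ((hTdvd q hq).1 hqT) h1
    · have hq0 := hp.prime.ne_zero
      have e1 : δ1 = b ^ a * (s7 ^ f * (u * ∏ ρ ∈ T.erase q, ρ)) := by
        apply mul_left_cancel₀ hq0
        rw [← h1, hδa, hδf, hδe, ← Finset.mul_prod_erase T (fun q => q) hqT]
        ring
      have e2 : m1 = v * (s7 * ((∏ ρ ∈ T.erase q, ρ) * ∏ ρ ∈ S \ T, ρ)) := by
        apply mul_left_cancel₀ hq0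
        rw [← h2, hmv, ← Finset.prod_sdiff hTS, ← Finset.mul_prod_erase T (fun q => q) hqT]
        ring
      have e3 : δ1 * m1 = (b ^ a * (s7 ^ f * (s7 * (u * v * ∏ ρ ∈ S \ T, ρ)))) *
          (∏ ρ ∈ T.erase q, ρ) ^ 2 := by
        rw [e1, e2]
        ring
      have hqT' : q ∉ S \ T := fun h => (Finset.mem_sdiff.1 h).2 hqT
      have hSTp : ∀ ρ ∈ S \ T, Pp ρ := fun ρ hρ => hS.pp ρ (Finset.mem_sdiff.1 hρ).1
      have n1 := AlgP.nd_prod hSTp hp hqT'
      have n2 := AlgP.not_unit hp huv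
      have n3 : ¬ q ∣ u * v * ∏ ρ ∈ S \ T, ρ := fun h => (hp.prime.dvd_or_dvd h).elim n2 n1
      have n4 : ¬ q ∣ s7 * (u * v * ∏ ρ ∈ S \ T, ρ) := fun h =>
        (hp.prime.dvd_or_dvd h).elim (AlgP.not_s7 hp) n3
      have n5 : ¬ q ∣ s7 ^ f * (s7 * (u * v * ∏ ρ ∈ S \ T, ρ)) := fun h =>
        (hp.prime.dvd_or_dvd h).elim (hsf q hp).1 n4
      have n7 : ¬ q ∣ b ^ a * (s7 ^ f * (s7 * (u * v * ∏ ρ ∈ S \ T, ρ))) := fun h =>
        (hp.prime.dvd_or_dvd h).elim (hsa q hp).1 n5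
      have n6 : ¬ q ∣ ∏ ρ ∈ T.erase q, ρ :=
        AlgP.nd_prod (fun ρ hρ => hTp ρ (Finset.mem_of_mem_erase hρ)) hp (Finset.notMem_erase q T)
      rw [← qs_zero, e3, AlgP.qs_mul_sq hp.prime h2' n7 n6,
        AlgP.qs_mul hp.prime h2' (hsa q hp).1 n5,
        AlgP.qs_mul hp.prime h2' (hsf q hp).1 n4, AlgP.qs_mul hp.prime h2' (AlgP.not_s7 hp) n3,
        AlgP.qs_mul hp.prime h2' n2 n1, (hsa q hp).2, (hsf q hp).2,
        AlgP.qs_prod hp.prime h2' (S \ T)
          (fun ρ hρ => AlgP.nd hp (hSTp ρ hρ) (fun h => hqT' (h ▸ hρ)))] at h3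
      rw [← h3]
      ring
  -- the classes modulo eight
  have hcT : ∀ R : Finset OO, R ⊆ S → em hw8 (∏ ρ ∈ R, ρ) * em hw8 (∏ ρ ∈ R, ρ) = 1 ∧
      C z' (em hw8 (∏ ρ ∈ R, ρ)) = ∑ ρ ∈ R, (qs ρ (-ϖ') + (1 + z') * s * tO ρ) := by
    intro R hR
    obtain ⟨h1, h2⟩ := C_prod hw8 z' (T := R)
      (fun ρ hρ => (sup hsupo hw8 hw8c z' (hS.pp ρ (hR hρ))).1)
    refine ⟨h1, ?_⟩
    rw [h2]
    exact Finset.sum_congr rfl fun ρ hρ => (sup hsupo hw8 hw8c z' (hS.pp ρ (hR hρ))).2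
  have hm8 : em hw8 m * em hw8 m = 1 ∧ C z' (em hw8 m) = 0 := by
    obtain ⟨t, ht⟩ := hS.one
    have h4 : ∀ t : ZMod 8, 4 * t = 0 ∨ 4 * t = 4 := by decide
    have hP : em hw8 (∏ q ∈ S, q) = 1 + em hw8 4 * em hw8 t := by
      have h1 := congrArg (em hw8) ht
      rw [map_sub, map_mul, map_one] at h1
      linear_combination h1
    rw [map_ofNat] at hP
    have hz' : ∀ t : ZMod 2, t = 0 ∨ t = 1 := by decide
    rcases hvc with ⟨h, -, h2, -, -, hz, -⟩ | ⟨h, -, h2, -, -, hz, -⟩ <;>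
      rcases hw8c with ⟨h3, rfl, -⟩ | ⟨h3, rfl, -⟩
    · have hy : em e3 (∏ q ∈ S, q) = 5 ↔ z' = 1 := by rw [hz]; exact hG.three
      have he : em hw8 (∏ q ∈ S, q) = em e3 (∏ q ∈ S, q) := rfl
      rw [he] at hP
      have hs : em hw8 s7 = 5 := by rw [em_apply]; simp only [s7]; decide
      rw [hmv, h, map_mul, map_mul, map_neg, map_one, hs, he]
      rcases h4 (em hw8 t) with h6 | h6 <;> rw [h6] at hP <;> rw [hP] at hy ⊢ <;>
        rcases hz' z' with h7 | h7 <;> rw [h7] at hy ⊢ <;> revert hy <;> decide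
    · exfalso
      rw [h2] at h3
      have := congrArg (em AlgP.h3) h3
      rw [map_sub, map_one, em_apply] at this
      simp only [om] at this
      exact absurd this (by decide)
    · exfalso
      rw [h2] at h3
      have := congrArg (em AlgP.h3) h3
      rw [map_sub, map_one, em_apply] at this
      simp only [om] at this
      exact absurd this (by decide)
    · have hy : em e6 (∏ q ∈ S, q) = 5 ↔ z' = 1 := by rw [hz]; exact hG.six
      have he : em hw8 (∏ q ∈ S, q) = em e6 (∏ q ∈ S, q) := rfl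
      rw [he] at hP
      have hs : em hw8 s7 = 3 := by rw [em_apply]; simp only [s7]; decide
      rw [hmv, h, map_mul, map_mul, map_one, hs, he]
      rcases h4 (em hw8 t) with h6 | h6 <;> rw [h6] at hP <;> rw [hP] at hy ⊢ <;>
        rcases hz' z' with h7 | h7 <;> rw [h7] at hy ⊢ <;> revert hy <;> decide
  have hU : ∀ (u : OO) (e : ZMod 2), (u = 1 ∧ e = 0) ∨ (u = -1 ∧ e = 1) →
      em hw8 u * em hw8 u = 1 ∧ C z' (em hw8 u) = (1 + z') * e := by
    intro u e h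
    have k1 : ∀ z : ZMod 2, C z 1 = (1 + z) * 0 := by decide
    have k2 : ∀ z : ZMod 2, C z (-1) = (1 + z) * 1 := by decide
    rcases h with ⟨rfl, rfl⟩ | ⟨rfl, rfl⟩
    · rw [map_one]; exact ⟨by decide, k1 z'⟩
    · rw [map_neg, map_one]; exact ⟨by decide, k2 z'⟩
  have hA : em hw8 (b ^ a) * em hw8 (b ^ a) = 1 ∧
      C z' (em hw8 (b ^ a)) = a * (1 + (1 + z') * (1 + z)) := by
    have k0 : ∀ z : ZMod 2, C z 1 = 0 := by decide
    have k1 : ∀ z : ZMod 2, C z (-3) = 1 + (1 + z) * (1 + 1) := by decide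
    have k2 : ∀ z : ZMod 2, C z 3 = 1 + (1 + z) * (1 + 0) := by decide
    rcases ha with rfl | rfl
    · rw [pow_zero, map_one, Nat.cast_zero, zero_mul]; exact ⟨by decide, k0 z'⟩
    · rw [pow_one, Nat.cast_one, one_mul]
      rcases hbc with ⟨h, h'⟩ | ⟨h, h'⟩
      · rw [h, h', map_neg, hϖ8.2.1]; exact ⟨by decide, k1 z'⟩
      · rw [h, h', hϖ8.2.1]; exact ⟨by decide, k2 z'⟩
  have hcl0 : C z' (em hw8 δ) = 0 := by
    have k0 : ∀ z : ZMod 2, C z 1 = 0 := by decide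
    rcases hem8 with h | h
    · rw [h]; exact k0 z'
    · rw [map_mul] at h
      have h1 : em hw8 δ = em hw8 m := by
        linear_combination (em hw8 m) * h - (em hw8 δ) * hm8.1
      rw [h1]; exact hm8.2
  have hfin : (a : ZMod 2) = 0 → a = 0 := by
    intro h
    rcases ha with rfl | rfl
    · rfl
    · exact absurd h (by decide)
  have h2x : ∀ x : ZMod 2, x + x = 0 := by decide
  have hTc := hcT T hTS
  have hUu := hU u e hue
  rcases hf with rfl | rfl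
  · -- `√-7` does not divide `δ`
    rw [pow_zero, one_mul] at hδf
    left
    have had : (1 + z') * e + a * (1 + (1 + z') * (1 + z)) +
        ∑ ρ ∈ T, (qs ρ (-ϖ') + (1 + z') * s * tO ρ) = 0 := by
      rw [hδa, hδf, hδe, map_mul, map_mul, C_mul _ _ _ hA.1 (sq_mul hUu.1 hTc.1),
        C_mul _ _ _ hUu.1 hTc.1, hA.2, hUu.2, hTc.2] at hcl0
      linear_combination hcl0
    obtain ⟨g1, g2, g3⟩ := linG hrec hG hTS hw4 hue hvc (fun q hq => hbq q (hS.pp q hq))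
      (fun q hq hqT => by
        have := c1 q hq hqT
        rw [Nat.cast_zero, zero_mul, add_zero] at this
        exact this)
      (fun q hqT => by
        have := c2 q hqT
        rw [Nat.cast_zero, zero_mul, zero_add] at this
        exact this) (by rw [← hδe, ← hδf]; exact h40) had
    have ha0 : a = 0 := hfin g3
    rw [hδa, hδf, hδe, g1, g2, ha0, Finset.prod_empty, mul_one, pow_zero, mul_one]
  · -- `√-7` divides `δ`
    rw [pow_one] at hδf
    right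
    have hm1 : em hw4 m = 1 := by
      rw [hmv, map_mul, map_mul]
      rcases hvc with ⟨rfl, -, -, rfl, -⟩ | ⟨rfl, -, -, rfl, -⟩
      · have h1 : em hw4 s7 = -1 := by rw [em_apply]; simp only [s7]; decide
        have h2 : em hw4 (∏ q ∈ S, q) = 1 := AlgP.em2_prod hS.pp
        rw [h1, h2, map_neg, map_one]
        decide
      · have h1 : em hw4 s7 = 1 := by rw [em_apply]; simp only [s7]; decide
        have h2 : em hw4 (∏ q ∈ S, q) = 1 := by
          have := AlgP.em3_prod hS.pp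
          rw [AlgP.sum_t hS] at this
          exact this
        rw [h1, h2, map_one]
        decide
    have huu : em hw4 u * em hw4 u = 1 := by
      rcases hu with rfl | rfl
      · rw [map_one, one_mul]
      · rw [map_neg, map_one]; decide
    have hc : em hw4 (u * v * ∏ ρ ∈ S \ T, ρ) = 1 := by
      rw [hδf, hδe, map_mul, map_mul] at h40
      rw [hmv, ← Finset.prod_sdiff hTS, map_mul, map_mul, map_mul] at hm1
      rw [map_mul, map_mul]
      calc em hw4 u * em hw4 v * em hw4 (∏ ρ ∈ S \ T, ρ)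
          = em hw4 u * em hw4 v * em hw4 (∏ ρ ∈ S \ T, ρ) *
            (em hw4 s7 * (em hw4 u * em hw4 (∏ ρ ∈ T, ρ))) := by rw [h40, mul_one]
        _ = (em hw4 u * em hw4 u) * (em hw4 v * (em hw4 s7 * (em hw4 (∏ ρ ∈ S \ T, ρ) *
            em hw4 (∏ ρ ∈ T, ρ)))) := by ring
        _ = 1 := by rw [huu, hm1, mul_one]
    have hvv : v * v = 1 := by rcases hvu with rfl | rfl <;> ring
    have hR := hcT (S \ T) Finset.sdiff_subset
    have hVv := hU v ev hve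
    have had : (1 + z') * (e + ev) + a * (1 + (1 + z') * (1 + z)) +
        ∑ ρ ∈ S \ T, (qs ρ (-ϖ') + (1 + z') * s * tO ρ) = 0 := by
      have h1 := hm8.2
      rw [hmv, ← Finset.prod_sdiff hTS, map_mul, map_mul, map_mul,
        C_mul _ _ _ hVv.1 (sq_mul hϖ8.2.2 (sq_mul hR.1 hTc.1)),
        C_mul _ _ _ hϖ8.2.2 (sq_mul hR.1 hTc.1), C_mul _ _ _ hR.1 hTc.1, hVv.2, hR.2, hTc.2] at h1
      rw [hδa, hδf, hδe, map_mul, map_mul, map_mul,
        C_mul _ _ _ hA.1 (sq_mul hϖ8.2.2 (sq_mul hUu.1 hTc.1)),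
        C_mul _ _ _ hϖ8.2.2 (sq_mul hUu.1 hTc.1),
        C_mul _ _ _ hUu.1 hTc.1, hA.2, hUu.2, hTc.2] at hcl0
      linear_combination hcl0 + h1 - h2x (C z' (em hw8 s7)) -
        h2x (∑ ρ ∈ T, (qs ρ (-ϖ') + (1 + z') * s * tO ρ))
    obtain ⟨g1, g2, g3⟩ := linG hrec hG (T := S \ T) Finset.sdiff_subset hw4 huve hvc
      (fun q hq => hbq q (hS.pp q hq))
      (fun q hq hqT => by
        have hqT' : q ∈ T := by
          by_contra h
          exact hqT (Finset.mem_sdiff.2 ⟨hq, h⟩)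
        have := c2 q hqT'
        rw [Nat.cast_one, one_mul, h2x, add_zero] at this
        exact this)
      (fun q hqT => by
        have h1 := Finset.mem_sdiff.1 hqT
        have := c1 q h1.1 h1.2
        rw [Nat.cast_one, one_mul] at this
        rw [Finset.sdiff_sdiff_eq_self hTS, mul_assoc, hvv, mul_one]
        exact this) hc had
    have hTS' : T = S := by
      apply Finset.Subset.antisymm hTS
      rw [← Finset.sdiff_eq_empty_iff_subset]
      exact g1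
    have huv' : u = v := by
      calc u = u * v * v := by rw [mul_assoc, hvv, mul_one]
        _ = v := by rw [g2, one_mul]
    have ha0 : a = 0 := hfin g3
    rw [hδa, ha0, pow_zero, one_mul, hδf, hδe, hmv, hTS', huv']
    ring

end Pool.Agent.NH57.BH

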