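import Pool.Agent.NH57.BL.LA

/-!
# Project BL (helper57): linear algebra over `F_2`, several systems together

Joint version of `Pool/Agent/NH57/BL/LA.lean`, after `Pool/Agent/R426/QJ/Stm.lean` (there without the
unknown `e` and without the border): the systems of the subsets `W i` of the small primes, with the same
large primes.
-/

set_option autoImplicit false
set_option linter.unusedVariables false

open scoped Classical

namespace Pool.Agent.NH57.BJ

open Finset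
open Pool.Agent.NH57.BL (prs ext c2 IndA S_LA1J Vc)

/-- the labels of the small primes `U` and the large primes `J`, for the family `I` of systems -/
structure Blk (I U J : Type) where
  W : I → Finset U
  sU : U → ZMod 2
  tU : U → ZMod 2
  dU : I → U → ZMod 2
  gU : I → U → ZMod 2
  sJ : J → ZMod 2
  tJ : J → ZMod 2
  dJ : I → J → ZMod 2
  gJ : I → J → ZMod 2
  A : U → U → ZMod 2
  B : U → J → ZMod 2

section blocks

variable {I U J : Type} [Fintype U] [Fintype J]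

/-- the row of a small prime in the system `i` -/
def rowU (L : Blk I U J) (i : I) (z : Vc U J) (u : U) : ZMod 2 :=
  L.sU u * z.1 u + ∑ v ∈ L.W i, L.A u v * (z.1 u + z.1 v) + ∑ l, L.B u l * (z.1 u + z.2.1 l) +
    z.2.2 * L.gU i u

/-- the constant part of the row of a large prime -/
def fJ (L : Blk I U J) (i : I) (z : Vc U J) (k : J) : ZMod 2 :=
  L.sJ k * z.2.1 k + ∑ u ∈ L.W i, (L.B u k + L.tU u * L.tJ k) * (z.2.1 k + z.1 u) +
    z.2.2 * L.gJ i k

/-- the row of a large prime -/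
def rowJ (L : Blk I U J) (R : J → J → ZMod 2) (i : I) (z : Vc U J) (k : J) : ZMod 2 :=
  fJ L i z k + ∑ l, R k l * (z.2.1 k + z.2.1 l)

/-- the border -/
def bor (a b : I → ZMod 2) (L : Blk I U J) (i : I) (z : Vc U J) : ZMod 2 :=
  a i * z.2.2 + b i * (∑ u ∈ L.W i, L.dU i u * z.1 u + ∑ l, L.dJ i l * z.2.1 l)

/-- the only solution of the system `i` is zero -/
def GdJ (a b : I → ZMod 2) (L : Blk I U J) (R : J → J → ZMod 2) (i : I) : Prop :=
  ∀ z : Vc U J, (∀ u, u ∉ L.W i → z.1 u = 0) → (∀ u ∈ L.W i, rowU L i z u = 0) →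
    (∀ k, rowJ L R i z k = 0) → bor a b L i z = 0 → z = 0

/-- the sum of the labels of a large prime -/
def La (L : Blk I U J) (i : I) (k : J) : ZMod 2 := ∑ u ∈ L.W i, (L.B u k + L.tU u * L.tJ k)

/-- the hypotheses on the blocks -/
structure Hyp (K V : ℕ) (L : Blk I U J) : Prop where
  many : ∀ i j : I, K * Fintype.card U + V ≤
    (univ.filter fun k => La L i k + La L j k + L.tJ k = 1).card
  diff : ∀ i j : I, i ≠ j → K * Fintype.card U + V ≤
    (univ.filter fun k => La L i k + La L j k = 1).card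
  par : ∀ i, ∑ u ∈ L.W i, L.tU u + ∑ j, L.tJ j = 0
  recip : ∀ u v, u ≠ v → L.A u v + L.A v u = L.tU u * L.tU v
  nd : ∀ (i : I) (w : U → ZMod 2) (e f : ZMod 2), ((∃ u, w u ≠ 0) ∨ e ≠ 0 ∨ f ≠ 0) →
    (∃ k, e * L.sJ k + f * L.gJ i k + ∑ u, w u * (L.B u k + L.tU u * L.tJ k) ≠ 0) ∧
    ∃ k, e * (L.sJ k + L.tJ k) + f * L.dJ i k + ∑ u, w u * L.B u k ≠ 0

/-- the vectors that can lie in the kernel of the system `i` -/
def UR [LinearOrder J] (a b : I → ZMod 2) (L : Blk I U J) (i : I) (z : Vc U J) : Prop :=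
  (∀ u, u ∉ L.W i → z.1 u = 0) ∧ (∀ u ∈ L.W i, rowU L i z u = 0) ∧ bor a b L i z = 0 ∧
  ∑ k, fJ L i z k + ∑ e ∈ prs J, L.tJ e.1 * L.tJ e.2 * (z.2.1 e.1 + z.2.1 e.2) = 0

/-- the condition on two vectors -/
noncomputable def bj (L : Blk I U J) (i j : I) (z z' : Vc U J) : ZMod 2 :=
  ∑ k, (fJ L i z k * z'.2.1 k + fJ L j z' k * z.2.1 k) +
    ∑ k, ∑ l, (if k = l then 0 else L.tJ k * L.tJ l * (z.2.1 k * z'.2.1 l))

end blocks

/-- the probability that a random completion is good for all the systems is close to `c2 ^ #I` -/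
def LAXJ (I : Type) [Fintype I] (ε : ℝ) (K V : ℕ) : Prop :=
  ∀ (a b : I → ZMod 2), (∀ i, a i ≠ 0 ∨ b i ≠ 0) →
  ∀ (U J : Type) [Fintype U] [Fintype J] [LinearOrder J] (L : Blk I U J), Hyp K V L →
  |((univ.filter fun α : prs J → ZMod 2 => ∀ i, GdJ a b L (ext L.tJ α) i).card : ℝ) /
      2 ^ (prs J).card - c2 ^ Fintype.card I| ≤ ε

/-- FINAL of the linear algebra part. -/
def S_LAXJ : Prop := ∀ (I : Type) [Fintype I] (ε : ℝ), 0 < ε → ∃ K V : ℕ, LAXJ I ε K V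

/-- known (`Pool.Agent.R426.QJ.S_MOMJ`): the probability that all of some random numbers are zero, from
the joint moments. -/
def S_MOMJ : Prop := ∀ (I : Type) [Fintype I] (ε : ℝ), 0 < ε → ∃ (M : ℕ) (δ : ℝ), 0 < δ ∧
  ∀ (Ω : Type) [Fintype Ω] [Nonempty Ω] (r : Ω → I → ℕ),
  (∀ m : I → ℕ, (∀ i, m i ≤ M) →
    |(∑ ω, ∏ i, ∏ a ∈ range (m i), ((2 : ℝ) ^ r ω i - 2 ^ a)) / Fintype.card Ω - 1| ≤ δ) →
  |((univ.filter fun ω => ∀ i, r ω i = 0).card : ℝ) / Fintype.card Ω - c2 ^ Fintype.card I| ≤ ε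

/-- BL-41: the number of the tuples that can lie in the kernels (compare `QJ.S_LA2J`). -/
def S_LXJ2 : Prop := ∀ (I : Type) [Fintype I] (m : I → ℕ) (δ : ℝ), 0 < δ → ∃ K V : ℕ,
  ∀ (a b : I → ZMod 2), (∀ i, a i ≠ 0 ∨ b i ≠ 0) →
  ∀ (U J : Type) [Fintype U] [Fintype J] [LinearOrder J] (L : Blk I U J), Hyp K V L →
  |((univ.filter fun z : (Σ i, Fin (m i)) → Vc U J =>
      IndA (fun p => (z p).2.1) ∧ (∀ p, UR a b L p.1 (z p)) ∧
      ∀ p q, p ≠ q → bj L p.1 q.1 (z p) (z q) = 0).card : ℝ) *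
      2 ^ (∑ i, m i).choose 2 / 2 ^ ((∑ i, m i) * (Fintype.card J - 1)) - 1| ≤ δ

/-- BL-42: the tuples of vectors in the kernels that are independent modulo the constants in each of
the systems but not jointly are rare (compare `QJ.S_LA3J`). -/
def S_LXJ3 : Prop := S_LA1J → ∀ (I : Type) [Fintype I] (m : I → ℕ) (δ : ℝ), 0 < δ → ∃ K V : ℕ,
  ∀ (a b : I → ZMod 2), (∀ i, a i ≠ 0 ∨ b i ≠ 0) →
  ∀ (U J : Type) [Fintype U] [Fintype J] [LinearOrder J] (L : Blk I U J), Hyp K V L →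
  ((univ.filter fun y : (prs J → ZMod 2) × ((Σ i, Fin (m i)) → Vc U J) =>
      (∀ i, IndA (fun p : Fin (m i) => (y.2 ⟨i, p⟩).2.1)) ∧ ¬ IndA (fun p => (y.2 p).2.1) ∧
      (∀ p, UR a b L p.1 (y.2 p)) ∧
      ∀ p k, rowJ L (ext L.tJ y.1) p.1 (y.2 p) k = 0).card : ℝ) ≤ δ * 2 ^ (prs J).card

/-- BL-43: the assembly (compare `QJ.S_LA4J`) -/
def S_LXJ4 : Prop := S_MOMJ → S_LA1J → S_LXJ2 → S_LXJ3 → S_LAXJ

end Pool.Agent.NH57.BJ
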