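import Mathlib

/-!
# Project BL (helper57): linear algebra over `F_2`, statements

The matrices of the quadratic symbols of the prime divisors of `D = 5 mod 8`, bordered by the symbols of
the two primes above 2. `U` = small primes, `J` = large primes. Unknowns: `c : U → F_2`, `x : J → F_2`,
`e : F_2`. With `M` the matrix of `Pool/Agent/R426/QK/Stm.lean` (`GdA`), `g`, `d` two vectors of labels,
the system is `M z + e g = 0`, `a e + b (d . z) = 0`, for a fixed `(a, b) ≠ (0, 0)`. For `(1, 0)` this is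
`M z = 0`, for `(1, 1)` it is `(M + g d^T) z = 0`, for `(0, 1)` it is the bordered matrix.
`c2 = ∏ (1 - 2^-i)`; the result `S_LA8`: the probability, over the symmetric completions, that the only
solution is zero, is close to `c2`.
-/

set_option autoImplicit false
set_option linter.unusedVariables false

open scoped Classical

namespace Pool.Agent.NH57.BL

open Finset

/-- the pairs of indices (same as `Pool.Agent.R426.QK.prs`) -/
noncomputable def prs (ι : Type) [Fintype ι] [LinearOrder ι] : Finset (ι × ι) :=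
  univ.filter fun e => e.1 < e.2

/-- the matrix with given entries below the diagonal, whose sum with its transpose has the entries
`t k * t l` off the diagonal (same as `Pool.Agent.R426.QK.ext`) -/
noncomputable def ext {ι : Type} [Fintype ι] [LinearOrder ι] (t : ι → ZMod 2) (α : prs ι → ZMod 2)
    (k l : ι) : ZMod 2 :=
  if h : (l, k) ∈ prs ι then α ⟨(l, k), h⟩ else
    if h' : (k, l) ∈ prs ι then α ⟨(k, l), h'⟩ + t k * t l else 0

/-- the limit `(1 - 1/2) (1 - 1/4) (1 - 1/8) ⋯` (same as `Pool.Agent.R426.QK.c2`) -/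
noncomputable def c2 : ℝ := ∏' i : ℕ, (1 - (1 / 2 : ℝ) ^ (i + 1))

/-- the labels of the small primes `U` and the large primes `J` -/
structure Blk (U J : Type) where
  sU : U → ZMod 2
  tU : U → ZMod 2
  dU : U → ZMod 2
  gU : U → ZMod 2
  sJ : J → ZMod 2
  tJ : J → ZMod 2
  dJ : J → ZMod 2
  gJ : J → ZMod 2
  A : U → U → ZMod 2
  B : U → J → ZMod 2

/-- the vectors of unknowns -/
abbrev Vc (U J : Type) : Type := (U → ZMod 2) × (J → ZMod 2) × ZMod 2

section blocks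

variable {U J : Type} [Fintype U] [Fintype J]

/-- the row of a small prime -/
def rowU (L : Blk U J) (z : Vc U J) (u : U) : ZMod 2 :=
  L.sU u * z.1 u + ∑ v, L.A u v * (z.1 u + z.1 v) + ∑ l, L.B u l * (z.1 u + z.2.1 l) + z.2.2 * L.gU u

/-- the row of a large prime -/
def rowJ (L : Blk U J) (R : J → J → ZMod 2) (z : Vc U J) (k : J) : ZMod 2 :=
  L.sJ k * z.2.1 k + ∑ u, (L.B u k + L.tU u * L.tJ k) * (z.2.1 k + z.1 u) +
    ∑ l, R k l * (z.2.1 k + z.2.1 l) + z.2.2 * L.gJ k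

/-- the border -/
def bor (a b : ZMod 2) (L : Blk U J) (z : Vc U J) : ZMod 2 :=
  a * z.2.2 + b * (∑ u, L.dU u * z.1 u + ∑ l, L.dJ l * z.2.1 l)

/-- the only solution of the system is zero -/
def GdX (a b : ZMod 2) (L : Blk U J) (R : J → J → ZMod 2) : Prop :=
  ∀ z : Vc U J, (∀ u, rowU L z u = 0) → (∀ k, rowJ L R z k = 0) → bor a b L z = 0 → z = 0

/-- the labels of the large primes are not degenerate -/
def NdX (L : Blk U J) : Prop :=
  ∀ (w : U → ZMod 2) (e f : ZMod 2), ((∃ u, w u ≠ 0) ∨ e ≠ 0 ∨ f ≠ 0) →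
    (∃ k, e * L.sJ k + f * L.gJ k + ∑ u, w u * (L.B u k + L.tU u * L.tJ k) ≠ 0) ∧
    ∃ k, e * (L.sJ k + L.tJ k) + f * L.dJ k + ∑ u, w u * L.B u k ≠ 0

/-- the hypotheses on the labels -/
structure Hy (V : ℕ) (L : Blk U J) : Prop where
  many : 4 * Fintype.card U + V ≤ (univ.filter fun j => L.tJ j = 1).card
  par : ∑ u, L.tU u + ∑ j, L.tJ j = 0
  recip : ∀ u v, u ≠ v → L.A u v + L.A v u = L.tU u * L.tU v
  nd : NdX L

/-- the sum of all rows -/
def colS (L : Blk U J) (z : Vc U J) : ZMod 2 :=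
  ∑ u, (L.sU u + L.tU u) * z.1 u + ∑ j, (L.sJ j + L.tJ j) * z.2.1 j +
    z.2.2 * (∑ u, L.gU u + ∑ j, L.gJ j)

/-- the alternating form -/
def bb (L : Blk U J) (z z' : Vc U J) : ZMod 2 :=
  (∑ u, L.tU u * z.1 u + ∑ j, L.tJ j * z.2.1 j) * (∑ u, L.tU u * z'.1 u + ∑ j, L.tJ j * z'.2.1 j) +
    (∑ u, L.tU u * (z.1 u * z'.1 u) + ∑ j, L.tJ j * (z.2.1 j * z'.2.1 j)) +
    z.2.2 * (∑ u, L.gU u * z'.1 u + ∑ j, L.gJ j * z'.2.1 j) +
    z'.2.2 * (∑ u, L.gU u * z.1 u + ∑ j, L.gJ j * z.2.1 j)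

/-- the vectors are independent modulo the constant vectors -/
def IndJ {m : ℕ} (d : Fin m → J → ZMod 2) : Prop :=
  ∀ a : Fin m → ZMod 2, (∃ i, a i ≠ 0) → ∃ k l, ∑ i, a i * (d i k + d i l) ≠ 0

/-- the tuples of vectors that can lie in the kernel -/
def OKt (a b : ZMod 2) (L : Blk U J) {m : ℕ} (z : Fin m → Vc U J) : Prop :=
  (∀ i u, rowU L (z i) u = 0) ∧ (∀ i, colS L (z i) = 0) ∧ (∀ i, bor a b L (z i) = 0) ∧
    ∀ i j, bb L (z i) (z j) = 0

end blocks

/-- the probability that a random completion is good is close to `c2` -/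
def LAX (ε : ℝ) (V : ℕ) : Prop := ∀ (a b : ZMod 2), (a ≠ 0 ∨ b ≠ 0) →
  ∀ (U J : Type) [Fintype U] [Fintype J] [LinearOrder J] (L : Blk U J), Hy V L →
  |((univ.filter fun α : prs J → ZMod 2 => GdX a b L (ext L.tJ α)).card : ℝ) /
      2 ^ (prs J).card - c2| ≤ ε

/-- FINAL of the linear algebra part. -/
def S_LAX : Prop := ∀ ε : ℝ, 0 < ε → ∃ V : ℕ, LAX ε V

/-- known (`Pool.Agent.R426.QK.S_MOM`): the probability that a random number `r` is zero, from the
moments of `2 ^ r`. -/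
def S_MOM : Prop := ∀ ε : ℝ, 0 < ε → ∃ (M : ℕ) (δ : ℝ), 0 < δ ∧ ∀ (Ω : Type) [Fintype Ω]
  [Nonempty Ω] (r : Ω → ℕ),
  (∀ m ≤ M, |(∑ ω, ∏ i ∈ range m, ((2 : ℝ) ^ r ω - 2 ^ i)) / Fintype.card Ω - 1| ≤ δ) →
  |((univ.filter fun ω => r ω = 0).card : ℝ) / Fintype.card Ω - c2| ≤ ε

/-- the vectors `d a` are independent modulo the constant vectors (`Pool.Agent.R426.QJ.IndA`) -/
def IndA {A J : Type} [Fintype A] (d : A → J → ZMod 2) : Prop :=
  ∀ w : A → ZMod 2, (∃ a, w a ≠ 0) → ∃ k l, ∑ a, w a * (d a k + d a l) ≠ 0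

/-- known (`Pool.Agent.R426.QJ.S_LA1J`): the number of the symmetric completions that satisfy given
linear equations. -/
def S_LA1J : Prop := ∀ (J T : Type) [Fintype J] [LinearOrder J] [Fintype T] (tJ : J → ZMod 2)
  (f d : T → J → ZMod 2), IndA d →
  (univ.filter fun α : prs J → ZMod 2 =>
      ∀ a k, f a k + ∑ l, ext tJ α k l * (d a k + d a l) = 0).card *
      2 ^ (Fintype.card T * (Fintype.card J - 1)) =
    if (∀ a, ∑ k, f a k + ∑ e ∈ prs J, tJ e.1 * tJ e.2 * (d a e.1 + d a e.2) = 0) ∧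
        (∀ a b, a ≠ b → ∑ k, (f a k * d b k + f b k * d a k) +
          ∑ k, ∑ l, (if k = l then 0 else tJ k * tJ l * (d a k * d b l)) = 0)
      then 2 ^ ((prs J).card + (Fintype.card T).choose 2) else 0

/-- BL-10: the number of the completions with a given tuple in the kernel. -/
def S_LX1 : Prop := ∀ (a b : ZMod 2) (U J : Type) [Fintype U] [Fintype J] [LinearOrder J]
  (L : Blk U J), ∑ u, L.tU u + ∑ j, L.tJ j = 0 →
  (∀ u v, u ≠ v → L.A u v + L.A v u = L.tU u * L.tU v) →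
  ∀ (m : ℕ) (z : Fin m → Vc U J), IndJ (fun i => (z i).2.1) →
  (∀ i u, rowU L (z i) u = 0) → (∀ i, bor a b L (z i) = 0) →
  (univ.filter fun α : prs J → ZMod 2 => ∀ i k, rowJ L (ext L.tJ α) (z i) k = 0).card *
      2 ^ (m * (Fintype.card J - 1)) =
    if OKt a b L z then 2 ^ ((prs J).card + m.choose 2) else 0

/-- BL-11: the number of the tuples that can lie in the kernel. -/
def S_LX2 : Prop := ∀ (m : ℕ) (δ : ℝ), 0 < δ → ∃ V : ℕ, ∀ (a b : ZMod 2), (a ≠ 0 ∨ b ≠ 0) →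
  ∀ (U J : Type) [Fintype U] [Fintype J] (L : Blk U J), Hy V L →
  |((univ.filter fun z : Fin m → Vc U J =>
      IndJ (fun i => (z i).2.1) ∧ OKt a b L z).card : ℝ) * 2 ^ m.choose 2 /
      2 ^ (m * (Fintype.card J - 1)) - 1| ≤ δ

/-- BL-12: the assembly -/
def S_LX3 : Prop := S_MOM → S_LX1 → S_LX2 → S_LAX

/-! ### The parity (BL-13) -/

/-- the system of a set -/
def SolS {σ : Type} (S : Finset σ) (s d g : σ → ZMod 2) (R : σ → σ → ZMod 2) (a b : ZMod 2)
    (v : σ → ZMod 2) (e : ZMod 2) : Prop :=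
  (∀ π ∈ S, s π * v π + ∑ ρ ∈ S, R ρ π * (v π + v ρ) + e * g π = 0) ∧
    a * e + b * ∑ ρ ∈ S, d ρ * v ρ = 0

/-- the only solution is zero -/
def GdS {σ : Type} (S : Finset σ) (s d g : σ → ZMod 2) (R : σ → σ → ZMod 2) (a b : ZMod 2) : Prop :=
  ∀ (v : σ → ZMod 2) (e : ZMod 2), SolS S s d g R a b v e → (∀ π ∈ S, v π = 0) ∧ e = 0

/-- BL-13: of the three systems `(1, 0)`, `(1, 1)`, `(0, 1)` exactly zero or two are good. -/
def S_PAR : Prop := ∀ (σ : Type) (S : Finset σ) (s d g : σ → ZMod 2) (R : σ → σ → ZMod 2),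
  ((if GdS S s d g R 1 0 then 1 else 0) + (if GdS S s d g R 1 1 then 1 else 0) +
    (if GdS S s d g R 0 1 then 1 else 0) : ℕ) =
  if GdS S s d g R 1 0 ∧ GdS S s d g R 1 1 ∨ GdS S s d g R 1 0 ∧ GdS S s d g R 0 1 ∨
    GdS S s d g R 1 1 ∧ GdS S s d g R 0 1 then 2 else 0

end Pool.Agent.NH57.BL
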