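import Pool.Agent.R426.QK.Stm
import Pool.Agent.R426.QC.Slt
import Pool.Agent.NH57.BL.LA

/-!
# Project BL (helper57): the proportion of the twists with all weights

`D` runs over the squarefree elements `≡ 1` modulo `4` of `RR = ℤ[(1 + √-7) / 2]` prime to `√-7`, in one of
the four classes `(x, y)` modulo `8`: `x = 1` if `D` is `5` modulo `aR ^ 3` and `0` if it is `1`, `y` the
same for `cj aR`. The matrix `M` of the quadratic symbols of the prime divisors of `D`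
(`Pool/Agent/R426/QK/Stm.lean`) and the bordered system of `M` with the vectors `g`, `d` of the symbols
of the two primes above 2 are both not singular for a proportion `c2 / 2` of the `D` of each class.
Statements of the parts, after `Pool/Agent/R426/QK/Stm.lean`. The linear algebra part is in
`Pool/Agent/NH57/BL/LA.lean`.
-/

set_option autoImplicit false
set_option linter.unusedVariables false

open scoped Classical

namespace Pool.Agent.NH57.BO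

open Finset
open Pool.Agent.Y698
open Pool.Agent.Y698.SG hiding PD
open Pool.Agent.R426.QK
open Pool.Agent.R426.QC (e6 e3)
open Pool.Agent.Y703.CX (jj XX eL zz kk)

/-- the label at `aR`: `0` if `-aR` is a square modulo the prime `π`, otherwise `1`; changed by the class
of the norm modulo four if `x = 0` -/
noncomputable def dd (x : ZMod 2) (π : RR) : ZMod 2 := cs π (-aR) + (1 + x) * tt π

/-- the label at `cj aR`: `0` if `-(cj aR)` is a square modulo the prime `π`, otherwise `1`; changed by the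
class of the norm modulo four if `y = 0` -/
noncomputable def gg (y : ZMod 2) (π : RR) : ZMod 2 := cs π (-(cj aR)) + (1 + y) * tt π

/-- the sets of the class `(x, y)` with norm at most `X` -/
noncomputable def SS5 (x y : ZMod 2) (X : ℕ) : Finset (Finset RR) :=
  (SS X).filter fun S => ∑ π ∈ S, dd x π = x ∧ ∑ π ∈ S, gg y π = y

/-- the only solution of the system `M v + e g = 0`, `a e + b (d . v) = 0` is zero -/
def Gd5 (x y a b : ZMod 2) (S : Finset RR) : Prop :=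
  Pool.Agent.NH57.BL.GdS S ss (dd x) (gg y) cs a b

/-- the proportion of the good sets for one system -/
def S_DQ5 : Prop := ∀ x y a b : ZMod 2, (a ≠ 0 ∨ b ≠ 0) → Filter.Tendsto
  (fun X : ℕ => (((SS5 x y X).filter (Gd5 x y a b)).card : ℝ) / ((SS5 x y X).card : ℝ))
  Filter.atTop (nhds c2)

/-- FINAL: the proportion of the sets that are good for `M` and for a second system -/
def S_BOTH : Prop := ∀ x y a : ZMod 2, Filter.Tendsto
  (fun X : ℕ => (((SS5 x y X).filter fun S => Gd5 x y 1 0 S ∧ Gd5 x y a 1 S).card : ℝ) /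
    ((SS5 x y X).card : ℝ)) Filter.atTop (nhds (c2 / 2))

/-- the class `(x, y)` of the elements -/
def ClsE5 (x y : ZMod 2) (D : RR) : Prop := ClsE D ∧ (e6 D = 5 ↔ x = 1) ∧ (e3 D = 5 ↔ y = 1)

/-- FINAL, in terms of the elements `D`. -/
def S_DEN5 : Prop := ∀ x y a : ZMod 2, Filter.Tendsto
  (fun X : ℕ => ({D : RR | nrm D ≤ X ∧ ClsE5 x y D ∧ Gd5 x y 1 0 (PD D) ∧ Gd5 x y a 1 (PD D)}.ncard : ℝ) /
    ({D : RR | nrm D ≤ X ∧ ClsE5 x y D}.ncard : ℝ)) Filter.atTop (nhds (c2 / 2))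

/-- the quadratic character of conductor `8` at the prime `aR` -/
noncomputable def k6 (a : RR) : ℂ := ((ZMod.χ₈ (e6 a) : ℤ) : ℂ)

/-- the quadratic character of conductor `8` at the prime `cj aR` -/
noncomputable def k3 (a : RR) : ℂ := ((ZMod.χ₈ (e3 a) : ℤ) : ℂ)

/-- BL-27 SUP8: the supplementary laws and the class. -/
def S_SUP5 : Prop := (∀ π : RR, Pq π → k6 π = ez (cs π (-aR)) ∧ k3 π = ez (cs π (-(cj aR)))) ∧
  ∀ S : Finset RR, (∀ π ∈ S, Pq π) → (∏ π ∈ S, nrm π) % 4 = 1 →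
    (e6 (∏ π ∈ S, π) = 5 ↔ ∑ π ∈ S, cs π (-aR) = 1) ∧
    (e3 (∏ π ∈ S, π) = 5 ↔ ∑ π ∈ S, cs π (-(cj aR)) = 1)

/-- BL-26 NS8, first part: the numbers of elements. -/
def S_NS5' : Prop := S_SUP5 → ∀ (x y : ZMod 2) (X : ℕ) (Q : Finset RR → Prop),
  {D : RR | nrm D ≤ X ∧ ClsE5 x y D ∧ Q (PD D)}.ncard = ((SS5 x y X).filter Q).card

/-- BL-26 NS8: the translation. -/
def S_NS5 : Prop := S_SUP5 → S_BOTH → S_DEN5

/-- BL-24 LOW8: the classes have positive density. -/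
def S_LOW5 : Prop := ∀ x y : ZMod 2, ∃ (c : ℝ) (X₀ : ℕ), 0 < c ∧ ∀ X : ℕ, X₀ ≤ X →
  c * X ≤ ((SS5 x y X).card : ℝ)

/-- the labels of the large primes with respect to the small ones are not degenerate -/
def Nd5 (x y : ZMod 2) (S₀ S₁ : Finset RR) : Prop :=
  ∀ (w : RR → ZMod 2) (e f : ZMod 2), ((∃ u ∈ S₀, w u ≠ 0) ∨ e ≠ 0 ∨ f ≠ 0) →
    (∃ π ∈ S₁, e * ss π + f * gg y π + ∑ u ∈ S₀, w u * cs u π ≠ 0) ∧
    ∃ π ∈ S₁, e * (ss π + tt π) + f * dd x π + ∑ u ∈ S₀, w u * cs π u ≠ 0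

/-- not degenerate, and in the class -/
def ND5 (x y : ZMod 2) (S₀ S₁ : Finset RR) : Prop :=
  Nd5 x y S₀ S₁ ∧ ∑ π ∈ S₀, dd x π + ∑ π ∈ S₁, dd x π = x ∧
    ∑ π ∈ S₀, gg y π + ∑ π ∈ S₁, gg y π = y

/-- BL-20 BOX8: the count in a box. -/
def S_BOX5 : Prop := RecP → S_EQ → ∀ (ε : ℝ) (V : ℕ), Pool.Agent.NH57.BL.LAX ε V →
  ∀ (x y a b : ZMod 2), (a ≠ 0 ∨ b ≠ 0) → ∀ (ι : Type) [Fintype ι] [LinearOrder ι]
  (C : ι → Finset RR) (X : ι → ℕ) (κ : ℝ) (S₀ : Finset RR), 0 ≤ κ → (∀ i, (C i).card ≤ X i) →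
  HB C X κ → (∀ u ∈ S₀, Pq u) → (∀ i, ∀ π ∈ C i, Pq π ∧ π ∉ S₀) →
  (∀ i l, i ≠ l → Disjoint (C i) (C l)) →
  (∀ p ∈ Fintype.piFinset C, 4 * S₀.card + V ≤ (univ.filter fun i => tt (p i) = 1).card ∧
    ∑ u ∈ S₀, tt u + ∑ i, tt (p i) = 0) →
  |(((Fintype.piFinset C).filter fun p =>
        ND5 x y S₀ (univ.image p) ∧ Gd5 x y a b (S₀ ∪ univ.image p)).card : ℝ) -
      c2 * (((Fintype.piFinset C).filter fun p => ND5 x y S₀ (univ.image p)).card : ℝ)| ≤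
    ε * (((Fintype.piFinset C).filter fun p => ND5 x y S₀ (univ.image p)).card : ℝ) +
    2 ^ ((S₀.card + 4) * Fintype.card ι + (prs ι).card) * (κ * ∏ j, (X j : ℝ))

/-- BL-21 KEY8: the sum over the boxes. -/
def S_KEY5 : Prop := RecP → S_BIL → S_EQ → S_BOX5 → ∃ C : ℝ, 1 ≤ C ∧
  ∀ (ε : ℝ) (V : ℕ), 0 < ε → Pool.Agent.NH57.BL.LAX ε V → ∀ (x y a b : ZMod 2), (a ≠ 0 ∨ b ≠ 0) →
  ∀ (X z H k N : ℕ) (κ : ℝ), 1 ≤ X → 1 ≤ H → 1 ≤ z → 0 ≤ κ → C ≤ κ ^ 24 * z →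
  (H : ℝ) * Real.log X < N →
  |(((Rg X z H k V).filter fun S => ND5 x y (sm z S) (la z S) ∧ Gd5 x y a b S).card : ℝ) -
      c2 * (((Rg X z H k V).filter fun S => ND5 x y (sm z S) (la z S)).card : ℝ)| ≤
    ε * ((Rg X z H k V).card : ℝ) +
    (9 * N + 9 : ℝ) ^ k * (3 ^ (9 * k ^ 2 + 9) * κ) * (X * (1 + Real.log X))

/-- few sets have degenerate labels -/
def S_BAD5 : Prop := ∀ x y : ZMod 2, ∀ ε : ℝ, 0 < ε → ∃ X₀ : ℕ, ∀ X : ℕ, X₀ ≤ X →
  (((SS X).filter fun S => S.card ≤ kk X ∧ ¬ Nd5 x y (sm (zz X) S) (la (zz X) S)).card : ℝ) ≤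
    ε * X

/-- the real characters -/
noncomputable def xr5 (n : RR) (i j k l : ℕ) (a : RR) : ℂ := xr n i j a * k6 a ^ k * k3 a ^ l

/-- BL-23 HALL8: sums of multiplicative functions twisted by a real character -/
def S_HALL5 : Prop := ∃ C : ℝ, 1 ≤ C ∧ ∀ (n : RR) (i j k l : ℕ), PS n → i < 2 → j < 2 → k < 2 →
  l < 2 → (n ≠ 1 ∨ i ≠ 0 ∨ j ≠ 0 ∨ k ≠ 0 ∨ l ≠ 0) → ∀ T : ℕ,
  ∑ a ∈ SB T, mf (fun π => (2 + (xr5 n i j k l π).re) / 3) a ≤
    C * (lgn (nrm n)) ^ (1 / 3 : ℝ) * (T * (lgn T) ^ (-(1 / 3) : ℝ))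

/-- BL-22 FB8 -/
def S_FB5 : Prop := RecP → S_SUP5 → S_HALL5 → S_MERT → S_BAD5

/-- BL-25 ASY8: the assembly for one system -/
def S_ASY5 : Prop := RecP → S_BIL → S_EQ → Pool.Agent.NH57.BL.S_LAX → S_BOX5 → S_KEY5 → S_CNT →
  S_BAD5 → S_FEW → S_LOW5 → S_C2 → S_DQ5

/-- BL-25 ASY8, second part: the two systems together -/
def S_TWO5 : Prop := S_LOW5 → Pool.Agent.NH57.BL.S_PAR → S_DQ5 → S_BOTH

end Pool.Agent.NH57.BO
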