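import Pool.Agent.R426.QJ.Stm
import Pool.Agent.R426.QM.Stm
import Pool.Agent.NH57.BL.Stm2
import Pool.Agent.NH57.BL.LJ

/-!
# Project BL (helper57): joint proportions, statements

Let `F i` (`i ∈ I`) be a finite number of different sets of primary primes (`Fx`, project QJ,
`Pool/Agent/R426/QJ/Stm.lean`). For the sets `S` of the class `(x, y)` modulo `8` (`SS5 x y`,
`Pool/Agent/NH57/BL/Stm2.lean`) that are disjoint from all the `F i` the set `S ∪ F i` is in the class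
`(x + xc (F i), y + yc (F i))`. The proportion of the `S` for which all the sets `S ∪ F i` are good for
their systems `(a i, b i)` tends to `c2 ^ #I`. Statements of the parts, after
`Pool/Agent/R426/QJ/Stm.lean` and `Pool/Agent/NH57/BL/Stm2.lean`.
-/

set_option autoImplicit false
set_option linter.unusedVariables false

open scoped Classical

namespace Pool.Agent.NH57.BP

open Finset
open Pool.Agent.Y698
open Pool.Agent.Y698.SG hiding PD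
open Pool.Agent.R426.QK
open Pool.Agent.R426.QJ (Fx ZZ SSJ RgJ)
open Pool.Agent.NH57.BO
open Pool.Agent.NH57.BJ (LAXJ S_LAXJ)
open Pool.Agent.Y703.CX (jj XX eL zz kk)

/-- the change of the class at `aR` -/
noncomputable def xc (F : Finset RR) : ZMod 2 := ∑ u ∈ F, cs u (-aR)

/-- the change of the class at `cj aR` -/
noncomputable def yc (F : Finset RR) : ZMod 2 := ∑ u ∈ F, cs u (-(cj aR))

/-- the sets of the class `(x, y)` with norm at most `X`, disjoint from `Z` -/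
noncomputable def SSJ5 (Z : Finset RR) (x y : ZMod 2) (X : ℕ) : Finset (Finset RR) :=
  (SS5 x y X).filter fun S => Disjoint S Z

/-- the good sets for the systems `(a i, b i)` -/
def GdJ5 {I : Type} (F : I → Finset RR) (x y : ZMod 2) (a b : I → ZMod 2) (S : Finset RR) : Prop :=
  ∀ i, Gd5 (x + xc (F i)) (y + yc (F i)) (a i) (b i) (S ∪ F i)

/-- the joint proportion of the good sets -/
def S_DQJ5 : Prop := ∀ (I : Type) [Fintype I] (F : I → Finset RR), Fx I F → ∀ (x y : ZMod 2)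
  (a b : I → ZMod 2), (∀ i, a i ≠ 0 ∨ b i ≠ 0) → Filter.Tendsto
  (fun X : ℕ => (((SSJ5 (ZZ F) x y X).filter (GdJ5 F x y a b)).card : ℝ) /
    ((SSJ5 (ZZ F) x y X).card : ℝ)) Filter.atTop (nhds (c2 ^ Fintype.card I))

/-- FINAL: the proportion of the sets `S` such that all the `S ∪ F i` are good for `M` and for a second
system -/
def S_BOTHJ : Prop := ∀ (I : Type) [Fintype I] (F : I → Finset RR), Fx I F → ∀ (x y : ZMod 2)
  (a : I → ZMod 2), Filter.Tendsto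
  (fun X : ℕ => (((SSJ5 (ZZ F) x y X).filter fun S =>
      ∀ i, Gd5 (x + xc (F i)) (y + yc (F i)) 1 0 (S ∪ F i) ∧
        Gd5 (x + xc (F i)) (y + yc (F i)) (a i) 1 (S ∪ F i)).card : ℝ) /
    ((SSJ5 (ZZ F) x y X).card : ℝ)) Filter.atTop (nhds ((c2 / 2) ^ Fintype.card I))

/-- BL-47 LOW: the classes have positive density. -/
def S_LOWJ5 : Prop := ∀ Z : Finset RR, (∀ u ∈ Z, Pq u) → ∀ x y : ZMod 2,
  ∃ (c : ℝ) (X₀ : ℕ), 0 < c ∧ ∀ X : ℕ, X₀ ≤ X → c * X ≤ ((SSJ5 Z x y X).card : ℝ)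

/-- the labels of the large primes with respect to the small ones are not degenerate -/
def NdC {I : Type} [Fintype I] (F : I → Finset RR) (K V : ℕ) (x y : ZMod 2) (S₀ S₁ : Finset RR) :
    Prop :=
  (∀ i, Nd5 (x + xc (F i)) (y + yc (F i)) (S₀ ∪ ZZ F) S₁) ∧
  (∀ i j : I, K * (S₀ ∪ ZZ F).card + V ≤
    (S₁.filter fun π => ∑ u ∈ F i, cs u π + ∑ u ∈ F j, cs u π + tt π = 1).card) ∧
  ∀ i j : I, i ≠ j → K * (S₀ ∪ ZZ F).card + V ≤
    (S₁.filter fun π => ∑ u ∈ F i, cs u π + ∑ u ∈ F j, cs u π = 1).card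

/-- not degenerate, and in the class -/
def NdJ5 {I : Type} [Fintype I] (F : I → Finset RR) (K V : ℕ) (x y : ZMod 2) (S₀ S₁ : Finset RR) :
    Prop :=
  NdC F K V x y S₀ S₁ ∧ ∑ π ∈ S₀, dd x π + ∑ π ∈ S₁, dd x π = x ∧
    ∑ π ∈ S₀, gg y π + ∑ π ∈ S₁, gg y π = y

/-- BL-44 BOX: the count in a box (compare `QJ.S_BOXJ`, `BO.S_BOX5`). -/
def S_BOXJ5 : Prop := RecP → S_EQ → ∀ (I : Type) [Fintype I] (F : I → Finset RR), Fx I F →
  ∀ (ε : ℝ) (K V : ℕ), LAXJ I ε K V → ∀ (x y : ZMod 2) (a b : I → ZMod 2),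
  (∀ i, a i ≠ 0 ∨ b i ≠ 0) → ∀ (ι : Type) [Fintype ι] [LinearOrder ι]
  (C : ι → Finset RR) (X : ι → ℕ) (κ : ℝ) (S₀ : Finset RR), 0 ≤ κ → (∀ i, (C i).card ≤ X i) →
  HB C X κ → (∀ u ∈ S₀, Pq u) → Disjoint S₀ (ZZ F) → (∀ i, ∀ π ∈ C i, Pq π ∧ π ∉ S₀ ∪ ZZ F) →
  (∀ i l, i ≠ l → Disjoint (C i) (C l)) →
  (∀ p ∈ Fintype.piFinset C, ∑ u ∈ S₀, tt u + ∑ i, tt (p i) = 0) →
  |(((Fintype.piFinset C).filter fun p => NdJ5 F K V x y S₀ (univ.image p) ∧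
        GdJ5 F x y a b (S₀ ∪ univ.image p)).card : ℝ) -
      c2 ^ Fintype.card I *
        (((Fintype.piFinset C).filter fun p => NdJ5 F K V x y S₀ (univ.image p)).card : ℝ)| ≤
    ε * (((Fintype.piFinset C).filter fun p => NdJ5 F K V x y S₀ (univ.image p)).card : ℝ) +
    2 ^ (((S₀ ∪ ZZ F).card + 4) * Fintype.card ι + (prs ι).card) * (κ * ∏ j, (X j : ℝ))

/-- BL-45 KEY: the sum over the boxes (compare `QJ.S_KEYJ`, `BO.S_KEY5`). -/
def S_KEYJ5 : Prop := RecP → S_BIL → S_EQ → S_BOXJ5 → ∃ C : ℝ, 1 ≤ C ∧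
  ∀ (I : Type) [Fintype I] (F : I → Finset RR), Fx I F →
  ∀ (ε : ℝ) (K V : ℕ), 0 < ε → LAXJ I ε K V → ∀ (x y : ZMod 2) (a b : I → ZMod 2),
  (∀ i, a i ≠ 0 ∨ b i ≠ 0) →
  ∀ (X z H k N : ℕ) (κ : ℝ), 1 ≤ X → 1 ≤ H → 1 ≤ z → 0 ≤ κ → C ≤ κ ^ 24 * z →
  (H : ℝ) * Real.log X < N → (∀ u ∈ ZZ F, nrm u ≤ z) → (ZZ F).card ≤ k →
  |(((RgJ (ZZ F) X z H k).filter fun S =>
          NdJ5 F K V x y (sm z S) (la z S) ∧ GdJ5 F x y a b S).card : ℝ) -
      c2 ^ Fintype.card I *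
        (((RgJ (ZZ F) X z H k).filter fun S => NdJ5 F K V x y (sm z S) (la z S)).card : ℝ)| ≤
    ε * ((RgJ (ZZ F) X z H k).card : ℝ) +
    (9 * N + 9 : ℝ) ^ k * (3 ^ (9 * k ^ 2 + 9) * κ) * (X * (1 + Real.log X))

/-- few sets have degenerate labels -/
def S_BADJ5 : Prop := ∀ (I : Type) [Fintype I] (F : I → Finset RR), Fx I F →
  ∀ (x y : ZMod 2) (K V : ℕ) (ε : ℝ), 0 < ε → ∃ X₀ : ℕ, ∀ X : ℕ, X₀ ≤ X →
  (((SSJ (ZZ F) X).filter fun S => S.card ≤ kk X ∧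
    ¬ NdC F K V x y (sm (zz X) S) (la (zz X) S)).card : ℝ) ≤ ε * X

/-- BL-46 FB (compare `QJ.S_FBJ`, `BO.S_FB5`; the conditions on `tt` are known from `QJ.S_FBJ`) -/
def S_FBJ5 : Prop := RecP → S_SUP5 → S_HALL5 → S_MERT → Pool.Agent.R426.QJ.S_FBJ → S_BADJ5

/-- BL-48 ASY: the assembly (compare `BO.S_ASY5` and `Pool/Agent/R426/QJ/Asy.lean`) -/
def S_ASYJ5 : Prop := RecP → S_BIL → S_EQ → S_LAXJ → S_BOXJ5 → S_KEYJ5 → S_CNT →
  S_BADJ5 → S_FEW → S_LOWJ5 → S_C2 → S_DQJ5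

/-- BL-49 TWO: the two systems together (compare `BO.S_TWO5`) -/
def S_TWOJ5 : Prop := S_LOWJ5 → Pool.Agent.NH57.BL.S_PAR → S_DQJ5 → S_BOTHJ

/-! ### In terms of the elements -/

/-- the elements that are good for `M` and for the system `(f x y, 1)`, of all classes `(x, y)` -/
def GoodA (f : ZMod 2 → ZMod 2 → ZMod 2) (D : RR) : Prop :=
  ∃ x y : ZMod 2, ClsE5 x y D ∧ Gd5 x y 1 0 (PD D) ∧ Gd5 x y (f x y) 1 (PD D)

/-- the elements of the class prime to the `d i` (`Pool.Agent.R426.QM.FamR`) -/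
def FamR {n : ℕ} (d : Fin n → RR) (X : ℕ) : Set RR :=
  {D | nrm D ≤ X ∧ ClsE D ∧ ∀ i, IsCoprime D (d i)}

/-- all the twists are good -/
def AllA (f : ZMod 2 → ZMod 2 → ZMod 2) {n : ℕ} (d : Fin n → RR) (D : RR) : Prop :=
  ∀ (T : Finset (Fin n)) (N c : RR), ClsE N → c ≠ 0 → D * ∏ i ∈ T, d i = N * c ^ 2 → GoodA f N

/-- independence (`Pool.Agent.R426.QM.IndR`) -/
def IndR {n : ℕ} (d : Fin n → RR) : Prop :=
  ∀ T : Finset (Fin n), T.Nonempty → ∀ a b : RR, b ≠ 0 → b ^ 2 * ∏ i ∈ T, d i ≠ a ^ 2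

/-- BL-50 DENS: the joint proportion, in terms of the elements (compare
`Pool/Agent/R426/QM/Dens.lean`) -/
def S_DENS : Prop := Pool.Agent.R426.QM.S_CLS → Pool.Agent.R426.QM.S_MUL → S_SUP5 → S_BOTHJ →
  S_LOWJ5 → S_C2 → ∀ (f : ZMod 2 → ZMod 2 → ZMod 2) (n : ℕ) (d : Fin n → RR), (∀ i, ClsE (d i)) →
  IndR d →
  Filter.Tendsto (fun X : ℕ => (({D ∈ FamR d X | AllA f d D}).ncard : ℝ) /
    ((FamR d X).ncard : ℝ)) Filter.atTop (nhds ((c2 / 2) ^ 2 ^ n)) ∧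
  ∃ δ : ℝ, 0 < δ ∧ ∀ᶠ X : ℕ in Filter.atTop,
    δ * X ≤ (({D ∈ FamR d X | AllA f d D}).ncard : ℝ)

end Pool.Agent.NH57.BP
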