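import Pool.Agent.NH57.BL.Gal

/-!
# Project BL (helper57): Bloch–Kato Selmer groups of all weights, all `D = 1` modulo `4`

Continuation of `Pool/Agent/NH57/BL/Gal.lean` (the case `D = 5` modulo `8`) for all the classes of `D = 1`
modulo `4`: `x = 1` if `D` is `5` modulo `ω ^ 3` and `x = 0` if it is `1`; `y` the same for `1 - ω`. For `j`
even the strict place is `ϖ' = 1 - ω` and the free place `ϖ = ω`, `m = -√-7 D`; for `j` odd the strict place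
is `ϖ' = ω` and the free place `ϖ = 1 - ω`, `m = √-7 D`.
-/

set_option autoImplicit false
set_option linter.unusedVariables false

namespace Pool.Agent.NH57.BH

open Pool.Agent.R384
open Pool.Agent.NH57.BK
open Pool.Agent.NH57.BG (e6 e3 S_SUPO S_RED8 S_VAL8 Fre8 S_FRE8)
open Pool.Agent.Y676.IS (Cu)
open Pool.Agent.Y715.Red Pool.Agent.Y715.Nr Pool.Agent.W237.RK
open Pool.Agent.Y715.Gi (QB KK GK)
open Pool.Agent.Y715.Df (Cmp)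

open scoped Classical

/-- `t` is `1` modulo `8` if `z = 1`, and `5` modulo `8` if `z = 0` -/
def Mz (z : ZMod 2) (t : PadicAlgCl 2) : Prop := (z = 1 ∧ ‖t - 1‖ ≤ 1 / 8) ∨ (z = 0 ∧ ‖t - 5‖ ≤ 1 / 8)

/-- BL-31: the sizes at the two places above two (compare `S_MOD`, `Pool/Agent/NH57/BK/Mod.lean`, and
`S_MOD8`, `Pool/Agent/NH57/BL/Mod8.lean`) -/
def S_MODG : Prop := ∀ {i₀ : QB} (hi : i₀ ^ 2 = i₀ - 2) (ι : QB →ₐ[ℚ] PadicAlgCl 2) (D : OO)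
  (x y : ZMod 2), (4 : OO) ∣ D - 1 → (em e6 D = 5 ↔ x = 1) → (em e3 D = 5 ↔ y = 1) →
  (‖em (iw hi ι) om‖ < 1 → Mz x (em (iw hi ι) (-(s7 * D)))) ∧
  (‖em (iw hi ι) (1 - om)‖ < 1 → Mz y (em (iw hi ι) (s7 * D)))

/-- BL-32: the local condition at the strict place `ϖ'`, where `-m` is `1` or `5` modulo `8`: `δ` or `δ m`
is `1` modulo `8` (compare `S_STR8`, `Pool/Agent/NH57/BL/Str8.lean`) -/
def S_STRG : Prop := ∀ {i₀ : QB} (hi : i₀ ^ 2 = i₀ - 2) {χ : GK i₀ →* ℤ_[2]ˣ} {m : OO} {r : QB}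
  {ϖ ϖ' : OO}, Pl ϖ ϖ' → ChiD hi χ m r →
  ∀ (ι : QB →ₐ[ℚ] PadicAlgCl 2), ‖em (iw hi ι) ϖ'‖ < 1 → M15 (em (iw hi ι) (-m)) →
  ∀ (c : GK i₀ → ℚ_[2]), (∀ σ, ‖c σ‖ ≤ 1) → CobOn χ (DD ι) c →
  ∀ (δ : OO) (s : QB), Squarefree δ → s ^ 2 = em hi δ → (∀ σ : GK i₀, σ s = s ↔ md c σ = 0) →
  ‖em (iw hi ι) δ - 1‖ ≤ 1 / 8 ∨ ‖em (iw hi ι) (δ * m) - 1‖ ≤ 1 / 8

/-- BL-33: norms from `ℚ_2(√3)` (compare `S_VAL8`, `Pool/Agent/NH57/BL/Val8.lean`) -/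
def S_VALG : Prop := ∀ (v x x' y e : PadicAlgCl 2), (∀ τ : Au 2, τ (v ^ 2) = v ^ 2) →
  ‖v ^ 2 + 5‖ ≤ 1 / 8 → e ≠ 0 → x ≠ 0 → x' ≠ 0 →
  (∀ τ : Au 2, τ v = v → τ x = x) → (∀ τ : Au 2, τ v = -v → τ x = x') →
  (∀ τ : Au 2, τ e = e) → (∀ τ : Au 2, τ y = y) → e * (x * x') = y ^ 2 →
  ∃ k : ℤ, ‖e / (-2 : PadicAlgCl 2) ^ k - 1‖ ≤ 1 / 4

/-- the obstruction at the free place if `m` is `5` modulo `8` there -/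
def FreG : Prop := ∀ {i₀ : QB} (hi : i₀ ^ 2 = i₀ - 2) (ι : QB →ₐ[ℚ] PadicAlgCl 2)
  (u s : QB) (e δ : OO) (f : GK i₀ → QB),
  u ^ 2 = em hi e → ‖em (iw hi ι) e + 5‖ ≤ 1 / 8 → s ^ 2 = em hi δ → s ≠ 0 →
  IsLocallyConstant f → (∀ σ, f σ ^ 4 = 1) → (∀ σ : GK i₀, σ s = f σ ^ 2 * s) →
  (∀ σ τ : GK i₀, f (σ * τ) = if σ u = u then f σ * σ (f τ) else f σ * σ (f τ) * f τ ^ 2) →
  ∃ k : ℤ, ‖em (iw hi ι) δ / (-2 : PadicAlgCl 2) ^ k - 1‖ ≤ 1 / 4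

/-- BL-34: the obstruction at the free place (compare `S_FREA8`, `Pool/Agent/NH57/BL/FreA8.lean`, and
`S_FREA`, `Pool/Agent/NH57/BK/FreA.lean`) -/
def S_FREAG : Prop := S_H90 → S_VALG → FreG

/-- the local condition at the free place `ϖ`, where `m = 5` modulo `8`: `δ` is `1` modulo `4` up to a
power of `ϖ` -/
def S_FREG : Prop := ∀ {i₀ : QB} (hi : i₀ ^ 2 = i₀ - 2) {χ : GK i₀ →* ℤ_[2]ˣ} {m : OO} {r : QB}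
  {ϖ ϖ' : OO}, Pl ϖ ϖ' → ChiD hi χ m r →
  ∀ (ι : QB →ₐ[ℚ] PadicAlgCl 2), ‖em (iw hi ι) ϖ‖ < 1 → ‖em (iw hi ι) m - 5‖ ≤ 1 / 8 →
  ∀ (c : GK i₀ → ℚ_[2]), Coc χ c → (∀ σ, ‖c σ‖ ≤ 1) →
  ∀ (δ : OO) (s : QB), Squarefree δ → s ^ 2 = em hi δ → (∀ σ : GK i₀, σ s = s ↔ md c σ = 0) →
  ‖em (iw hi ι) δ - 1‖ ≤ 1 / 4 ∨ ∃ δ' : OO, δ = ϖ * δ' ∧ ‖em (iw hi ι) δ' - 1‖ ≤ 1 / 4

/-- BL-35: from the obstruction to the local condition (compare `S_FREB8`,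
`Pool/Agent/NH57/BL/FreB8.lean`) -/
def S_FREBG : Prop := FreG → S_FREG

/-! ### The global part -/

/-- the label at `ω` -/
noncomputable def dO (x : ZMod 2) (q : OO) : ZMod 2 := qs q (-om) + (1 + x) * tO q

/-- the label at `1 - ω` -/
noncomputable def gO (y : ZMod 2) (q : OO) : ZMod 2 := qs q (-(1 - om)) + (1 + y) * tO q

/-- the coefficient of the border -/
def aa (x y : ZMod 2) : ZMod 2 := if x = 0 ∧ y = 0 then 0 else 1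

/-- The good sets of primary primes for all weights, in the class `(x, y)`: the product is `1` modulo `4`
and in the class `(x, y)` modulo `8`, the matrix `M` of the symbols is not singular and the bordered system
`M v + e g = 0`, `a e + d . v = 0` has only the solution zero. -/
structure GoodX (x y : ZMod 2) (S : Finset OO) : Prop where
  gs : GoodS S
  six : em e6 (∏ q ∈ S, q) = 5 ↔ x = 1
  three : em e3 (∏ q ∈ S, q) = 5 ↔ y = 1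
  reg : ∀ (v : OO → ZMod 2) (e : ZMod 2),
    (∀ π ∈ S, qs s7 π * v π + ∑ ρ ∈ S, qs ρ π * (v π + v ρ) + e * gO y π = 0) →
    aa x y * e + ∑ ρ ∈ S, dO x ρ * v ρ = 0 → (∀ π ∈ S, v π = 0) ∧ e = 0

/-- BL-36: the elements that satisfy the local conditions (compare `S_ALG8`,
`Pool/Agent/NH57/BL/Alg8.lean`) -/
def S_ALGG : Prop := S_REC → S_SUPO → ∀ (x y : ZMod 2) (S : Finset OO), GoodX x y S →
  ∀ (m ϖ ϖ' δ : OO) (w4 : ZMod 4) (hw4 : w4 ^ 2 = w4 - 2) (w8 : ZMod 8) (hw8 : w8 ^ 2 = w8 - 2)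
  (z : ZMod 2),
  ((m = -(s7 * ∏ q ∈ S, q) ∧ ϖ = om ∧ ϖ' = 1 - om ∧ w4 = 2 ∧ w8 = 3 ∧ z = x) ∨
    (m = s7 * ∏ q ∈ S, q ∧ ϖ = 1 - om ∧ ϖ' = om ∧ w4 = 3 ∧ w8 = 6 ∧ z = y)) →
  Squarefree δ → (em hw8 δ = 1 ∨ em hw8 (δ * m) = 1) →
  (em hw4 δ = 1 ∨ ∃ δ' : OO, δ = (if z = 1 then -ϖ else ϖ) * δ' ∧ em hw4 δ' = 1) →
  (∀ π : OO, Prime π → π ∣ δ → ¬ π ∣ 2 → π ∣ m) →
  (∀ q : OO, Prime q → q ∣ m → (¬ q ∣ δ ∧ Sqm q δ) ∨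
    ∃ δ1 m1, δ = q * δ1 ∧ m = q * m1 ∧ Sqm q (δ1 * m1)) →
  δ = 1 ∨ δ = m

/-- the vanishing theorem over `K` for the remaining weights: the strict place is `1 - ω` for even `j` and
`ω` for odd `j` -/
def VanG : Prop :=
  ∀ {i₀ : QB} (hi : i₀ ^ 2 = i₀ - 2) {κ κ' : GK i₀ →* ℤ_[2]ˣ} {x y : ZMod 2} {S : Finset OO}
  {r I : QB}, GoodX x y S → KD hi κ κ' (-(s7 * ∏ q ∈ S, q)) r I → K8 κ κ' →
  ∀ (j : ℤ) {ϖ' : OO}, (Even j ∧ ϖ' = 1 - om) ∨ (Odd j ∧ ϖ' = om) →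
  ∀ {c : GK i₀ → ℚ_[2]}, Coc (κ ^ j * κ' ^ (1 - j)) c →
  (∀ (p : ℕ) [Fact p.Prime] (ι : QB →ₐ[ℚ] PadicAlgCl p), p ≠ 2 →
      CobOn (κ ^ j * κ' ^ (1 - j)) (II ι) c) →
  (∀ ι : QB →ₐ[ℚ] PadicAlgCl 2, ‖ι (em hi ϖ')‖ < 1 → CobOn (κ ^ j * κ' ^ (1 - j)) (DD ι) c) →
  ∃ y : ℚ_[2], ∀ σ, c σ = (vl (κ ^ j * κ' ^ (1 - j)) σ - 1) * y

/-- BL-37: the assembly (compare `S_MAIN8`, `Pool/Agent/NH57/BL/Main8.lean`) -/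
def S_MAING : Prop := S_C8 → S_MODG → S_RED8 → S_STRG → S_FRE8 → S_FREG → S_ALGG → S_REC → S_SUPO →
  VanG

/-- BL-38: the vanishing theorem over multiquadratic fields (compare `S_MQ`,
`Pool/Agent/NH57/BK/Mq.lean`) -/
def S_MQG : Prop := VanG → ∀ {i₀ : QB} (hi : i₀ ^ 2 = i₀ - 2) {κ κ' : GK i₀ →* ℤ_[2]ˣ} {D : OO}
  {r I : QB} {n : ℕ} {s : Fin n → QB} {E : Fin n → OO}, (∀ i, s i ^ 2 = em hi (E i)) →
  KD hi κ κ' D r I → K8 κ κ' → D ≠ 0 → (∀ i, E i ≠ 0) →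
  (∀ T : Finset (Fin n), ∃ (x y : ZMod 2) (S : Finset OO) (z : OO), GoodX x y S ∧ z ≠ 0 ∧
      D * ∏ i ∈ T, E i = -(s7 * ∏ q ∈ S, q) * z ^ 2) →
  ∀ (j : ℤ) {ϖ' : OO}, (Even j ∧ ϖ' = 1 - om) ∨ (Odd j ∧ ϖ' = om) →
  VanOn hi ϖ' (κ ^ j * κ' ^ (1 - j)) (fixs s Finset.univ)

end Pool.Agent.NH57.BH
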