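import Pool.Agent.NH57.BL.Stm2
import Pool.Agent.NH57.BL.Gal2
import Pool.Agent.NH57.BK.Tr

/-!
# Project BL: the ring `ℤ[ω]` of `R384` and the ring of `R426`, all classes of `D = 1` modulo `4`
-/

set_option autoImplicit false
set_option linter.unusedVariables false
set_option linter.unusedSectionVars false

namespace Pool.Agent.NH57.BH

open Pool.Agent.R384
open Pool.Agent.NH57.BK
open Pool.Agent.NH57.BG (e6 e3 S_SUPO)
open Pool.Agent.NH57.BO (dd gg k6 k3 S_SUP5 Gd5 ClsE5)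
open Pool.Agent.Y698 (RR aR fR cX cY cj nR)
open Pool.Agent.Y698.SG (sy)
open Pool.Agent.W192.HK (sp)
open Pool.Agent.R426

open scoped Classical

/-- the residues modulo eight -/
lemma q6_eR (z : OO) : QC.e6 (eR z) = em e6 z := by
  rw [eR_apply, em_apply]
  show QC.e6 (((z.re : ℤ) : RR) + ((z.im : ℤ) : RR) * aR) = _
  rw [map_add, map_mul, map_intCast, map_intCast, QC.e6_a]

lemma q3_eR (z : OO) : QC.e3 (eR z) = em e3 z := by
  rw [eR_apply, em_apply]
  show QC.e3 (((z.re : ℤ) : RR) + ((z.im : ℤ) : RR) * aR) = _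
  rw [map_add, map_mul, map_intCast, map_intCast, QC.e3_a]

lemma om_not' {q : OO} (hq : Pp q) : ¬ q ∣ om := by
  intro h
  have h1 := hq.prime.associated_of_dvd prime_om h
  have h2 : om ∣ q := h1.symm.dvd
  obtain ⟨t, rfl⟩ := h2
  have h3 := hq.one
  rw [map_mul, show em h2 om = 2 by rw [em_apply]; simp [om]] at h3
  have h4 : ∀ a : ZMod 4, 2 * a ≠ 1 := by decide
  exact h4 _ h3

lemma om_not'' {q : OO} (hq : Pp q) : ¬ q ∣ (1 - om) := by
  intro h
  have h1 := hq.prime.associated_of_dvd prime_om' h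
  exact hq.odd h1.symm.dvd

lemma cs_om {q : OO} (hq : Pp q) : QK.cs (eR q) (-aR) = qs q (-om) := by
  rw [← eR_om, ← map_neg, cs_eR (fun h => om_not' hq (dvd_neg.1 h))]

lemma cs_om' {q : OO} (hq : Pp q) : QK.cs (eR q) (-(cj aR)) = qs q (-(1 - om)) := by
  rw [← eR_om', ← map_neg, cs_eR (fun h => om_not'' hq (dvd_neg.1 h))]

lemma dd_eR (x : ZMod 2) {q : OO} (hq : Pp q) : dd x (eR q) = dO x q := by
  unfold dd dO
  rw [cs_om hq, tt_eR]

lemma gg_eR (y : ZMod 2) {q : OO} (hq : Pp q) : gg y (eR q) = gO y q := by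
  unfold gg gO
  rw [cs_om' hq, tt_eR]

lemma chi8_pos : ∀ z : ZMod 8, ZMod.χ₈ z = 1 → z = 1 ∨ z = 7 := by decide

lemma chi8_neg : ∀ z : ZMod 8, ZMod.χ₈ z = -1 → z = 3 ∨ z = 5 := by decide

lemma ez_or (c : ZMod 2) (n : ℤ) (h : (n : ℂ) = QK.ez c) : (n = 1 ∧ c = 0) ∨ (n = -1 ∧ c = 1) := by
  unfold QK.ez at h
  have hc : c = 0 ∨ c = 1 := by
    have h0 : ∀ t : ZMod 2, t = 0 ∨ t = 1 := by decide
    exact h0 c
  rcases hc with rfl | rfl
  · left
    rw [if_pos rfl] at h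
    exact ⟨by exact_mod_cast h, rfl⟩
  · right
    rw [if_neg (by decide)] at h
    exact ⟨by exact_mod_cast h, rfl⟩

lemma em64 {z : OO} (h : em h2 z = 1) : em e6 z = 1 ∨ em e6 z = 5 := by
  rw [em_apply] at h ⊢
  have h1 : ((z.re + 2 * z.im - 1 : ℤ) : ZMod 4) = 0 := by
    push_cast
    linear_combination h
  rw [ZMod.intCast_zmod_eq_zero_iff_dvd] at h1
  have h3 : (z.re + 6 * z.im - 1) % 8 = 0 ∨ (z.re + 6 * z.im - 5) % 8 = 0 := by omega
  rcases h3 with h3 | h3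
  · left
    have h4 : ((z.re + 6 * z.im - 1 : ℤ) : ZMod 8) = 0 := by
      rw [ZMod.intCast_zmod_eq_zero_iff_dvd]
      omega
    push_cast at h4
    linear_combination h4
  · right
    have h4 : ((z.re + 6 * z.im - 5 : ℤ) : ZMod 8) = 0 := by
      rw [ZMod.intCast_zmod_eq_zero_iff_dvd]
      omega
    push_cast at h4
    linear_combination h4

theorem t_SUPO (hS : S_SUP5) : S_SUPO := by
  intro q hq
  obtain ⟨h6, h3⟩ := hS.1 (eR q) (pq_eR.2 hq)
  rw [cs_om hq] at h6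
  rw [cs_om' hq] at h3
  unfold k6 at h6
  unfold k3 at h3
  rw [q6_eR] at h6
  rw [q3_eR] at h3
  constructor
  · have h7 := em64 hq.one
    rcases ez_or _ _ h6 with ⟨h8, h9⟩ | ⟨h8, h9⟩
    · left
      refine ⟨?_, h9⟩
      rcases chi8_pos _ h8 with h10 | h10
      · exact h10
      · rcases h7 with h7 | h7
        · exact h7
        · rw [h10] at h7
          exact absurd h7 (by decide)
    · right
      refine ⟨?_, h9⟩
      rcases chi8_neg _ h8 with h10 | h10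
      · rcases h7 with h7 | h7
        · rw [h10] at h7
          exact absurd h7 (by decide)
        · exact h7
      · exact h10
  · rcases ez_or _ _ h3 with ⟨h8, h9⟩ | ⟨h8, h9⟩
    · exact Or.inl ⟨chi8_pos _ h8, h9⟩
    · exact Or.inr ⟨chi8_neg _ h8, h9⟩

/-- the good elements -/
theorem goodX_of {x y : ZMod 2} {D : RR} (h : ClsE5 x y D) (hA : Gd5 x y 1 0 (QK.PD D))
    (hB : Gd5 x y (aa x y) 1 (QK.PD D)) : ∃ S : Finset OO, GoodX x y S ∧ eR (∏ q ∈ S, q) = D := by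
  obtain ⟨hcl, h6, h3⟩ := h
  have hG : QK.Gd (QK.PD D) := by
    intro v hv
    refine (hA v 0 ⟨fun π hπ => ?_, by ring⟩).1
    rw [zero_mul, add_zero]
    exact hv π hπ
  obtain ⟨S, hS, hSx⟩ := goodS_of (x := D) ⟨hcl, hG⟩
  have hT : ∀ ρ ∈ S.image eR, QK.Pq ρ := by
    intro ρ hρ
    obtain ⟨q, hq, rfl⟩ := Finset.mem_image.1 hρ
    exact pq_eR.2 (hS.pp q hq)
  have hprod : ∏ ρ ∈ S.image eR, ρ = D := by
    rw [Finset.prod_image (fun a _ b _ h1 => eR.injective h1), ← map_prod, hSx]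
  have hPD : QK.PD D = S.image eR := by
    rw [← hprod]
    exact (QK.PS_prod hT).2
  refine ⟨S, ⟨hS, ?_, ?_, ?_⟩, hSx⟩
  · rw [← q6_eR, hSx]
    exact h6
  · rw [← q3_eR, hSx]
    exact h3
  · intro v e hv hb
    have h1 := hB (fun z => v (eR.symm z)) e ⟨?_, ?_⟩
    · refine ⟨fun π hπ => ?_, h1.2⟩
      have h2 := h1.1 (eR π) (by
        rw [hPD]
        exact Finset.mem_image_of_mem _ hπ)
      rwa [eR.symm_apply_apply] at h2
    · intro w hw
      rw [hPD] at hw ⊢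
      obtain ⟨z, hz, rfl⟩ := Finset.mem_image.1 hw
      have h2 := hv z hz
      simp only [eR.symm_apply_apply]
      rw [ss_eR (hS.pp z hz).sev, gg_eR y (hS.pp z hz), ← h2,
        Finset.sum_image (fun a _ b _ h1 => eR.injective h1)]
      congr 2
      refine Finset.sum_congr rfl fun ρ hρ => ?_
      rw [eR.symm_apply_apply]
      by_cases htz : ρ = z
      · rw [htz]
        have : v z + v z = 0 := CharTwo.add_self_eq_zero _
        rw [this, mul_zero, mul_zero]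
      · rw [cs_eR (ndvd (hS.pp ρ hρ) (hS.pp z hz) htz)]
    · rw [hPD, Finset.sum_image (fun a _ b _ h1 => eR.injective h1)]
      have h3 : ∑ ρ ∈ S, dd x (eR ρ) * v (eR.symm (eR ρ)) = ∑ ρ ∈ S, dO x ρ * v ρ :=
        Finset.sum_congr rfl fun ρ hρ => by rw [eR.symm_apply_apply, dd_eR x (hS.pp ρ hρ)]
      rw [h3, one_mul]
      exact hb

end Pool.Agent.NH57.BH
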