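import Pool.Agent.NH57.BL.Stm2

/-!
# Project BL (helper57), part BL-20: the count in a box

A port of the file `Pool/Agent/R426/QK/BOX.lean` to the bordered systems.
-/

set_option autoImplicit false
set_option linter.unusedVariables false

open scoped Classical

namespace Pool.Agent.NH57.BO

open Finset
open Pool.Agent.Y698
open Pool.Agent.R426.QK
open Pool.Agent.NH57.BL (Blk Vc rowU rowJ bor GdX NdX Hy LAX SolS GdS)

namespace BOX

theorem z2_self (a : ZMod 2) : a + a = 0 := by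
  revert a
  decide

theorem z2_swap {a b c : ZMod 2} (h : a + b = c) : b = a + c := by
  revert h
  revert a b c
  decide

/-- the type of the labels -/
abbrev Lb (S₀ : Finset RR) : Type := (S₀ → ZMod 2) × ZMod 2 × ZMod 2 × ZMod 2 × ZMod 2

/-- the label of a prime with respect to the small primes -/
noncomputable def lb (cx cy : ZMod 2) (S₀ : Finset RR) (x : RR) : Lb S₀ :=
  (fun u => cs x u, ss x, tt x, dd cx x, gg cy x)

/-- the block data of the labels -/
noncomputable def bk {ι : Type} (cx cy : ZMod 2) (S₀ : Finset RR) (β : ι → Lb S₀) : Blk S₀ ι where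
  sU := fun u => ss u
  tU := fun u => tt u
  dU := fun u => dd cx u
  gU := fun u => gg cy u
  sJ := fun k => (β k).2.1
  tJ := fun k => (β k).2.2.1
  dJ := fun k => (β k).2.2.2.1
  gJ := fun k => (β k).2.2.2.2
  A := fun u v => cs v u
  B := fun u k => (β k).1 u

/-- the good labels -/
def LN {ι : Type} [Fintype ι] (cx cy : ZMod 2) (S₀ : Finset RR) (β : ι → Lb S₀) : Prop :=
  NdX (bk cx cy S₀ β) ∧ ∑ u : S₀, dd cx u + ∑ k, (β k).2.2.2.1 = cx ∧
    ∑ u : S₀, gg cy u + ∑ k, (β k).2.2.2.2 = cy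

section one
variable {ι : Type} [Fintype ι] [LinearOrder ι] {S₀ : Finset RR} {p : ι → RR}

/-- extension by zero -/
noncomputable def ez0 {S₀ : Finset RR} (v : S₀ → ZMod 2) (n : RR) : ZMod 2 :=
  if h : n ∈ S₀ then v ⟨n, h⟩ else 0

theorem ez0_coe {S₀ : Finset RR} (v : S₀ → ZMod 2) (u : S₀) : ez0 v u = v u := by
  unfold ez0
  rw [dif_pos u.2]

omit [Fintype ι] [LinearOrder ι] in
theorem cs_sw (hrec : RecP) (hpr : ∀ i, Pq (p i)) (hS₀ : ∀ u ∈ S₀, Pq u)
    (hd : ∀ i, p i ∉ S₀) (k : ι) (u : S₀) :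
    cs (u : RR) (p k) = cs (p k) u + tt (u : RR) * tt (p k) := by
  have hne : p k ≠ u := fun h => hd k (by rw [h]; exact u.2)
  have h := hrec (p k) u (hpr k) (hS₀ u u.2) hne
  rw [z2_swap h, mul_comm]

omit [LinearOrder ι] in
theorem nd5_iff (cx cy : ZMod 2) (hrec : RecP) (hpr : ∀ i, Pq (p i)) (hS₀ : ∀ u ∈ S₀, Pq u)
    (hd : ∀ i, p i ∉ S₀) : Nd5 cx cy S₀ (univ.image p) ↔ NdX (bk cx cy S₀ (fun i => lb cx cy S₀ (p i))) := by
  unfold Nd5 NdX
  have e1 : ∀ (w : RR → ZMod 2) (e f : ZMod 2) (i : ι),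
      e * ss (p i) + f * gg cy (p i) + ∑ u ∈ S₀, w u * cs u (p i) =
      e * (bk cx cy S₀ (fun i => lb cx cy S₀ (p i))).sJ i + f * (bk cx cy S₀ (fun i => lb cx cy S₀ (p i))).gJ i +
        ∑ u : S₀, w u * ((bk cx cy S₀ (fun i => lb cx cy S₀ (p i))).B u i +
          (bk cx cy S₀ (fun i => lb cx cy S₀ (p i))).tU u * (bk cx cy S₀ (fun i => lb cx cy S₀ (p i))).tJ i) := by
    intro w e f i
    rw [← Finset.sum_coe_sort S₀]
    congr 1
    refine Finset.sum_congr rfl fun u _ => ?_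
    rw [cs_sw hrec hpr hS₀ hd i u]
    rfl
  have e2 : ∀ (w : RR → ZMod 2) (e f : ZMod 2) (i : ι),
      e * (ss (p i) + tt (p i)) + f * dd cx (p i) + ∑ u ∈ S₀, w u * cs (p i) u =
      e * ((bk cx cy S₀ (fun i => lb cx cy S₀ (p i))).sJ i + (bk cx cy S₀ (fun i => lb cx cy S₀ (p i))).tJ i) +
        f * (bk cx cy S₀ (fun i => lb cx cy S₀ (p i))).dJ i +
        ∑ u : S₀, w u * (bk cx cy S₀ (fun i => lb cx cy S₀ (p i))).B u i := by
    intro w e f i
    rw [← Finset.sum_coe_sort S₀]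
    rfl
  constructor
  · intro h w e f hw
    have hw' : (∃ u ∈ S₀, ez0 w u ≠ 0) ∨ e ≠ 0 ∨ f ≠ 0 := by
      rcases hw with ⟨u, hu⟩ | hw
      · exact Or.inl ⟨u, u.2, by rw [ez0_coe]; exact hu⟩
      · exact Or.inr hw
    obtain ⟨⟨x, hx, hx2⟩, ⟨y, hy, hy2⟩⟩ := h (ez0 w) e f hw'
    rw [Finset.mem_image] at hx hy
    obtain ⟨i, -, rfl⟩ := hx
    obtain ⟨j, -, rfl⟩ := hy
    rw [e1] at hx2
    rw [e2] at hy2
    simp only [ez0_coe] at hx2 hy2
    exact ⟨⟨i, hx2⟩, ⟨j, hy2⟩⟩
  · intro h w e f hw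
    have hw' : (∃ u : S₀, (fun u : S₀ => w u) u ≠ 0) ∨ e ≠ 0 ∨ f ≠ 0 := by
      rcases hw with ⟨u, hu0, hu⟩ | hw
      · exact Or.inl ⟨⟨u, hu0⟩, hu⟩
      · exact Or.inr hw
    obtain ⟨⟨i, hi⟩, ⟨j, hj⟩⟩ := h (fun u => w u) e f hw'
    refine ⟨⟨p i, Finset.mem_image_of_mem _ (Finset.mem_univ _), ?_⟩,
      ⟨p j, Finset.mem_image_of_mem _ (Finset.mem_univ _), ?_⟩⟩
    · rw [e1]
      exact hi
    · rw [e2]
      exact hj

omit [LinearOrder ι] in
theorem nd_iff (cx cy : ZMod 2) (hrec : RecP) (hp : Function.Injective p) (hpr : ∀ i, Pq (p i))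
    (hS₀ : ∀ u ∈ S₀, Pq u) (hd : ∀ i, p i ∉ S₀) :
    ND5 cx cy S₀ (univ.image p) ↔ LN cx cy S₀ (fun i => lb cx cy S₀ (p i)) := by
  unfold ND5 LN
  rw [nd5_iff cx cy hrec hpr hS₀ hd, Finset.sum_image (fun a _ b _ h => hp h),
    Finset.sum_image (fun a _ b _ h => hp h), ← Finset.sum_coe_sort S₀ (fun u => dd cx u),
    ← Finset.sum_coe_sort S₀ (fun u => gg cy u)]
  exact Iff.rfl

omit [LinearOrder ι] in
theorem sum_un (hp : Function.Injective p) (hd : ∀ i, p i ∉ S₀) (f : RR → ZMod 2) :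
    ∑ x ∈ S₀ ∪ univ.image p, f x = ∑ u : S₀, f u + ∑ l, f (p l) := by
  rw [Finset.sum_union, Finset.sum_image (fun a _ b _ h => hp h), ← Finset.sum_coe_sort S₀]
  rw [Finset.disjoint_left]
  intro x hx hx'
  rw [Finset.mem_image] at hx'
  obtain ⟨i, -, rfl⟩ := hx'
  exact hd i hx

theorem ext_sum (hrec : RecP) (hp : Function.Injective p) (hpr : ∀ i, Pq (p i)) (k : ι)
    (d : ι → ZMod 2) :
    ∑ l, Pool.Agent.R426.QK.ext (fun i => tt (p i))
      (fun e : prs ι => cs (p e.1.1) (p e.1.2)) k l * (d k + d l) =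
      ∑ l, cs (p l) (p k) * (d k + d l) := by
  refine Finset.sum_congr rfl fun l _ => ?_
  by_cases hlk : l = k
  · rw [hlk, z2_self, mul_zero, mul_zero]
  congr 1
  unfold Pool.Agent.R426.QK.ext
  by_cases h : (l, k) ∈ prs ι
  · rw [dif_pos h]
  · rw [dif_neg h]
    have h2 : (k, l) ∈ prs ι := by
      unfold prs at h ⊢
      rw [Finset.mem_filter] at h ⊢
      refine ⟨Finset.mem_univ _, ?_⟩
      rcases lt_trichotomy k l with h1 | h1 | h1
      · exact h1
      · exact absurd h1.symm hlk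
      · exact absurd ⟨Finset.mem_univ _, h1⟩ h
    rw [dif_pos h2]
    have h3 := hrec (p k) (p l) (hpr k) (hpr l) (fun h => hlk (hp h).symm)
    exact (z2_swap h3).symm

/-- the block system of the labels -/
def GdY (cx cy a b : ZMod 2) (β : ι → Lb S₀) (α : prs ι → ZMod 2) : Prop :=
  GdX a b (bk cx cy S₀ β) (Pool.Agent.NH57.BL.ext (bk cx cy S₀ β).tJ α)

theorem gd_iff (cx cy a b : ZMod 2) (hrec : RecP) (hp : Function.Injective p) (hpr : ∀ i, Pq (p i))
    (hS₀ : ∀ u ∈ S₀, Pq u) (hd : ∀ i, p i ∉ S₀) :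
    Gd5 cx cy a b (S₀ ∪ univ.image p) ↔ GdY cx cy a b (fun i => lb cx cy S₀ (p i))
      (fun e : prs ι => cs (p e.1.1) (p e.1.2)) := by
  have hsol : ∀ (c : RR → ZMod 2) (e : ZMod 2),
      SolS (S₀ ∪ univ.image p) ss (dd cx) (gg cy) cs a b c e ↔
      (∀ u : S₀, ss u * c u + ∑ v : S₀, cs v u * (c u + c v) +
        ∑ l, cs (p l) u * (c u + c (p l)) + e * gg cy u = 0) ∧
      (∀ k : ι, ss (p k) * c (p k) + ∑ u : S₀, (cs (p k) u + tt u * tt (p k)) * (c (p k) + c u) +
        ∑ l, Pool.Agent.R426.QK.ext (fun i => tt (p i))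
          (fun e : prs ι => cs (p e.1.1) (p e.1.2)) k l * (c (p k) + c (p l)) +
          e * gg cy (p k) = 0) ∧
      a * e + b * (∑ u : S₀, dd cx u * c u + ∑ l, dd cx (p l) * c (p l)) = 0 := by
    intro c e
    have hsym : ∀ k : ι, ∑ u : S₀, cs (u : RR) (p k) * (c (p k) + c u) =
        ∑ u : S₀, (cs (p k) u + tt (u : RR) * tt (p k)) * (c (p k) + c u) := by
      intro k
      refine Finset.sum_congr rfl fun u _ => ?_
      rw [cs_sw hrec hpr hS₀ hd k u]
    unfold SolS
    rw [sum_un hp hd (fun ρ => dd cx ρ * c ρ)]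
    constructor
    · rintro ⟨h, hb⟩
      refine ⟨fun u => ?_, fun k => ?_, hb⟩
      · have := h u (Finset.mem_union_left _ u.2)
        rw [sum_un hp hd, ← add_assoc] at this
        exact this
      · have := h (p k) (Finset.mem_union_right _ (Finset.mem_image_of_mem _ (Finset.mem_univ _)))
        rw [sum_un hp hd, hsym, ← add_assoc] at this
        rw [ext_sum hrec hp hpr k (fun l => c (p l))]
        exact this
    · rintro ⟨h1, h2, hb⟩
      refine ⟨fun x hx => ?_, hb⟩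
      rw [sum_un hp hd, ← add_assoc]
      rw [Finset.mem_union, Finset.mem_image] at hx
      rcases hx with hx | ⟨k, -, rfl⟩
      · exact h1 ⟨x, hx⟩
      · have := h2 k
        rw [ext_sum hrec hp hpr k (fun l => c (p l))] at this
        rw [hsym]
        exact this
  unfold Gd5 GdS GdY GdX
  constructor
  · intro h z h1 h2 h3
    obtain ⟨c', hc'⟩ : ∃ c' : RR → ZMod 2, ∀ n, c' n = if h : n ∈ S₀ then z.1 ⟨n, h⟩ else
      if h : ∃ l, p l = n then z.2.1 h.choose else 0 := ⟨_, fun n => rfl⟩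
    have e1 : ∀ u : S₀, c' u = z.1 u := by
      intro u
      rw [hc', dif_pos u.2]
    have e2 : ∀ l, c' (p l) = z.2.1 l := by
      intro l
      have hex : ∃ l', p l' = p l := ⟨l, rfl⟩
      rw [hc', dif_neg (hd l), dif_pos hex]
      exact congrArg z.2.1 (hp hex.choose_spec)
    have hs : SolS (S₀ ∪ univ.image p) ss (dd cx) (gg cy) cs a b c' z.2.2 := by
      rw [hsol]
      refine ⟨fun u => ?_, fun k => ?_, ?_⟩
      · simp only [e1, e2]
        exact h1 u
      · simp only [e1, e2]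
        exact h2 k
      · simp only [e1, e2]
        exact h3
    obtain ⟨h4, h5⟩ := h c' z.2.2 hs
    refine Prod.ext (funext fun u => ?_) (Prod.ext (funext fun l => ?_) h5)
    · rw [← e1]
      exact h4 _ (Finset.mem_union_left _ u.2)
    · rw [← e2]
      exact h4 _ (Finset.mem_union_right _ (Finset.mem_image_of_mem _ (Finset.mem_univ _)))
  · intro h c e hc
    rw [hsol] at hc
    have h1 := h ((fun u => c u), (fun l => c (p l)), e) (fun u => hc.1 u)
      (fun k => hc.2.1 k) hc.2.2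
    have ht1 : ∀ u : S₀, c u = 0 := fun u => congrFun (congrArg Prod.fst h1) u
    have ht2 : ∀ l : ι, c (p l) = 0 := fun l => congrFun (congrArg (fun z => z.2.1) h1) l
    have ht3 : e = 0 := congrArg (fun z => z.2.2) h1
    refine ⟨fun x hx => ?_, ht3⟩
    rw [Finset.mem_union, Finset.mem_image] at hx
    rcases hx with hx | ⟨k, -, rfl⟩
    · exact ht1 ⟨x, hx⟩
    · exact ht2 k

end one

theorem HB_sub {ι : Type} {C : ι → Finset RR} {X : ι → ℕ} {κ : ℝ}
    (h : HB C X κ) (P : ι → RR → Prop) [∀ i, DecidablePred (P i)] :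
    HB (fun i => (C i).filter (P i)) X κ := by
  intro i l hil c d hc hd
  have h1 := h i l hil (fun x => if P i x then c x else 0) (fun y => if P l y then d y else 0)
    (fun x => by
      split_ifs
      · exact hc x
      · simp) (fun y => by
      split_ifs
      · exact hd y
      · simp)
  refine (le_of_eq ?_).trans h1
  congr 1
  rw [Finset.sum_filter]
  refine Finset.sum_congr rfl fun x _ => ?_
  by_cases hx : P i x
  · rw [if_pos hx, Finset.sum_filter]
    refine Finset.sum_congr rfl fun y _ => ?_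
    by_cases hy : P l y
    · rw [if_pos hy, if_pos hx, if_pos hy]
    · rw [if_neg hy, if_neg hy, mul_zero, zero_mul]
  · rw [if_neg hx]
    symm
    refine Finset.sum_eq_zero fun y _ => ?_
    rw [if_neg hx, zero_mul, zero_mul]

end BOX

open BOX

/-- **The count in a box.** -/
theorem t_BOX5 : S_BOX5 := by
  intro hrec hEQ ε V hLA cx cy a b hab ι _ _ C X κ S₀ hκ hCX hHB hS₀ hC hdis hhyp
  obtain ⟨R, hR⟩ : ∃ R : ℝ, R = 2 ^ (prs ι).card * (κ * ∏ j, (X j : ℝ)) := ⟨_, rfl⟩
  have hR0 : 0 ≤ R := by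
    rw [hR]
    exact mul_nonneg (by positivity)
      (mul_nonneg hκ (Finset.prod_nonneg fun j _ => by positivity))
  -- facts on tuples
  have hinj : ∀ p ∈ Fintype.piFinset C, Function.Injective p := by
    intro p hp i j hij
    rw [Fintype.mem_piFinset] at hp
    by_contra hne
    have h1 := Finset.disjoint_left.1 (hdis i j hne) (hp i)
    rw [hij] at h1
    exact h1 (hp j)
  have hd : ∀ p ∈ Fintype.piFinset C, ∀ i, p i ∉ S₀ := by
    intro p hp i
    rw [Fintype.mem_piFinset] at hp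
    exact (hC i _ (hp i)).2
  have hpr : ∀ p ∈ Fintype.piFinset C, ∀ i, Pq (p i) := by
    intro p hp i
    rw [Fintype.mem_piFinset] at hp
    exact (hC i _ (hp i)).1
  -- the part with given labels
  have h1 : ∀ β : ι → Lb S₀, LN cx cy S₀ β →
      |(((Fintype.piFinset C).filter fun p => (fun i => lb cx cy S₀ (p i)) = β ∧
          Gd5 cx cy a b (S₀ ∪ univ.image p)).card : ℝ) -
        c2 * (((Fintype.piFinset C).filter fun p => (fun i => lb cx cy S₀ (p i)) = β).card : ℝ)| ≤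
      ε * (((Fintype.piFinset C).filter fun p => (fun i => lb cx cy S₀ (p i)) = β).card : ℝ) + R := by
    intro β hβ
    by_cases hex : ∃ p ∈ Fintype.piFinset C, (fun i => lb cx cy S₀ (p i)) = β
    swap
    · have e1 : ((Fintype.piFinset C).filter fun p => (fun i => lb cx cy S₀ (p i)) = β) = ∅ := by
        rw [Finset.filter_eq_empty_iff]
        intro p hp h
        exact hex ⟨p, hp, h⟩
      have e2 : ((Fintype.piFinset C).filter fun p => (fun i => lb cx cy S₀ (p i)) = β ∧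
          Gd5 cx cy a b (S₀ ∪ univ.image p)) = ∅ := by
        rw [Finset.filter_eq_empty_iff]
        rintro p hp ⟨h, -⟩
        exact hex ⟨p, hp, h⟩
      rw [e1, e2, Finset.card_empty, Nat.cast_zero, mul_zero, mul_zero, sub_zero, abs_zero,
        zero_add]
      exact hR0
    obtain ⟨q₀, hq₀, hq₀β⟩ := hex
    obtain ⟨hc1, hc2⟩ := hhyp q₀ hq₀
    obtain ⟨C', hC'⟩ : ∃ C' : ι → Finset RR, C' = fun i => (C i).filter fun q => lb cx cy S₀ q = β i :=
      ⟨_, rfl⟩
    have hpi : (Fintype.piFinset C).filter (fun p => (fun i => lb cx cy S₀ (p i)) = β) =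
        Fintype.piFinset C' := by
      ext p
      simp only [Finset.mem_filter, Fintype.mem_piFinset, hC']
      constructor
      · rintro ⟨h2, h3⟩ i
        exact ⟨h2 i, congrFun h3 i⟩
      · intro h2
        exact ⟨fun i => (h2 i).1, funext fun i => (h2 i).2⟩
    have htt : ∀ i, (bk cx cy S₀ β).tJ i = tt (q₀ i) := by
      intro i
      rw [← hq₀β]
      rfl
    have hHy : Hy V (bk cx cy S₀ β) := by
      refine ⟨?_, ?_, ?_, hβ.1⟩
      · rw [Fintype.card_coe]
        simp only [htt]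
        exact hc1
      · simp only [htt]
        have h3 : ∑ u : S₀, (bk cx cy S₀ β).tU u = ∑ u ∈ S₀, tt u :=
          Finset.sum_coe_sort S₀ (fun u => tt u)
        rw [h3]
        exact hc2
      · intro u v huv
        have h3 := hrec (u : RR) v (hS₀ u u.2) (hS₀ v v.2) (fun h => huv (Subtype.ext h))
        have h4 : cs (v : RR) u + cs (u : RR) v = tt (u : RR) * tt (v : RR) := by
          rw [← h3, add_comm]
        exact h4
    have h2 := hLA a b hab S₀ ι (bk cx cy S₀ β) hHy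
    obtain ⟨Q, hQ⟩ : ∃ Q : (prs ι → ZMod 2) → Prop, Q = fun α => GdY cx cy a b β α := ⟨_, rfl⟩
    have h3 := hEQ ι C' X κ hκ
      (fun i => (Finset.card_le_card (by rw [hC']; exact Finset.filter_subset _ _)).trans (hCX i))
      (by rw [hC']; exact HB_sub hHB fun i q => lb cx cy S₀ q = β i) Q
    have h4 : ((Fintype.piFinset C).filter fun p => (fun i => lb cx cy S₀ (p i)) = β ∧
        Gd5 cx cy a b (S₀ ∪ univ.image p)) = ((Fintype.piFinset C').filter fun p =>
          Q fun e => cs (p e.1.1) (p e.1.2)) := by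
      rw [← hpi, Finset.filter_filter]
      refine Finset.filter_congr fun p hp => ?_
      refine and_congr_right fun hl => ?_
      rw [gd_iff cx cy a b hrec (hinj p hp) (hpr p hp) hS₀ (hd p hp)]
      subst hl
      rw [hQ]
    have h5 : (((Fintype.piFinset C').card : ℕ) : ℝ) = ∏ j, ((C' j).card : ℝ) := by
      rw [Fintype.card_piFinset]
      push_cast
      rfl
    rw [h4, hpi, h5]
    rw [← hR] at h3
    obtain ⟨n, hn⟩ : ∃ n : ℝ, n = (((Fintype.piFinset C').filter fun p =>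
          Q fun e => cs (p e.1.1) (p e.1.2)).card : ℝ) := ⟨_, rfl⟩
    obtain ⟨q, hq⟩ : ∃ q : ℝ, q = ((univ.filter Q).card : ℝ) / 2 ^ (prs ι).card := ⟨_, rfl⟩
    obtain ⟨P, hP⟩ : ∃ P : ℝ, P = ∏ j, ((C' j).card : ℝ) := ⟨_, rfl⟩
    have hP0 : 0 ≤ P := by
      rw [hP]
      exact Finset.prod_nonneg fun j _ => by positivity
    have h2' : |q - c2| ≤ ε := by
      rw [hq, hQ]
      exact h2
    rw [← hn, ← hq, ← hP] at h3
    rw [← hn, ← hP]
    have h6 : |n - c2 * P| ≤ |n - q * P| + |q - c2| * P := by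
      have h7 : n - c2 * P = (n - q * P) + (q - c2) * P := by ring
      have h8 : |(q - c2) * P| = |q - c2| * P := by rw [abs_mul, abs_of_nonneg hP0]
      rw [h7, ← h8]
      exact abs_add_le _ _
    have h7 : |q - c2| * P ≤ ε * P := mul_le_mul_of_nonneg_right h2' hP0
    linarith
  -- sum over the labels
  obtain ⟨LL, hLL⟩ : ∃ LL : Finset (ι → Lb S₀), LL = univ.filter (fun β => LN cx cy S₀ β) := ⟨_, rfl⟩
  have hfib : ∀ T : (ι → RR) → Prop,
      (((Fintype.piFinset C).filter fun p => ND5 cx cy S₀ (univ.image p) ∧ T p).card : ℝ) =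
      ∑ β ∈ LL, (((Fintype.piFinset C).filter fun p =>
        (fun i => lb cx cy S₀ (p i)) = β ∧ T p).card : ℝ) := by
    intro T
    rw [Finset.card_eq_sum_card_fiberwise (f := fun (p : ι → RR) (i : ι) => lb cx cy S₀ (p i))
      (t := LL) (by
        intro p hp
        rw [Finset.mem_coe, Finset.mem_filter] at hp
        rw [Finset.mem_coe, hLL, Finset.mem_filter]
        exact ⟨Finset.mem_univ _, (nd_iff cx cy hrec (hinj p hp.1) (hpr p hp.1) hS₀
          (hd p hp.1)).1 hp.2.1⟩)]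
    push_cast
    refine Finset.sum_congr rfl fun β hβ => ?_
    rw [hLL, Finset.mem_filter] at hβ
    congr 2
    ext p
    simp only [Finset.mem_filter]
    constructor
    · rintro ⟨⟨h3, h4, h4'⟩, h5⟩
      exact ⟨h3, h5, h4'⟩
    · rintro ⟨h3, h4, h5⟩
      refine ⟨⟨h3, ?_, h5⟩, h4⟩
      rw [nd_iff cx cy hrec (hinj p h3) (hpr p h3) hS₀ (hd p h3), h4]
      exact hβ.2
  have hf1 := hfib fun p => Gd5 cx cy a b (S₀ ∪ univ.image p)
  have hf2 := hfib fun _ => True
  simp only [and_true] at hf2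
  rw [hf1, hf2, Finset.mul_sum, ← Finset.sum_sub_distrib]
  refine (Finset.abs_sum_le_sum_abs _ _).trans ?_
  refine (Finset.sum_le_sum fun β hβ => h1 β (by
    rw [hLL] at hβ
    exact (Finset.mem_filter.1 hβ).2)).trans ?_
  rw [Finset.sum_add_distrib, ← Finset.mul_sum, Finset.sum_const, nsmul_eq_mul]
  have h5 : ((LL.card : ℕ) : ℝ) ≤ 2 ^ ((S₀.card + 4) * Fintype.card ι) := by
    have h6 : LL.card ≤ Fintype.card (ι → Lb S₀) :=
      Finset.card_le_univ _
    rw [Fintype.card_fun, Fintype.card_prod, Fintype.card_prod, Fintype.card_prod,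
      Fintype.card_prod, Fintype.card_fun, ZMod.card, Fintype.card_coe] at h6
    have h7 : 2 ^ S₀.card * (2 * (2 * (2 * 2))) = 2 ^ (S₀.card + 4) := by ring
    rw [h7, ← pow_mul] at h6
    exact_mod_cast h6
  have h6 := mul_le_mul_of_nonneg_right h5 hR0
  rw [pow_add, mul_assoc, ← hR]
  linarith

end Pool.Agent.NH57.BO
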