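import Pool.Agent.R426.QK.FB
import Pool.Agent.NH57.BL.Stm2

/-!
# Project BL: few sets have degenerate labels

After `Pool/Agent/R426/QK/FB.lean`, with two more characters (of conductor `8` at the primes above `2`).
-/

set_option autoImplicit false

open scoped Classical

namespace Pool.Agent.NH57.BO.FB

open Finset Filter
open Pool.Agent.R426.QK
open Pool.Agent.R426.QK.FB
open Pool.Agent.R426.QC (e6 e3)
open Pool.Agent.Y698 (RR aR cj)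
open Pool.Agent.Y703.CX (zz kk)

lemma k6_norm (a : RR) : ‖k6 a‖ ≤ 1 := by
  unfold k6
  rcases ZMod.isQuadratic_χ₈ (e6 a) with h | h | h <;> rw [h] <;> simp

lemma k3_norm (a : RR) : ‖k3 a‖ ≤ 1 := by
  unfold k3
  rcases ZMod.isQuadratic_χ₈ (e3 a) with h | h | h <;> rw [h] <;> simp

lemma xr5_norm (n : RR) (i j k l : ℕ) (a : RR) : ‖xr5 n i j k l a‖ ≤ 1 := by
  unfold xr5
  rw [norm_mul, norm_mul, norm_pow, norm_pow]
  exact mul_le_one₀ (mul_le_one₀ (xr_norm n i j a) (by positivity)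
    (pow_le_one₀ (norm_nonneg _) (k6_norm a))) (by positivity)
    (pow_le_one₀ (norm_nonneg _) (k3_norm a))

lemma g5_ge (n : RR) (i j k l : ℕ) (π : RR) : 1 / 3 ≤ (2 + (xr5 n i j k l π).re) / 3 := by
  have h := xr5_norm n i j k l π
  have h1 := (abs_le.1 (Complex.abs_re_le_norm (xr5 n i j k l π))).1
  linarith

/-- the character of a set -/
lemma xr5_ez (hS : S_SUP5) {A : Finset RR} (hA : ∀ u ∈ A, Pq u) {i j k l : ℕ} (hi : i < 2)
    (hj : j < 2) (hk : k < 2) (hl : l < 2) {π : RR} (hπ : Pq π) (hπA : π ∉ A) :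
    xr5 (∏ u ∈ A, u) i j k l π =
      ez (∑ u ∈ A, cs u π + i * ss π + j * tt π + k * cs π (-aR) + l * cs π (-(cj aR))) := by
  unfold xr5
  rw [xr_ez hA hi hj hπ hπA, (hS.1 π hπ).1, (hS.1 π hπ).2, ez_add _ (l * cs π (-(cj aR))),
    ez_add _ (k * cs π (-aR)), ez_pow k hk, ez_pow l hl]

/-- the labels are degenerate with respect to a set and four exponents -/
def Dg5 (A : Finset RR) (i j k l : ℕ) (T : Finset RR) : Prop :=
  ∀ π ∈ T, ∑ u ∈ A, cs u π + i * ss π + j * tt π + k * cs π (-aR) + l * cs π (-(cj aR)) = 0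

theorem notNd5 (hR : RecP) (x y : ZMod 2) {S₀ T : Finset RR} (hS₀ : ∀ u ∈ S₀, Pq u)
    (hT : ∀ π ∈ T, Pq π ∧ π ∉ S₀) (h : ¬ Nd5 x y S₀ T) :
    ∃ (A : Finset RR) (i j k l : ℕ), A ⊆ S₀ ∧ i < 2 ∧ j < 2 ∧ k < 2 ∧ l < 2 ∧
      (A ≠ ∅ ∨ i ≠ 0 ∨ j ≠ 0 ∨ k ≠ 0 ∨ l ≠ 0) ∧ Dg5 A i j k l T := by
  unfold Nd5 at h
  push Not at h
  obtain ⟨v, e, f, hve, h2⟩ := h
  have hmul : ∀ a b : ZMod 2, (if a ≠ 0 then b else 0) = a * b := by decide
  have hA : ∀ f : RR → ZMod 2, ∑ u ∈ S₀.filter (fun u => v u ≠ 0), f u = ∑ u ∈ S₀, v u * f u := by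
    intro f
    rw [sum_filter]
    exact sum_congr rfl fun u _ => hmul (v u) (f u)
  have hor : (S₀.filter fun u => v u ≠ 0) ≠ ∅ ∨ e.val ≠ 0 ∨ f.val ≠ 0 := by
    rcases hve with ⟨u, hu, hu0⟩ | he | hf
    · left
      intro h0
      have : u ∈ S₀.filter fun u => v u ≠ 0 := by
        rw [mem_filter]
        exact ⟨hu, hu0⟩
      rw [h0] at this
      exact absurd this (Finset.notMem_empty u)
    · right
      left
      intro h0
      exact he ((ZMod.val_eq_zero e).1 h0)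
    · right
      right
      intro h0
      exact hf ((ZMod.val_eq_zero f).1 h0)
  by_cases h3 : ∃ π ∈ T, e * ss π + f * gg y π + ∑ u ∈ S₀, v u * cs u π ≠ 0
  · have h4 := h2 h3
    set j : ZMod 2 := e + ∑ u ∈ S₀.filter (fun u => v u ≠ 0), tt u + f * (1 + x) with hj
    refine ⟨S₀.filter fun u => v u ≠ 0, e.val, j.val, f.val, 0, filter_subset _ _, ZMod.val_lt e,
      ZMod.val_lt j, ZMod.val_lt f, by norm_num, ?_, fun π hπ => ?_⟩
    · rcases hor with h5 | h5 | h5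
      · exact Or.inl h5
      · exact Or.inr (Or.inl h5)
      · exact Or.inr (Or.inr (Or.inr (Or.inl h5)))
    · rw [ZMod.natCast_zmod_val, ZMod.natCast_zmod_val, ZMod.natCast_zmod_val, hj, hA, hA,
        Nat.cast_zero, zero_mul, add_zero]
      have h5 := h4 π hπ
      have h6 : ∀ u ∈ S₀, v u * cs π u = v u * cs u π + v u * tt u * tt π := by
        intro u hu
        have hne : π ≠ u := fun h => (hT π hπ).2 (h ▸ hu)
        have h7 := hR π u (hT π hπ).1 (hS₀ u hu) hne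
        have key : ∀ a b c d w : ZMod 2, a + b = c * d → w * a = w * b + w * d * c := by decide
        exact key _ _ _ _ _ h7
      rw [sum_congr rfl h6, sum_add_distrib, ← sum_mul] at h5
      rw [← h5]
      unfold dd
      ring
  · push Not at h3
    set j : ZMod 2 := f * (1 + y) with hj
    refine ⟨S₀.filter fun u => v u ≠ 0, e.val, j.val, 0, f.val, filter_subset _ _, ZMod.val_lt e,
      ZMod.val_lt j, by norm_num, ZMod.val_lt f, ?_, fun π hπ => ?_⟩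
    · rcases hor with h5 | h5 | h5
      · exact Or.inl h5
      · exact Or.inr (Or.inl h5)
      · exact Or.inr (Or.inr (Or.inr (Or.inr h5)))
    · rw [ZMod.natCast_zmod_val, ZMod.natCast_zmod_val, ZMod.natCast_zmod_val, hj, hA,
        ← h3 π hπ, Nat.cast_zero]
      unfold gg
      ring

theorem pair_count5 (hSUP : S_SUP5) {C : ℝ} (hC1 : 1 ≤ C)
    (hC : ∀ (n : RR) (i j k l : ℕ), PS n → i < 2 → j < 2 → k < 2 → l < 2 →
      (n ≠ 1 ∨ i ≠ 0 ∨ j ≠ 0 ∨ k ≠ 0 ∨ l ≠ 0) → ∀ T : ℕ,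
      ∑ a ∈ SB T, mf (fun π => (2 + (xr5 n i j k l π).re) / 3) a ≤
        C * (lgn (nrm n)) ^ (1 / 3 : ℝ) * (T * (lgn T) ^ (-(1 / 3) : ℝ)))
    (X z : ℕ) (S₀ : Finset RR) (hS₀ : ∀ u ∈ S₀, Pq u ∧ nrm u ≤ z)
    (A : Finset RR) (i j k l : ℕ) (hA : A ⊆ S₀) (hi : i < 2) (hj : j < 2) (hk : k < 2) (hl : l < 2)
    (hAij : A ≠ ∅ ∨ i ≠ 0 ∨ j ≠ 0 ∨ k ≠ 0 ∨ l ≠ 0)
    (F : Finset (Finset RR)) (hF : ∀ S ∈ F, (S ∈ SS X ∧ sm z S = S₀) ∧ Dg5 A i j k l (la z S)) :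
    (F.card : ℝ) ≤ C * lgn (pN S₀) * (((X / pN S₀ : ℕ) : ℝ) *
          (lgn (X / pN S₀)) ^ (-(1 / 3) : ℝ)) := by
  obtain ⟨a1, a2⟩ := PS_prod (S := A) fun π hπ => (hS₀ π (hA hπ)).1
  have hval : ∀ S ∈ F, ∀ π ∈ la z S, xr5 (∏ π ∈ A, π) i j k l π = 1 := by
    intro S hS π hπ
    obtain ⟨⟨h1, h2⟩, h3⟩ := hF S hS
    have hπq : Pq π ∧ ¬ nrm π ≤ z := by
      unfold la at hπ
      rw [mem_filter] at hπ
      unfold SS at h1
      rw [mem_filter] at h1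
      exact ⟨h1.2.1.1 π hπ.1, hπ.2⟩
    rw [xr5_ez hSUP (fun u hu => (hS₀ u (hA hu)).1) hi hj hk hl hπq.1
      (fun h => hπq.2 (hS₀ π (hA h)).2), h3 π hπ, ez_zero]
  set a := ∏ π ∈ A, π with ha
  have hab : a ≠ 1 ∨ i ≠ 0 ∨ j ≠ 0 ∨ k ≠ 0 ∨ l ≠ 0 := by
    rcases hAij with h | h
    · left
      intro h1
      apply h
      rw [← a2, h1, PD_one]
    · exact Or.inr h
  have h := fiber_le X z S₀ (fun u hu => (hS₀ u hu).1) F (fun S hS => (hF S hS).1)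
    (fun π => (2 + (xr5 a i j k l π).re) / 3) (fun π => by
      have := g5_ge a i j k l π
      linarith) 1 (fun S hS => by
      refine le_of_eq (prod_eq_one fun π hπ => ?_).symm
      rw [hval S hS π hπ]
      norm_num)
  rw [mul_one] at h
  refine h.trans ((hC a i j k l a1 hi hj hk hl hab _).trans ?_)
  have hnn : nrm a ≤ pN S₀ := by
    rw [ha, nrm_prod]
    unfold pN
    refine prod_le_prod_of_subset_of_one_le' hA fun u hu _ => ?_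
    exact nrm_pos' (pq_ne (hS₀ u hu).1)
  have h4 : (lgn (nrm a)) ^ (1 / 3 : ℝ) ≤ lgn (pN S₀) := by
    calc (lgn (nrm a)) ^ (1 / 3 : ℝ) ≤ (lgn (nrm a)) ^ (1 : ℝ) :=
          Real.rpow_le_rpow_of_exponent_le (one_le_lgn _) (by norm_num)
      _ = lgn (nrm a) := Real.rpow_one _
      _ ≤ lgn (pN S₀) := lgn_mono hnn
  have hTl : 0 ≤ ((X / pN S₀ : ℕ) : ℝ) * (lgn (X / pN S₀)) ^ (-(1 / 3) : ℝ) :=
    mul_nonneg (Nat.cast_nonneg _) (Real.rpow_nonneg (zero_le_one.trans (one_le_lgn _)) _)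
  gcongr

theorem bad_count5 (hR : RecP) (hSUP : S_SUP5) (x y : ZMod 2) {C : ℝ} (hC1 : 1 ≤ C)
    (hC : ∀ (n : RR) (i j k l : ℕ), PS n → i < 2 → j < 2 → k < 2 → l < 2 →
      (n ≠ 1 ∨ i ≠ 0 ∨ j ≠ 0 ∨ k ≠ 0 ∨ l ≠ 0) → ∀ T : ℕ,
      ∑ a ∈ SB T, mf (fun π => (2 + (xr5 n i j k l π).re) / 3) a ≤
        C * (lgn (nrm n)) ^ (1 / 3 : ℝ) * (T * (lgn T) ^ (-(1 / 3) : ℝ)))
    (X : ℕ) (S₀ : Finset RR) (hS₀ : ∀ u ∈ S₀, Pq u ∧ nrm u ≤ zz X)
    (G : Finset (Finset RR))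
    (hG : ∀ S ∈ G, S ∈ SS X ∧ (S.card ≤ kk X ∧ ¬ Nd5 x y (sm (zz X) S) (la (zz X) S)) ∧
      sm (zz X) S = S₀) : (G.card : ℝ) ≤
        (16 * C) * 2 ^ S₀.card * lgn (pN S₀) * (((X / pN S₀ : ℕ) : ℝ) *
          (lgn (X / pN S₀)) ^ (-(1 / 3) : ℝ)) := by
  set P := (S₀.powerset ×ˢ (range 2 ×ˢ range 2 ×ˢ range 2 ×ˢ range 2)).filter
    fun p => p.1 ≠ ∅ ∨ p.2.1 ≠ 0 ∨ p.2.2.1 ≠ 0 ∨ p.2.2.2.1 ≠ 0 ∨ p.2.2.2.2 ≠ 0 with hP
  have hsub : G ⊆ P.biUnion fun p =>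
      G.filter fun S => Dg5 p.1 p.2.1 p.2.2.1 p.2.2.2.1 p.2.2.2.2 (la (zz X) S) := by
    intro S hS
    obtain ⟨h1, ⟨h2, h3⟩, h4⟩ := hG S hS
    rw [h4] at h3
    have hT : ∀ π ∈ la (zz X) S, Pq π ∧ π ∉ S₀ := by
      intro π hπ
      unfold la at hπ
      rw [mem_filter] at hπ
      unfold SS at h1
      rw [mem_filter] at h1
      exact ⟨h1.2.1.1 π hπ.1, fun h => hπ.2 (hS₀ π h).2⟩
    obtain ⟨A, i, j, k, l, hA, hi, hj, hk, hl, hAij, hDg⟩ :=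
      notNd5 hR x y (fun u hu => (hS₀ u hu).1) hT h3
    rw [mem_biUnion]
    refine ⟨(A, i, j, k, l), ?_, ?_⟩
    · rw [hP, mem_filter, mem_product, mem_product, mem_product, mem_product, mem_powerset,
        mem_range, mem_range, mem_range, mem_range]
      exact ⟨⟨hA, hi, hj, hk, hl⟩, hAij⟩
    · rw [mem_filter]
      exact ⟨hS, hDg⟩
  have h1 : (G.card : ℝ) ≤ ∑ p ∈ P,
      ((G.filter fun S => Dg5 p.1 p.2.1 p.2.2.1 p.2.2.2.1 p.2.2.2.2 (la (zz X) S)).card : ℝ) := by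
    exact_mod_cast (card_le_card hsub).trans card_biUnion_le
  have h2 : ∀ p ∈ P,
      ((G.filter fun S => Dg5 p.1 p.2.1 p.2.2.1 p.2.2.2.1 p.2.2.2.2 (la (zz X) S)).card : ℝ) ≤
      C * lgn (pN S₀) * (((X / pN S₀ : ℕ) : ℝ) * (lgn (X / pN S₀)) ^ (-(1 / 3) : ℝ)) := by
    intro p hp
    rw [hP, mem_filter, mem_product, mem_product, mem_product, mem_product, mem_powerset,
      mem_range, mem_range, mem_range, mem_range] at hp
    obtain ⟨⟨q1, q2, q3, q4, q5⟩, q6⟩ := hp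
    refine pair_count5 hSUP hC1 hC X (zz X) S₀ hS₀ p.1 p.2.1 p.2.2.1 p.2.2.2.1 p.2.2.2.2 q1 q2 q3
      q4 q5 q6 _ ?_
    intro S hS
    rw [mem_filter] at hS
    have h := hG S hS.1
    exact ⟨⟨h.1, h.2.2⟩, hS.2⟩
  have h3 : (P.card : ℝ) ≤ 16 * 2 ^ S₀.card := by
    have : P.card ≤ 2 ^ S₀.card * (2 * (2 * (2 * 2))) := by
      refine (card_filter_le _ _).trans (le_of_eq ?_)
      rw [card_product, card_product, card_product, card_product, card_powerset, card_range]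
    have h' : (P.card : ℝ) ≤ ((2 ^ S₀.card * (2 * (2 * (2 * 2))) : ℕ) : ℝ) := by exact_mod_cast this
    refine h'.trans (le_of_eq ?_)
    push_cast
    ring
  have hTl : 0 ≤ ((X / pN S₀ : ℕ) : ℝ) * (lgn (X / pN S₀)) ^ (-(1 / 3) : ℝ) :=
    mul_nonneg (Nat.cast_nonneg _) (Real.rpow_nonneg (zero_le_one.trans (one_le_lgn _)) _)
  have hlg := lgn_pos (pN S₀)
  calc (G.card : ℝ) ≤ ∑ p ∈ P, C * lgn (pN S₀) * (((X / pN S₀ : ℕ) : ℝ) *
        (lgn (X / pN S₀)) ^ (-(1 / 3) : ℝ)) := h1.trans (sum_le_sum h2)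
    _ = P.card * (C * lgn (pN S₀) * (((X / pN S₀ : ℕ) : ℝ) *
        (lgn (X / pN S₀)) ^ (-(1 / 3) : ℝ))) := by rw [sum_const, nsmul_eq_mul]
    _ ≤ (16 * 2 ^ S₀.card) * (C * lgn (pN S₀) * (((X / pN S₀ : ℕ) : ℝ) *
        (lgn (X / pN S₀)) ^ (-(1 / 3) : ℝ))) :=
        mul_le_mul_of_nonneg_right h3 (by positivity)
    _ = _ := by ring

end Pool.Agent.NH57.BO.FB

namespace Pool.Agent.NH57.BO

open Finset Filter
open Pool.Agent.R426.QK
open Pool.Agent.Y703.CX (zz kk)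

/-- **FB5** -/
theorem t_FB5 : S_FB5 := by
  rintro hR hSUP ⟨C, hC1, hC⟩ hM x y ε hε
  obtain ⟨X₀, hX₀⟩ := FB.gen hM 2 (16 * C) (by norm_num) (by positivity)
    (fun X S => ¬ Nd5 x y (sm (zz X) S) (la (zz X) S))
    (fun X S₀ hS₀ _ F hF => FB.bad_count5 hR hSUP x y hC1 hC X S₀ hS₀ F hF) ε hε
  refine ⟨X₀, fun X hX => hX₀ X hX _ fun S hS => ?_⟩
  rw [mem_filter] at hS
  exact hS

end Pool.Agent.NH57.BO
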