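import Pool.Agent.NH57.BL.Stm2
import Pool.Agent.R426.QK.Hal2

/-!
# Project BL: BL-23 HALL

Variant of `Pool/Agent/R426/QK/Hal2.lean` and `Jsum.lean` with the two characters of conductor eight
(helper97 for helper57).
-/

set_option autoImplicit false
set_option linter.unusedSectionVars false

open scoped Classical
open Finset

namespace Pool.Agent.NH57.BO

namespace HALL

open Pool.Agent.R426.QK
open Pool.Agent.R426.QC (e6 e3)
open Pool.Agent.R426.QD (r4 r4_eq r4_a Pn nonsq)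
open Pool.Agent.Y698
open Pool.Agent.Y698.SG hiding PD
open H667R3 Pool.Agent.W192.HK Pool.Agent.TH936.CM Pool.Agent.TH936.PU
open scoped ComplexConjugate

/-! ### The characters of conductor eight -/

lemma chi8_V3 (z : ZMod 8) : V3 (((ZMod.χ₈ z : ℤ) : ℂ)) := by
  have h : ∀ z : ZMod 8, ZMod.χ₈ z = 0 ∨ ZMod.χ₈ z = 1 ∨ ZMod.χ₈ z = -1 := by decide
  rcases h z with h | h | h <;> rw [h]
  · exact Or.inl (by norm_num)
  · exact Or.inr (Or.inl (by norm_num))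
  · exact Or.inr (Or.inr (by norm_num))

lemma k6_V3 (a : RR) : V3 (k6 a) := chi8_V3 _

lemma k3_V3 (a : RR) : V3 (k3 a) := chi8_V3 _

lemma k6_mul (a b : RR) : k6 (a * b) = k6 a * k6 b := by
  unfold k6
  rw [map_mul, map_mul]
  push_cast
  rfl

lemma k3_mul (a b : RR) : k3 (a * b) = k3 a * k3 b := by
  unfold k3
  rw [map_mul, map_mul]
  push_cast
  rfl

lemma k6_one : k6 1 = 1 := by
  unfold k6
  rw [map_one, map_one]
  norm_num

lemma k3_one : k3 1 = 1 := by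
  unfold k3
  rw [map_one, map_one]
  norm_num

lemma eight_zero (f : RR →+* ZMod 8) (c : RR) : f (8 * c) = 0 := by
  rw [map_mul, map_ofNat]
  have : (OfNat.ofNat 8 : ZMod 8) = 0 := by decide
  rw [this, zero_mul]

lemma k6_per {a b : RR} (h : (8 : RR) ∣ a - b) : k6 a = k6 b := by
  obtain ⟨c, hc⟩ := h
  have h1 : e6 a = e6 b := by
    have h2 : e6 (a - b) = 0 := by rw [hc, eight_zero]
    rwa [map_sub, sub_eq_zero] at h2
  unfold k6
  rw [h1]

lemma k3_per {a b : RR} (h : (8 : RR) ∣ a - b) : k3 a = k3 b := by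
  obtain ⟨c, hc⟩ := h
  have h1 : e3 a = e3 b := by
    have h2 : e3 (a - b) = 0 := by rw [hc, eight_zero]
    rwa [map_sub, sub_eq_zero] at h2
  unfold k3
  rw [h1]

lemma xr5_ch {n : RR} (hn : PS n) (i j k l : ℕ) : CH (xr5 n i j k l) := by
  have h := xr_ch hn i j
  refine ⟨?_, ?_, ?_⟩
  · unfold xr5
    rw [h.one, k6_one, k3_one, one_pow, one_pow, one_mul, one_mul]
  · intro a b
    unfold xr5
    rw [h.mul, k6_mul, k3_mul, mul_pow, mul_pow]
    ring
  · intro a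
    unfold xr5
    exact ((h.val a).mul ((k6_V3 _).pow _)).mul ((k3_V3 _).pow _)

/-! ### The modulus -/

/-- the modulus `8 √-7` -/
noncomputable def q1 : RR := 8 * fR

lemma q1_eq : q1 = 2 * q0 := by
  unfold q1 q0
  ring

lemma nrm_two : nrm (2 : RR) = 4 := by
  unfold nrm nR
  have e : (2 : RR) = ((2 : ℤ) : RR) := by push_cast; rfl
  rw [e, (cXY_int _).1, (cXY_int _).2]
  norm_num

lemma nrm_q1 : nrm q1 = 448 := by
  rw [q1_eq, nrm_mul, nrm_two, nrm_q0]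

lemma q1_ne : q1 ≠ 0 := by
  rw [q1_eq]
  refine mul_ne_zero ?_ q0_ne
  intro h
  have := nrm_two
  rw [h] at this
  unfold nrm nR at this
  have h1 := cXY_int 0
  rw [Int.cast_zero] at h1
  rw [h1.1, h1.2] at this
  norm_num at this

lemma q0_dvd {a : RR} (h : q1 ∣ a) : q0 ∣ a := by
  refine dvd_trans ?_ h
  rw [q1_eq]
  exact dvd_mul_left _ _

lemma q0_two : q0 = 2 * (2 * fR) := by
  unfold q0
  ring

lemma prm_cop1 {a : RR} (h : prm a) : IsCoprime a q1 := by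
  rw [q1_eq]
  have h0 := prm_cop h
  refine IsCoprime.mul_right ?_ h0
  rw [q0_two] at h0
  exact h0.of_mul_right_left

lemma k6_per' {a b : RR} (h : q1 ∣ a - b) : k6 a = k6 b := k6_per ((dvd_mul_right _ _).trans h)

lemma k3_per' {a b : RR} (h : q1 ∣ a - b) : k3 a = k3 b := k3_per ((dvd_mul_right _ _).trans h)

/-- prescribed symbols -/
lemma exists_twist1 {S : Finset RR} (hS : ∀ ρ ∈ S, Pq ρ) {π : RR} (hπ : Pq π) (hπS : π ∉ S) :
    ∃ c : RR, q1 ∣ c - 1 ∧ sy π c = -1 ∧ (∀ ρ ∈ S, sy ρ c = 1) := by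
  set m : RR := q1 * ∏ ρ ∈ S, ρ with hm
  have hcop : IsCoprime π m := by
    refine IsCoprime.mul_right (prm_cop1 hπ.prm) ?_
    rw [IsCoprime.prod_right_iff]
    intro ρ hρ
    exact pq_cop hπ (hS ρ hρ) fun h => hπS (by rw [h]; exact hρ)
  obtain ⟨b, hb⟩ := nonsq hπ.prime hπ.od
  obtain ⟨x, y, hxy⟩ := hcop
  set a : RR := x * π + b * (y * m) with ha
  have ha1 : m ∣ a - 1 := ⟨b * y - y, by rw [ha]; linear_combination hxy⟩
  have ha2 : π ∣ a - b := ⟨x - b * x, by rw [ha]; linear_combination b * hxy⟩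
  refine ⟨a, (dvd_mul_right _ _).trans ha1, ?_, ?_⟩
  · rw [sy_per' ha2, hb]
  · intro ρ hρ
    have h1 : ρ ∣ a - 1 := (Finset.dvd_prod_of_mem _ hρ).trans ((dvd_mul_left _ _).trans ha1)
    rw [sy_per' h1, sy_one' (hS ρ hρ)]

/-! ### Four elements -/

lemma e7_mk (x y : ℤ) : e7 (mk (x, y)) = ((quadraticChar (ZMod 7) ((x : ZMod 7) + (y : ZMod 7) * 4) : ℤ) : ℂ) := by
  unfold e7
  rw [r7_apply, (cXY_mk _).1, (cXY_mk _).2]

lemma k6_mk (x y : ℤ) : k6 (mk (x, y)) = ((ZMod.χ₈ ((x : ZMod 8) + (y : ZMod 8) * 6) : ℤ) : ℂ) := by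
  have h : e6 (mk (x, y)) = (cX (mk (x, y)) : ZMod 8) + (cY (mk (x, y)) : ZMod 8) * 6 := rfl
  unfold k6
  rw [h, (cXY_mk _).1, (cXY_mk _).2]

lemma k3_mk (x y : ℤ) : k3 (mk (x, y)) = ((ZMod.χ₈ ((x : ZMod 8) + (y : ZMod 8) * 3) : ℤ) : ℂ) := by
  have h : e3 (mk (x, y)) = (cX (mk (x, y)) : ZMod 8) + (cY (mk (x, y)) : ZMod 8) * 3 := rfl
  unfold k3
  rw [h, (cXY_mk _).1, (cXY_mk _).2]

lemma nrm_cja : nrm (cj aR) = 2 := by
  have h3 := congrArg nrm two_eq
  rw [nrm_mul, nrm_two] at h3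
  have h5 : nrm aR = 2 := by
    unfold nrm nR
    rw [cXY_aR.1, cXY_aR.2]
    norm_num
  rw [h5] at h3
  omega

lemma prm_mk {x y : ℤ} {N : ℕ} (hN : nrm (mk (x, y)) = N) (h2 : N % 2 = 1)
    (h4 : ((x + 2 * y : ℤ) : ZMod 4) = 1) (h7 : e7 (mk (x, y)) ≠ 0) : prm (mk (x, y)) := by
  refine ⟨?_, ?_, ?_⟩
  · rw [r4_eq, (cXY_mk _).1, (cXY_mk _).2]
    exact h4
  · rintro ⟨c, hc⟩
    have h1 := congrArg nrm hc
    rw [nrm_mul, nrm_cja, hN] at h1
    omega
  · intro h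
    exact h7 (e7_eq_zero.2 (mem_sp.2 h))

lemma elA : prm (mk (1, 8)) ∧ e7 (mk (1, 8)) = -1 ∧ kp (mk (1, 8)) = 1 ∧ k6 (mk (1, 8)) = 1 ∧
    k3 (mk (1, 8)) = 1 := by
  have hN : nrm (mk (1, 8)) = 137 := by
    have h := nrm_mk (1, 8)
    unfold qf at h
    norm_num at h
    exact_mod_cast h
  have h7 : e7 (mk (1, 8)) = -1 := by
    rw [e7_mk]
    have : quadraticChar (ZMod 7) (((1 : ℤ) : ZMod 7) + ((8 : ℤ) : ZMod 7) * 4) = -1 := by decide
    rw [this]
    norm_num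
  refine ⟨prm_mk hN (by norm_num) (by decide) (by rw [h7]; norm_num), h7, ?_, ?_, ?_⟩
  · unfold kp
    rw [hN]
    norm_num
  · rw [k6_mk]
    have : ZMod.χ₈ (((1 : ℤ) : ZMod 8) + ((8 : ℤ) : ZMod 8) * 6) = 1 := by decide
    rw [this]
    norm_num
  · rw [k3_mk]
    have : ZMod.χ₈ (((1 : ℤ) : ZMod 8) + ((8 : ℤ) : ZMod 8) * 3) = 1 := by decide
    rw [this]
    norm_num

lemma elB : prm (mk (5, -2)) ∧ e7 (mk (5, -2)) = 1 ∧ kp (mk (5, -2)) = -1 ∧ k6 (mk (5, -2)) = 1 ∧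
    k3 (mk (5, -2)) = 1 := by
  have hN : nrm (mk (5, -2)) = 23 := by
    have h := nrm_mk (5, -2)
    unfold qf at h
    norm_num at h
    exact_mod_cast h
  have h7 : e7 (mk (5, -2)) = 1 := by
    rw [e7_mk]
    have : quadraticChar (ZMod 7) (((5 : ℤ) : ZMod 7) + ((-2 : ℤ) : ZMod 7) * 4) = 1 := by decide
    rw [this]
    norm_num
  refine ⟨prm_mk hN (by norm_num) (by decide) (by rw [h7]; norm_num), h7, ?_, ?_, ?_⟩
  · unfold kp
    rw [hN]
    norm_num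
  · rw [k6_mk]
    have : ZMod.χ₈ (((5 : ℤ) : ZMod 8) + ((-2 : ℤ) : ZMod 8) * 6) = 1 := by decide
    rw [this]
    norm_num
  · rw [k3_mk]
    have : ZMod.χ₈ (((5 : ℤ) : ZMod 8) + ((-2 : ℤ) : ZMod 8) * 3) = 1 := by decide
    rw [this]
    norm_num

lemma elC : prm (mk (-3, -4)) ∧ e7 (mk (-3, -4)) = 1 ∧ kp (mk (-3, -4)) = 1 ∧
    k6 (mk (-3, -4)) = -1 ∧ k3 (mk (-3, -4)) = 1 := by
  have hN : nrm (mk (-3, -4)) = 53 := by
    have h := nrm_mk (-3, -4)
    unfold qf at h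
    norm_num at h
    exact_mod_cast h
  have h7 : e7 (mk (-3, -4)) = 1 := by
    rw [e7_mk]
    have : quadraticChar (ZMod 7) (((-3 : ℤ) : ZMod 7) + ((-4 : ℤ) : ZMod 7) * 4) = 1 := by decide
    rw [this]
    norm_num
  refine ⟨prm_mk hN (by norm_num) (by decide) (by rw [h7]; norm_num), h7, ?_, ?_, ?_⟩
  · unfold kp
    rw [hN]
    norm_num
  · rw [k6_mk]
    have : ZMod.χ₈ (((-3 : ℤ) : ZMod 8) + ((-4 : ℤ) : ZMod 8) * 6) = -1 := by decide
    rw [this]
    norm_num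
  · rw [k3_mk]
    have : ZMod.χ₈ (((-3 : ℤ) : ZMod 8) + ((-4 : ℤ) : ZMod 8) * 3) = 1 := by decide
    rw [this]
    norm_num

lemma elD : prm (mk (-7, 4)) ∧ e7 (mk (-7, 4)) = 1 ∧ kp (mk (-7, 4)) = 1 ∧
    k6 (mk (-7, 4)) = 1 ∧ k3 (mk (-7, 4)) = -1 := by
  have hN : nrm (mk (-7, 4)) = 53 := by
    have h := nrm_mk (-7, 4)
    unfold qf at h
    norm_num at h
    exact_mod_cast h
  have h7 : e7 (mk (-7, 4)) = 1 := by
    rw [e7_mk]
    have : quadraticChar (ZMod 7) (((-7 : ℤ) : ZMod 7) + ((4 : ℤ) : ZMod 7) * 4) = 1 := by decide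
    rw [this]
    norm_num
  refine ⟨prm_mk hN (by norm_num) (by decide) (by rw [h7]; norm_num), h7, ?_, ?_, ?_⟩
  · unfold kp
    rw [hN]
    norm_num
  · rw [k6_mk]
    have : ZMod.χ₈ (((-7 : ℤ) : ZMod 8) + ((4 : ℤ) : ZMod 8) * 6) = 1 := by decide
    rw [this]
    norm_num
  · rw [k3_mk]
    have : ZMod.χ₈ (((-7 : ℤ) : ZMod 8) + ((4 : ℤ) : ZMod 8) * 3) = -1 := by decide
    rw [this]
    norm_num

/-! ### The sums -/

/-- the character on the primary elements -/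
noncomputable def GG (n : RR) (i j k l : ℕ) (a : RR) : ℂ := if prm a then xr5 n i j k l a else 0

lemma GG_norm {n : RR} (hn : PS n) (i j k l : ℕ) (a : RR) : ‖GG n i j k l a‖ ≤ 1 := by
  unfold GG
  split_ifs
  · exact (xr5_ch hn i j k l).norm_le a
  · simp

lemma GG_tw {n : RR} (hn : PS n) {i j k l : ℕ} {c : RR} (hc1 : prm c)
    (hc : xr5 n i j k l c = -1) (V : ℕ) :
    ‖∑ a ∈ ZB V, GG n i j k l a‖ ≤ 1344 * nrm n * (3 * Real.sqrt V + 1) := by
  have hq : q1 * n ≠ 0 := mul_ne_zero q1_ne hn.ne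
  have hne : jac n c ≠ 0 := by
    intro h
    unfold xr5 xr at hc
    rw [h] at hc
    norm_num at hc
  have hcop : IsCoprime c (q1 * n) :=
    IsCoprime.mul_right (prm_cop1 hc1) (jac_cop hn hne).symm
  have h3 := csum hq (f := GG n i j k l) (z := -1) ?_ (fun a => GG_norm hn i j k l a) hcop
    (by norm_num) ?_ V
  · refine h3.trans (le_of_eq ?_)
    rw [nrm_mul, nrm_q1]
    push_cast
    ring
  · intro a b hab
    have f1 : q1 ∣ a - b := (dvd_mul_right _ _).trans hab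
    have e1 : q0 ∣ a - b := q0_dvd f1
    have e1' : q0 ∣ b - a := by
      rw [← neg_sub]
      exact e1.neg_right
    have e2 : n ∣ a - b := (dvd_mul_left _ _).trans hab
    have e4 : prm a ↔ prm b := ⟨prm_per e1, prm_per e1'⟩
    have e5 : xr5 n i j k l a = xr5 n i j k l b := by
      unfold xr5 xr
      rw [jac_per hn.ne e2, e7_per' e1, kp_per' e1, k6_per' f1, k3_per' f1]
    unfold GG
    rw [e5]
    by_cases h : prm a
    · rw [if_pos h, if_pos (e4.1 h)]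
    · rw [if_neg h, if_neg (fun hh => h (e4.2 hh))]
  · intro a
    unfold GG
    have e4 : prm (c * a) ↔ prm a :=
      ⟨fun h => prm_cancel hc1 h, fun h => prm_mul hc1 h⟩
    by_cases h : prm a
    · rw [if_pos h, if_pos (e4.2 h), (xr5_ch hn i j k l).mul, hc]
    · rw [if_neg h, if_neg (fun hh => h (e4.1 hh)), mul_zero]

lemma jac_one_l (a : RR) : jac 1 a = 1 := jac_one_left a

/-- sums of nonprincipal characters -/
theorem GG_sum {n : RR} (hn : PS n) {i j k l : ℕ} (hi : i < 2) (hj : j < 2) (hk : k < 2)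
    (hl : l < 2) (hne : n ≠ 1 ∨ i ≠ 0 ∨ j ≠ 0 ∨ k ≠ 0 ∨ l ≠ 0) (V : ℕ) :
    ‖∑ a ∈ ZB V, GG n i j k l a‖ ≤ 1344 * nrm n * (3 * Real.sqrt V + 1) := by
  by_cases hn1 : n = 1
  · subst hn1
    have key : ∀ c₀ : RR, prm c₀ → e7 c₀ ^ i * kp c₀ ^ j * k6 c₀ ^ k * k3 c₀ ^ l = -1 →
        ‖∑ a ∈ ZB V, GG 1 i j k l a‖ ≤ 1344 * nrm 1 * (3 * Real.sqrt V + 1) := by
      intro c₀ h0 h1
      refine GG_tw hn h0 ?_ V
      unfold xr5 xr
      rw [jac_one_left, one_mul]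
      exact h1
    by_cases h1 : i = 0
    · by_cases h2 : j = 0
      · by_cases h3 : k = 0
        · have h4 : l = 1 := by
            rcases hne with h | h | h | h | h
            · exact absurd rfl h
            · exact absurd h1 h
            · exact absurd h2 h
            · exact absurd h3 h
            · omega
          refine key _ elD.1 ?_
          rw [elD.2.2.2.2, h1, h2, h3, h4]
          norm_num
        · have h4 : k = 1 := by omega
          refine key _ elC.1 ?_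
          rw [elC.2.2.2.1, elC.2.2.2.2, h1, h2, h4]
          norm_num
      · have h4 : j = 1 := by omega
        refine key _ elB.1 ?_
        rw [elB.2.2.1, elB.2.2.2.1, elB.2.2.2.2, h1, h4]
        norm_num
    · have h4 : i = 1 := by omega
      refine key _ elA.1 ?_
      rw [elA.2.1, elA.2.2.1, elA.2.2.2.1, elA.2.2.2.2, h4]
      norm_num
  · have hex : (PD n).Nonempty := by
      rw [Finset.nonempty_iff_ne_empty]
      intro h
      apply hn1
      rw [← hn.prod, h, prod_empty]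
    obtain ⟨π, hπ'⟩ := hex
    have hπ := ((mem_PD hn.ne).1 hπ').1
    have hS : ∀ ρ ∈ (PD n).erase π, Pq ρ := fun ρ hρ =>
      ((mem_PD hn.ne).1 (mem_of_mem_erase hρ)).1
    obtain ⟨c, hc1, hc2, hc3⟩ := exists_twist1 hS hπ (notMem_erase _ _)
    have hjx : jac n c = -1 := by
      unfold jac
      rw [← mul_prod_erase (PD n) _ hπ', prod_eq_one, mul_one, hc2]
      intro ρ hρ
      exact hc3 ρ hρ
    have hc1' : q0 ∣ 1 - c := by
      rw [← neg_sub]
      exact (q0_dvd hc1).neg_right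
    refine GG_tw hn (prm_per hc1' prm_one) ?_ V
    unfold xr5 xr
    rw [hjx, e7_per' (q0_dvd hc1), kp_per' (q0_dvd hc1), k6_per' hc1, k3_per' hc1, e7_one, kp_one,
      k6_one, k3_one]
    simp

/-- character sums -/
lemma chs_le5 {n : RR} (hn : PS n) {i j k l : ℕ} (hi : i < 2) (hj : j < 2) (hk : k < 2)
    (hl : l < 2) (h1 : n ≠ 1 ∨ i ≠ 0 ∨ j ≠ 0 ∨ k ≠ 0 ∨ l ≠ 0) {v : ℕ} (hv : 1 ≤ v) :
    ‖∑ d ∈ PB v, xr5 n i j k l d‖ ≤ 5376 * (nrm n : ℕ) * Real.sqrt v := by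
  have h := GG_sum hn hi hj hk hl h1 v
  have e : ∑ a ∈ ZB v, GG n i j k l a = ∑ d ∈ PB v, xr5 n i j k l d := by
    unfold PB GG
    rw [sum_filter]
  rw [e] at h
  have h2 : (1 : ℝ) ≤ Real.sqrt v := Real.one_le_sqrt.2 (by exact_mod_cast hv)
  have h3 : (0 : ℝ) ≤ (nrm n : ℝ) := by positivity
  refine h.trans ?_
  nlinarith

/-- partial sums of the L-series at 1 -/
theorem chs_log5 {n : RR} (hn : PS n) {i j k l : ℕ} (hi : i < 2) (hj : j < 2) (hk : k < 2)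
    (hl : l < 2) (h1 : n ≠ 1 ∨ i ≠ 0 ∨ j ≠ 0 ∨ k ≠ 0 ∨ l ≠ 0) (Y : ℕ) :
    ‖∑ d ∈ PB Y, xr5 n i j k l d / nrm d‖ ≤ 10800 * lgn (nrm n) := by
  classical
  have hN1 : 1 ≤ nrm n := nrm_pos' hn.ne
  have hch := xr5_ch hn i j k l
  have hcl : ∀ v : ℕ, 1 ≤ v → ‖∑ d ∈ PB v, xr5 n i j k l d‖ ≤ 5376 * (nrm n : ℕ) * Real.sqrt v :=
    fun v hv => chs_le5 hn hi hj hk hl h1 hv
  set χ := xr5 n i j k l with hχ
  set N := nrm n with hN
  have hlg := one_le_lgn N
  rcases Nat.eq_zero_or_pos Y with h0 | hY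
  · have : PB Y = ∅ := by
      rw [eq_empty_iff_forall_notMem]
      intro x hx
      rw [mem_PB] at hx
      have := nrm_pos' (prm_ne_zero hx.2)
      omega
    rw [this, sum_empty, norm_zero]
    linarith
  have hYr : (0 : ℝ) < Y := by exact_mod_cast hY
  -- summation by parts
  have e1 : ∑ d ∈ PB Y, χ d / nrm d = (∑ d ∈ PB Y, χ d) * ((1 / Y : ℝ) : ℂ) +
      ∑ v ∈ Ico 1 Y, (∑ d ∈ PB v, χ d) * ((1 / ((v : ℝ) * (v + 1)) : ℝ) : ℂ) := by
    have e2 : ∀ d ∈ PB Y, χ d / nrm d = χ d * ((1 / Y : ℝ) : ℂ) +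
        ∑ v ∈ Ico 1 Y, if nrm d ≤ v then χ d * ((1 / ((v : ℝ) * (v + 1)) : ℝ) : ℂ) else 0 := by
      intro d hd
      rw [mem_PB] at hd
      have hd1 := nrm_pos' (prm_ne_zero hd.2)
      have h2 := inv_tel (nrm d) hd1 Y hd.1
      have h3 : χ d / (nrm d : ℂ) = χ d * ((1 / (nrm d : ℝ) : ℝ) : ℂ) := by
        push_cast
        rw [mul_one_div]
      rw [h3, h2, Complex.ofReal_add, mul_add]
      congr 1
      rw [Complex.ofReal_sum, mul_sum, ← sum_filter]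
      refine sum_congr ?_ fun _ _ => rfl
      ext v
      rw [mem_filter, mem_Ico, mem_Ico]
      constructor
      · rintro ⟨a1, a2⟩; exact ⟨⟨by omega, a2⟩, a1⟩
      · rintro ⟨⟨-, a2⟩, a1⟩; exact ⟨a1, a2⟩
    rw [sum_congr rfl e2, sum_add_distrib, ← sum_mul, sum_comm]
    congr 1
    refine sum_congr rfl fun v hv => ?_
    rw [mem_Ico] at hv
    rw [← sum_filter, ← sum_mul]
    congr 1
    refine sum_congr ?_ fun _ _ => rfl
    ext d
    rw [mem_filter, mem_PB, mem_PB]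
    constructor
    · rintro ⟨⟨-, a2⟩, a1⟩; exact ⟨a1, a2⟩
    · rintro ⟨a1, a2⟩; exact ⟨⟨by omega, a2⟩, a1⟩
  rw [e1]
  refine (norm_add_le _ _).trans ?_
  have nr : ∀ {r : ℝ}, 0 ≤ r → ‖(r : ℂ)‖ = r := fun {r} h => by
    rw [Complex.norm_real, Real.norm_of_nonneg h]
  have e3 : ‖(∑ d ∈ PB Y, χ d) * ((1 / Y : ℝ) : ℂ)‖ ≤ 16 := by
    rw [norm_mul, nr (by positivity), mul_one_div, div_le_iff₀ hYr]
    exact chs_le' hch hY
  have e4 : ∀ v ∈ Ico 1 Y, ‖(∑ d ∈ PB v, χ d) * ((1 / ((v : ℝ) * (v + 1)) : ℝ) : ℂ)‖ ≤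
      (if v < N ^ 2 then 16 * (1 / ((v : ℝ) + 1)) else 0) +
      (if N ^ 2 ≤ v then 5376 * N * (Real.sqrt v / (v * (v + 1))) else 0) := by
    intro v hv
    rw [mem_Ico] at hv
    have v0 : (0 : ℝ) < v := by exact_mod_cast hv.1
    have hp : (0 : ℝ) < 1 / ((v : ℝ) * (v + 1)) := by positivity
    rw [norm_mul, nr hp.le]
    by_cases h : v < N ^ 2
    · rw [if_pos h, if_neg (by omega), add_zero]
      calc ‖∑ d ∈ PB v, χ d‖ * (1 / ((v : ℝ) * (v + 1))) ≤ (16 * v) * (1 / ((v : ℝ) * (v + 1))) :=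
            mul_le_mul_of_nonneg_right (chs_le' hch hv.1) hp.le
        _ = 16 * (1 / ((v : ℝ) + 1)) := by field_simp
    · rw [if_neg h, if_pos (by omega), zero_add]
      calc ‖∑ d ∈ PB v, χ d‖ * (1 / ((v : ℝ) * (v + 1))) ≤
            (5376 * N * Real.sqrt v) * (1 / ((v : ℝ) * (v + 1))) :=
            mul_le_mul_of_nonneg_right (hcl v hv.1) hp.le
        _ = 5376 * N * (Real.sqrt v / (v * (v + 1))) := by ring
  have e5 : ‖∑ v ∈ Ico 1 Y, (∑ d ∈ PB v, χ d) * ((1 / ((v : ℝ) * (v + 1)) : ℝ) : ℂ)‖ ≤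
      16 * (2 * lgn N) + 10752 := by
    refine (norm_sum_le _ _).trans ((sum_le_sum e4).trans ?_)
    rw [sum_add_distrib]
    have hN2 : 1 ≤ N ^ 2 := Nat.one_le_pow _ _ hN1
    have a1 : ∑ v ∈ Ico 1 Y, (if v < N ^ 2 then 16 * (1 / ((v : ℝ) + 1)) else 0) ≤ 16 * (2 * lgn N) := by
      rw [← sum_filter, ← mul_sum]
      have h2 : ∑ v ∈ (Ico 1 Y).filter (fun v => v < N ^ 2), (1 : ℝ) / ((v : ℝ) + 1) ≤
          ∑ v ∈ Ico 1 (N ^ 2), (1 : ℝ) / ((v : ℝ) + 1) := by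
        refine sum_le_sum_of_subset_of_nonneg ?_ (fun _ _ _ => by positivity)
        intro v hv
        rw [mem_filter, mem_Ico] at hv
        rw [mem_Ico]
        exact ⟨hv.1.1, hv.2⟩
      have h3 := harm_le (N ^ 2) hN2
      have h4 : Real.log ((N ^ 2 : ℕ) : ℝ) = 2 * Real.log N := by
        push_cast
        rw [Real.log_pow]
        push_cast
        ring
      rw [h4] at h3
      have h5 := log_le_lgn hN1
      linarith
    have a2 : ∑ v ∈ Ico 1 Y, (if N ^ 2 ≤ v then 5376 * (N : ℝ) * (Real.sqrt v / (v * (v + 1))) else 0) ≤ 10752 := by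
      rw [← sum_filter, ← mul_sum]
      have h2 : ∑ v ∈ (Ico 1 Y).filter (fun v => N ^ 2 ≤ v), Real.sqrt v / ((v : ℝ) * (v + 1)) ≤
          ∑ v ∈ Ico (N ^ 2) (max Y (N ^ 2)), Real.sqrt v / ((v : ℝ) * (v + 1)) := by
        refine sum_le_sum_of_subset_of_nonneg ?_ (fun _ _ _ => by positivity)
        intro v hv
        rw [mem_filter, mem_Ico] at hv
        rw [mem_Ico]
        exact ⟨hv.2, lt_of_lt_of_le hv.1.2 (le_max_left _ _)⟩
      have h3 := sqrt_tel (N ^ 2) hN2 (max Y (N ^ 2)) (le_max_right _ _)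
      have h4 : Real.sqrt ((N ^ 2 : ℕ) : ℝ) = N := by
        push_cast
        exact Real.sqrt_sq (Nat.cast_nonneg _)
      rw [h4] at h3
      have h5 : (0 : ℝ) ≤ 1 / Real.sqrt ((max Y (N ^ 2) : ℕ) : ℝ) := by positivity
      have Nr : (0 : ℝ) < N := by exact_mod_cast hN1
      calc 5376 * (N : ℝ) * ∑ v ∈ (Ico 1 Y).filter (fun v => N ^ 2 ≤ v), Real.sqrt v / ((v : ℝ) * (v + 1))
          ≤ 5376 * N * (2 * (1 / N)) := by
            apply mul_le_mul_of_nonneg_left _ (by positivity)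
            linarith
        _ = 10752 := by field_simp; norm_num
    linarith
  linarith

end HALL

open HALL
open Pool.Agent.R426.QK

/-- **the mean value for a character** -/
theorem t_HALL5 : S_HALL5 := by
  refine ⟨10500, by norm_num, ?_⟩
  intro n i j k l hn hi hj hk hl' h1 T
  rcases Nat.eq_zero_or_pos T with h0 | hT
  · rw [SB_empty h0, sum_empty]
    have h2 := lgn_pos T
    have h3 := lgn_pos (nrm n)
    positivity
  have hch := xr5_ch hn i j k l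
  have hl := one_le_lgn (nrm n)
  have hlT := lgn_pos T
  have hAA : ∑ m ∈ PB (T ^ 3), mf (fun π => 3 * ((2 + (xr5 n i j k l π).re) / 3)) m / nrm m ≤
      (125000000 * lgn (nrm n)) * lgn T ^ 2 := by
    have e1 : (fun π : Pool.Agent.Y698.RR => 3 * ((2 + (xr5 n i j k l π).re) / 3)) =
        fun π => 2 + (xr5 n i j k l π).re := by
      funext π; ring
    rw [e1]
    refine (conv_bound hch (chs_log5 hn hi hj hk hl' h1) (T ^ 3)).trans ?_
    have e5 := lgn_cube T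
    have e6 := lgn_pos (T ^ 3)
    have e7 : (32 * lgn (T ^ 3)) ^ 2 ≤ (96 * lgn T) ^ 2 := by
      apply pow_le_pow_left₀ (by positivity)
      linarith
    calc (32 * lgn (T ^ 3)) ^ 2 * (10800 * lgn (nrm n)) ≤ (96 * lgn T) ^ 2 * (10800 * lgn (nrm n)) := by
          apply mul_le_mul_of_nonneg_right e7 (by positivity)
      _ = 99532800 * (lgn (nrm n) * lgn T ^ 2) := by ring
      _ ≤ 125000000 * (lgn (nrm n) * lgn T ^ 2) := by
          have : 0 ≤ lgn (nrm n) * lgn T ^ 2 := by positivity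
          linarith
      _ = _ := by ring
  have hv := fun π => hch.val π
  have h2 := hall_aux (g := fun π => (2 + (xr5 n i j k l π).re) / 3)
    (fun π => by have := re_nonneg (hv π); linarith)
    (fun π => by have := re_le (hv π); linarith) hT (by linarith) hAA
  refine h2.trans (le_of_eq ?_)
  have e : (125000000 * lgn (nrm n)) ^ (1 / 3 : ℝ) = 500 * (lgn (nrm n)) ^ (1 / 3 : ℝ) := by
    rw [Real.mul_rpow (by norm_num) (by linarith)]
    congr 1
    rw [show (125000000 : ℝ) = 500 ^ (3 : ℝ) by norm_num, ← Real.rpow_mul (by norm_num)]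
    norm_num
  rw [e]
  ring

end Pool.Agent.NH57.BO
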