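import Pool.Agent.NH57.BL.Stm2
import Pool.Agent.R426.QK.LOW
import Pool.Agent.R426.QK.Sym

/-!
# BL-LOW: the classes modulo `8` have positive density
-/

set_option autoImplicit false
set_option linter.unusedVariables false

open scoped Classical

namespace Pool.Agent.NH57.BO.LOW

open Finset
open Pool.Agent.Y698
open Pool.Agent.Y698.SG hiding PD
open Pool.Agent.R426.QK
open Pool.Agent.R426
open Pool.Agent.R426.QC (e6 e3 e6_a e3_a e6_b e3_b e6_zero e3_zero eight_eq)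
open Pool.Agent.R426.QK.LOW (sqf_dec tail' r4_sq)

/-- the residues: `1` modulo `4`, with given classes modulo `8`, prime to `fR` -/
structure Res (x y : ZMod 2) (r : RR) : Prop where
  nr : nrm r ≤ 37
  seven : ¬ 7 ∣ nrm r
  four : ∃ j : RR, r = 1 + 4 * j
  e6 : e6 r = if x = 1 then 5 else 1
  e3 : e3 r = if y = 1 then 5 else 1

lemma zero_or_one : ∀ x : ZMod 2, x = 0 ∨ x = 1 := by decide

lemma exists_res (x y : ZMod 2) : ∃ r : RR, Res x y r := by
  have hn : ∀ u v : ℤ, (nrm (mk (u, v)) : ℤ) = u ^ 2 + u * v + 2 * v ^ 2 := by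
    intro u v
    rw [nrm_eq', (cXY_mk _).1, (cXY_mk _).2]
  have hm : ∀ u v : ℤ, mk (u, v) = (u : RR) + (v : RR) * aR := fun u v => rfl
  have h6 : ∀ u v : ℤ, e6 (mk (u, v)) = (u : ZMod 8) + (v : ZMod 8) * 6 := by
    intro u v
    rw [hm, map_add, map_mul, map_intCast, map_intCast, e6_a]
  have h3 : ∀ u v : ℤ, e3 (mk (u, v)) = (u : ZMod 8) + (v : ZMod 8) * 3 := by
    intro u v
    rw [hm, map_add, map_mul, map_intCast, map_intCast, e3_a]
  have key : ∀ (u v N : ℤ) (j : RR), u ^ 2 + u * v + 2 * v ^ 2 = N → N ≤ 37 → ¬ (7 : ℤ) ∣ N →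
      mk (u, v) = 1 + 4 * j → ((u : ZMod 8) + (v : ZMod 8) * 6 = if x = 1 then 5 else 1) →
      ((u : ZMod 8) + (v : ZMod 8) * 3 = if y = 1 then 5 else 1) → ∃ r : RR, Res x y r := by
    intro u v N j h1 h2 h4 h5 h7 h8
    refine ⟨mk (u, v), ?_, ?_, ⟨j, h5⟩, ?_, ?_⟩
    · have := hn u v
      rw [h1] at this
      omega
    · have := hn u v
      rw [h1] at this
      intro hd
      apply h4
      rw [← this]
      exact_mod_cast hd
    · rw [h6, h7]
    · rw [h3, h8]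
  rcases zero_or_one x with rfl | rfl <;> rcases zero_or_one y with rfl | rfl
  · exact key 1 0 1 0 (by norm_num) (by norm_num) (by norm_num)
      (by rw [hm]; push_cast; ring) (by decide) (by decide)
  · exact key 1 4 37 aR (by norm_num) (by norm_num) (by norm_num)
      (by rw [hm]; push_cast; ring) (by decide) (by decide)
  · exact key 5 (-4) 37 (1 - aR) (by norm_num) (by norm_num) (by norm_num)
      (by rw [hm]; push_cast; ring) (by decide) (by decide)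
  · exact key 5 0 25 1 (by norm_num) (by norm_num) (by norm_num)
      (by rw [hm]; push_cast; ring) (by decide) (by decide)

/-- the elements `r` modulo `8 * fR` of norm at most `X` -/
noncomputable def T5 (r : RR) (X : ℕ) : Finset RR := (ZB X).filter fun n => 8 * fR ∣ n - r

lemma mem_T5 {r : RR} {X : ℕ} {n : RR} : n ∈ T5 r X ↔ nrm n ≤ X ∧ 8 * fR ∣ n - r := by
  unfold T5
  rw [mem_filter, mem_ZB]

/-- parallelogram -/
lemma nrm_add_le (s t : RR) : (nrm (s + t) : ℤ) ≤ 2 * nrm s + 2 * nrm t := by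
  have h0 : (0 : ℤ) ≤ nrm (s - t) := Int.natCast_nonneg _
  have h1 : (nrm (s + t) : ℤ) + nrm (s - t) = 2 * nrm s + 2 * nrm t := by
    rw [sub_eq_add_neg, nrm_eq', nrm_eq', nrm_eq', nrm_eq', (cXY_add _ _).1, (cXY_add _ _).2,
      (cXY_add _ _).1, (cXY_add _ _).2, (cXY_neg _).1, (cXY_neg _).2]
    ring
  linarith

/-- the norm of `8 * fR * (a + b * aR)` -/
lemma nrm_form5 (a b : ℤ) : (nrm (8 * fR * mk (a, b)) : ℤ) =
    448 * (a ^ 2 + a * b + 2 * b ^ 2) := by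
  have h8 : (8 : RR) = ((8 : ℤ) : RR) := by norm_num
  have i1 : ∀ n : ℤ, cX (n : RR) = n := fun n => (cXY_int n).1
  have i2 : ∀ n : ℤ, cY (n : RR) = 0 := fun n => (cXY_int n).2
  have e1 : cX (8 * fR * mk (a, b)) = - 8 * a - 32 * b := by
    rw [h8, (cXY_mul _ _).1, (cXY_mul _ _).1, (cXY_mul _ _).2, i1, i2,
      cXY_fR.1, cXY_fR.2, (cXY_mk _).1, (cXY_mk _).2]
    ring
  have e2 : cY (8 * fR * mk (a, b)) = 16 * a + 8 * b := by
    rw [h8, (cXY_mul _ _).2, (cXY_mul _ _).1, (cXY_mul _ _).2, i2, i1,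
      cXY_fR.1, cXY_fR.2, (cXY_mk _).1, (cXY_mk _).2]
    ring
  rw [nrm_eq', e1, e2]
  ring

lemma eight_fR_ne : (8 * fR : RR) ≠ 0 := by
  refine mul_ne_zero ?_ fR_ne
  rw [eight_eq]
  exact mul_ne_zero (pow_ne_zero 3 prime_aR.ne_zero) (pow_ne_zero 3 prime_cjaR.ne_zero)

lemma T5_lower {r : RR} (hr : nrm r ≤ 37) {X : ℕ} (hX : 74 ≤ X) : X ≤ 3658 * (T5 r X).card := by
  obtain ⟨B, hB1, hB2⟩ : ∃ B : ℕ, B * B ≤ (X - 74) / 3584 ∧
      (X - 74) / 3584 < (B + 1) * (B + 1) :=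
    ⟨Nat.sqrt ((X - 74) / 3584), Nat.sqrt_le _, Nat.lt_succ_sqrt _⟩
  have h1 : ((range (B + 1)) ×ˢ (range (B + 1))).card ≤ (T5 r X).card := by
    refine card_le_card_of_injOn
      (fun p : ℕ × ℕ => r + 8 * fR * mk ((p.1 : ℤ), (p.2 : ℤ))) ?_ ?_
    · intro p hp
      have hp' : p.1 < B + 1 ∧ p.2 < B + 1 := by
        simpa using hp
      have ha : (p.1 : ℤ) ≤ B := by exact_mod_cast Nat.lt_succ_iff.1 hp'.1
      have hb : (p.2 : ℤ) ≤ B := by exact_mod_cast Nat.lt_succ_iff.1 hp'.2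
      have ha0 : (0 : ℤ) ≤ p.1 := Int.natCast_nonneg _
      have hb0 : (0 : ℤ) ≤ p.2 := Int.natCast_nonneg _
      rw [mem_coe, mem_T5]
      refine ⟨?_, ⟨mk ((p.1 : ℤ), (p.2 : ℤ)), by ring⟩⟩
      have h2 := nrm_form5 p.1 p.2
      have h3 : (B * B : ℤ) * 3584 ≤ X - 74 := by
        have : B * B * 3584 ≤ X - 74 := (Nat.le_div_iff_mul_le (by norm_num)).1 hB1
        have h5 : ((B * B * 3584 : ℕ) : ℤ) ≤ ((X - 74 : ℕ) : ℤ) := by exact_mod_cast this
        rw [Nat.cast_sub hX] at h5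
        push_cast at h5
        exact h5
      have hr' : (nrm r : ℤ) ≤ 37 := by exact_mod_cast hr
      have h4 : (nrm (r + 8 * fR * mk ((p.1 : ℤ), (p.2 : ℤ))) : ℤ) ≤ X := by
        refine (nrm_add_le _ _).trans ?_
        rw [h2]
        nlinarith [mul_le_mul ha ha ha0 (ha0.trans ha), mul_le_mul hb hb hb0 (hb0.trans hb),
          mul_le_mul ha hb hb0 (ha0.trans ha)]
      exact_mod_cast h4
    · intro p _ q _ h
      have h2 : (8 * fR) * mk ((p.1 : ℤ), (p.2 : ℤ)) = (8 * fR) * mk ((q.1 : ℤ), (q.2 : ℤ)) :=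
        add_left_cancel h
      have h3 := mk_inj (mul_left_cancel₀ eight_fR_ne h2)
      rw [Prod.mk.injEq] at h3
      exact Prod.ext (by exact_mod_cast h3.1) (by exact_mod_cast h3.2)
  rw [card_product, card_range] at h1
  have h2 : X - 74 < 3584 * ((B + 1) * (B + 1)) := by
    rw [Nat.div_lt_iff_lt_mul (by norm_num)] at hB2
    linarith
  have h3 : 3584 * ((B + 1) * (B + 1)) ≤ 3584 * (T5 r X).card := Nat.mul_le_mul_left _ h1
  have h4 : 1 ≤ (B + 1) * (B + 1) := Nat.mul_pos (Nat.succ_pos _) (Nat.succ_pos _)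
  omega

lemma coab : IsCoprime aR (cj aR) := ⟨1, 1, by rw [QC.cj_aR]; ring⟩

lemma dvd_of_four {p q m c : RR} (hp : Prime p) (hpq : IsCoprime p q)
    (h4 : (4 : RR) = p ^ 2 * q ^ 2) (h : 4 * m = p ^ 3 * c) : p ∣ m := by
  have h2 : p ^ 2 * (q ^ 2 * m) = p ^ 2 * (p * c) := by
    linear_combination h - m * h4
  have h3 := mul_left_cancel₀ (pow_ne_zero 2 hp.ne_zero) h2
  exact (hpq.pow_right (n := 2)).dvd_of_dvd_mul_left ⟨c, h3⟩

lemma sq8 : ∀ t : ZMod 8, 4 * t ≠ 0 → t ^ 2 = 1 := by decide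

lemma e6_odd {m : RR} (hm : ¬ aR ∣ m) : e6 m ^ 2 = 1 := by
  refine sq8 _ fun h => hm ?_
  have h1 : e6 (4 * m) = 0 := by rw [map_mul, map_ofNat]; exact h
  obtain ⟨c, hc⟩ := e6_zero h1
  exact dvd_of_four prime_aR coab QC.four_eq hc

lemma e3_odd {m : RR} (hm : ¬ cj aR ∣ m) : e3 m ^ 2 = 1 := by
  refine sq8 _ fun h => hm ?_
  have h1 : e3 (4 * m) = 0 := by rw [map_mul, map_ofNat]; exact h
  obtain ⟨c, hc⟩ := e3_zero h1
  exact dvd_of_four prime_cjaR coab.symm (by rw [QC.four_eq, mul_comm]) hc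

lemma six_ne (x : ZMod 2) : ∀ t : ZMod 8, ¬ (6 * t = if x = 1 then 5 else 1) := by
  rcases zero_or_one x with rfl | rfl <;> decide

lemma r4_four (x : RR) : QD.r4 (4 * x) = 0 := by
  rw [map_mul]
  have : QD.r4 (4 : RR) = 0 := by
    rw [map_ofNat]
    rfl
  rw [this, zero_mul]

lemma map_eight (f : RR →+* ZMod 8) (c : RR) : f (8 * c) = 0 := by
  rw [map_mul, map_ofNat]
  have : (8 : ZMod 8) = 0 := rfl
  exact (congrArg (· * f c) this).trans (zero_mul _)

lemma map_res (f : RR →+* ZMod 8) {n r : RR} (hn : 8 * fR ∣ n - r) : f n = f r := by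
  obtain ⟨c, hc⟩ := hn
  have e1 : n = r + 8 * (fR * c) := by linear_combination hc
  rw [e1, map_add, map_eight, add_zero]

/-- the squarefree part of an element of `T5` -/
lemma dec_T5 {x y : ZMod 2} {r : RR} (hr : Res x y r) {n : RR} (hn : 8 * fR ∣ n - r) :
    ∃ D m : RR, (PS D ∧ nrm D % 4 = 1 ∧ (e6 D = if x = 1 then 5 else 1) ∧
      (e3 D = if y = 1 then 5 else 1)) ∧ n = D * m ^ 2 ∧ n ≠ 0 := by
  have n6 : e6 n = if x = 1 then 5 else 1 := (map_res e6 hn).trans hr.e6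
  have n3 : e3 n = if y = 1 then 5 else 1 := (map_res e3 hn).trans hr.e3
  have ha : ¬ aR ∣ n := by
    rintro ⟨c, rfl⟩
    rw [map_mul, e6_a] at n6
    exact six_ne x _ n6
  have hc : ¬ cj aR ∣ n := by
    rintro ⟨c, rfl⟩
    rw [map_mul, e3_b] at n3
    exact six_ne y _ n3
  have hf : ¬ fR ∣ n := by
    intro h
    have h1 : fR ∣ n - (n - r) := dvd_sub h ((dvd_mul_left _ _).trans hn)
    rw [sub_sub_cancel] at h1
    obtain ⟨c, hc⟩ := h1
    apply hr.seven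
    have h7 : nrm fR = 7 := by
      have : (nrm fR : ℤ) = 7 := by
        rw [nrm_eq', cXY_fR.1, cXY_fR.2]
        norm_num
      exact_mod_cast this
    exact ⟨nrm c, by rw [hc, nrm_mul, h7]⟩
  have hn0 : n ≠ 0 := by
    rintro rfl
    exact ha (dvd_zero _)
  obtain ⟨D, m, hD, hm⟩ := sqf_dec (nrm n) n hn0 le_rfl
  have hDn : D ∣ n := by rw [hm]; exact dvd_mul_right _ _
  have hmn : m ∣ n := by rw [hm, pow_two]; exact (dvd_mul_right m m).mul_left _
  have ham : ¬ aR ∣ m := fun h => ha (h.trans hmn)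
  have hcm' : ¬ cj aR ∣ m := fun h => hc (h.trans hmn)
  have hcm : ¬ aR ∣ cj m := by
    intro h
    apply hc
    have := map_dvd cj h
    rw [cj_cj] at this
    exact this.trans hmn
  obtain ⟨h1, h2⟩ : QD.r4 n = 1 ∧ QD.r4 (cj n) = 1 := by
    obtain ⟨j, hj⟩ := hr.four
    obtain ⟨c, hc⟩ := hn
    have e1 : n = 1 + 4 * (j + 2 * fR * c) := by linear_combination hc + hj
    constructor
    · rw [e1, map_add, map_one, r4_four, add_zero]
    · rw [e1, map_add, map_one, map_mul cj, map_add, map_one, map_ofNat cj, r4_four, add_zero]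
  have h3 : QD.r4 D = 1 := by
    rw [hm, map_mul, map_pow, r4_sq ham, mul_one] at h1
    exact h1
  have h4 : QD.r4 (cj D) = 1 := by
    rw [hm, map_mul cj, map_pow cj, map_mul, map_pow, r4_sq hcm, mul_one] at h2
    exact h2
  have k6 : e6 D = if x = 1 then 5 else 1 := by
    rw [← n6, hm, map_mul, map_pow, e6_odd ham, mul_one]
  have k3 : e3 D = if y = 1 then 5 else 1 := by
    rw [← n3, hm, map_mul, map_pow, e3_odd hcm', mul_one]
  refine ⟨D, m, ⟨⟨⟨h3, fun h => hc (h.trans hDn), fun h => hf (h.trans hDn)⟩, hD⟩, ?_, k6, k3⟩,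
    hm, hn0⟩
  have h5 : QD.r4 (D * cj D) = 1 := by rw [map_mul, h3, h4, mul_one]
  rw [mul_cj, ← nrm_cast, map_intCast] at h5
  have h6 : ((nrm D : ℕ) : ZMod 4) = ((1 : ℕ) : ZMod 4) := by
    push_cast at h5 ⊢
    exact h5
  have h7 := (ZMod.natCast_eq_natCast_iff _ _ _).1 h6
  exact h7

lemma lab {t : ZMod 8} {x s : ZMod 2} (h : t = if x = 1 then 5 else 1) (h5 : t = 5 ↔ s = 1) :
    s = x := by
  subst h
  revert h5
  revert x s
  decide

/-- the set of prime divisors is in the class -/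
lemma PD_mem5 (hS : S_SUP5) {x y : ZMod 2} {D : RR} {X : ℕ} (hD : PS D ∧ nrm D % 4 = 1 ∧
    (e6 D = if x = 1 then 5 else 1) ∧ (e3 D = if y = 1 then 5 else 1))
    (hX : nrm D ≤ X) : PD D ∈ SS5 x y X := by
  obtain ⟨hP, h4, h6, h3⟩ := hD
  have hq : ∀ π ∈ PD D, Pq π := fun π hπ => ((mem_PD hP.ne).1 hπ).1
  have hn : (∏ π ∈ PD D, nrm π) % 4 = 1 := by
    rw [← Pool.Agent.R426.QK.LOW.nrm_prod, hP.prod]
    exact h4
  have ht : ∑ π ∈ PD D, tt π = 0 := by
    rw [← tt_prod fun π hπ => (hq π hπ).prm, hP.prod]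
    unfold tt
    rw [if_neg (by omega)]
  obtain ⟨h1, h2⟩ := hS.2 (PD D) hq hn
  rw [hP.prod] at h1 h2
  unfold SS5
  rw [mem_filter]
  refine ⟨Pool.Agent.R426.QK.LOW.PD_mem hP h4 hX, ?_, ?_⟩
  · unfold dd
    rw [sum_add_distrib, ← mul_sum, ht, mul_zero, add_zero]
    exact lab h6 h1
  · unfold gg
    rw [sum_add_distrib, ← mul_sum, ht, mul_zero, add_zero]
    exact lab h3 h2

section

variable {x y : ZMod 2} {r : RR} (hr : Res x y r)

/-- the chosen squarefree part -/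
noncomputable def dD (n : RR) : RR := if h : 8 * fR ∣ n - r then (dec_T5 hr h).choose else 1

/-- the chosen square root of the square part -/
noncomputable def dm (n : RR) : RR :=
  if h : 8 * fR ∣ n - r then (dec_T5 hr h).choose_spec.choose else 1

lemma d_spec {n : RR} (h : 8 * fR ∣ n - r) : (PS (dD hr n) ∧ nrm (dD hr n) % 4 = 1 ∧
    (e6 (dD hr n) = if x = 1 then 5 else 1) ∧ (e3 (dD hr n) = if y = 1 then 5 else 1)) ∧
    n = dD hr n * dm hr n ^ 2 ∧ n ≠ 0 := by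
  unfold dD dm
  rw [dif_pos h, dif_pos h]
  exact (dec_T5 hr h).choose_spec.choose_spec

lemma card_small (hS : S_SUP5) (X L : ℕ) :
    ((T5 r X).filter fun n => nrm (dm hr n) ≤ L).card ≤ (ZB L).card * (SS5 x y X).card := by
  rw [← card_product]
  refine card_le_card_of_injOn (fun n => (dm hr n, PD (dD hr n))) ?_ ?_
  · intro n hn
    rw [mem_coe, mem_filter, mem_T5] at hn
    obtain ⟨h1, h3, h4⟩ := d_spec hr hn.1.2
    rw [mem_coe, mem_product, mem_ZB]
    refine ⟨hn.2, PD_mem5 hS h1 ?_⟩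
    refine (norm_le_of_dvd h4 ?_).trans hn.1.1
    exact ⟨_, h3⟩
  · intro n hn n' hn' h
    rw [mem_coe, mem_filter, mem_T5] at hn hn'
    obtain ⟨h1, h3, h4⟩ := d_spec hr hn.1.2
    obtain ⟨k1, k3, k4⟩ := d_spec hr hn'.1.2
    rw [Prod.mk.injEq] at h
    rw [h3, k3, ← h1.1.prod, ← k1.1.prod, h.1, h.2]

lemma card_big {X L : ℕ} (hL : 1 ≤ L) : (((T5 r X).filter fun n => ¬ nrm (dm hr n) ≤ L).card : ℝ) ≤
    16 * X * (64 / L) := by
  have h1 : ((T5 r X).filter fun n => ¬ nrm (dm hr n) ≤ L).card ≤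
      (((ZB X \ ZB L).filter fun m => 1 ≤ X / nrm m ^ 2).sigma fun m => ZB (X / nrm m ^ 2)).card := by
    refine card_le_card_of_injOn (fun n => ⟨dm hr n, dD hr n⟩) ?_ ?_
    · intro n hn
      rw [mem_coe, mem_filter, mem_T5] at hn
      obtain ⟨h1, h3, h4⟩ := d_spec hr hn.1.2
      have h5 : nrm n = nrm (dD hr n) * nrm (dm hr n) ^ 2 := by
        conv_lhs => rw [h3]
        rw [nrm_mul, pow_two, nrm_mul, pow_two]
      have hm0 : dm hr n ≠ 0 := by
        intro h0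
        rw [h0] at h3
        exact h4 (by rw [h3]; ring)
      have hm1 := nrm_pos' hm0
      have hD1 := nrm_pos' h1.1.ne
      have h6 : nrm (dD hr n) * nrm (dm hr n) ^ 2 ≤ X := by rw [← h5]; exact hn.1.1
      have h7 : nrm (dD hr n) ≤ X / nrm (dm hr n) ^ 2 :=
        (Nat.le_div_iff_mul_le (by positivity)).2 h6
      rw [mem_coe, mem_sigma, mem_filter, mem_sdiff, mem_ZB, mem_ZB, mem_ZB]
      refine ⟨⟨⟨?_, hn.2⟩, ?_⟩, h7⟩
      · calc nrm (dm hr n) ≤ nrm (dm hr n) ^ 2 := Nat.le_self_pow (by norm_num) _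
          _ ≤ nrm (dD hr n) * nrm (dm hr n) ^ 2 := Nat.le_mul_of_pos_left _ hD1
          _ ≤ X := h6
      · show 1 ≤ X / nrm (dm hr n) ^ 2
        omega
    · intro n hn n' hn' h
      rw [mem_coe, mem_filter, mem_T5] at hn hn'
      obtain ⟨h1, h3, h4⟩ := d_spec hr hn.1.2
      obtain ⟨k1, k3, k4⟩ := d_spec hr hn'.1.2
      have e1 : dm hr n = dm hr n' := congrArg Sigma.fst h
      have e2 : dD hr n = dD hr n' := by
        have := (Sigma.mk.inj_iff.1 h).2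
        exact eq_of_heq this
      rw [h3, k3, e1, e2]
  rw [card_sigma] at h1
  have h2 : (((T5 r X).filter fun n => ¬ nrm (dm hr n) ≤ L).card : ℝ) ≤
      ∑ m ∈ (ZB X \ ZB L).filter (fun m => 1 ≤ X / nrm m ^ 2), ((ZB (X / nrm m ^ 2)).card : ℝ) := by
    exact_mod_cast h1
  refine h2.trans ?_
  calc ∑ m ∈ (ZB X \ ZB L).filter (fun m => 1 ≤ X / nrm m ^ 2), ((ZB (X / nrm m ^ 2)).card : ℝ)
      ≤ ∑ m ∈ (ZB X \ ZB L).filter (fun m => 1 ≤ X / nrm m ^ 2), 16 * X * (1 / (nrm m : ℝ) ^ 2) := by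
        refine sum_le_sum fun m hm => ?_
        rw [mem_filter] at hm
        refine (card_ZB_le hm.2).trans ?_
        have h3 : ((X / nrm m ^ 2 : ℕ) : ℝ) ≤ (X : ℝ) / (nrm m : ℝ) ^ 2 := by
          have := @Nat.cast_div_le ℝ _ _ _ X (nrm m ^ 2)
          push_cast at this
          exact this
        calc 16 * ((X / nrm m ^ 2 : ℕ) : ℝ) ≤ 16 * ((X : ℝ) / (nrm m : ℝ) ^ 2) := by linarith
          _ = _ := by ring
    _ ≤ ∑ m ∈ ZB X \ ZB L, 16 * X * (1 / (nrm m : ℝ) ^ 2) :=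
        sum_le_sum_of_subset_of_nonneg (filter_subset _ _) fun _ _ _ => by positivity
    _ = 16 * X * ∑ m ∈ ZB X \ ZB L, 1 / (nrm m : ℝ) ^ 2 := by rw [mul_sum]
    _ ≤ 16 * X * (64 / L) := mul_le_mul_of_nonneg_left (tail' hL X) (by positivity)

end

end Pool.Agent.NH57.BO.LOW

namespace Pool.Agent.NH57.BO

open Finset
open Pool.Agent.Y698
open Pool.Agent.Y698.SG hiding PD
open Pool.Agent.R426.QK


/-- **BL-LOW** -/
theorem t_LOW5 : S_SUP5 → S_LOW5 := by
  intro hS x y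
  obtain ⟨r, hr⟩ := LOW.exists_res x y
  obtain ⟨L, hL⟩ : ∃ L : ℕ, L = 7491584 := ⟨_, rfl⟩
  have hL1 : 1 ≤ L := by rw [hL]; norm_num
  have hZ : 0 < (ZB L).card := by
    rw [card_pos]
    exact ⟨1, mem_ZB.2 (by rw [nrm_one]; exact hL1)⟩
  have hZ' : (0 : ℝ) < (ZB L).card := by exact_mod_cast hZ
  refine ⟨1 / (7316 * (ZB L).card), 74, by positivity, fun X hX => ?_⟩
  have h1 : (X : ℝ) ≤ 3658 * (LOW.T5 r X).card := by exact_mod_cast LOW.T5_lower hr.nr hX
  have h2 : ((LOW.T5 r X).card : ℝ) = (((LOW.T5 r X).filter fun n => nrm (LOW.dm hr n) ≤ L).card : ℝ) +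
      (((LOW.T5 r X).filter fun n => ¬ nrm (LOW.dm hr n) ≤ L).card : ℝ) := by
    exact_mod_cast (card_filter_add_card_filter_not (s := LOW.T5 r X) (fun n => nrm (LOW.dm hr n) ≤ L)).symm
  have h3 : (((LOW.T5 r X).filter fun n => nrm (LOW.dm hr n) ≤ L).card : ℝ) ≤
      (ZB L).card * (SS5 x y X).card := by exact_mod_cast LOW.card_small hr hS X L
  have h4 := LOW.card_big hr (X := X) hL1
  have h5 : (16 * X * (64 / L) : ℝ) = X / 7316 := by
    rw [hL]
    push_cast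
    ring
  rw [h5] at h4
  have h6 : (X : ℝ) ≤ 7316 * ((ZB L).card * (SS5 x y X).card) := by linarith
  calc 1 / (7316 * ((ZB L).card : ℝ)) * X ≤
      1 / (7316 * ((ZB L).card : ℝ)) * (7316 * ((ZB L).card * (SS5 x y X).card)) :=
        mul_le_mul_of_nonneg_left h6 (by positivity)
    _ = (SS5 x y X).card := by
      field_simp

end Pool.Agent.NH57.BO
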