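import Pool.Agent.NH57.BL.LA

/-!
# BL-11 (S_LX2): the number of the tuples that can lie in the kernel

After `Pool/Agent/R426/QK/LA2.lean`.
-/

set_option autoImplicit false
set_option linter.unusedVariables false
set_option linter.unusedSectionVars false

open scoped Classical

namespace Pool.Agent.NH57.BL.LX2

open Finset Pool.Agent.NH57.BL

/-- the sign -/
def ch (z : ZMod 2) : ℤ := if z = 0 then 1 else -1

theorem ch_add : ∀ x y : ZMod 2, ch (x + y) = ch x * ch y := by decide

theorem ch_zero : ch 0 = 1 := by decide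

theorem ch_abs : ∀ x : ZMod 2, |ch x| = 1 := by decide

theorem ch_sum {ι : Type} (s : Finset ι) (f : ι → ZMod 2) :
    ch (∑ i ∈ s, f i) = ∏ i ∈ s, ch (f i) := by
  induction s using Finset.induction_on with
  | empty => simp [ch_zero]
  | insert a s ha ih => rw [Finset.sum_insert ha, Finset.prod_insert ha, ch_add, ih]

theorem sum_ch_one : ∀ a : ZMod 2, ∑ z : ZMod 2, ch (z * a) = if a = 0 then 2 else 0 := by decide

/-- orthogonality -/
theorem sum_ch {ι : Type} [Fintype ι] [DecidableEq ι] (a : ι → ZMod 2) :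
    ∑ f : ι → ZMod 2, ch (∑ i, f i * a i) =
      if ∀ i, a i = 0 then (2 : ℤ) ^ Fintype.card ι else 0 := by
  have h1 : ∑ f : ι → ZMod 2, ch (∑ i, f i * a i) = ∏ i, ∑ z : ZMod 2, ch (z * a i) := by
    rw [Finset.prod_univ_sum, Fintype.piFinset_univ]
    exact Finset.sum_congr rfl fun f _ => ch_sum _ _
  rw [h1, Finset.prod_congr rfl fun i _ => sum_ch_one (a i)]
  by_cases h : ∀ i, a i = 0
  · rw [if_pos h, Finset.prod_congr rfl fun i _ => if_pos (h i), Finset.prod_const,
      Finset.card_univ]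
  · rw [if_neg h]
    push Not at h
    obtain ⟨i, hi⟩ := h
    exact Finset.prod_eq_zero (Finset.mem_univ i) (if_neg hi)

theorem two0 : (2 : ZMod 2) = 0 := by decide

theorem add_self0 (x : ZMod 2) : x + x = 0 := CharTwo.add_self_eq_zero x

theorem add_eq0 {x y : ZMod 2} : x + y = 0 ↔ x = y := by
  constructor
  · intro h
    have h1 := congrArg (· + y) h
    simp only [add_assoc, add_self0, add_zero, zero_add] at h1
    exact h1
  · rintro rfl
    exact add_self0 x

theorem sq0 : ∀ x : ZMod 2, x * x = x := by decide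

/-- a sum over all ordered pairs -/
theorem sum_pairs {ι M : Type} [Fintype ι] [LinearOrder ι] [AddCommMonoid M] (f : ι → ι → M) :
    ∑ k, ∑ l, f k l = ∑ e ∈ prs ι, (f e.1 e.2 + f e.2 e.1) + ∑ k, f k k := by
  have h0 : ∑ k, ∑ l, f k l = ∑ e : ι × ι, f e.1 e.2 := by
    rw [← Finset.univ_product_univ, Finset.sum_product]
  have h1 : ∑ e : ι × ι, f e.1 e.2 = ∑ e ∈ prs ι, f e.1 e.2 +
      (∑ e ∈ univ.filter (fun e : ι × ι => e.2 < e.1), f e.1 e.2 +
        ∑ e ∈ univ.filter (fun e : ι × ι => e.1 = e.2), f e.1 e.2) := by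
    unfold prs
    rw [← Finset.sum_filter_add_sum_filter_not univ (fun e : ι × ι => e.1 < e.2)]
    congr 1
    rw [← Finset.sum_filter_add_sum_filter_not (univ.filter (fun e : ι × ι => ¬ e.1 < e.2))
      (fun e : ι × ι => e.2 < e.1)]
    congr 1
    · refine Finset.sum_congr ?_ fun _ _ => rfl
      ext e
      simp only [Finset.mem_filter, Finset.mem_univ, true_and, not_lt]
      exact ⟨fun h => h.2, fun h => ⟨h.le, h⟩⟩
    · refine Finset.sum_congr ?_ fun _ _ => rfl
      ext e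
      simp only [Finset.mem_filter, Finset.mem_univ, true_and, not_lt]
      exact ⟨fun h => le_antisymm h.2 h.1, fun h => ⟨h.ge, h.le⟩⟩
  have h2 : ∑ e ∈ univ.filter (fun e : ι × ι => e.2 < e.1), f e.1 e.2 =
      ∑ e ∈ prs ι, f e.2 e.1 := by
    unfold prs
    refine Finset.sum_nbij' (fun e => (e.2, e.1)) (fun e => (e.2, e.1)) ?_ ?_ ?_ ?_ ?_
    · intro e he
      simpa using he
    · intro e he
      simpa using he
    · intro e _; rfl
    · intro e _; rfl
    · intro e _; rfl
  have h3 : ∑ e ∈ univ.filter (fun e : ι × ι => e.1 = e.2), f e.1 e.2 = ∑ k, f k k := by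
    refine Finset.sum_nbij' (fun e => e.1) (fun k => (k, k)) ?_ ?_ ?_ ?_ ?_
    · intro e _
      exact Finset.mem_univ _
    · intro k _
      simp
    · rintro ⟨a, b⟩ he
      simp only [Finset.mem_filter, Finset.mem_univ, true_and] at he
      rw [he]
    · intro k _; rfl
    · rintro ⟨a, b⟩ he
      simp only [Finset.mem_filter, Finset.mem_univ, true_and] at he
      rw [he]
  rw [h0, h1, h2, h3, Finset.sum_add_distrib, add_assoc]

theorem prs_card (m : ℕ) : (prs (Fin m)).card = m.choose 2 := by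
  have h := sum_pairs (ι := Fin m) (fun _ _ => (1 : ℕ))
  simp only [Finset.sum_const, Finset.card_univ, Fintype.card_fin, smul_eq_mul, mul_one] at h
  rw [Nat.choose_two_right]
  have h1 : m * (m - 1) = 2 * (prs (Fin m)).card := by
    rw [Nat.mul_sub, mul_one]
    omega
  rw [h1]
  simp

/-- the extension by zero of a function on the pairs -/
noncomputable def aa {ι : Type} [Fintype ι] [LinearOrder ι] (α : prs ι → ZMod 2) (e : ι × ι) :
    ZMod 2 := if h : e ∈ prs ι then α ⟨e, h⟩ else 0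

theorem mem_prs {ι : Type} [Fintype ι] [LinearOrder ι] {e : ι × ι} :
    e ∈ prs ι ↔ e.1 < e.2 := by
  unfold prs
  simp

theorem aa_pos {ι : Type} [Fintype ι] [LinearOrder ι] (α : prs ι → ZMod 2) (e : prs ι) :
    aa α e.1 = α e := by
  unfold aa
  rw [dif_pos e.2]

theorem aa_neg {ι : Type} [Fintype ι] [LinearOrder ι] (α : prs ι → ZMod 2) {e : ι × ι}
    (h : ¬ e.1 < e.2) : aa α e = 0 := by
  unfold aa
  rw [dif_neg (fun h' => h (mem_prs.1 h'))]

theorem sum_aa {ι : Type} [Fintype ι] [LinearOrder ι] (α : prs ι → ZMod 2)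
    (F : ι × ι → ZMod 2) : ∑ e : prs ι, α e * F e.1 = ∑ e ∈ prs ι, aa α e * F e := by
  rw [← Finset.sum_coe_sort (prs ι) (fun e => aa α e * F e)]
  exact Finset.sum_congr rfl fun e _ => by rw [aa_pos]

section ggs

variable {m : ℕ}

/-- the symmetric extension of a function on the pairs -/
noncomputable def gg (h : prs (Fin m) → ZMod 2) (i j : Fin m) : ZMod 2 :=
  aa h (i, j) + aa h (j, i)

theorem gg_pos (h : prs (Fin m) → ZMod 2) (e : prs (Fin m)) : gg h e.1.1 e.1.2 = h e := by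
  unfold gg
  rw [aa_pos, aa_neg h (e := (e.1.2, e.1.1)) (not_lt.2 (mem_prs.1 e.2).le), add_zero]

end ggs

section generic

theorem eq_one : ∀ x : ZMod 2, x ≠ 0 → x = 1 := by decide

theorem ch_one : ch 1 = -1 := by decide

/-- the sum of the signs of an additive function -/
theorem sum_ch_add {V : Type} [AddCommGroup V] [Fintype V] (f : V → ZMod 2)
    (hf : ∀ v w, f (v + w) = f v + f w) :
    ∑ v, ch (f v) = if ∀ v, f v = 0 then (Fintype.card V : ℤ) else 0 := by
  by_cases h : ∀ v, f v = 0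
  · rw [if_pos h, Finset.sum_congr rfl fun v _ => by rw [h v, ch_zero]]
    simp
  · rw [if_neg h]
    push Not at h
    obtain ⟨w, hw⟩ := h
    have h1 := Equiv.sum_comp (Equiv.addRight w) fun v => ch (f v)
    have h2 : ∀ v, ch (f ((Equiv.addRight w) v)) = -ch (f v) := by
      intro v
      rw [Equiv.coe_addRight, hf, ch_add, eq_one _ hw, ch_one]
      ring
    rw [Finset.sum_congr rfl fun v _ => h2 v, Finset.sum_neg_distrib] at h1
    linarith

/-- translations -/
theorem card_tr {V : Type} [AddCommGroup V] [Fintype V] {m : ℕ} (z : (Fin m → V) → V)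
    (j0 : Fin m) (hz : ∀ x v, z (x + Pi.single j0 v) = z x + v) (K : Finset V) :
    (univ.filter fun x => z x ∈ K).card * Fintype.card V = Fintype.card V ^ m * K.card := by
  have h1 : ∀ v : V, (univ.filter fun x => z x ∈ K).card =
      ∑ x : Fin m → V, if z x + v ∈ K then 1 else 0 := by
    intro v
    rw [Finset.card_filter, ← Equiv.sum_comp (Equiv.addRight (Pi.single j0 v : Fin m → V))]
    refine Finset.sum_congr rfl fun x _ => ?_
    rw [Equiv.coe_addRight, hz]
  have h2 : (univ.filter fun x => z x ∈ K).card * Fintype.card V =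
      ∑ v : V, ∑ x : Fin m → V, if z x + v ∈ K then 1 else 0 := by
    rw [← Finset.sum_congr rfl fun v _ => h1 v, Finset.sum_const, Finset.card_univ,
      smul_eq_mul, mul_comm]
  rw [h2, Finset.sum_comm]
  have h3 : ∀ x : Fin m → V, ∑ v : V, (if z x + v ∈ K then 1 else 0 : ℕ) = K.card := by
    intro x
    have h4 : ∑ v : V, (if z x + v ∈ K then 1 else 0 : ℕ) = ∑ v : V, (if v ∈ K then 1 else 0 : ℕ) :=
      Equiv.sum_comp (Equiv.addLeft (z x)) (fun v => (if v ∈ K then 1 else 0 : ℕ))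
    refine h4.trans ?_
    rw [← Finset.card_filter]
    congr 1
    ext v
    simp
  rw [Finset.sum_congr rfl fun x _ => h3 x, Finset.sum_const, Finset.card_univ, smul_eq_mul]
  congr 1
  rw [Fintype.card_fun, Fintype.card_fin]

variable {V : Type} [AddCommGroup V] [Module (ZMod 2) V] [Fintype V]

/-- the exponent -/
noncomputable def EE (b : V →ₗ[ZMod 2] V →ₗ[ZMod 2] ZMod 2) {m : ℕ}
    (h : prs (Fin m) → ZMod 2) (x : Fin m → V) : ZMod 2 :=
  ∑ e : prs (Fin m), h e * b (x e.1.1) (x e.1.2)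

theorem EE_eq (b : V →ₗ[ZMod 2] V →ₗ[ZMod 2] ZMod 2) {m : ℕ}
    (h : prs (Fin m) → ZMod 2) (x : Fin m → V) :
    EE b h x = ∑ i, ∑ j, aa h (i, j) * b (x i) (x j) := by
  unfold EE
  rw [sum_aa h fun e => b (x e.1) (x e.2), sum_pairs]
  have h1 : ∑ k, aa h (k, k) * b (x k) (x k) = 0 :=
    Finset.sum_eq_zero fun k _ => by rw [aa_neg h (e := (k, k)) (lt_irrefl _), zero_mul]
  rw [h1, add_zero]
  refine Finset.sum_congr rfl fun e he => ?_
  have h2 : e.1 < e.2 := mem_prs.1 he
  rw [aa_neg h (e := (e.2, e.1)) (not_lt.2 h2.le), zero_mul, add_zero]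

theorem b_symm (b : V →ₗ[ZMod 2] V →ₗ[ZMod 2] ZMod 2) (hb : ∀ v, b v v = 0) (v w : V) :
    b v w = b w v := by
  have h1 := hb (v + w)
  simp only [map_add, LinearMap.add_apply, hb, add_zero, zero_add] at h1
  exact (add_eq0.1 h1).symm

theorem EE_add (b : V →ₗ[ZMod 2] V →ₗ[ZMod 2] ZMod 2) (hb : ∀ v, b v v = 0) {m : ℕ}
    (h : prs (Fin m) → ZMod 2) (x : Fin m → V) (i0 : Fin m) (v : V) :
    EE b h (x + Pi.single i0 v) = EE b h x + b v (∑ j, gg h i0 j • x j) := by
  rw [EE_eq, EE_eq]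
  have h1 : ∀ i j, aa h (i, j) * b ((x + Pi.single i0 v : Fin m → V) i)
      ((x + Pi.single i0 v : Fin m → V) j) =
      aa h (i, j) * b (x i) (x j) + aa h (i, j) * b (x i) ((Pi.single i0 v : Fin m → V) j) +
        (aa h (i, j) * b ((Pi.single i0 v : Fin m → V) i) (x j) +
          aa h (i, j) * b ((Pi.single i0 v : Fin m → V) i) ((Pi.single i0 v : Fin m → V) j)) := by
    intro i j
    simp only [Pi.add_apply, map_add, LinearMap.add_apply]
    ring
  simp only [h1, Finset.sum_add_distrib]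
  have h2 : ∑ i, ∑ j, aa h (i, j) * b (x i) ((Pi.single i0 v : Fin m → V) j) =
      ∑ i, aa h (i, i0) * b v (x i) := by
    refine Finset.sum_congr rfl fun i _ => ?_
    rw [Finset.sum_eq_single i0 (fun j _ hj => by rw [Pi.single_eq_of_ne hj, map_zero, mul_zero])
      (fun hh => absurd (Finset.mem_univ _) hh), Pi.single_eq_same, b_symm b hb]
  have h3 : ∑ i, ∑ j, aa h (i, j) * b ((Pi.single i0 v : Fin m → V) i) (x j) =
      ∑ j, aa h (i0, j) * b v (x j) := by
    rw [Finset.sum_eq_single i0 (fun i _ hi => Finset.sum_eq_zero fun j _ => by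
      rw [Pi.single_eq_of_ne hi, map_zero, LinearMap.zero_apply, mul_zero])
      (fun hh => absurd (Finset.mem_univ _) hh), Pi.single_eq_same]
  have h4 : ∑ i, ∑ j, aa h (i, j) *
      b ((Pi.single i0 v : Fin m → V) i) ((Pi.single i0 v : Fin m → V) j) = 0 := by
    refine Finset.sum_eq_zero fun i _ => Finset.sum_eq_zero fun j _ => ?_
    by_cases hi : i = i0
    · by_cases hj : j = i0
      · subst hi
        subst hj
        rw [aa_neg h (e := (j, j)) (lt_irrefl _), zero_mul]
      · rw [Pi.single_eq_of_ne hj, map_zero, mul_zero]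
    · rw [Pi.single_eq_of_ne hi, map_zero, LinearMap.zero_apply, mul_zero]
  rw [h2, h3, h4, add_zero, add_assoc]
  congr 1
  rw [map_sum, ← Finset.sum_add_distrib]
  refine Finset.sum_congr rfl fun j _ => ?_
  rw [map_smul, smul_eq_mul]
  unfold gg
  ring

/-- the radical -/
noncomputable def Rad (b : V →ₗ[ZMod 2] V →ₗ[ZMod 2] ZMod 2) : Finset V :=
  univ.filter fun v => ∀ w, b w v = 0

theorem sum_EE (b : V →ₗ[ZMod 2] V →ₗ[ZMod 2] ZMod 2) (hb : ∀ v, b v v = 0) {m : ℕ}
    (h : prs (Fin m) → ZMod 2) (hh : h ≠ 0) :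
    |∑ x : Fin m → V, ch (EE b h x)| * (Fintype.card V : ℤ) ≤
      (Fintype.card V : ℤ) ^ m * ((Rad b).card : ℤ) := by
  obtain ⟨e0, he0⟩ : ∃ e, h e ≠ 0 := by
    by_contra hcon
    push Not at hcon
    exact hh (funext hcon)
  obtain ⟨z, hzd⟩ : ∃ z : (Fin m → V) → V, z = fun x => ∑ j, gg h e0.1.1 j • x j := ⟨_, rfl⟩
  have hz : ∀ x v, z (x + Pi.single e0.1.2 v) = z x + v := by
    intro x v
    rw [hzd]
    simp only [Pi.add_apply, smul_add, Finset.sum_add_distrib]
    congr 1
    rw [Finset.sum_eq_single e0.1.2 (fun j _ hj => by rw [Pi.single_eq_of_ne hj, smul_zero])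
      (fun hh => absurd (Finset.mem_univ _) hh), Pi.single_eq_same, gg_pos, eq_one _ he0,
      one_smul]
  have h1 : (Fintype.card V : ℤ) * ∑ x : Fin m → V, ch (EE b h x) =
      (Fintype.card V : ℤ) * ∑ x ∈ univ.filter (fun x => z x ∈ Rad b), ch (EE b h x) := by
    have h2 : ∀ v : V, ∑ x : Fin m → V, ch (EE b h x) =
        ∑ x : Fin m → V, ch (EE b h x) * ch (b v (z x)) := by
      intro v
      rw [← Equiv.sum_comp (Equiv.addRight (Pi.single e0.1.1 v : Fin m → V))]
      refine Finset.sum_congr rfl fun x _ => ?_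
      rw [Equiv.coe_addRight, EE_add b hb, ch_add, hzd]
    have h3 : (Fintype.card V : ℤ) * ∑ x : Fin m → V, ch (EE b h x) =
        ∑ v : V, ∑ x : Fin m → V, ch (EE b h x) * ch (b v (z x)) := by
      rw [← Finset.sum_congr rfl fun v _ => h2 v, Finset.sum_const, Finset.card_univ,
        nsmul_eq_mul]
    rw [h3, Finset.sum_comm, Finset.sum_filter, Finset.mul_sum]
    refine Finset.sum_congr rfl fun x _ => ?_
    rw [← Finset.mul_sum, sum_ch_add (fun v => b v (z x)) (fun v w => by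
      rw [map_add, LinearMap.add_apply])]
    have h4 : z x ∈ Rad b ↔ ∀ v, b v (z x) = 0 := by
      unfold Rad
      rw [Finset.mem_filter]
      exact ⟨fun h => h.2, fun h => ⟨Finset.mem_univ _, h⟩⟩
    by_cases h5 : ∀ v, b v (z x) = 0
    · rw [if_pos h5, if_pos (h4.2 h5), mul_comm]
    · rw [if_neg h5, if_neg (fun h => h5 (h4.1 h)), mul_zero, mul_zero]
  have hV : (Fintype.card V : ℤ) ≠ 0 := by
    have : 0 < Fintype.card V := Fintype.card_pos_iff.2 ⟨0⟩
    exact_mod_cast this.ne'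
  have h2 := mul_left_cancel₀ hV h1
  rw [h2]
  have h3 : |∑ x ∈ univ.filter (fun x => z x ∈ Rad b), ch (EE b h x)| ≤
      ((univ.filter (fun x => z x ∈ Rad b)).card : ℤ) := by
    refine (Finset.abs_sum_le_sum_abs _ _).trans ?_
    rw [Finset.sum_congr rfl fun x _ => ch_abs _]
    simp
  have h4 := card_tr z e0.1.2 hz (Rad b)
  have h5 : ((univ.filter (fun x => z x ∈ Rad b)).card : ℤ) * (Fintype.card V : ℤ) =
      (Fintype.card V : ℤ) ^ m * ((Rad b).card : ℤ) := by exact_mod_cast h4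
  rw [← h5]
  exact mul_le_mul_of_nonneg_right h3 (Int.natCast_nonneg _)

/-- the number of the orthogonal tuples -/
theorem card_orth (b : V →ₗ[ZMod 2] V →ₗ[ZMod 2] ZMod 2) (hb : ∀ v, b v v = 0) (m : ℕ) :
    |((univ.filter fun x : Fin m → V => ∀ e : prs (Fin m), b (x e.1.1) (x e.1.2) = 0).card : ℤ) *
        2 ^ m.choose 2 - (Fintype.card V : ℤ) ^ m| * (Fintype.card V : ℤ) ≤
      2 ^ m.choose 2 * ((Fintype.card V : ℤ) ^ m * ((Rad b).card : ℤ)) := by
  have h1 : ((univ.filter fun x : Fin m → V =>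
      ∀ e : prs (Fin m), b (x e.1.1) (x e.1.2) = 0).card : ℤ) * 2 ^ m.choose 2 =
      ∑ h : prs (Fin m) → ZMod 2, ∑ x : Fin m → V, ch (EE b h x) := by
    rw [Finset.sum_comm, Finset.card_filter]
    push_cast
    rw [Finset.sum_mul]
    refine Finset.sum_congr rfl fun x _ => ?_
    unfold EE
    rw [sum_ch (fun e : prs (Fin m) => b (x e.1.1) (x e.1.2)), Fintype.card_coe, prs_card]
    split_ifs
    · rw [one_mul]
    · rw [zero_mul]
  have h2 : ∑ x : Fin m → V, ch (EE b 0 x) = (Fintype.card V : ℤ) ^ m := by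
    have h3 : ∀ x : Fin m → V, ch (EE b 0 x) = 1 := by
      intro x
      unfold EE
      simp only [Pi.zero_apply, zero_mul, Finset.sum_const_zero, ch_zero]
    rw [Finset.sum_congr rfl fun x _ => h3 x, Finset.sum_const, Finset.card_univ,
      Fintype.card_fun, Fintype.card_fin, nsmul_eq_mul, mul_one]
    push_cast
    rfl
  rw [h1, ← Finset.add_sum_erase univ _ (Finset.mem_univ (0 : prs (Fin m) → ZMod 2)), h2,
    add_sub_cancel_left]
  have h3 : |∑ h ∈ univ.erase (0 : prs (Fin m) → ZMod 2), ∑ x : Fin m → V, ch (EE b h x)| *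
      (Fintype.card V : ℤ) ≤ ∑ h ∈ univ.erase (0 : prs (Fin m) → ZMod 2),
        (Fintype.card V : ℤ) ^ m * ((Rad b).card : ℤ) := by
    refine (mul_le_mul_of_nonneg_right (Finset.abs_sum_le_sum_abs _ _)
      (Int.natCast_nonneg _)).trans ?_
    rw [Finset.sum_mul]
    exact Finset.sum_le_sum fun h hh => sum_EE b hb h (Finset.ne_of_mem_erase hh)
  refine h3.trans ?_
  rw [Finset.sum_const, nsmul_eq_mul]
  refine mul_le_mul_of_nonneg_right ?_ (by positivity)
  have h4 : (univ.erase (0 : prs (Fin m) → ZMod 2)).card ≤ 2 ^ m.choose 2 := by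
    refine (Finset.card_erase_le).trans ?_
    rw [Finset.card_univ, Fintype.card_fun, Fintype.card_coe, prs_card, ZMod.card]
  exact_mod_cast h4

/-- the orthogonal tuples that are independent modulo `K` -/
noncomputable def GG (b : V →ₗ[ZMod 2] V →ₗ[ZMod 2] ZMod 2) (m : ℕ) (K : Finset V) :
    Finset (Fin m → V) :=
  univ.filter fun x : Fin m → V => (∀ e : prs (Fin m), b (x e.1.1) (x e.1.2) = 0) ∧
    ∀ a : Fin m → ZMod 2, (∃ i, a i ≠ 0) → ∑ i, a i • x i ∉ K

theorem mem_GG {b : V →ₗ[ZMod 2] V →ₗ[ZMod 2] ZMod 2} {m : ℕ} {K : Finset V}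
    {x : Fin m → V} : x ∈ GG b m K ↔ (∀ e : prs (Fin m), b (x e.1.1) (x e.1.2) = 0) ∧
    ∀ a : Fin m → ZMod 2, (∃ i, a i ≠ 0) → ∑ i, a i • x i ∉ K := by
  unfold GG
  rw [Finset.mem_filter]
  exact ⟨fun h => h.2, fun h => ⟨Finset.mem_univ _, h⟩⟩

/-- the number of the orthogonal tuples that are independent modulo `K` -/
theorem card_good (b : V →ₗ[ZMod 2] V →ₗ[ZMod 2] ZMod 2) (hb : ∀ v, b v v = 0) (m : ℕ)
    (K : Finset V) :
    |((GG b m K).card : ℤ) *
        2 ^ m.choose 2 - (Fintype.card V : ℤ) ^ m| * (Fintype.card V : ℤ) ≤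
      2 ^ m.choose 2 * ((Fintype.card V : ℤ) ^ m * ((Rad b).card + 2 ^ m * K.card : ℤ)) := by
  obtain ⟨O, hOd⟩ : ∃ O : Finset (Fin m → V), O = univ.filter fun x : Fin m → V =>
    ∀ e : prs (Fin m), b (x e.1.1) (x e.1.2) = 0 := ⟨_, rfl⟩
  obtain ⟨G, hGd⟩ : ∃ G : Finset (Fin m → V), G = GG b m K := ⟨_, rfl⟩
  have h0 := card_orth b hb m
  rw [← hOd] at h0
  rw [← hGd]
  have hGO : G ⊆ O := by
    intro x hx
    rw [hGd, mem_GG] at hx
    rw [hOd, Finset.mem_filter]
    exact ⟨Finset.mem_univ _, hx.1⟩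
  have h1 : ((O.card : ℤ) - G.card) * (Fintype.card V : ℤ) ≤
      2 ^ m * ((Fintype.card V : ℤ) ^ m * K.card) := by
    have h2 : O.card - G.card ≤ ∑ a ∈ univ.erase (0 : Fin m → ZMod 2),
        (univ.filter fun x : Fin m → V => ∑ i, a i • x i ∈ K).card := by
      rw [← Finset.card_sdiff_of_subset hGO]
      refine (Finset.card_le_card ?_).trans Finset.card_biUnion_le
      intro x hx
      rw [Finset.mem_sdiff, hOd, hGd, Finset.mem_filter, mem_GG] at hx
      obtain ⟨hx1, hx2⟩ := hx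
      rw [Finset.mem_biUnion]
      by_contra hcon
      push Not at hcon
      refine hx2 ⟨hx1.2, fun a ha hK => ?_⟩
      refine hcon a ?_ ?_
      · rw [Finset.mem_erase]
        refine ⟨fun h3 => ?_, Finset.mem_univ _⟩
        obtain ⟨i, hi⟩ := ha
        rw [h3] at hi
        exact hi rfl
      · rw [Finset.mem_filter]
        exact ⟨Finset.mem_univ _, hK⟩
    have h3 : ∀ a ∈ univ.erase (0 : Fin m → ZMod 2),
        (univ.filter fun x : Fin m → V => ∑ i, a i • x i ∈ K).card * Fintype.card V =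
          Fintype.card V ^ m * K.card := by
      intro a ha
      obtain ⟨j0, hj0⟩ : ∃ j, a j ≠ 0 := by
        by_contra hcon
        push Not at hcon
        exact Finset.ne_of_mem_erase ha (funext hcon)
      refine card_tr (fun x => ∑ i, a i • x i) j0 (fun x v => ?_) K
      simp only [Pi.add_apply, smul_add, Finset.sum_add_distrib]
      congr 1
      rw [Finset.sum_eq_single j0 (fun j _ hj => by rw [Pi.single_eq_of_ne hj, smul_zero])
        (fun hh => absurd (Finset.mem_univ _) hh), Pi.single_eq_same, eq_one _ hj0, one_smul]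
    have h4 : (O.card - G.card) * Fintype.card V ≤ 2 ^ m * (Fintype.card V ^ m * K.card) := by
      refine (Nat.mul_le_mul_right _ h2).trans ?_
      rw [Finset.sum_mul, Finset.sum_congr rfl h3, Finset.sum_const, smul_eq_mul]
      refine Nat.mul_le_mul_right _ ?_
      refine (Finset.card_erase_le).trans ?_
      rw [Finset.card_univ, Fintype.card_fun, Fintype.card_fin, ZMod.card]
    have h5 : ((O.card - G.card : ℕ) : ℤ) = (O.card : ℤ) - G.card :=
      Nat.cast_sub (Finset.card_le_card hGO)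
    rw [← h5]
    exact_mod_cast h4
  have h2 : (0 : ℤ) ≤ (O.card : ℤ) - G.card :=
    sub_nonneg.2 (by exact_mod_cast Finset.card_le_card hGO)
  have h3 : |(G.card : ℤ) * 2 ^ m.choose 2 - (Fintype.card V : ℤ) ^ m| ≤
      |(O.card : ℤ) * 2 ^ m.choose 2 - (Fintype.card V : ℤ) ^ m| +
        ((O.card : ℤ) - G.card) * 2 ^ m.choose 2 := by
    have h4 : (G.card : ℤ) * 2 ^ m.choose 2 - (Fintype.card V : ℤ) ^ m =
        ((O.card : ℤ) * 2 ^ m.choose 2 - (Fintype.card V : ℤ) ^ m) -
          ((O.card : ℤ) - G.card) * 2 ^ m.choose 2 := by ring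
    rw [h4]
    refine (abs_sub _ _).trans ?_
    rw [abs_of_nonneg (a := ((O.card : ℤ) - G.card) * 2 ^ m.choose 2) (by positivity)]
  refine (mul_le_mul_of_nonneg_right h3 (Int.natCast_nonneg _)).trans ?_
  have h5 : (0 : ℤ) ≤ 2 ^ m.choose 2 := by positivity
  have h6 := mul_le_mul_of_nonneg_left h1 h5
  calc (|(O.card : ℤ) * 2 ^ m.choose 2 - (Fintype.card V : ℤ) ^ m| +
        ((O.card : ℤ) - G.card) * 2 ^ m.choose 2) * (Fintype.card V : ℤ)
      = |(O.card : ℤ) * 2 ^ m.choose 2 - (Fintype.card V : ℤ) ^ m| * (Fintype.card V : ℤ) +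
        2 ^ m.choose 2 * (((O.card : ℤ) - G.card) * (Fintype.card V : ℤ)) := by ring
    _ ≤ 2 ^ m.choose 2 * ((Fintype.card V : ℤ) ^ m * ((Rad b).card : ℤ)) +
        2 ^ m.choose 2 * (2 ^ m * ((Fintype.card V : ℤ) ^ m * K.card)) := add_le_add h0 h6
    _ = _ := by ring

end generic

section kernel

variable {K X : Type} [Fintype K] [AddCommGroup X] [Module (ZMod 2) X] [Fintype X]

theorem ker_iff (Ψ : X →ₗ[ZMod 2] (K → ZMod 2)) (x : X) : (∀ a, Ψ x a = 0) ↔ Ψ x = 0 :=
  ⟨fun h => funext h, fun h a => by rw [h]; rfl⟩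

theorem add_fun (Ψ : X →ₗ[ZMod 2] (K → ZMod 2)) (w : K → ZMod 2) (x y : X) :
    ∑ a, w a * Ψ (x + y) a = ∑ a, w a * Ψ x a + ∑ a, w a * Ψ y a := by
  rw [← Finset.sum_add_distrib]
  refine Finset.sum_congr rfl fun a _ => ?_
  rw [map_add, Pi.add_apply, mul_add]

/-- the size of the kernel -/
theorem card_ker (Ψ : X →ₗ[ZMod 2] (K → ZMod 2))
    (hΨ : ∀ w : K → ZMod 2, w ≠ 0 → ∃ x, ∑ a, w a * Ψ x a ≠ 0) :
    Fintype.card (LinearMap.ker Ψ) * 2 ^ Fintype.card K = Fintype.card X := by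
  have h1 : ((univ.filter fun x : X => Ψ x = 0).card : ℤ) * 2 ^ Fintype.card K =
      ∑ w : K → ZMod 2, ∑ x : X, ch (∑ a, w a * Ψ x a) := by
    rw [Finset.sum_comm, Finset.card_filter]
    push_cast
    rw [Finset.sum_mul]
    refine Finset.sum_congr rfl fun x _ => ?_
    rw [sum_ch (Ψ x)]
    by_cases h : Ψ x = 0
    · rw [if_pos h, if_pos ((ker_iff Ψ x).2 h), one_mul]
    · rw [if_neg h, if_neg (fun h' => h ((ker_iff Ψ x).1 h')), zero_mul]
  have h2 : ∀ w : K → ZMod 2, ∑ x : X, ch (∑ a, w a * Ψ x a) =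
      if w = 0 then (Fintype.card X : ℤ) else 0 := by
    intro w
    rw [sum_ch_add (fun x => ∑ a, w a * Ψ x a) (add_fun Ψ w)]
    by_cases hw : w = 0
    · rw [if_pos hw, if_pos]
      intro x
      rw [hw]
      simp
    · rw [if_neg hw, if_neg]
      intro h
      obtain ⟨x, hx⟩ := hΨ w hw
      exact hx (h x)
  rw [Finset.sum_congr rfl fun w _ => h2 w, Finset.sum_ite_eq', if_pos (Finset.mem_univ _)] at h1
  have h3 : Fintype.card (LinearMap.ker Ψ) = (univ.filter fun x : X => Ψ x = 0).card := by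
    rw [← Fintype.card_subtype]
    exact Fintype.card_congr (Equiv.refl _)
  rw [h3]
  exact_mod_cast h1

/-- the additive functions that vanish on the kernel -/
theorem dual_ker (Ψ : X →ₗ[ZMod 2] (K → ZMod 2)) (f : X → ZMod 2)
    (hf : ∀ x y, f (x + y) = f x + f y) (h0 : ∀ x, Ψ x = 0 → f x = 0) :
    ∃ w : K → ZMod 2, ∀ x, f x = ∑ a, w a * Ψ x a := by
  by_contra hcon
  push Not at hcon
  have h1 : ∑ w : K → ZMod 2, ∑ x : X, ch (f x + ∑ a, w a * Ψ x a) = 0 := by
    refine Finset.sum_eq_zero fun w _ => ?_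
    rw [sum_ch_add (fun x => f x + ∑ a, w a * Ψ x a) (fun x y => by
      rw [hf, add_fun]
      ring), if_neg]
    intro h
    obtain ⟨x, hx⟩ := hcon w
    exact hx (add_eq0.1 (h x))
  rw [Finset.sum_comm] at h1
  have h2 : ∀ x : X, ∑ w : K → ZMod 2, ch (f x + ∑ a, w a * Ψ x a) =
      if Ψ x = 0 then (2 : ℤ) ^ Fintype.card K else 0 := by
    intro x
    simp only [ch_add]
    rw [← Finset.mul_sum, sum_ch (Ψ x)]
    by_cases h : Ψ x = 0
    · rw [if_pos h, if_pos ((ker_iff Ψ x).2 h), h0 x h, ch_zero, one_mul]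
    · rw [if_neg h, if_neg (fun h' => h ((ker_iff Ψ x).1 h')), mul_zero]
  rw [Finset.sum_congr rfl fun x _ => h2 x] at h1
  have h3 := (Finset.sum_eq_zero_iff_of_nonneg (fun x _ => by
    split_ifs
    · positivity
    · exact le_rfl)).1 h1 0 (Finset.mem_univ _)
  rw [map_zero, if_pos rfl] at h3
  exact absurd h3 (by positivity)

end kernel

section blocks

variable {U J : Type} [Fintype U] [Fintype J] (a b : ZMod 2) (L : Blk U J)

theorem rowU_add (z z' : Vc U J) (u : U) : rowU L (z + z') u = rowU L z u + rowU L z' u := by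
  unfold rowU
  have h1 : ∑ v, L.A u v * ((z + z').1 u + (z + z').1 v) = ∑ v, L.A u v * (z.1 u + z.1 v) +
      ∑ v, L.A u v * (z'.1 u + z'.1 v) := by
    rw [← Finset.sum_add_distrib]
    refine Finset.sum_congr rfl fun v _ => ?_
    simp only [Prod.fst_add, Pi.add_apply]
    ring
  have h2 : ∑ l, L.B u l * ((z + z').1 u + (z + z').2.1 l) = ∑ l, L.B u l * (z.1 u + z.2.1 l) +
      ∑ l, L.B u l * (z'.1 u + z'.2.1 l) := by
    rw [← Finset.sum_add_distrib]
    refine Finset.sum_congr rfl fun v _ => ?_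
    simp only [Prod.fst_add, Prod.snd_add, Pi.add_apply]
    ring
  rw [h1, h2, Prod.fst_add, Prod.snd_add, Prod.snd_add, Pi.add_apply]
  ring

theorem colS_add (z z' : Vc U J) : colS L (z + z') = colS L z + colS L z' := by
  unfold colS
  simp only [Prod.fst_add, Prod.snd_add, Pi.add_apply, mul_add, add_mul, Finset.sum_add_distrib]
  ring

theorem bor_add (z z' : Vc U J) : bor a b L (z + z') = bor a b L z + bor a b L z' := by
  unfold bor
  simp only [Prod.fst_add, Prod.snd_add, Pi.add_apply, mul_add, Finset.sum_add_distrib]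
  ring

/-- the equations of the small primes, the sum of the rows and the border -/
noncomputable def Psi : Vc U J →ₗ[ZMod 2] (Option (Option U) → ZMod 2) :=
  AddMonoidHom.toZModLinearMap 2 (AddMonoidHom.mk' (fun x i =>
    Option.elim i (colS L x) (fun j => Option.elim j (bor a b L x) (fun u => rowU L x u)))
      (fun x y => by
        funext i
        rcases i with _ | _ | u
        · exact colS_add L _ _
        · exact bor_add a b L _ _
        · exact rowU_add L _ _ u))

theorem Psi_none (x : Vc U J) : Psi a b L x none = colS L x := rfl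

theorem Psi_one (x : Vc U J) : Psi a b L x (some none) = bor a b L x := rfl

theorem Psi_some (x : Vc U J) (u : U) : Psi a b L x (some (some u)) = rowU L x u := rfl

/-- the form -/
noncomputable def btL : Vc U J →ₗ[ZMod 2] Vc U J →ₗ[ZMod 2] ZMod 2 :=
  LinearMap.mk₂ (ZMod 2) (fun x y => bb L x y)
    (fun x x' y => by
      unfold bb
      simp only [Prod.fst_add, Prod.snd_add, Pi.add_apply, mul_add, add_mul,
        Finset.sum_add_distrib]
      ring)
    (fun z x y => by
      unfold bb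
      simp only [Prod.smul_fst, Prod.smul_snd, Pi.smul_apply, smul_eq_mul]
      have h1 : ∀ (P : Type) [Fintype P] (t g : P → ZMod 2), ∑ p, t p * (z * g p) =
          z * ∑ p, t p * g p := by
        intro P _ t g
        rw [Finset.mul_sum]
        exact Finset.sum_congr rfl fun p _ => by ring
      simp only [mul_assoc, h1]
      ring)
    (fun x y y' => by
      unfold bb
      simp only [Prod.fst_add, Prod.snd_add, Pi.add_apply, mul_add, add_mul,
        Finset.sum_add_distrib]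
      ring)
    (fun z x y => by
      unfold bb
      simp only [Prod.smul_fst, Prod.smul_snd, Pi.smul_apply, smul_eq_mul]
      simp only [mul_left_comm _ z, ← Finset.mul_sum]
      ring)

theorem btL_apply (x y : Vc U J) : btL L x y = bb L x y := rfl

theorem btL_self (x : Vc U J) : btL L x x = 0 := by
  rw [btL_apply]
  unfold bb
  simp only [sq0]
  rw [add_self0, zero_add]
  exact add_self0 _

theorem bt_comm (x y : Vc U J) : btL L x y = btL L y x :=
  b_symm (btL L) (btL_self L) x y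

/-- the unit vector of a large prime -/
noncomputable def ek (k : J) : Vc U J := (0, Pi.single k 1, 0)

theorem rowU_ek (k : J) (u : U) : rowU L (ek k) u = L.B u k := by
  unfold rowU ek
  simp [Pi.single_apply]

theorem colS_ek (k : J) : colS L (ek k) = L.sJ k + L.tJ k := by
  unfold colS ek
  simp [Pi.single_apply]

theorem bor_ek (k : J) : bor a b L (ek k) = b * L.dJ k := by
  unfold bor ek
  simp [Pi.single_apply]

theorem bt_ek (k : J) (hk : L.tJ k = 1) (x : Vc U J) :
    btL L (ek k) x = (∑ u, L.tU u * x.1 u + ∑ j, L.tJ j * x.2.1 j) + x.2.1 k +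
      x.2.2 * L.gJ k := by
  rw [btL_apply]
  unfold bb ek
  simp [Pi.single_apply, hk]

/-- the functionals are independent -/
theorem Psi_ne (hab : a ≠ 0 ∨ b ≠ 0) (hnd : NdX L) (w : Option (Option U) → ZMod 2)
    (hw : w ≠ 0) : ∃ x, ∑ i, w i * Psi a b L x i ≠ 0 := by
  by_cases h0 : (∃ u, w (some (some u)) ≠ 0) ∨ w none ≠ 0 ∨ w (some none) * b ≠ 0
  · obtain ⟨-, k, hk⟩ := hnd (fun u => w (some (some u))) (w none) (w (some none) * b) h0
    refine ⟨ek k, ?_⟩
    rw [Fintype.sum_option, Fintype.sum_option, Psi_none, colS_ek, Psi_one, bor_ek]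
    simp only [Psi_some, rowU_ek]
    intro h
    apply hk
    rw [← h]
    ring
  · push Not at h0
    obtain ⟨h1, h2, h3⟩ := h0
    have h4 : w (some none) ≠ 0 := by
      intro h
      apply hw
      funext i
      rcases i with _ | _ | u
      · exact h2
      · exact h
      · exact h1 u
    have h5 : b = 0 := by
      rcases mul_eq_zero.1 h3 with h | h
      · exact absurd h h4
      · exact h
    have h6 : a ≠ 0 := by
      rcases hab with h | h
      · exact h
      · exact absurd h5 h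
    refine ⟨(0, 0, 1), ?_⟩
    rw [Fintype.sum_option, Fintype.sum_option, Psi_one, h2, zero_mul, zero_add]
    have h7 : ∑ u, w (some (some u)) * Psi a b L (0, 0, 1) (some (some u)) = 0 :=
      Finset.sum_eq_zero fun u _ => by rw [h1 u, zero_mul]
    rw [h7, add_zero]
    refine mul_ne_zero h4 ?_
    unfold bor
    simp [h5, h6]

/-- the form on the kernel -/
noncomputable def bV : LinearMap.ker (Psi a b L) →ₗ[ZMod 2]
    LinearMap.ker (Psi a b L) →ₗ[ZMod 2] ZMod 2 :=
  (btL L).domRestrict₁₂ _ _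

theorem bV_apply (x y : LinearMap.ker (Psi a b L)) :
    bV a b L x y = bb L x.1 y.1 := rfl

/-- the radical is small -/
theorem card_Rad : (Rad (bV a b L)).card ≤
    2 ^ (Fintype.card U + 1 + 1) * (2 * (2 ^ Fintype.card U *
      (2 * 2 ^ Fintype.card {j : J // ¬ L.tJ j = 1}))) := by
  have h1 : ∀ x ∈ Rad (bV a b L), ∃ w : Option (Option U) → ZMod 2,
      ∀ y, btL L y x.1 = ∑ i, w i * Psi a b L y i := by
    intro x hx
    refine dual_ker (Psi a b L) (fun y => btL L y x.1) (fun y y' => by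
      rw [map_add, LinearMap.add_apply]) (fun y hy => ?_)
    unfold Rad at hx
    rw [Finset.mem_filter] at hx
    exact hx.2 ⟨y, hy⟩
  choose! w hw using h1
  have h2 : (Rad (bV a b L)).card ≤ (univ : Finset ((Option (Option U) → ZMod 2) ×
      (ZMod 2 × ((U → ZMod 2) × (ZMod 2 × ({j : J // ¬ L.tJ j = 1} → ZMod 2)))))).card := by
    refine Finset.card_le_card_of_injOn (fun x => (w x,
      (∑ u, L.tU u * x.1.1 u + ∑ j, L.tJ j * x.1.2.1 j, (x.1.1, (x.1.2.2,
        fun j => x.1.2.1 j.1))))) ?_ ?_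
    · intro x _
      exact Finset.mem_coe.2 (Finset.mem_univ _)
    · intro x hx y hy hxy
      simp only [Prod.mk.injEq] at hxy
      obtain ⟨h3, h4, h5, h5', h6⟩ := hxy
      have h7 : x.1.2.1 = y.1.2.1 := by
        funext j
        by_cases hj : L.tJ j = 1
        · have h8 := hw x hx (ek j)
          have h9 := hw y hy (ek j)
          rw [bt_ek L j hj] at h8 h9
          rw [h3, ← h9, h4, h5'] at h8
          exact add_left_cancel (add_right_cancel h8)
        · exact congrFun h6 ⟨j, hj⟩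
      exact Subtype.ext (Prod.ext h5 (Prod.ext h7 h5'))
  refine h2.trans (le_of_eq ?_)
  rw [Finset.card_univ]
  simp only [Fintype.card_prod, Fintype.card_fun, ZMod.card, Fintype.card_option]

/-- few vectors are constant on the large primes -/
theorem card_K [Nonempty J] : (univ.filter fun x : LinearMap.ker (Psi a b L) =>
    ∀ k l, x.1.2.1 k + x.1.2.1 l = 0).card ≤ 2 ^ Fintype.card U * (2 * 2) := by
  obtain ⟨k0⟩ := ‹Nonempty J›
  have h2 : (univ.filter fun x : LinearMap.ker (Psi a b L) =>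
      ∀ k l, x.1.2.1 k + x.1.2.1 l = 0).card ≤
      (univ : Finset ((U → ZMod 2) × (ZMod 2 × ZMod 2))).card := by
    refine Finset.card_le_card_of_injOn (fun x => (x.1.1, (x.1.2.1 k0, x.1.2.2))) ?_ ?_
    · intro x _
      exact Finset.mem_coe.2 (Finset.mem_univ _)
    · intro x hx y hy hxy
      simp only [Prod.mk.injEq] at hxy
      rw [Finset.mem_coe, Finset.mem_filter] at hx hy
      refine Subtype.ext (Prod.ext hxy.1 (Prod.ext (funext fun j => ?_) hxy.2.2))
      rw [add_eq0.1 (hx.2 j k0), add_eq0.1 (hy.2 j k0)]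
      exact hxy.2.1
  refine h2.trans (le_of_eq ?_)
  rw [Finset.card_univ]
  simp only [Fintype.card_prod, Fintype.card_fun, ZMod.card]

end blocks

end Pool.Agent.NH57.BL.LX2

namespace Pool.Agent.NH57.BL

open Finset Pool.Agent.NH57.BL.LX2

/-- BL-11 -/
theorem t_LX2 : S_LX2 := by
  intro m δ hδ
  obtain ⟨V0, hV0⟩ : ∃ V0 : ℕ, (2 : ℝ) ^ m.choose 2 * (32 + 8 * 2 ^ m) / δ < 2 ^ V0 :=
    pow_unbounded_of_one_lt _ (by norm_num)
  refine ⟨V0 + 1, ?_⟩
  intro a b hab U J _ _ L hL
  have hcard := hL.many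
  obtain ⟨u, hu⟩ : ∃ u, u = Fintype.card U := ⟨_, rfl⟩
  obtain ⟨n, hn⟩ : ∃ n, n = Fintype.card J := ⟨_, rfl⟩
  obtain ⟨τ, hτ⟩ : ∃ τ, τ = (univ.filter fun j => L.tJ j = 1).card := ⟨_, rfl⟩
  obtain ⟨ν, hν⟩ : ∃ ν, ν = Fintype.card {j : J // ¬ L.tJ j = 1} := ⟨_, rfl⟩
  have hn1 : τ + ν = n := by
    rw [hτ, hν, hn, Fintype.card_subtype, Finset.card_filter_add_card_filter_not]
    exact Finset.card_univ
  rw [← hu, ← hτ] at hcard
  have hne : Nonempty J := Fintype.card_pos_iff.1 (by omega)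
  obtain ⟨Q, hQ⟩ : ∃ Q, Q = Fintype.card (LinearMap.ker (Psi a b L)) := ⟨_, rfl⟩
  obtain ⟨R, hR⟩ : ∃ R, R = (Rad (bV a b L)).card := ⟨_, rfl⟩
  obtain ⟨K, hK⟩ : ∃ K : Finset (LinearMap.ker (Psi a b L)), K =
    univ.filter fun x : LinearMap.ker (Psi a b L) =>
      ∀ k l, x.1.2.1 k + x.1.2.1 l = 0 := ⟨_, rfl⟩
  have hQ1 : Q = 2 ^ (n - 1) := by
    have h1 := card_ker (Psi a b L) (Psi_ne a b L hab hL.nd)
    rw [← hQ] at h1
    simp only [Fintype.card_prod, Fintype.card_fun, ZMod.card, Fintype.card_option] at h1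
    rw [← hu, ← hn] at h1
    have h2 : 2 ^ u * (2 ^ n * 2) = 2 ^ (n - 1) * 2 ^ (u + 1 + 1) := by
      rw [← pow_succ, ← pow_add, ← pow_add]
      congr 1
      omega
    rw [h2] at h1
    exact Nat.eq_of_mul_eq_mul_right (by positivity) h1
  have hR1 : R * 2 ^ V0 ≤ 32 * Q := by
    have h1 := card_Rad a b L
    rw [← hR, ← hu, ← hν] at h1
    have h2 : 2 ^ (u + 1 + 1) * (2 * (2 ^ u * (2 * 2 ^ ν))) * 2 ^ V0 ≤ 32 * Q := by
      have h3 : 2 ^ (u + 1 + 1) * (2 * (2 ^ u * (2 * 2 ^ ν))) * 2 ^ V0 =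
          2 ^ (2 * u + 4 + ν + V0) := by
        ring
      have h4 : 32 * Q = 2 ^ (n + 4) := by
        rw [hQ1]
        have h5 : n + 4 = 5 + (n - 1) := by omega
        rw [h5, pow_add]
        norm_num
      rw [h3, h4]
      exact Nat.pow_le_pow_right (by norm_num) (by omega)
    exact (Nat.mul_le_mul_right _ h1).trans h2
  have hK1 : K.card * 2 ^ V0 ≤ 8 * Q := by
    have h1 := card_K a b L
    rw [← hK, ← hu] at h1
    have h2 : 2 ^ u * (2 * 2) * 2 ^ V0 ≤ 8 * Q := by
      have h3 : 2 ^ u * (2 * 2) * 2 ^ V0 = 2 ^ (u + 2 + V0) := by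
        ring
      have h4 : 8 * Q = 2 ^ (n + 2) := by
        rw [hQ1]
        have h5 : n + 2 = 3 + (n - 1) := by omega
        rw [h5, pow_add]
        norm_num
      rw [h3, h4]
      exact Nat.pow_le_pow_right (by norm_num) (by omega)
    exact (Nat.mul_le_mul_right _ h1).trans h2
  obtain ⟨N, hN⟩ : ∃ N, N = (GG (bV a b L) m K).card := ⟨_, rfl⟩
  have hb0 : ∀ v, bV a b L v v = 0 := fun v => btL_self L v.1
  have hmain := card_good (bV a b L) hb0 m K
  rw [← hN, ← hQ, ← hR] at hmain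
  -- the count of the tuples
  have hNe : (univ.filter fun z : Fin m → Vc U J =>
      IndJ (fun i => (z i).2.1) ∧ OKt a b L z).card = N := by
    rw [hN]
    symm
    refine Finset.card_bij (fun x _ => (fun i => (x i).1)) ?_ ?_ ?_
    · intro x hx
      rw [mem_GG] at hx
      obtain ⟨h1, h2⟩ := hx
      rw [Finset.mem_filter]
      refine ⟨Finset.mem_univ _, fun c hc => ?_, fun i v => ?_, fun i => ?_, fun i => ?_,
        fun i j => ?_⟩
      · have h3 := h2 c hc
        rw [hK, Finset.mem_filter] at h3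
        by_contra hcon
        push Not at hcon
        refine h3 ⟨Finset.mem_univ _, fun k l => ?_⟩
        have h4 : ∀ k, (∑ i, c i • x i).1.2.1 k = ∑ i, c i * (x i).1.2.1 k := by
          intro k
          rw [Submodule.coe_sum, Prod.snd_sum, Prod.fst_sum, Finset.sum_apply]
          rfl
        rw [h4, h4, ← Finset.sum_add_distrib, ← hcon k l]
        exact Finset.sum_congr rfl fun i _ => (mul_add _ _ _).symm
      · have h3 := congrFun (LinearMap.mem_ker.1 (x i).2) (some (some v))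
        rw [Psi_some] at h3
        exact h3
      · have h3 := congrFun (LinearMap.mem_ker.1 (x i).2) none
        rw [Psi_none] at h3
        exact h3
      · have h3 := congrFun (LinearMap.mem_ker.1 (x i).2) (some none)
        rw [Psi_one] at h3
        exact h3
      · rcases lt_trichotomy i j with h | h | h
        · exact h1 ⟨(i, j), mem_prs.2 h⟩
        · subst h
          exact btL_self L (x i).1
        · have h3 := h1 ⟨(j, i), mem_prs.2 h⟩
          have h4 := bt_comm L (x i).1 (x j).1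
          exact h4.trans h3
    · intro x _ y _ hxy
      funext i
      exact Subtype.ext (congrFun hxy i)
    · intro y hy
      rw [Finset.mem_filter] at hy
      obtain ⟨-, h1, h2, h3, h3', h4⟩ := hy
      have h5 : ∀ i, y i ∈ LinearMap.ker (Psi a b L) := by
        intro i
        rw [LinearMap.mem_ker]
        funext c
        rcases c with _ | _ | v
        · rw [Psi_none]
          exact h3 i
        · rw [Psi_one]
          exact h3' i
        · rw [Psi_some]
          exact h2 i v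
      refine ⟨fun i => ⟨y i, h5 i⟩, ?_, rfl⟩
      rw [mem_GG]
      refine ⟨fun e => h4 _ _, fun c hc h6 => ?_⟩
      rw [hK, Finset.mem_filter] at h6
      obtain ⟨k, l, hkl⟩ := h1 c hc
      apply hkl
      have h7 : ∀ k, (∑ i, c i • (⟨y i, h5 i⟩ :
          LinearMap.ker (Psi a b L))).1.2.1 k = ∑ i, c i * (y i).2.1 k := by
        intro k
        rw [Submodule.coe_sum, Prod.snd_sum, Prod.fst_sum, Finset.sum_apply]
        rfl
      have h8 := h6.2 k l
      rw [h7, h7, ← Finset.sum_add_distrib] at h8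
      rw [← h8]
      exact Finset.sum_congr rfl fun i _ => mul_add _ _ _
  rw [hNe, ← hn]
  -- the estimate
  have hQ0 : 0 < Q := by
    rw [hQ1]
    positivity
  have h1 : |(N : ℤ) * 2 ^ m.choose 2 - (Q : ℤ) ^ m| * 2 ^ V0 ≤
      2 ^ m.choose 2 * (Q : ℤ) ^ m * (32 + 8 * 2 ^ m) := by
    have h2 : (R : ℤ) * 2 ^ V0 ≤ 32 * Q := by exact_mod_cast hR1
    have h3 : (K.card : ℤ) * 2 ^ V0 ≤ 8 * Q := by exact_mod_cast hK1
    have h4 : |(N : ℤ) * 2 ^ m.choose 2 - (Q : ℤ) ^ m| * 2 ^ V0 * Q ≤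
        2 ^ m.choose 2 * (Q : ℤ) ^ m * (32 + 8 * 2 ^ m) * Q := by
      calc |(N : ℤ) * 2 ^ m.choose 2 - (Q : ℤ) ^ m| * 2 ^ V0 * Q
          = (|(N : ℤ) * 2 ^ m.choose 2 - (Q : ℤ) ^ m| * Q) * 2 ^ V0 := by ring
        _ ≤ (2 ^ m.choose 2 * ((Q : ℤ) ^ m * (R + 2 ^ m * K.card : ℤ))) * 2 ^ V0 :=
          mul_le_mul_of_nonneg_right hmain (by positivity)
        _ = 2 ^ m.choose 2 * (Q : ℤ) ^ m * (R * 2 ^ V0 + 2 ^ m * (K.card * 2 ^ V0)) := by ring
        _ ≤ 2 ^ m.choose 2 * (Q : ℤ) ^ m * (32 * Q + 2 ^ m * (8 * Q)) := by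
          refine mul_le_mul_of_nonneg_left ?_ (by positivity)
          exact add_le_add h2 (mul_le_mul_of_nonneg_left h3 (by positivity))
        _ = _ := by ring
    exact le_of_mul_le_mul_right h4 (by exact_mod_cast hQ0)
  have h2 : |(N : ℝ) * 2 ^ m.choose 2 - (Q : ℝ) ^ m| * 2 ^ V0 ≤
      2 ^ m.choose 2 * (Q : ℝ) ^ m * (32 + 8 * 2 ^ m) := by exact_mod_cast h1
  have hQr : (0 : ℝ) < (Q : ℝ) ^ m := by
    have : (0 : ℝ) < Q := by exact_mod_cast hQ0
    positivity
  have h3 : (2 : ℝ) ^ (m * (n - 1)) = (Q : ℝ) ^ m := by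
    rw [hQ1]
    push_cast
    rw [← pow_mul, mul_comm]
  rw [h3]
  have h4 : (N : ℝ) * 2 ^ m.choose 2 / (Q : ℝ) ^ m - 1 =
      ((N : ℝ) * 2 ^ m.choose 2 - (Q : ℝ) ^ m) / (Q : ℝ) ^ m := by
    field_simp
  rw [h4, abs_div, abs_of_pos hQr, div_le_iff₀ hQr]
  rw [div_lt_iff₀ hδ] at hV0
  have h5 : (0 : ℝ) < 2 ^ V0 := by positivity
  have h6 : |(N : ℝ) * 2 ^ m.choose 2 - (Q : ℝ) ^ m| * 2 ^ V0 ≤ δ * (Q : ℝ) ^ m * 2 ^ V0 := by
    refine h2.trans ?_
    have h7 := mul_le_mul_of_nonneg_right hV0.le hQr.le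
    calc (2 : ℝ) ^ m.choose 2 * (Q : ℝ) ^ m * (32 + 8 * 2 ^ m)
        = 2 ^ m.choose 2 * (32 + 8 * 2 ^ m) * (Q : ℝ) ^ m := by ring
      _ ≤ 2 ^ V0 * δ * (Q : ℝ) ^ m := h7
      _ = _ := by ring
  exact le_of_mul_le_mul_right h6 h5

end Pool.Agent.NH57.BL
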