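import Pool.Agent.NH57.BL.LA

/-!
# Project BL, job BL-12: the moments of the kernel (port of `R426/QK/LA3.lean`)
-/

set_option autoImplicit false
set_option linter.unusedVariables false

open scoped Classical

namespace Pool.Agent.NH57.BL

namespace LX3

open Finset

/-- the number of the linearly independent tuples -/
theorem card_li {V : Type} [AddCommGroup V] [Module (ZMod 2) V] [Finite V] (m : ℕ) :
    (Nat.card {s : Fin m → V // LinearIndependent (ZMod 2) s} : ℝ) =
      ∏ i ∈ range m, ((2 : ℝ) ^ Module.finrank (ZMod 2) V - 2 ^ i) := by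
  have hfin : Module.Finite (ZMod 2) V := Module.Finite.of_finite
  by_cases hm : m ≤ Module.finrank (ZMod 2) V
  · rw [card_linearIndependent hm, ZMod.card, Nat.cast_prod, Finset.prod_range]
    apply Finset.prod_congr rfl
    intro i _
    rw [Nat.cast_sub]
    · push_cast; rfl
    · exact Nat.pow_le_pow_right (by norm_num) (by omega)
  · rw [Finset.prod_eq_zero (i := Module.finrank (ZMod 2) V)]
    · have : IsEmpty {s : Fin m → V // LinearIndependent (ZMod 2) s} := by
        constructor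
        rintro ⟨s, hs⟩
        have := hs.fintype_card_le_finrank
        rw [Fintype.card_fin] at this
        exact hm this
      rw [Nat.card_of_isEmpty, Nat.cast_zero]
    · rw [Finset.mem_range]; omega
    · rw [sub_self]

section

variable {U J : Type} [Fintype U] [Fintype J]

theorem two_eq : (2 : ZMod 2) = 0 := rfl

theorem rowU_add (L : Blk U J) (z z' : Vc U J) (u : U) :
    rowU L (z + z') u = rowU L z u + rowU L z' u := by
  unfold rowU
  simp only [Prod.fst_add, Prod.snd_add, Pi.add_apply]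
  have h1 : ∑ v, L.A u v * (z.1 u + z'.1 u + (z.1 v + z'.1 v)) =
      ∑ v, L.A u v * (z.1 u + z.1 v) + ∑ v, L.A u v * (z'.1 u + z'.1 v) := by
    rw [← Finset.sum_add_distrib]
    exact Finset.sum_congr rfl fun v _ => by ring
  have h2 : ∑ l, L.B u l * (z.1 u + z'.1 u + (z.2.1 l + z'.2.1 l)) =
      ∑ l, L.B u l * (z.1 u + z.2.1 l) + ∑ l, L.B u l * (z'.1 u + z'.2.1 l) := by
    rw [← Finset.sum_add_distrib]
    exact Finset.sum_congr rfl fun v _ => by ring
  rw [h1, h2]; ring

theorem rowU_smul (L : Blk U J) (a : ZMod 2) (z : Vc U J) (u : U) :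
    rowU L (a • z) u = a * rowU L z u := by
  unfold rowU
  simp only [Prod.smul_fst, Prod.smul_snd, Pi.smul_apply, smul_eq_mul]
  rw [mul_add, mul_add, mul_add, Finset.mul_sum, Finset.mul_sum]
  congr 1
  · congr 1
    · congr 1
      · ring
      · exact Finset.sum_congr rfl fun v _ => by ring
    · exact Finset.sum_congr rfl fun v _ => by ring
  · ring

theorem rowJ_add (L : Blk U J) (R : J → J → ZMod 2) (z z' : Vc U J) (k : J) :
    rowJ L R (z + z') k = rowJ L R z k + rowJ L R z' k := by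
  unfold rowJ
  simp only [Prod.fst_add, Prod.snd_add, Pi.add_apply]
  have h1 : ∑ u, (L.B u k + L.tU u * L.tJ k) * (z.2.1 k + z'.2.1 k + (z.1 u + z'.1 u)) =
      ∑ u, (L.B u k + L.tU u * L.tJ k) * (z.2.1 k + z.1 u) +
        ∑ u, (L.B u k + L.tU u * L.tJ k) * (z'.2.1 k + z'.1 u) := by
    rw [← Finset.sum_add_distrib]
    exact Finset.sum_congr rfl fun v _ => by ring
  have h2 : ∑ l, R k l * (z.2.1 k + z'.2.1 k + (z.2.1 l + z'.2.1 l)) =
      ∑ l, R k l * (z.2.1 k + z.2.1 l) + ∑ l, R k l * (z'.2.1 k + z'.2.1 l) := by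
    rw [← Finset.sum_add_distrib]
    exact Finset.sum_congr rfl fun v _ => by ring
  rw [h1, h2]; ring

theorem rowJ_smul (L : Blk U J) (R : J → J → ZMod 2) (a : ZMod 2) (z : Vc U J) (k : J) :
    rowJ L R (a • z) k = a * rowJ L R z k := by
  unfold rowJ
  simp only [Prod.smul_fst, Prod.smul_snd, Pi.smul_apply, smul_eq_mul]
  rw [mul_add, mul_add, mul_add, Finset.mul_sum, Finset.mul_sum]
  congr 1
  · congr 1
    · congr 1
      · ring
      · exact Finset.sum_congr rfl fun v _ => by ring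
    · exact Finset.sum_congr rfl fun v _ => by ring
  · ring

theorem bor_add (a b : ZMod 2) (L : Blk U J) (z z' : Vc U J) :
    bor a b L (z + z') = bor a b L z + bor a b L z' := by
  unfold bor
  simp only [Prod.fst_add, Prod.snd_add, Pi.add_apply, mul_add, Finset.sum_add_distrib]
  ring

theorem bor_smul (a b : ZMod 2) (L : Blk U J) (c : ZMod 2) (z : Vc U J) :
    bor a b L (c • z) = c * bor a b L z := by
  unfold bor
  simp only [Prod.smul_fst, Prod.smul_snd, Pi.smul_apply, smul_eq_mul]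
  have h1 : ∑ u, L.dU u * (c * z.1 u) = c * ∑ u, L.dU u * z.1 u := by
    rw [Finset.mul_sum]
    exact Finset.sum_congr rfl fun v _ => by ring
  have h2 : ∑ l, L.dJ l * (c * z.2.1 l) = c * ∑ l, L.dJ l * z.2.1 l := by
    rw [Finset.mul_sum]
    exact Finset.sum_congr rfl fun v _ => by ring
  rw [h1, h2]
  ring

/-- the kernel of the bordered system -/
def Kr (a b : ZMod 2) (L : Blk U J) (R : J → J → ZMod 2) : Submodule (ZMod 2) (Vc U J) where
  carrier := {z | (∀ u, rowU L z u = 0) ∧ (∀ k, rowJ L R z k = 0) ∧ bor a b L z = 0}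
  zero_mem' := by
    refine ⟨fun u => ?_, fun k => ?_, ?_⟩
    · have := rowU_smul L 0 (0 : Vc U J) u
      simpa using this
    · have := rowJ_smul L R 0 (0 : Vc U J) k
      simpa using this
    · have := bor_smul a b L 0 (0 : Vc U J)
      simpa using this
  add_mem' := by
    rintro z z' ⟨h1, h2, h3⟩ ⟨h4, h5, h6⟩
    refine ⟨fun u => ?_, fun k => ?_, ?_⟩
    · rw [rowU_add, h1, h4, add_zero]
    · rw [rowJ_add, h2, h5, add_zero]
    · rw [bor_add, h3, h6, add_zero]
  smul_mem' := by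
    rintro c z ⟨h1, h2, h3⟩
    refine ⟨fun u => ?_, fun k => ?_, ?_⟩
    · rw [rowU_smul, h1, mul_zero]
    · rw [rowJ_smul, h2, mul_zero]
    · rw [bor_smul, h3, mul_zero]

theorem gd_iff {a b : ZMod 2} {L : Blk U J} {R : J → J → ZMod 2} :
    GdX a b L R ↔ Module.finrank (ZMod 2) (Kr a b L R) = 0 := by
  rw [Submodule.finrank_eq_zero, Submodule.eq_bot_iff]
  constructor
  · intro h z hz
    exact h z hz.1 hz.2.1 hz.2.2
  · intro h z h1 h2 h3
    exact h z ⟨h1, h2, h3⟩

/-- linear independence in the kernel -/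
theorem li_iff {a b : ZMod 2} {L : Blk U J} {R : J → J → ZMod 2} (k0 : J)
    (h4 : ∀ (w : U → ZMod 2) (e f : ZMod 2), ((∃ u, w u ≠ 0) ∨ e ≠ 0 ∨ f ≠ 0) →
      ∃ k, e * L.sJ k + f * L.gJ k + ∑ u, w u * (L.B u k + L.tU u * L.tJ k) ≠ 0) {m : ℕ}
    (s : Fin m → Kr a b L R) :
    LinearIndependent (ZMod 2) s ↔ IndJ (fun i => (s i).1.2.1) := by
  rw [Fintype.linearIndependent_iff]
  have hsum2 : ∀ (c : Fin m → ZMod 2) (k : J),
      (((∑ i, c i • s i : Kr a b L R) : Vc U J).2.1 k) = ∑ i, c i * (s i).1.2.1 k := by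
    intro c k
    rw [Submodule.coe_sum, Prod.snd_sum, Prod.fst_sum, Finset.sum_apply]
    rfl
  constructor
  · intro h c ⟨i0, hi0⟩
    by_contra hcon
    push Not at hcon
    apply hi0
    refine h c ?_ i0
    obtain ⟨y, hy⟩ : ∃ y, y = ∑ i, c i • s i := ⟨_, rfl⟩
    rw [← hy]
    have hyk : ∀ k, y.1.2.1 k = ∑ i, c i * (s i).1.2.1 k := by
      intro k; rw [hy]; exact hsum2 c k
    have hconst : ∀ l, y.1.2.1 l = y.1.2.1 k0 := by
      intro l
      have h1 := hcon l k0
      simp_rw [mul_add] at h1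
      rw [Finset.sum_add_distrib, ← hyk, ← hyk] at h1
      have h2 : y.1.2.1 l = -y.1.2.1 k0 := eq_neg_of_add_eq_zero_left h1
      rw [h2, ZMod.neg_eq_self_mod_two]
    have hy2 := y.2.2.1
    by_contra hy0
    have hor : (∃ u, y.1.1 u + y.1.2.1 k0 ≠ 0) ∨ y.1.2.1 k0 ≠ 0 ∨ y.1.2.2 ≠ 0 := by
      by_contra hn
      push Not at hn
      obtain ⟨hn1, hn2, hn3⟩ := hn
      apply hy0
      apply Subtype.ext
      refine Prod.ext ?_ (Prod.ext ?_ hn3)
      · funext i
        have := hn1 i
        rw [hn2, add_zero] at this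
        exact this
      · funext i
        change y.1.2.1 i = 0
        rw [hconst i, hn2]
    obtain ⟨k, hk⟩ := h4 (fun u => y.1.1 u + y.1.2.1 k0) (y.1.2.1 k0) y.1.2.2 hor
    apply hk
    have h5 : rowJ L R y.1 k = 0 := hy2 k
    unfold rowJ at h5
    rw [hconst k] at h5
    have h6 : ∑ l, R k l * (y.1.2.1 k0 + y.1.2.1 l) = 0 := by
      apply Finset.sum_eq_zero
      intro l _
      rw [hconst l, ← two_mul, two_eq, zero_mul, mul_zero]
    rw [h6, add_zero] at h5
    rw [← h5]
    have h7 : ∑ u, (y.1.1 u + y.1.2.1 k0) * (L.B u k + L.tU u * L.tJ k) =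
        ∑ u, (L.B u k + L.tU u * L.tJ k) * (y.1.2.1 k0 + y.1.1 u) :=
      Finset.sum_congr rfl fun u _ => by ring
    rw [h7]
    ring
  · intro h c hc
    by_contra hcon
    push Not at hcon
    obtain ⟨k, l, hkl⟩ := h c hcon
    apply hkl
    simp_rw [mul_add]
    rw [Finset.sum_add_distrib, ← hsum2 c k, ← hsum2 c l, hc]
    change (0 : ZMod 2) + 0 = 0
    rw [add_zero]

end

theorem card_univ_inst {α : Type} (i1 i2 : Fintype α) (p : α → Prop) (d1 d2 : DecidablePred p) :
    (@Finset.filter α p d1 (@Finset.univ α i1)).card =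
      (@Finset.filter α p d2 (@Finset.univ α i2)).card := by
  have h1 : i1 = i2 := Subsingleton.elim _ _
  subst h1
  have h2 : d1 = d2 := Subsingleton.elim _ _
  subst h2
  rfl

end LX3

open Finset LX3

/-- BL-12: the assembly of the linear algebra law -/
theorem t_LX3 : S_LX3 := by
  intro hMOM hLX1 hLX2 ε hε
  obtain ⟨M, δ, hδ, hM⟩ := hMOM ε hε
  choose! Vf hVf using fun m => hLX2 m δ hδ
  refine ⟨(range (M + 1)).sup Vf + 2, ?_⟩
  intro a b hab U J _ _ _ L hy
  have hV := hy.many
  have hJ : ∃ k0 : J, True := by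
    have : 0 < (univ.filter fun j => L.tJ j = 1).card := by omega
    obtain ⟨k0, _⟩ := Finset.card_pos.1 this
    exact ⟨k0, trivial⟩
  obtain ⟨k0, -⟩ := hJ
  have hcardΩ : (Fintype.card (prs J → ZMod 2) : ℝ) = 2 ^ (prs J).card := by
    rw [Fintype.card_fun, ZMod.card, Fintype.card_coe]
    push_cast
    rfl
  have key := hM (prs J → ZMod 2)
    (fun α => Module.finrank (ZMod 2) (Kr a b L (ext L.tJ α))) ?_
  · rw [hcardΩ] at key
    have h1 : (univ.filter fun α : prs J → ZMod 2 => GdX a b L (ext L.tJ α)) =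
        univ.filter fun α : prs J → ZMod 2 =>
          Module.finrank (ZMod 2) (Kr a b L (ext L.tJ α)) = 0 :=
      Finset.filter_congr fun α _ => gd_iff
    rw [h1]
    exact key
  · intro m hm
    -- the tuples
    obtain ⟨T, hT⟩ : ∃ T : Finset (Fin m → Vc U J),
      T = univ.filter fun z => IndJ (fun i => (z i).2.1) ∧ (∀ i u, rowU L (z i) u = 0) ∧
        ∀ i, bor a b L (z i) = 0 := ⟨_, rfl⟩
    have hTm : ∀ z, z ∈ T ↔ IndJ (fun i => (z i).2.1) ∧ (∀ i u, rowU L (z i) u = 0) ∧
        ∀ i, bor a b L (z i) = 0 := by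
      intro z
      rw [hT, Finset.mem_filter]
      exact ⟨fun h => h.2, fun h => ⟨Finset.mem_univ _, h⟩⟩
    have hcount : ∀ α : prs J → ZMod 2,
        ∏ i ∈ range m, ((2 : ℝ) ^ Module.finrank (ZMod 2) (Kr a b L (ext L.tJ α)) - 2 ^ i) =
        ((T.filter fun z => ∀ i k, rowJ L (ext L.tJ α) (z i) k = 0).card : ℝ) := by
      intro α
      rw [← card_li]
      congr 1
      rw [← Fintype.card_coe, ← Nat.card_eq_fintype_card]
      apply Nat.card_congr
      refine
        { toFun := fun s => ⟨fun i => (s.1 i).1, ?_⟩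
          invFun := fun z => ⟨fun i => ⟨z.1 i, ?_⟩, ?_⟩
          left_inv := ?_
          right_inv := ?_ }
      · rw [Finset.mem_filter, hTm]
        refine ⟨⟨(li_iff k0 (fun w e f h => (hy.nd w e f h).1) s.1).1 s.2, ?_, ?_⟩, ?_⟩
        · intro i u; exact (s.1 i).2.1 u
        · intro i; exact (s.1 i).2.2.2
        · intro i k; exact (s.1 i).2.2.1 k
      · have hx := Finset.mem_filter.1 z.2
        exact ⟨fun u => ((hTm z.1).1 hx.1).2.1 i u, fun k => hx.2 i k,
          ((hTm z.1).1 hx.1).2.2 i⟩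
      · have hx := Finset.mem_filter.1 z.2
        exact (li_iff k0 (fun w e f h => (hy.nd w e f h).1) _).2 ((hTm z.1).1 hx.1).1
      · intro s; rfl
      · intro x; rfl
    rw [Finset.sum_congr rfl fun α _ => hcount α, ← Nat.cast_sum]
    have hswap : ∑ α : prs J → ZMod 2,
        (T.filter fun z => ∀ i k, rowJ L (ext L.tJ α) (z i) k = 0).card =
        ∑ z ∈ T, (univ.filter fun α : prs J → ZMod 2 =>
          ∀ i k, rowJ L (ext L.tJ α) (z i) k = 0).card := by
      have := Finset.sum_card_bipartiteAbove_eq_sum_card_bipartiteBelow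
        (s := (univ : Finset (prs J → ZMod 2))) (t := T)
        (fun α z => ∀ i k, rowJ L (ext L.tJ α) (z i) k = 0)
      exact this
    rw [hswap]
    have hmul : (∑ z ∈ T, (univ.filter fun α : prs J → ZMod 2 =>
          ∀ i k, rowJ L (ext L.tJ α) (z i) k = 0).card) *
          2 ^ (m * (Fintype.card J - 1)) =
        (univ.filter fun z : Fin m → Vc U J =>
          IndJ (fun i => (z i).2.1) ∧ OKt a b L z).card * 2 ^ ((prs J).card + m.choose 2) := by
      rw [Finset.sum_mul]
      have h1 : ∀ z ∈ T, (univ.filter fun α : prs J → ZMod 2 =>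
          ∀ i k, rowJ L (ext L.tJ α) (z i) k = 0).card *
          2 ^ (m * (Fintype.card J - 1)) =
          if OKt a b L z then 2 ^ ((prs J).card + m.choose 2) else 0 := by
        intro z hz
        rw [hTm] at hz
        exact hLX1 a b U J L hy.par hy.recip m z hz.1 hz.2.1 hz.2.2
      rw [Finset.sum_congr rfl h1, ← Finset.sum_filter, Finset.sum_const, smul_eq_mul]
      congr 2
      rw [hT, Finset.filter_filter]
      apply Finset.filter_congr
      intro z _
      constructor
      · rintro ⟨⟨h2, _⟩, h3⟩; exact ⟨h2, h3⟩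
      · rintro ⟨h2, h3⟩; exact ⟨⟨h2, h3.1, h3.2.2.1⟩, h3⟩
    have hyV : Hy (Vf m) L :=
      { many := by
          have : Vf m ≤ (range (M + 1)).sup Vf :=
            Finset.le_sup (f := Vf) (Finset.mem_range.2 (by omega))
          omega
        par := hy.par
        recip := hy.recip
        nd := hy.nd }
    have hfin := hVf m a b hab U J L hyV
    obtain ⟨N1, hN1⟩ : ∃ N1 : ℕ, N1 = ∑ z ∈ T, (univ.filter fun α : prs J → ZMod 2 =>
          ∀ i k, rowJ L (ext L.tJ α) (z i) k = 0).card := ⟨_, rfl⟩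
    obtain ⟨N2, hN2⟩ : ∃ N2 : ℕ, N2 =
        (univ.filter fun z : Fin m → Vc U J =>
          IndJ (fun i => (z i).2.1) ∧ OKt a b L z).card := ⟨_, rfl⟩
    rw [← hN1, ← hN2] at hmul
    have hfin2 : |(N2 : ℝ) * 2 ^ m.choose 2 / 2 ^ (m * (Fintype.card J - 1)) - 1| ≤ δ := by
      generalize hN3 : Finset.card _ = N3 at hfin
      have hN4 : N2 = N3 := by
        rw [hN2, ← hN3]
        exact card_univ_inst _ _ _ _ _
      rw [hN4]
      exact hfin
    rw [← hN1, hcardΩ]
    obtain ⟨P, hP⟩ : ∃ P : ℕ, P = (prs J).card := ⟨_, rfl⟩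
    rw [← hP] at hmul ⊢
    have hval : (N1 : ℝ) / 2 ^ P = (N2 : ℝ) * 2 ^ m.choose 2 / 2 ^ (m * (Fintype.card J - 1)) := by
      rw [div_eq_div_iff (by positivity) (by positivity)]
      have h2 : (N1 : ℝ) * 2 ^ (m * (Fintype.card J - 1)) = (N2 : ℝ) * 2 ^ (P + m.choose 2) := by
        exact_mod_cast hmul
      rw [h2, pow_add]
      ring
    rw [hval]
    exact hfin2

end Pool.Agent.NH57.BL
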