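import Pool.Agent.NH57.BL.Stm2
import Pool.Agent.R426.QK.NS
import Pool.Agent.R426.QK.KEY1

/-!
# Project BL: translation between elements and sets of primes, all classes
(after `Pool/Agent/R426/QK/NS.lean` and `Pool/Agent/NH57/BL/NS.lean`)
-/

set_option autoImplicit false

open scoped Classical

namespace Pool.Agent.NH57.BO

open Finset
open Pool.Agent.Y698
open Pool.Agent.Y698.SG hiding PD
open Pool.Agent.R426.QK
open Pool.Agent.R426.QC (e6 e3)

namespace NS2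

theorem two_val : ∀ t : ZMod 2, t = 0 ∨ t = 1 := by decide

theorem iff_eq (p : Prop) (s x : ZMod 2) (h : p ↔ s = 1) : (p ↔ x = 1) ↔ s = x := by
  rw [h]
  revert s x
  intro s x _
  rcases two_val s with rfl | rfl <;> rcases two_val x with rfl | rfl <;> decide

theorem sum_dd (x : ZMod 2) (S : Finset RR) (h : ∑ π ∈ S, tt π = 0) :
    ∑ π ∈ S, dd x π = ∑ π ∈ S, cs π (-aR) := by
  unfold dd
  rw [Finset.sum_add_distrib, ← Finset.mul_sum, h, mul_zero, add_zero]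

theorem sum_gg (y : ZMod 2) (S : Finset RR) (h : ∑ π ∈ S, tt π = 0) :
    ∑ π ∈ S, gg y π = ∑ π ∈ S, cs π (-(cj aR)) := by
  unfold gg
  rw [Finset.sum_add_distrib, ← Finset.mul_sum, h, mul_zero, add_zero]

theorem sum_tt {S : Finset RR} (h : Cl S) : ∑ π ∈ S, tt π = 0 := by
  rcases Pool.Agent.R426.QK.KEY.prod_tt S (fun π => π) h.1 with h1 | h1
  · exact h1.2
  · have h2 := h.2
    rw [h1.1] at h2
    exact absurd h2 (by norm_num)

theorem cls5_iff (h : S_SUP5) (x y : ZMod 2) (D : RR) :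
    ClsE5 x y D ↔ ClsE D ∧ (∑ π ∈ PD D, dd x π = x ∧ ∑ π ∈ PD D, gg y π = y) := by
  unfold ClsE5
  refine and_congr_right fun hE => ?_
  obtain ⟨hP, hC⟩ := (Pool.Agent.R426.QK.NS.cls_iff D).1 hE
  have h5 := h.2 (PD D) hC.1 hC.2
  rw [hP.prod] at h5
  rw [sum_dd x _ (sum_tt hC), sum_gg y _ (sum_tt hC)]
  exact and_congr (iff_eq _ _ _ h5.1) (iff_eq _ _ _ h5.2)

end NS2

theorem t_NS5' : S_NS5' := by
  intro h x y X Q
  have h1 := Pool.Agent.R426.QK.NS.card_eq X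
    (fun S => (∑ π ∈ S, dd x π = x ∧ ∑ π ∈ S, gg y π = y) ∧ Q S)
  have h2 : {D : RR | nrm D ≤ X ∧ ClsE5 x y D ∧ Q (PD D)} =
      {D : RR | nrm D ≤ X ∧ ClsE D ∧
        ((∑ π ∈ PD D, dd x π = x ∧ ∑ π ∈ PD D, gg y π = y) ∧ Q (PD D))} := by
    ext D
    simp only [Set.mem_ofPred_eq, NS2.cls5_iff h]
    tauto
  rw [h2, h1]
  unfold SS5
  rw [Finset.filter_filter]
  congr 1
  ext S
  simp only [Finset.mem_filter]

theorem t_NS5 : S_NS5 := by
  intro h hB x y a
  have h1 := t_NS5' h x y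
  unfold S_BOTH at hB
  refine (hB x y a).congr fun X => ?_
  have e1 := h1 X (fun S => Gd5 x y 1 0 S ∧ Gd5 x y a 1 S)
  have e2 := h1 X (fun _ => True)
  have e3 : {D : RR | nrm D ≤ X ∧ ClsE5 x y D} = {D : RR | nrm D ≤ X ∧ ClsE5 x y D ∧ True} := by
    ext D
    simp only [Set.mem_ofPred_eq, and_true]
  rw [e3, e2, e1]
  congr 2
  · congr 1
    ext S
    simp only [Finset.mem_filter]
  · congr 1
    ext S
    simp only [Finset.mem_filter, and_true]

end Pool.Agent.NH57.BO
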