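import Pool.Agent.NH57.BL.LA

/-!
# BL-13: parity of the three systems
-/

set_option autoImplicit false
set_option linter.unusedVariables false

open scoped Classical

namespace Pool.Agent.NH57.BL

namespace PARJob

open Finset

variable {σ : Type}

/-- the matrix of the system of a set -/
noncomputable def AA (S : Finset σ) (s : σ → ZMod 2) (R : σ → σ → ZMod 2) : Matrix S S (ZMod 2) :=
  Matrix.diagonal (fun π : S => s π + ∑ κ : S, R κ π) + Matrix.of fun π ρ : S => R ρ π

/-- the bordered matrix -/
noncomputable def MB (S : Finset σ) (s d g : σ → ZMod 2) (R : σ → σ → ZMod 2) (a b : ZMod 2) :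
    Matrix (S ⊕ Unit) (S ⊕ Unit) (ZMod 2) :=
  Matrix.fromBlocks (AA S s R) (Matrix.of fun π _ => g π) (Matrix.of fun _ ρ => b * d ρ)
    (Matrix.of fun _ _ => a)

lemma MB_inl (S : Finset σ) (s d g : σ → ZMod 2) (R : σ → σ → ZMod 2) (a b : ZMod 2)
    (w : S ⊕ Unit → ZMod 2) (π : S) :
    (MB S s d g R a b).mulVec w (Sum.inl π) =
      s π * w (Sum.inl π) + ∑ ρ : S, R ρ π * (w (Sum.inl π) + w (Sum.inl ρ)) +
        w (Sum.inr ()) * g π := by
  unfold MB AA
  rw [Matrix.mulVec, dotProduct, Fintype.sum_sum_type]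
  simp only [Matrix.fromBlocks_apply₁₁, Matrix.fromBlocks_apply₁₂, Matrix.add_apply,
    Matrix.of_apply, Matrix.diagonal_apply, add_mul, mul_add, sum_add_distrib, ite_mul, zero_mul,
    sum_ite_eq, mem_univ, if_true, ← sum_mul, univ_unique, sum_singleton]
  have e : (default : Unit) = () := rfl
  rw [e]
  ring

lemma MB_inr (S : Finset σ) (s d g : σ → ZMod 2) (R : σ → σ → ZMod 2) (a b : ZMod 2)
    (w : S ⊕ Unit → ZMod 2) :
    (MB S s d g R a b).mulVec w (Sum.inr ()) =
      a * w (Sum.inr ()) + b * ∑ ρ : S, d ρ * w (Sum.inl ρ) := by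
  unfold MB
  rw [Matrix.mulVec, dotProduct, Fintype.sum_sum_type]
  simp only [Matrix.fromBlocks_apply₂₁, Matrix.fromBlocks_apply₂₂, Matrix.of_apply, univ_unique,
    sum_singleton, mul_sum, mul_assoc]
  have e : (default : Unit) = () := rfl
  rw [e, add_comm]

lemma gd_iff (S : Finset σ) (s d g : σ → ZMod 2) (R : σ → σ → ZMod 2) (a b : ZMod 2) :
    GdS S s d g R a b ↔ (MB S s d g R a b).det ≠ 0 := by
  constructor
  · intro h h0
    obtain ⟨w, hw, hw0⟩ := Matrix.exists_mulVec_eq_zero_iff.2 h0
    have hsol : SolS S s d g R a b (fun x => if h : x ∈ S then w (Sum.inl ⟨x, h⟩) else 0)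
        (w (Sum.inr ())) := by
      refine ⟨fun π hπ => ?_, ?_⟩
      · have h1 := congrFun hw0 (Sum.inl ⟨π, hπ⟩)
        rw [MB_inl] at h1
        rw [← sum_coe_sort S]
        simp only [hπ, dif_pos, coe_mem]
        exact h1
      · have h1 := congrFun hw0 (Sum.inr ())
        rw [MB_inr] at h1
        rw [← sum_coe_sort S]
        simp only [dif_pos, coe_mem]
        exact h1
    obtain ⟨h1, h2⟩ := h _ _ hsol
    apply hw
    funext i
    rcases i with π | u
    · have h3 := h1 π.1 π.2
      simpa using h3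
    · exact h2
  · intro h v e hsol
    have h1 : (MB S s d g R a b).mulVec (Sum.elim (fun π : S => v π) fun _ => e) = 0 := by
      funext i
      rcases i with π | u
      · rw [MB_inl]
        have h2 := hsol.1 π.1 π.2
        rw [← sum_coe_sort S] at h2
        simpa using h2
      · have e2 : u = () := rfl
        rw [e2, MB_inr]
        have h2 := hsol.2
        rw [← sum_coe_sort S] at h2
        simpa using h2
    have h2 : (Sum.elim (fun π : S => v π) fun _ => e : S ⊕ Unit → ZMod 2) = 0 := by
      by_contra hne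
      exact h (Matrix.exists_mulVec_eq_zero_iff.1 ⟨_, hne, h1⟩)
    refine ⟨fun π hπ => ?_, ?_⟩
    · exact congrFun h2 (Sum.inl ⟨π, hπ⟩)
    · exact congrFun h2 (Sum.inr ())

lemma det_add (S : Finset σ) (s d g : σ → ZMod 2) (R : σ → σ → ZMod 2) :
    (MB S s d g R 1 1).det = (MB S s d g R 1 0).det + (MB S s d g R 0 1).det := by
  have h1 : MB S s d g R 1 1 = (MB S s d g R 1 0).updateRow (Sum.inr ())
      (MB S s d g R 1 0 (Sum.inr ()) + MB S s d g R 0 1 (Sum.inr ())) := by
    ext i j
    rcases i with i | i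
    · rw [Matrix.updateRow_ne (by simp)]
      rcases j with j | j <;> rfl
    · have e2 : i = () := rfl
      rw [e2, Matrix.updateRow_self]
      rcases j with j | j <;> simp [MB]
  have h2 : (MB S s d g R 1 0).updateRow (Sum.inr ()) (MB S s d g R 0 1 (Sum.inr ())) =
      MB S s d g R 0 1 := by
    ext i j
    rcases i with i | i
    · rw [Matrix.updateRow_ne (by simp)]
      rcases j with j | j <;> rfl
    · have e2 : i = () := rfl
      rw [e2, Matrix.updateRow_self]
  rw [h1, Matrix.det_updateRow_add, h2, Matrix.updateRow_eq_self]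

end PARJob

open PARJob in
theorem t_PAR : S_PAR := by
  intro σ S s d g R
  simp only [gd_iff, det_add]
  generalize (MB S s d g R 1 0).det = x
  generalize (MB S s d g R 0 1).det = z
  have h2 : ∀ x : ZMod 2, x = 0 ∨ x = 1 := by decide
  have h3 : (1 : ZMod 2) + 1 = 0 := by decide
  rcases h2 x with rfl | rfl <;> rcases h2 z with rfl | rfl <;> simp [h3]

end Pool.Agent.NH57.BL
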