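import Pool.Agent.NH57.BL.Stm2
import Pool.Agent.R426.QK.Sym
import Pool.Agent.R426.QD.Tr
import Pool.Agent.R426.QD.Tl

/-!
# Project BL: the supplementary laws (BL-27)
-/

set_option autoImplicit false
set_option linter.unusedVariables false

open scoped Classical

namespace Pool.Agent.NH57.BO

open Finset
open Pool.Agent.Y698
open Pool.Agent.Y698.SG hiding PD
open Pool.Agent.R426.QK
open Pool.Agent.R426.QC (e6 e3)

namespace SUP

lemma e6_eq (x : RR) : e6 x = ((cX x + 6 * cY x : ℤ) : ZMod 8) := by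
  have h : e6 x = (cX x : ZMod 8) + (cY x : ZMod 8) * 6 := rfl
  rw [h]
  push_cast
  ring

lemma e3_eq (x : RR) : e3 x = ((cX x + 3 * cY x : ℤ) : ZMod 8) := by
  have h : e3 x = (cX x : ZMod 8) + (cY x : ZMod 8) * 3 := rfl
  rw [h]
  push_cast
  ring

lemma chi_four (m : ZMod 8) : ZMod.χ₈ (2 * m + 1 + 4) = -ZMod.χ₈ (2 * m + 1) := by
  revert m
  decide

lemma chi_add (X y : ℤ) (hX : X % 2 = 1) : ZMod.χ₈ ((X + 4 * y : ℤ) : ZMod 8) =
    ZMod.χ₈ ((X : ℤ) : ZMod 8) * (if y % 2 = 0 then 1 else -1) := by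
  obtain ⟨m, hm⟩ : ∃ m, X = 2 * m + 1 := ⟨X / 2, by omega⟩
  have h8 : (8 : ZMod 8) = 0 := by decide
  rcases Int.emod_two_eq_zero_or_one y with h | h
  · obtain ⟨w, hw⟩ : ∃ w, y = 2 * w := ⟨y / 2, by omega⟩
    have e : ((X + 4 * y : ℤ) : ZMod 8) = ((X : ℤ) : ZMod 8) := by
      rw [hw]
      push_cast
      linear_combination (w : ZMod 8) * h8
    rw [if_pos h, mul_one, e]
  · obtain ⟨w, hw⟩ : ∃ w, y = 2 * w + 1 := ⟨y / 2, by omega⟩
    have e : ((X + 4 * y : ℤ) : ZMod 8) = 2 * (m : ZMod 8) + 1 + 4 := by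
      rw [hw, hm]
      push_cast
      linear_combination (w : ZMod 8) * h8
    have e' : ((X : ℤ) : ZMod 8) = 2 * (m : ZMod 8) + 1 := by
      rw [hm]
      push_cast
      ring
    rw [if_neg (by omega), e, e', chi_four]
    ring

lemma not_dvd_unit {π x : RR} (h : Pq π) (hx : IsUnit x) : ¬ π ∣ x := fun hd =>
  h.prime.not_isUnit (isUnit_of_dvd_unit hd hx)

lemma sy_neg_one {π : RR} (h : Pq π) : sy π (-1) = ez (tt π) := by
  rw [← tp_tt h]
  exact sy_cs (not_dvd_unit h isUnit_one.neg)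

/-- the type of the norm -/
lemma ez_tt' {π : RR} {y : ℤ} (hX : cX π % 2 = 1) (hY : cY π = 2 * y) :
    ez (tt π) = ((if y % 2 = 0 then 1 else -1 : ℤ) : ℂ) := by
  obtain ⟨m, hm⟩ : ∃ m, cX π = 2 * m + 1 := ⟨cX π / 2, by omega⟩
  have h1 := nrm_eq' π
  rw [hm, hY] at h1
  obtain ⟨w, hw⟩ : ∃ w, w = m ^ 2 + m + m * y + 2 * y ^ 2 := ⟨_, rfl⟩
  have h2 : (nrm π : ℤ) = 4 * w + 1 + 2 * y := by rw [h1, hw]; ring
  unfold tt
  rcases Int.emod_two_eq_zero_or_one y with h | h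
  · have e : ¬ (nrm π % 4 = 3) := by omega
    rw [if_pos h, if_neg e, ez_zero]
    norm_num
  · have e : nrm π % 4 = 3 := by omega
    have e0 : ¬ (y % 2 = 0) := by omega
    rw [if_neg e0, if_pos e, ez_one]
    norm_num

lemma k6_prime {π : RR} (h : Pq π) : k6 π = ez (cs π (-aR)) := by
  obtain ⟨hX, hY⟩ := Pool.Agent.R426.QD.oc_prime h.prime h.od
  obtain ⟨y, hy⟩ : ∃ y, cY π = 2 * y := ⟨cY π / 2, by omega⟩
  have h8 : (8 : ZMod 8) = 0 := by decide
  have e1 : e6 π = ((cX π + 4 * y : ℤ) : ZMod 8) := by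
    rw [e6_eq, hy]
    push_cast
    linear_combination (y : ZMod 8) * h8
  have hnd : ¬ π ∣ -aR := by
    rw [dvd_neg]
    intro hd
    exact h.od (hd.trans ⟨cj aR, two_eq⟩)
  rw [← sy_cs hnd]
  have e2 : (-aR : RR) = (-1) * aR := by ring
  unfold k6
  rw [e2, sy_mul' h, sy_neg_one h, ez_tt' hX hy, Pool.Agent.R426.QD.sy_aO h.prime h.od, e1,
    chi_add _ _ hX, Int.cast_mul]
  ring

lemma k3_prime {π : RR} (h : Pq π) : k3 π = ez (cs π (-(cj aR))) := by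
  obtain ⟨hX, hY⟩ := Pool.Agent.R426.QD.oc_prime h.prime h.od
  obtain ⟨y, hy⟩ : ∃ y, cY π = 2 * y := ⟨cY π / 2, by omega⟩
  have hcj : cX (cj π) = cX π + cY π := (Pool.Agent.Y279.SG.cXY_cj π).1
  have e1 : e3 π = ((cX (cj π) + 4 * y : ℤ) : ZMod 8) := by
    rw [e3_eq, hcj, hy]
    push_cast
    ring
  have hnd : ¬ π ∣ -(cj aR) := by
    rw [dvd_neg]
    intro hd
    exact h.od (hd.trans ⟨aR, by rw [mul_comm]; exact two_eq⟩)
  rw [← sy_cs hnd]
  have e2 : (-(cj aR) : RR) = (-1) * cj aR := by ring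
  have hX' : cX (cj π) % 2 = 1 := by rw [hcj]; omega
  unfold k3
  rw [e2, sy_mul' h, sy_neg_one h, ez_tt' hX hy, Pool.Agent.R426.QD.sy_bO h.prime h.od, e1,
    chi_add _ _ hX', Int.cast_mul]
  ring

lemma k6_prod (S : Finset RR) : k6 (∏ π ∈ S, π) = ∏ π ∈ S, k6 π := by
  unfold k6
  rw [map_prod, map_prod, Int.cast_prod]

lemma k3_prod (S : Finset RR) : k3 (∏ π ∈ S, π) = ∏ π ∈ S, k3 π := by
  unfold k3
  rw [map_prod, map_prod, Int.cast_prod]

lemma ez_eq_neg {c : ZMod 2} : ez c = -1 ↔ c = 1 := by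
  have h : ∀ c : ZMod 2, c = 0 ∨ c = 1 := by decide
  rcases h c with rfl | rfl
  · rw [ez_zero]
    constructor
    · intro h
      norm_num at h
    · intro h
      exact absurd h (by decide)
  · rw [ez_one]
    exact ⟨fun _ => rfl, fun _ => rfl⟩

lemma chi_iff {t : ZMod 8} (ht : t = 1 ∨ t = 5) : t = 5 ↔ ((ZMod.χ₈ t : ℤ) : ℂ) = -1 := by
  rcases ht with rfl | rfl
  · have h1 : ZMod.χ₈ (1 : ZMod 8) = 1 := by decide
    rw [h1]
    constructor
    · intro h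
      exact absurd h (by decide)
    · intro h
      norm_num at h
  · have h1 : ZMod.χ₈ (5 : ZMod 8) = -1 := by decide
    rw [h1]
    exact ⟨fun _ => by norm_num, fun _ => rfl⟩

end SUP

open SUP in
theorem t_SUP5 : S_SUP5 := by
  refine ⟨fun π h => ⟨k6_prime h, k3_prime h⟩, ?_⟩
  intro S hS hn
  have hp : ∀ π ∈ S, prm π := fun π hπ => (hS π hπ).prm
  have hD : prm (∏ π ∈ S, π) := prm_prod hp
  have h6 : e6 (∏ π ∈ S, π) = 1 ∨ e6 (∏ π ∈ S, π) = 5 :=
    Pool.Agent.R426.QD.h84_one (by rw [Pool.Agent.R426.QD.h84_e6, hD.r4])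
  have hnD : nrm (∏ π ∈ S, π) % 4 = 1 := by
    have e : nrm (∏ π ∈ S, π) = ∏ π ∈ S, nrm π := by
      classical
      clear hS hn hp hD h6
      induction S using Finset.induction_on with
      | empty => rw [prod_empty, prod_empty, nrm_one]
      | insert a s ha ih => rw [prod_insert ha, prod_insert ha, nrm_mul, ih]
    rw [e]
    exact hn
  have h3 : e3 (∏ π ∈ S, π) = 1 ∨ e3 (∏ π ∈ S, π) = 5 := by
    refine Pool.Agent.R426.QD.h84_one ?_
    rw [Pool.Agent.R426.QD.h84_e3]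
    have e1 : (∏ π ∈ S, π) * cj (∏ π ∈ S, π) = ((nrm (∏ π ∈ S, π) : ℕ) : RR) := by
      rw [mul_cj, ← nrm_cast]
      simp
    have e2 := congrArg Pool.Agent.R426.QD.r4 e1
    rw [map_mul, hD.r4, one_mul, map_natCast] at e2
    rw [e2]
    have e3 : ((nrm (∏ π ∈ S, π) : ℕ) : ZMod 4) = ((1 : ℕ) : ZMod 4) := by
      rw [ZMod.natCast_eq_natCast_iff]
      exact hnD
    rw [e3]
    norm_num
  constructor
  · rw [chi_iff h6, ← ez_eq_neg, ez_sum, ← Finset.prod_congr rfl fun π hπ => k6_prime (hS π hπ),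
      ← k6_prod]
    rfl
  · rw [chi_iff h3, ← ez_eq_neg, ez_sum, ← Finset.prod_congr rfl fun π hπ => k3_prime (hS π hπ),
      ← k3_prod]
    rfl

end Pool.Agent.NH57.BO
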