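import Pool.Agent.NH57.BL.LX1
import Pool.Agent.NH57.BL.LX2
import Pool.Agent.NH57.BL.LX3
import Pool.Agent.NH57.BL.PAR
import Pool.Agent.NH57.BL.ASY2
import Pool.Agent.NH57.BL.FB2
import Pool.Agent.NH57.BL.NS2
import Pool.Agent.NH57.BL.HALL2
import Pool.Agent.NH57.BL.LOW2
import Pool.Agent.NH57.BL.SUP2
import Pool.Agent.NH57.BL.BOX2
import Pool.Agent.NH57.BL.KEY2
import Pool.Agent.R426.QJ.LA1
import Pool.Agent.R426.QK.Fin

/-!
# Project BL: the assembly of the proportion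
-/

set_option autoImplicit false

open scoped Classical

namespace Pool.Agent.NH57.BO

open Finset Filter
open Pool.Agent.Y698
open Pool.Agent.Y698.SG hiding PD
open Pool.Agent.R426.QK

theorem la1J : Pool.Agent.NH57.BL.S_LA1J := Pool.Agent.R426.QJ.LA1.t_LA1J

theorem mom : Pool.Agent.NH57.BL.S_MOM := Pool.Agent.R426.QK.MOM.t_MOM

theorem t_LAX : Pool.Agent.NH57.BL.S_LAX :=
  Pool.Agent.NH57.BL.t_LX3 mom (Pool.Agent.NH57.BL.t_LX1 la1J) Pool.Agent.NH57.BL.t_LX2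

theorem low5 : S_LOW5 := t_LOW5 t_SUP5

theorem den5 : S_DEN5 :=
  t_NS5 t_SUP5 (t_TWO5 low5 Pool.Agent.NH57.BL.t_PAR
    (t_ASY5 recP t_BIL EQ.t_EQ t_LAX t_BOX5 t_KEY5 CNT.t_CNT (t_FB5 recP t_SUP5 t_HALL5 t_MERT)
      (FB.t_FEW t_HALL t_MERT) low5 MOM.t_C2))


end Pool.Agent.NH57.BO
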