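import Pool.Agent.NH57.BL.Stm3
import Pool.Agent.NH57.BL.BOX2
import Pool.Agent.R426.QJ.Box

/-!
# Project BL (helper57), part BL-44: the joint count in a box

A port of `Pool/Agent/R426/QJ/Box.lean` to the bordered systems of `Pool/Agent/NH57/BL/BOX2.lean`.
-/

set_option autoImplicit false
set_option linter.unusedVariables false

open scoped Classical

namespace Pool.Agent.NH57.BP

open Finset
open Pool.Agent.Y698
open Pool.Agent.Y698.SG hiding PD
open Pool.Agent.R426.QK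
open Pool.Agent.R426.QJ (Fx ZZ SSJ RgJ)
open Pool.Agent.R426.QJ.Box (WW sub_ZZ sub_T disj tt_F card_im sumW sumW')
open Pool.Agent.NH57.BO
open Pool.Agent.NH57.BO.BOX (Lb lb bk LN cs_sw nd5_iff gd_iff GdY HB_sub)
open Pool.Agent.NH57.BJ (LAXJ S_LAXJ Hyp La)

namespace BOXJ

theorem sumF {S T : Finset RR} (hST : S ⊆ T) (f : T → ZMod 2) :
    ∑ v ∈ univ.filter (fun u : T => (u : RR) ∈ S), f v = ∑ v : S, f ⟨v, hST v.2⟩ := by
  symm
  refine Finset.sum_bij (fun (v : S) _ => (⟨v, hST v.2⟩ : T)) ?_ ?_ ?_ ?_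
  · intro v _
    rw [Finset.mem_filter]
    exact ⟨Finset.mem_univ _, v.2⟩
  · intro v _ w _ h
    have h1 := congrArg (fun u : T => (u : RR)) h
    exact Subtype.ext h1
  · intro u hu
    rw [Finset.mem_filter] at hu
    exact ⟨⟨u, hu.2⟩, Finset.mem_univ _, rfl⟩
  · intro v _
    rfl

section sub

variable {I J : Type} [Fintype J] {S T : Finset RR}

/-- the system of `S` as a part of the system of `T` -/
structure Cmp (hST : S ⊆ T) (i : I) (L : Pool.Agent.NH57.BJ.Blk I T J)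
    (M : Pool.Agent.NH57.BL.Blk S J) : Prop where
  W : L.W i = univ.filter (fun u : T => (u : RR) ∈ S)
  sU : ∀ u : S, M.sU u = L.sU ⟨u, hST u.2⟩
  tU : ∀ u : S, M.tU u = L.tU ⟨u, hST u.2⟩
  dU : ∀ u : S, M.dU u = L.dU i ⟨u, hST u.2⟩
  gU : ∀ u : S, M.gU u = L.gU i ⟨u, hST u.2⟩
  sJ : ∀ k, M.sJ k = L.sJ k
  tJ : ∀ k, M.tJ k = L.tJ k
  dJ : ∀ k, M.dJ k = L.dJ i k
  gJ : ∀ k, M.gJ k = L.gJ i k
  A : ∀ u v : S, M.A u v = L.A ⟨u, hST u.2⟩ ⟨v, hST v.2⟩
  B : ∀ (u : S) k, M.B u k = L.B ⟨u, hST u.2⟩ k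

variable {hST : S ⊆ T} {i : I} {L : Pool.Agent.NH57.BJ.Blk I T J}
    {M : Pool.Agent.NH57.BL.Blk S J}

theorem cmp_rows (h : Cmp hST i L M) (a b : I → ZMod 2) (R : J → J → ZMod 2)
    (z : Pool.Agent.NH57.BL.Vc T J) (z' : Pool.Agent.NH57.BL.Vc S J)
    (h1 : ∀ u : S, z'.1 u = z.1 ⟨u, hST u.2⟩) (h2 : z'.2 = z.2) :
    (∀ u : S, Pool.Agent.NH57.BL.rowU M z' u = Pool.Agent.NH57.BJ.rowU L i z ⟨u, hST u.2⟩) ∧
    (∀ k, Pool.Agent.NH57.BL.rowJ M R z' k = Pool.Agent.NH57.BJ.rowJ L R i z k) ∧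
    Pool.Agent.NH57.BL.bor (a i) (b i) M z' = Pool.Agent.NH57.BJ.bor a b L i z := by
  refine ⟨fun u => ?_, fun k => ?_, ?_⟩
  · unfold Pool.Agent.NH57.BL.rowU Pool.Agent.NH57.BJ.rowU
    rw [h.W, sumF hST]
    simp only [h1, h2, h.sU, h.gU, h.A, h.B]
  · unfold Pool.Agent.NH57.BL.rowJ Pool.Agent.NH57.BJ.rowJ Pool.Agent.NH57.BJ.fJ
    rw [h.W, sumF hST]
    simp only [h1, h2, h.sJ, h.tJ, h.gJ, h.tU, h.B]
    ring
  · unfold Pool.Agent.NH57.BL.bor Pool.Agent.NH57.BJ.bor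
    rw [h.W, sumF hST]
    simp only [h1, h2, h.dU, h.dJ]

/-- the systems on a subset -/
theorem gdX_gdJ (h : Cmp hST i L M) (a b : I → ZMod 2) (R : J → J → ZMod 2) :
    Pool.Agent.NH57.BL.GdX (a i) (b i) M R ↔ Pool.Agent.NH57.BJ.GdJ a b L R i := by
  unfold Pool.Agent.NH57.BL.GdX Pool.Agent.NH57.BJ.GdJ
  constructor
  · intro hG z h0 h1 h2 h3
    obtain ⟨z', hz1, hz2⟩ : ∃ z' : Pool.Agent.NH57.BL.Vc S J,
        (∀ u : S, z'.1 u = z.1 ⟨u, hST u.2⟩) ∧ z'.2 = z.2 :=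
      ⟨(fun u : S => z.1 ⟨u, hST u.2⟩, z.2), fun u => rfl, rfl⟩
    obtain ⟨e1, e2, e3⟩ := cmp_rows h a b R z z' hz1 hz2
    have h4 := hG z' (fun u => by
      rw [e1]
      apply h1
      rw [h.W, Finset.mem_filter]
      exact ⟨Finset.mem_univ _, u.2⟩) (fun k => by rw [e2]; exact h2 k) (by rw [e3]; exact h3)
    refine Prod.ext (funext fun u => ?_) ?_
    · by_cases hu : (u : RR) ∈ S
      · have h5 := hz1 ⟨u, hu⟩
        rw [h4] at h5
        exact h5.symm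
      · apply h0
        rw [h.W, Finset.mem_filter]
        exact fun h' => hu h'.2
    · rw [← hz2, h4]
      rfl
  · intro hG z' h1 h2 h3
    obtain ⟨z, hz1, hz2, hz0⟩ : ∃ z : Pool.Agent.NH57.BL.Vc T J,
        (∀ u : S, z'.1 u = z.1 ⟨u, hST u.2⟩) ∧ z'.2 = z.2 ∧
        ∀ u : T, (u : RR) ∉ S → z.1 u = 0 := by
      refine ⟨(fun u : T => if h : (u : RR) ∈ S then z'.1 ⟨u, h⟩ else 0, z'.2), fun u => ?_, rfl,
        fun u hu => ?_⟩
      · show z'.1 u = if h : (u : RR) ∈ S then z'.1 ⟨u, h⟩ else 0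
        rw [dif_pos u.2]
      · show (if h : (u : RR) ∈ S then z'.1 ⟨u, h⟩ else 0) = 0
        rw [dif_neg hu]
    obtain ⟨e1, e2, e3⟩ := cmp_rows h a b R z z' hz1 hz2
    have h4 := hG z (fun u hu => by
      apply hz0
      intro h'
      apply hu
      rw [h.W, Finset.mem_filter]
      exact ⟨Finset.mem_univ _, h'⟩) (fun u hu => by
      rw [h.W, Finset.mem_filter] at hu
      have h5 := e1 ⟨u, hu.2⟩
      rw [h1] at h5
      exact h5.symm) (fun k => by rw [← e2]; exact h2 k) (by rw [← e3]; exact h3)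
    refine Prod.ext (funext fun u => ?_) ?_
    · rw [hz1, h4]
      rfl
    · rw [hz2, h4]
      rfl

end sub

theorem dd_add (x c : ZMod 2) (π : RR) : dd (x + c) π = dd x π + c * tt π := by
  unfold dd
  ring

theorem gg_add (y c : ZMod 2) (π : RR) : gg (y + c) π = gg y π + c * tt π := by
  unfold gg
  ring

/-- the labels of the `i`-th system -/
noncomputable def sh {ι : Type} {T : Finset RR} (Z : Finset RR) (β : ι → Lb T) (k : ι) : Lb T :=
  ((β k).1, (β k).2.1, (β k).2.2.1, (β k).2.2.2.1 + xc Z * (β k).2.2.1,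
    (β k).2.2.2.2 + yc Z * (β k).2.2.1)

theorem sh_lb {ι : Type} {T : Finset RR} (Z : Finset RR) (x y : ZMod 2) (p : ι → RR) :
    sh Z (fun k => lb x y T (p k)) = fun k => lb (x + xc Z) (y + yc Z) T (p k) := by
  funext k
  unfold sh lb
  rw [dd_add, gg_add]

/-- the block data of the labels -/
noncomputable def bkJ {I : Type} [Fintype I] {ι : Type} (F : I → Finset RR) (x y : ZMod 2)
    (S₀ : Finset RR) (β : ι → Lb (S₀ ∪ ZZ F)) :
    Pool.Agent.NH57.BJ.Blk I (S₀ ∪ ZZ F : Finset RR) ι where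
  W := fun i => WW F S₀ i
  sU := fun u => ss u
  tU := fun u => tt u
  dU := fun i u => dd (x + xc (F i)) u
  gU := fun i u => gg (y + yc (F i)) u
  sJ := fun k => (β k).2.1
  tJ := fun k => (β k).2.2.1
  dJ := fun i k => (β k).2.2.2.1 + xc (F i) * (β k).2.2.1
  gJ := fun i k => (β k).2.2.2.2 + yc (F i) * (β k).2.2.1
  A := fun u v => cs v u
  B := fun u k => (β k).1 u

section one

variable {I : Type} [Fintype I] {F : I → Finset RR} {S₀ : Finset RR}
  {ι : Type} [Fintype ι] [LinearOrder ι] {p : ι → RR}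

/-- the good labels -/
def LNJ (F : I → Finset RR) (K V : ℕ) (x y : ZMod 2) (S₀ : Finset RR)
    (β : ι → Lb (S₀ ∪ ZZ F)) : Prop :=
  ((∀ i, Pool.Agent.NH57.BL.NdX (bk (x + xc (F i)) (y + yc (F i)) (S₀ ∪ ZZ F) (sh (F i) β))) ∧
  (∀ i j : I, K * (S₀ ∪ ZZ F).card + V ≤
    (univ.filter fun k => La (bkJ F x y S₀ β) i k + La (bkJ F x y S₀ β) j k +
      (bkJ F x y S₀ β).tJ k = 1).card) ∧
  ∀ i j : I, i ≠ j → K * (S₀ ∪ ZZ F).card + V ≤
    (univ.filter fun k => La (bkJ F x y S₀ β) i k + La (bkJ F x y S₀ β) j k = 1).card) ∧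
  ∑ u ∈ S₀, dd x u + ∑ k, (β k).2.2.2.1 = x ∧ ∑ u ∈ S₀, gg y u + ∑ k, (β k).2.2.2.2 = y

omit [Fintype ι] [LinearOrder ι] in
theorem la_eq (hrec : RecP) (hpr : ∀ i, Pq (p i)) (hT : ∀ u ∈ S₀ ∪ ZZ F, Pq u)
    (hd : ∀ i, p i ∉ S₀ ∪ ZZ F) (hdis : Disjoint S₀ (ZZ F)) (x y : ZMod 2) (i : I) (k : ι) :
    La (bkJ F x y S₀ (fun k => lb x y (S₀ ∪ ZZ F) (p k))) i k =
    ∑ u ∈ S₀, cs u (p k) + ∑ u ∈ F i, cs u (p k) := by
  have e1 : ∀ u ∈ WW F S₀ i, cs (p k) (u : RR) + tt (u : RR) * tt (p k) = cs (u : RR) (p k) := by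
    intro u _
    rw [cs_sw hrec hpr hT hd k u]
  have e0 : La (bkJ F x y S₀ (fun k => lb x y (S₀ ∪ ZZ F) (p k))) i k =
      ∑ u ∈ WW F S₀ i, (cs (p k) (u : RR) + tt (u : RR) * tt (p k)) := rfl
  rw [e0, Finset.sum_congr rfl e1]
  unfold WW
  rw [sumW' (sub_T F S₀ i) (fun u => cs u (p k)), Finset.sum_union (disj hdis i)]

omit [Fintype ι] [LinearOrder ι] in
theorem la_add (hrec : RecP) (hpr : ∀ i, Pq (p i)) (hT : ∀ u ∈ S₀ ∪ ZZ F, Pq u)
    (hd : ∀ i, p i ∉ S₀ ∪ ZZ F) (hdis : Disjoint S₀ (ZZ F)) (x y : ZMod 2) (i j : I) (k : ι) :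
    La (bkJ F x y S₀ (fun k => lb x y (S₀ ∪ ZZ F) (p k))) i k +
      La (bkJ F x y S₀ (fun k => lb x y (S₀ ∪ ZZ F) (p k))) j k =
    ∑ u ∈ F i, cs u (p k) + ∑ u ∈ F j, cs u (p k) := by
  rw [la_eq hrec hpr hT hd hdis, la_eq hrec hpr hT hd hdis]
  have h := Pool.Agent.NH57.BO.BOX.z2_self (∑ u ∈ S₀, cs u (p k))
  linear_combination h

omit [LinearOrder ι] in
theorem ndJ_iff (hrec : RecP) (hp : Function.Injective p) (hpr : ∀ i, Pq (p i))
    (hT : ∀ u ∈ S₀ ∪ ZZ F, Pq u) (hd : ∀ i, p i ∉ S₀ ∪ ZZ F) (hdis : Disjoint S₀ (ZZ F))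
    (K V : ℕ) (x y : ZMod 2) :
    NdJ5 F K V x y S₀ (univ.image p) ↔
      LNJ F K V x y S₀ (fun i => lb x y (S₀ ∪ ZZ F) (p i)) := by
  unfold NdJ5 LNJ NdC
  refine and_congr (and_congr ?_ (and_congr ?_ ?_)) ?_
  · refine forall_congr' fun i => ?_
    rw [nd5_iff _ _ hrec hpr hT hd, sh_lb]
  · refine forall_congr' fun i => forall_congr' fun j => ?_
    rw [card_im hp]
    have e : (univ.filter fun k => ∑ u ∈ F i, cs u (p k) + ∑ u ∈ F j, cs u (p k) + tt (p k) = 1) =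
        (univ.filter fun k => La (bkJ F x y S₀ (fun k => lb x y (S₀ ∪ ZZ F) (p k))) i k +
          La (bkJ F x y S₀ (fun k => lb x y (S₀ ∪ ZZ F) (p k))) j k +
          (bkJ F x y S₀ (fun k => lb x y (S₀ ∪ ZZ F) (p k))).tJ k = 1) := by
      refine Finset.filter_congr fun k _ => ?_
      rw [la_add hrec hpr hT hd hdis x y i j k]
      exact Iff.rfl
    rw [e]
  · refine forall_congr' fun i => forall_congr' fun j => imp_congr_right fun _ => ?_
    rw [card_im hp]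
    have e : (univ.filter fun k => ∑ u ∈ F i, cs u (p k) + ∑ u ∈ F j, cs u (p k) = 1) =
        (univ.filter fun k => La (bkJ F x y S₀ (fun k => lb x y (S₀ ∪ ZZ F) (p k))) i k +
          La (bkJ F x y S₀ (fun k => lb x y (S₀ ∪ ZZ F) (p k))) j k = 1) := by
      refine Finset.filter_congr fun k _ => ?_
      rw [la_add hrec hpr hT hd hdis x y i j k]
    rw [e]
  · rw [Finset.sum_image (fun a _ b _ h => hp h), Finset.sum_image (fun a _ b _ h => hp h)]
    exact Iff.rfl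

omit [Fintype ι] [LinearOrder ι] in
theorem cmp_lb (x y : ZMod 2) (i : I) :
    Cmp (sub_T F S₀ i) i (bkJ F x y S₀ (fun k => lb x y (S₀ ∪ ZZ F) (p k)))
      (bk (x + xc (F i)) (y + yc (F i)) (S₀ ∪ F i)
        (fun k => lb (x + xc (F i)) (y + yc (F i)) (S₀ ∪ F i) (p k))) where
  W := rfl
  sU := fun _ => rfl
  tU := fun _ => rfl
  dU := fun _ => rfl
  gU := fun _ => rfl
  sJ := fun _ => rfl
  tJ := fun _ => rfl
  dJ := fun k => dd_add x (xc (F i)) (p k)
  gJ := fun k => gg_add y (yc (F i)) (p k)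
  A := fun _ _ => rfl
  B := fun _ _ => rfl

theorem gdJ_iff (hrec : RecP) (hp : Function.Injective p) (hpr : ∀ i, Pq (p i))
    (hT : ∀ u ∈ S₀ ∪ ZZ F, Pq u) (hd : ∀ i, p i ∉ S₀ ∪ ZZ F) (x y : ZMod 2) (a b : I → ZMod 2) :
    GdJ5 F x y a b (S₀ ∪ univ.image p) ↔ ∀ i : I, Pool.Agent.NH57.BJ.GdJ a b
      (bkJ F x y S₀ (fun k => lb x y (S₀ ∪ ZZ F) (p k)))
      (Pool.Agent.NH57.BL.ext (bkJ F x y S₀ (fun k => lb x y (S₀ ∪ ZZ F) (p k))).tJ
        fun e : prs ι => cs (p e.1.1) (p e.1.2)) i := by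
  unfold GdJ5
  refine forall_congr' fun i => ?_
  rw [Finset.union_right_comm, gd_iff _ _ _ _ hrec hp hpr (fun u hu => hT u (sub_T F S₀ i hu))
    (fun k hk => hd k (sub_T F S₀ i hk))]
  exact gdX_gdJ (cmp_lb x y i) a b _

end one

end BOXJ

open BOXJ

/-- **The joint count in a box.** -/
theorem t_BOXJ5 : S_BOXJ5 := by
  intro hrec hEQ I _ F hF ε K V hLA x y a b hab ι _ _ C X κ S₀ hκ hCX hHB hS₀ hdZ hC hdis hhyp
  obtain ⟨R, hR⟩ : ∃ R : ℝ, R = 2 ^ (prs ι).card * (κ * ∏ j, (X j : ℝ)) := ⟨_, rfl⟩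
  have hR0 : 0 ≤ R := by
    rw [hR]
    exact mul_nonneg (by positivity)
      (mul_nonneg hκ (Finset.prod_nonneg fun j _ => by positivity))
  have hT : ∀ u ∈ S₀ ∪ ZZ F, Pq u := by
    intro u hu
    rw [Finset.mem_union] at hu
    rcases hu with hu | hu
    · exact hS₀ u hu
    · unfold ZZ at hu
      rw [Finset.mem_biUnion] at hu
      obtain ⟨i, -, hi⟩ := hu
      exact (hF.cl i).1 u hi
  -- facts on tuples
  have hinj : ∀ p ∈ Fintype.piFinset C, Function.Injective p := by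
    intro p hp i j hij
    rw [Fintype.mem_piFinset] at hp
    by_contra hne
    have h1 := Finset.disjoint_left.1 (hdis i j hne) (hp i)
    rw [hij] at h1
    exact h1 (hp j)
  have hd : ∀ p ∈ Fintype.piFinset C, ∀ i, p i ∉ S₀ ∪ ZZ F := by
    intro p hp i
    rw [Fintype.mem_piFinset] at hp
    exact (hC i _ (hp i)).2
  have hpr : ∀ p ∈ Fintype.piFinset C, ∀ i, Pq (p i) := by
    intro p hp i
    rw [Fintype.mem_piFinset] at hp
    exact (hC i _ (hp i)).1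
  -- the part with given labels
  have h1 : ∀ β : ι → Lb (S₀ ∪ ZZ F), LNJ F K V x y S₀ β →
      |(((Fintype.piFinset C).filter fun p => (fun i => lb x y (S₀ ∪ ZZ F) (p i)) = β ∧
          GdJ5 F x y a b (S₀ ∪ univ.image p)).card : ℝ) -
        c2 ^ Fintype.card I *
          (((Fintype.piFinset C).filter fun p =>
            (fun i => lb x y (S₀ ∪ ZZ F) (p i)) = β).card : ℝ)| ≤
      ε * (((Fintype.piFinset C).filter fun p =>
        (fun i => lb x y (S₀ ∪ ZZ F) (p i)) = β).card : ℝ) + R := by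
    intro β hβ
    by_cases hex : ∃ p ∈ Fintype.piFinset C, (fun i => lb x y (S₀ ∪ ZZ F) (p i)) = β
    swap
    · have e1 : ((Fintype.piFinset C).filter fun p =>
          (fun i => lb x y (S₀ ∪ ZZ F) (p i)) = β) = ∅ := by
        rw [Finset.filter_eq_empty_iff]
        intro p hp h
        exact hex ⟨p, hp, h⟩
      have e2 : ((Fintype.piFinset C).filter fun p => (fun i => lb x y (S₀ ∪ ZZ F) (p i)) = β ∧
          GdJ5 F x y a b (S₀ ∪ univ.image p)) = ∅ := by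
        rw [Finset.filter_eq_empty_iff]
        rintro p hp ⟨h, -⟩
        exact hex ⟨p, hp, h⟩
      rw [e1, e2, Finset.card_empty, Nat.cast_zero, mul_zero, mul_zero, sub_zero, abs_zero,
        zero_add]
      exact hR0
    obtain ⟨q₀, hq₀, hq₀β⟩ := hex
    have hc2 := hhyp q₀ hq₀
    obtain ⟨C', hC'⟩ : ∃ C' : ι → Finset RR,
        C' = fun i => (C i).filter fun q => lb x y (S₀ ∪ ZZ F) q = β i := ⟨_, rfl⟩
    have hpi : (Fintype.piFinset C).filter (fun p => (fun i => lb x y (S₀ ∪ ZZ F) (p i)) = β) =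
        Fintype.piFinset C' := by
      ext p
      simp only [Finset.mem_filter, Fintype.mem_piFinset, hC']
      constructor
      · rintro ⟨h2, h3⟩ i
        exact ⟨h2 i, congrFun h3 i⟩
      · intro h2
        exact ⟨fun i => (h2 i).1, funext fun i => (h2 i).2⟩
    have htt : ∀ i, (bkJ F x y S₀ β).tJ i = tt (q₀ i) := by
      intro i
      rw [← hq₀β]
      rfl
    have hH : Hyp K V (bkJ F x y S₀ β) := by
      constructor
      · intro i j
        rw [Fintype.card_coe]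
        exact hβ.1.2.1 i j
      · intro i j hij
        rw [Fintype.card_coe]
        exact hβ.1.2.2 i j hij
      · intro i
        simp only [htt]
        have e0 : ∑ u ∈ (bkJ F x y S₀ β).W i, (bkJ F x y S₀ β).tU u =
            ∑ u ∈ WW F S₀ i, tt (u : RR) := rfl
        rw [e0]
        unfold WW
        rw [sumW' (sub_T F S₀ i) (fun u => tt u), Finset.sum_union (disj hdZ i), tt_F hF i,
          add_zero]
        exact hc2
      · intro u v huv
        have h3 := hrec (u : RR) v (hT u u.2) (hT v v.2) (fun h => huv (Subtype.ext h))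
        have h4 : cs (v : RR) u + cs (u : RR) v = tt (u : RR) * tt (v : RR) := by
          rw [← h3, add_comm]
        exact h4
      · intro i w e f hw
        exact hβ.1.1 i w e f hw
    have h2 := hLA a b hab (S₀ ∪ ZZ F : Finset RR) ι (bkJ F x y S₀ β) hH
    obtain ⟨Q, hQ⟩ : ∃ Q : (prs ι → ZMod 2) → Prop, Q = fun α => ∀ i : I,
        Pool.Agent.NH57.BJ.GdJ a b (bkJ F x y S₀ β)
          (Pool.Agent.NH57.BL.ext (bkJ F x y S₀ β).tJ α) i := ⟨_, rfl⟩
    have h3 := hEQ ι C' X κ hκ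
      (fun i => (Finset.card_le_card (by rw [hC']; exact Finset.filter_subset _ _)).trans (hCX i))
      (by rw [hC']; exact HB_sub hHB fun i q => lb x y (S₀ ∪ ZZ F) q = β i) Q
    have h4 : ((Fintype.piFinset C).filter fun p => (fun i => lb x y (S₀ ∪ ZZ F) (p i)) = β ∧
        GdJ5 F x y a b (S₀ ∪ univ.image p)) = ((Fintype.piFinset C').filter fun p =>
          Q fun e => cs (p e.1.1) (p e.1.2)) := by
      rw [← hpi, Finset.filter_filter]
      refine Finset.filter_congr fun p hp => ?_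
      refine and_congr_right fun hl => ?_
      rw [gdJ_iff hrec (hinj p hp) (hpr p hp) hT (hd p hp)]
      subst hl
      rw [hQ]
    have h5 : (((Fintype.piFinset C').card : ℕ) : ℝ) = ∏ j, ((C' j).card : ℝ) := by
      rw [Fintype.card_piFinset]
      push_cast
      rfl
    rw [h4, hpi, h5]
    rw [← hR] at h3
    obtain ⟨n, hn⟩ : ∃ n : ℝ, n = (((Fintype.piFinset C').filter fun p =>
          Q fun e => cs (p e.1.1) (p e.1.2)).card : ℝ) := ⟨_, rfl⟩
    obtain ⟨q, hq⟩ : ∃ q : ℝ, q = ((univ.filter Q).card : ℝ) / 2 ^ (prs ι).card := ⟨_, rfl⟩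
    obtain ⟨P, hP⟩ : ∃ P : ℝ, P = ∏ j, ((C' j).card : ℝ) := ⟨_, rfl⟩
    obtain ⟨c, hc⟩ : ∃ c : ℝ, c = c2 ^ Fintype.card I := ⟨_, rfl⟩
    have hP0 : 0 ≤ P := by
      rw [hP]
      exact Finset.prod_nonneg fun j _ => by positivity
    have e8 : ∀ n1 n2 : ℕ, n1 = n2 →
        |(n2 : ℝ) / 2 ^ (prs ι).card - c2 ^ Fintype.card I| ≤ ε →
        |(n1 : ℝ) / 2 ^ (prs ι).card - c2 ^ Fintype.card I| ≤ ε := by
      rintro n1 n2 rfl h
      exact h
    have h2' : |q - c| ≤ ε := by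
      rw [hq, hQ, hc]
      exact e8 _ _ (KEY.fcc fun x _ => Iff.rfl) h2
    rw [← hn, ← hq, ← hP] at h3
    rw [← hn, ← hP, ← hc]
    have h6 : |n - c * P| ≤ |n - q * P| + |q - c| * P := by
      have h7 : n - c * P = (n - q * P) + (q - c) * P := by ring
      have h8 : |(q - c) * P| = |q - c| * P := by rw [abs_mul, abs_of_nonneg hP0]
      rw [h7, ← h8]
      exact abs_add_le _ _
    have h7 : |q - c| * P ≤ ε * P := mul_le_mul_of_nonneg_right h2' hP0
    linarith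
  -- sum over the labels
  obtain ⟨LL, hLL⟩ : ∃ LL : Finset (ι → Lb (S₀ ∪ ZZ F)),
      LL = univ.filter (fun β => LNJ F K V x y S₀ β) := ⟨_, rfl⟩
  have hfib : ∀ T : (ι → RR) → Prop,
      (((Fintype.piFinset C).filter fun p => NdJ5 F K V x y S₀ (univ.image p) ∧ T p).card : ℝ) =
      ∑ β ∈ LL, (((Fintype.piFinset C).filter fun p =>
        (fun i => lb x y (S₀ ∪ ZZ F) (p i)) = β ∧ T p).card : ℝ) := by
    intro T
    rw [Finset.card_eq_sum_card_fiberwise (f := fun (p : ι → RR) (i : ι) => lb x y (S₀ ∪ ZZ F) (p i))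
      (t := LL) (by
        intro p hp
        rw [Finset.mem_coe, Finset.mem_filter] at hp
        rw [Finset.mem_coe, hLL, Finset.mem_filter]
        exact ⟨Finset.mem_univ _,
          (ndJ_iff hrec (hinj p hp.1) (hpr p hp.1) hT (hd p hp.1) hdZ K V x y).1 hp.2.1⟩)]
    push_cast
    refine Finset.sum_congr rfl fun β hβ => ?_
    rw [hLL, Finset.mem_filter] at hβ
    congr 2
    ext p
    simp only [Finset.mem_filter]
    constructor
    · rintro ⟨⟨h3, h4, h4'⟩, h5⟩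
      exact ⟨h3, h5, h4'⟩
    · rintro ⟨h3, h4, h5⟩
      refine ⟨⟨h3, ?_, h5⟩, h4⟩
      rw [ndJ_iff hrec (hinj p h3) (hpr p h3) hT (hd p h3) hdZ K V x y, h4]
      exact hβ.2
  have hf1 := hfib fun p => GdJ5 F x y a b (S₀ ∪ univ.image p)
  have hf2 := hfib fun _ => True
  simp only [and_true] at hf2
  rw [hf1, hf2, Finset.mul_sum, ← Finset.sum_sub_distrib]
  refine (Finset.abs_sum_le_sum_abs _ _).trans ?_
  refine (Finset.sum_le_sum fun β hβ => h1 β (by
    rw [hLL] at hβ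
    exact (Finset.mem_filter.1 hβ).2)).trans ?_
  rw [Finset.sum_add_distrib, ← Finset.mul_sum, Finset.sum_const, nsmul_eq_mul]
  have h5 : ((LL.card : ℕ) : ℝ) ≤ 2 ^ (((S₀ ∪ ZZ F).card + 4) * Fintype.card ι) := by
    have h6 : LL.card ≤ Fintype.card (ι → Lb (S₀ ∪ ZZ F)) :=
      Finset.card_le_univ _
    rw [Fintype.card_fun, Fintype.card_prod, Fintype.card_prod, Fintype.card_prod,
      Fintype.card_prod, Fintype.card_fun, ZMod.card, Fintype.card_coe] at h6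
    have h7 : 2 ^ (S₀ ∪ ZZ F).card * (2 * (2 * (2 * 2))) = 2 ^ ((S₀ ∪ ZZ F).card + 4) := by ring
    rw [h7, ← pow_mul] at h6
    exact_mod_cast h6
  have h6 := mul_le_mul_of_nonneg_right h5 hR0
  rw [pow_add, mul_assoc, ← hR]
  linarith

end Pool.Agent.NH57.BP
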