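import Pool.Agent.NH57.BL.Stm3
import Pool.Agent.R426.QM.Dens
import Pool.Agent.NH57.BL.NS2

/-!
# Project BL: the joint proportion in terms of the elements, all classes
(after `Pool/Agent/R426/QM/Dens.lean` and `Pool/Agent/NH57/BL/NS2.lean`)
-/

set_option autoImplicit false
set_option linter.unusedVariables false

open scoped Classical

namespace Pool.Agent.NH57.BP

open Finset Filter
open Pool.Agent.Y698
open Pool.Agent.Y698.SG hiding PD
open Pool.Agent.R426.QK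
open Pool.Agent.R426.QJ (Fx ZZ)
open Pool.Agent.R426.QM (S_CLS S_MUL cls_ne card_inst cop_iff' cop_disj)
open Pool.Agent.NH57.BO

namespace DENS

/-- the ratio of the sums -/
theorem comb {ι : Type} [Fintype ι] [Nonempty ι] (g n : ι → ℕ → ℝ) (c : ℝ)
    (hn : ∀ i, ∀ᶠ X in atTop, 0 < n i X)
    (h : ∀ i, Tendsto (fun X => g i X / n i X) atTop (nhds c)) :
    Tendsto (fun X => (∑ i, g i X) / (∑ i, n i X)) atTop (nhds c) := by
  rw [Metric.tendsto_nhds]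
  intro ε hε
  have h1 : ∀ i, ∀ᶠ X in atTop, dist (g i X / n i X) c < ε := fun i =>
    Metric.tendsto_nhds.1 (h i) ε hε
  have h2 := (eventually_all.2 h1).and (eventually_all.2 hn)
  filter_upwards [h2] with X hX
  obtain ⟨hX1, hX2⟩ := hX
  have hpos : 0 < ∑ i, n i X := Finset.sum_pos (fun i _ => hX2 i) Finset.univ_nonempty
  have h3 : (∑ i, g i X) / (∑ i, n i X) - c = (∑ i, (g i X - c * n i X)) / ∑ i, n i X := by
    rw [Finset.sum_sub_distrib, ← Finset.mul_sum, sub_div, mul_div_assoc, div_self hpos.ne',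
      mul_one]
  rw [Real.dist_eq, h3, abs_div, abs_of_pos hpos, div_lt_iff₀ hpos, Finset.mul_sum]
  refine lt_of_le_of_lt (Finset.abs_sum_le_sum_abs _ _)
    (Finset.sum_lt_sum_of_nonempty Finset.univ_nonempty fun i _ => ?_)
  have h4 := hX1 i
  have h5 : g i X / n i X - c = (g i X - c * n i X) / n i X := by
    rw [sub_div, mul_div_assoc, div_self (hX2 i).ne', mul_one]
  rw [Real.dist_eq, h5, abs_div, abs_of_pos (hX2 i), div_lt_iff₀ (hX2 i)] at h4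
  exact h4

/-- the class of an element -/
theorem cls5' (h5 : S_SUP5) (hMUL : S_MUL) (x y : ZMod 2) (D : RR) :
    ClsE5 x y D ↔ ClsE D ∧ xc (PD D) = x ∧ yc (PD D) = y := by
  rw [NS2.cls5_iff h5]
  refine and_congr_right fun hE => ?_
  have ht := NS2.sum_tt (hMUL.2.2.2 D hE).1
  rw [NS2.sum_dd x _ ht, NS2.sum_gg y _ ht]
  exact Iff.rfl

/-- the class of a set -/
theorem mem5 (x y : ZMod 2) (X : ℕ) (S : Finset RR) :
    S ∈ SS5 x y X ↔ S ∈ SS X ∧ xc S = x ∧ yc S = y := by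
  unfold SS5
  rw [Finset.mem_filter]
  refine and_congr_right fun hE => ?_
  have hC : Cl S := by
    unfold SS at hE
    exact (Finset.mem_filter.1 hE).2.1
  have ht := NS2.sum_tt hC
  rw [NS2.sum_dd x _ ht, NS2.sum_gg y _ ht]
  exact Iff.rfl

/-- the condition in terms of the sets -/
def GG (f : ZMod 2 → ZMod 2 → ZMod 2) {I : Type} (F : I → Finset RR) (S : Finset RR) : Prop :=
  ∀ i, Gd5 (xc S + xc (F i)) (yc S + yc (F i)) 1 0 (S ∪ F i) ∧
    Gd5 (xc S + xc (F i)) (yc S + yc (F i)) (f (xc S + xc (F i)) (yc S + yc (F i))) 1 (S ∪ F i)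

/-- the sum over the four classes -/
theorem card4 (Z : Finset RR) (X : ℕ) (Q : Finset RR → Prop) :
    ((SS X).filter fun S => Disjoint S Z ∧ Q S).card =
      ∑ p : ZMod 2 × ZMod 2, ((SSJ5 Z p.1 p.2 X).filter Q).card := by
  rw [Finset.card_eq_sum_card_fiberwise (f := fun S => (xc S, yc S))
    (t := (Finset.univ : Finset (ZMod 2 × ZMod 2))) (fun _ _ => Finset.mem_coe.2 (Finset.mem_univ _))]
  refine Finset.sum_congr rfl fun p _ => ?_
  congr 1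
  ext S
  unfold SSJ5
  simp only [Finset.mem_filter, mem5, Prod.ext_iff]
  tauto

theorem goodA_iff (h5 : S_SUP5) (hMUL : S_MUL) (f : ZMod 2 → ZMod 2 → ZMod 2) {D : RR}
    (hD : ClsE D) : GoodA f D ↔ Gd5 (xc (PD D)) (yc (PD D)) 1 0 (PD D) ∧
      Gd5 (xc (PD D)) (yc (PD D)) (f (xc (PD D)) (yc (PD D))) 1 (PD D) := by
  unfold GoodA
  constructor
  · rintro ⟨x, y, h1, h2, h3⟩
    obtain ⟨-, rfl, rfl⟩ := (cls5' h5 hMUL x y D).1 h1
    exact ⟨h2, h3⟩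
  · rintro ⟨h2, h3⟩
    exact ⟨_, _, (cls5' h5 hMUL _ _ D).2 ⟨hD, rfl, rfl⟩, h2, h3⟩

theorem xc_union {S T : Finset RR} (h : Disjoint S T) : xc (S ∪ T) = xc S + xc T := by
  unfold xc
  exact Finset.sum_union h

theorem yc_union {S T : Finset RR} (h : Disjoint S T) : yc (S ∪ T) = yc S + yc T := by
  unfold yc
  exact Finset.sum_union h

/-- the good elements and the sets -/
theorem all_iff5 (h5 : S_SUP5) (hMUL : S_MUL) (f : ZMod 2 → ZMod 2 → ZMod 2) {n : ℕ}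
    {d : Fin n → RR} {N : Finset (Fin n) → RR} (hN1 : ∀ T, ClsE (N T))
    (hN4 : ∀ T, ∃ c : RR, c ≠ 0 ∧ ∏ i ∈ T, d i = N T * c ^ 2 ∧ ∀ z, Prime z → z ∣ c → ∃ i, z ∣ d i)
    (hN5 : ∀ T z, Prime z → z ∣ N T → ∃ i, z ∣ d i) {D : RR} (hD : ClsE D)
    (hc : ∀ i, IsCoprime D (d i)) :
    AllA f d D ↔ GG f (fun T : Finset (Fin n) => PD (N T)) (PD D) := by
  have h1 : ∀ T, ClsE (D * N T) ∧ PD (D * N T) = PD D ∪ PD (N T) ∧ Disjoint (PD D) (PD (N T)) := by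
    intro T
    exact hMUL.1 D (N T) hD (hN1 T) fun z hz h1 h2 => by
      obtain ⟨i, hi⟩ := hN5 T z hz h2
      exact (cop_iff' (cls_ne hD)).1 (hc i) z hz h1 hi
  have key : ∀ T, GoodA f (D * N T) ↔
      (Gd5 (xc (PD D) + xc (PD (N T))) (yc (PD D) + yc (PD (N T))) 1 0 (PD D ∪ PD (N T)) ∧
        Gd5 (xc (PD D) + xc (PD (N T))) (yc (PD D) + yc (PD (N T)))
          (f (xc (PD D) + xc (PD (N T))) (yc (PD D) + yc (PD (N T)))) 1 (PD D ∪ PD (N T))) := by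
    intro T
    rw [goodA_iff h5 hMUL f (h1 T).1, (h1 T).2.1, xc_union (h1 T).2.2, yc_union (h1 T).2.2]
  unfold AllA GG
  constructor
  · intro h T
    obtain ⟨c, hc0, h2, -⟩ := hN4 T
    exact (key T).1 (h T (D * N T) c (h1 T).1 hc0 (by rw [h2]; ring))
  · intro h T M c hM hc0 hMc
    obtain ⟨c', hc0', h2, -⟩ := hN4 T
    have h3 : M = D * N T := hMUL.2.2.1 M (D * N T) c c' hM (h1 T).1 hc0 hc0' (by
      rw [← hMc, h2]; ring)
    rw [h3]
    exact (key T).2 (h T)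

/-- the family and the sets -/
theorem fam_card {n : ℕ} {d : Fin n → RR} (hMUL : S_MUL) (hd : ∀ i, ClsE (d i))
    {N : Finset (Fin n) → RR} (hN1 : ∀ T, ClsE (N T))
    (hN4 : ∀ T, ∃ c : RR, c ≠ 0 ∧ ∏ i ∈ T, d i = N T * c ^ 2 ∧ ∀ z, Prime z → z ∣ c → ∃ i, z ∣ d i)
    (hN5 : ∀ T z, Prime z → z ∣ N T → ∃ i, z ∣ d i) (X : ℕ) :
    (FamR d X).ncard = ∑ p : ZMod 2 × ZMod 2,
      (SSJ5 (ZZ fun T : Finset (Fin n) => PD (N T)) p.1 p.2 X).card := by
  obtain ⟨Q, hQ⟩ : ∃ Q : Finset RR → Prop, ∀ S, Q S ↔ True := ⟨fun _ => True, fun _ => Iff.rfl⟩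
  have g := Pool.Agent.R426.QK.NS.card_eq X
    (fun S => Disjoint S (ZZ fun T : Finset (Fin n) => PD (N T)) ∧ Q S)
  have e1 : (FamR d X).ncard = ((SS X).filter fun S =>
      Disjoint S (ZZ fun T : Finset (Fin n) => PD (N T)) ∧ Q S).card := by
    refine Eq.trans (congrArg Set.ncard ?_) (g.trans (card_inst _ _ _ _))
    ext D
    unfold FamR
    simp only [Set.mem_ofPred_eq, hQ, and_true]
    exact and_congr_right fun _ => and_congr_right fun hD => cop_disj hMUL hd hN1 hN4 hN5 hD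
  refine e1.trans (Eq.trans (card4 (ZZ fun T : Finset (Fin n) => PD (N T)) X Q) ?_)
  refine Finset.sum_congr rfl fun p _ => ?_
  congr 1
  ext S
  simp only [Finset.mem_filter, hQ, and_true]

/-- the good elements -/
theorem good_card {n : ℕ} {d : Fin n → RR} (h5 : S_SUP5) (hMUL : S_MUL)
    (f : ZMod 2 → ZMod 2 → ZMod 2) (hd : ∀ i, ClsE (d i))
    {N : Finset (Fin n) → RR} (hN1 : ∀ T, ClsE (N T))
    (hN4 : ∀ T, ∃ c : RR, c ≠ 0 ∧ ∏ i ∈ T, d i = N T * c ^ 2 ∧ ∀ z, Prime z → z ∣ c → ∃ i, z ∣ d i)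
    (hN5 : ∀ T z, Prime z → z ∣ N T → ∃ i, z ∣ d i) (X : ℕ) :
    ({D ∈ FamR d X | AllA f d D}).ncard = ∑ p : ZMod 2 × ZMod 2,
      ((SSJ5 (ZZ fun T : Finset (Fin n) => PD (N T)) p.1 p.2 X).filter fun S =>
        ∀ T : Finset (Fin n), Gd5 (p.1 + xc (PD (N T))) (p.2 + yc (PD (N T))) 1 0 (S ∪ PD (N T)) ∧
          Gd5 (p.1 + xc (PD (N T))) (p.2 + yc (PD (N T)))
            (f (p.1 + xc (PD (N T))) (p.2 + yc (PD (N T)))) 1 (S ∪ PD (N T))).card := by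
  have g := Pool.Agent.R426.QK.NS.card_eq X
    (fun S => Disjoint S (ZZ fun T : Finset (Fin n) => PD (N T)) ∧
      GG f (fun T : Finset (Fin n) => PD (N T)) S)
  have e1 : ({D ∈ FamR d X | AllA f d D}).ncard = ((SS X).filter fun S =>
      Disjoint S (ZZ fun T : Finset (Fin n) => PD (N T)) ∧
        GG f (fun T : Finset (Fin n) => PD (N T)) S).card := by
    refine Eq.trans (congrArg Set.ncard ?_) (g.trans (card_inst _ _ _ _))
    ext D
    unfold FamR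
    simp only [Set.mem_ofPred_eq]
    constructor
    · rintro ⟨⟨g1, g2, g5⟩, g4⟩
      exact ⟨g1, g2, (cop_disj hMUL hd hN1 hN4 hN5 g2).1 g5,
        (all_iff5 h5 hMUL f hN1 hN4 hN5 g2 g5).1 g4⟩
    · rintro ⟨g1, g2, g3, g4⟩
      have g5 := (cop_disj hMUL hd hN1 hN4 hN5 g2).2 g3
      exact ⟨⟨g1, g2, g5⟩, (all_iff5 h5 hMUL f hN1 hN4 hN5 g2 g5).2 g4⟩
  rw [e1, card4]
  refine Finset.sum_congr rfl fun p _ => ?_
  congr 1
  ext S
  simp only [Finset.mem_filter]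
  refine and_congr_right fun hS => ?_
  have hS' : xc S = p.1 ∧ yc S = p.2 := by
    unfold SSJ5 at hS
    exact ((mem5 _ _ _ _).1 (Finset.mem_filter.1 hS).1).2
  unfold GG
  rw [hS'.1, hS'.2]

end DENS

open DENS in
/-- BL-50 -/
theorem t_DENS : S_DENS := by
  intro hCLS hMUL h5 hB hL hC2 f n d hd hi
  obtain ⟨N, hN1, hN2, -, hN4, hN5⟩ := hCLS n d hd hi
  have hF : Fx (Finset (Fin n)) (fun T => PD (N T)) :=
    ⟨fun T => (hMUL.2.2.2 (N T) (hN1 T)).1, fun T T' h =>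
      hN2 ((hMUL.2.2.2 (N T) (hN1 T)).2 (N T') (hN1 T') h)⟩
  have hZ : ∀ u ∈ ZZ fun T : Finset (Fin n) => PD (N T), Pq u := by
    intro u hu
    unfold ZZ at hu
    rw [Finset.mem_biUnion] at hu
    obtain ⟨T, -, h2⟩ := hu
    exact (hMUL.2.2.2 (N T) (hN1 T)).1.1 u h2
  obtain ⟨-, hc0, -⟩ := hC2
  -- the four ratios
  have hpos : ∀ p : ZMod 2 × ZMod 2, ∀ᶠ X : ℕ in atTop,
      0 < ((SSJ5 (ZZ fun T : Finset (Fin n) => PD (N T)) p.1 p.2 X).card : ℝ) := by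
    intro p
    obtain ⟨c, X₀, hc, h1⟩ := hL _ hZ p.1 p.2
    filter_upwards [eventually_ge_atTop X₀, eventually_ge_atTop 1] with X h3 h4
    have hX1 : (1 : ℝ) ≤ X := by exact_mod_cast h4
    exact lt_of_lt_of_le (by positivity) (h1 X h3)
  have h1 : ∀ p : ZMod 2 × ZMod 2, Tendsto (fun X : ℕ =>
      (((SSJ5 (ZZ fun T : Finset (Fin n) => PD (N T)) p.1 p.2 X).filter fun S =>
        ∀ T : Finset (Fin n), Gd5 (p.1 + xc (PD (N T))) (p.2 + yc (PD (N T))) 1 0 (S ∪ PD (N T)) ∧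
          Gd5 (p.1 + xc (PD (N T))) (p.2 + yc (PD (N T)))
            (f (p.1 + xc (PD (N T))) (p.2 + yc (PD (N T)))) 1 (S ∪ PD (N T))).card : ℝ) /
      ((SSJ5 (ZZ fun T : Finset (Fin n) => PD (N T)) p.1 p.2 X).card : ℝ)) atTop
      (nhds ((c2 / 2) ^ 2 ^ n)) := by
    intro p
    have h := hB (Finset (Fin n)) (fun T => PD (N T)) hF p.1 p.2
      (fun T => f (p.1 + xc (PD (N T))) (p.2 + yc (PD (N T))))
    rw [Fintype.card_finset, Fintype.card_fin] at h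
    exact h
  have h2 := comb (fun (p : ZMod 2 × ZMod 2) (X : ℕ) =>
      (((SSJ5 (ZZ fun T : Finset (Fin n) => PD (N T)) p.1 p.2 X).filter fun S =>
        ∀ T : Finset (Fin n), Gd5 (p.1 + xc (PD (N T))) (p.2 + yc (PD (N T))) 1 0 (S ∪ PD (N T)) ∧
          Gd5 (p.1 + xc (PD (N T))) (p.2 + yc (PD (N T)))
            (f (p.1 + xc (PD (N T))) (p.2 + yc (PD (N T)))) 1 (S ∪ PD (N T))).card : ℝ))
    (fun (p : ZMod 2 × ZMod 2) (X : ℕ) =>
      ((SSJ5 (ZZ fun T : Finset (Fin n) => PD (N T)) p.1 p.2 X).card : ℝ))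
    ((c2 / 2) ^ 2 ^ n) hpos h1
  have h3 : Tendsto (fun X : ℕ => (({D ∈ FamR d X | AllA f d D}).ncard : ℝ) /
      ((FamR d X).ncard : ℝ)) atTop (nhds ((c2 / 2) ^ 2 ^ n)) := by
    refine h2.congr fun X => ?_
    rw [good_card h5 hMUL f hd hN1 hN4 hN5 X, fam_card hMUL hd hN1 hN4 hN5 X]
    push_cast
    rfl
  refine ⟨h3, ?_⟩
  obtain ⟨c, X₀, hc, h4⟩ := hL _ hZ 0 0
  have hcp : 0 < (c2 / 2) ^ (2 ^ n) := pow_pos (by linarith) _
  have h5' := (tendsto_order.1 h3).1 ((c2 / 2) ^ (2 ^ n) / 2) (by linarith)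
  refine ⟨c * ((c2 / 2) ^ (2 ^ n) / 2), by positivity, ?_⟩
  filter_upwards [h5', eventually_ge_atTop X₀, eventually_ge_atTop 1] with X h6 h7 h8
  have h9 : c * X ≤ ((FamR d X).ncard : ℝ) := by
    refine (h4 X h7).trans ?_
    rw [fam_card hMUL hd hN1 hN4 hN5 X]
    have := Finset.single_le_sum
      (f := fun p : ZMod 2 × ZMod 2 =>
        (SSJ5 (ZZ fun T : Finset (Fin n) => PD (N T)) p.1 p.2 X).card)
      (fun p _ => Nat.zero_le _) (Finset.mem_univ ((0, 0) : ZMod 2 × ZMod 2))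
    exact_mod_cast this
  have hX1 : (1 : ℝ) ≤ X := by exact_mod_cast h8
  have h10 : 0 < ((FamR d X).ncard : ℝ) := lt_of_lt_of_le (by positivity) h9
  rw [lt_div_iff₀ h10] at h6
  nlinarith

end Pool.Agent.NH57.BP
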