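import Pool.Agent.R426.QJ.FB
import Pool.Agent.NH57.BL.FB2
import Pool.Agent.NH57.BL.Stm3

/-!
# Project BL: few sets have degenerate labels, joint version

After `Pool/Agent/NH57/BL/FB2.lean` and `Pool/Agent/R426/QJ/FB.lean`.
-/

set_option autoImplicit false

open scoped Classical

namespace Pool.Agent.NH57.BP.FBJ

open Finset Filter
open Pool.Agent.R426.QK
open Pool.Agent.R426.QK.FB
open Pool.Agent.R426.QJ (Fx ZZ SSJ NdJ)
open Pool.Agent.NH57.BO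
open Pool.Agent.NH57.BO.FB
open Pool.Agent.Y698 (RR aR cj)
open Pool.Agent.Y703.CX (eL zz kk)
open Pool.Agent.Y495.CX.Few (eL_tendsto)

theorem pair_count (hSUP : S_SUP5) {C : ℝ} (hC1 : 1 ≤ C)
    (hC : ∀ (n : RR) (i j k l : ℕ), PS n → i < 2 → j < 2 → k < 2 → l < 2 →
      (n ≠ 1 ∨ i ≠ 0 ∨ j ≠ 0 ∨ k ≠ 0 ∨ l ≠ 0) → ∀ T : ℕ,
      ∑ a ∈ SB T, mf (fun π => (2 + (xr5 n i j k l π).re) / 3) a ≤
        C * (lgn (nrm n)) ^ (1 / 3 : ℝ) * (T * (lgn T) ^ (-(1 / 3) : ℝ)))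
    (X z : ℕ) (Z S₀ : Finset RR) (hZ : ∀ u ∈ Z, Pq u ∧ nrm u ≤ z)
    (hS₀ : ∀ u ∈ S₀, Pq u ∧ nrm u ≤ z)
    (A : Finset RR) (i j k l : ℕ) (hA : A ⊆ S₀ ∪ Z) (hi : i < 2) (hj : j < 2) (hk : k < 2)
    (hl : l < 2) (hAij : A ≠ ∅ ∨ i ≠ 0 ∨ j ≠ 0 ∨ k ≠ 0 ∨ l ≠ 0)
    (F : Finset (Finset RR)) (hF : ∀ S ∈ F, (S ∈ SS X ∧ sm z S = S₀) ∧ Dg5 A i j k l (la z S)) :
    (F.card : ℝ) ≤ 2 * C * lgn (pN Z) * lgn (pN S₀) * (((X / pN S₀ : ℕ) : ℝ) *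
          (lgn (X / pN S₀)) ^ (-(1 / 3) : ℝ)) := by
  have hAq : ∀ u ∈ A, Pq u ∧ nrm u ≤ z := by
    intro u hu
    rcases mem_union.1 (hA hu) with h | h
    · exact hS₀ u h
    · exact hZ u h
  obtain ⟨a1, a2⟩ := PS_prod (S := A) fun π hπ => (hAq π hπ).1
  have hval : ∀ S ∈ F, ∀ π ∈ la z S, xr5 (∏ π ∈ A, π) i j k l π = 1 := by
    intro S hS π hπ
    obtain ⟨⟨h1, h2⟩, h3⟩ := hF S hS
    have hπq : Pq π ∧ ¬ nrm π ≤ z := by
      unfold la at hπ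
      rw [mem_filter] at hπ
      unfold SS at h1
      rw [mem_filter] at h1
      exact ⟨h1.2.1.1 π hπ.1, hπ.2⟩
    rw [xr5_ez hSUP (fun u hu => (hAq u hu).1) hi hj hk hl hπq.1
      (fun h => hπq.2 (hAq π h).2), h3 π hπ, ez_zero]
  set a := ∏ π ∈ A, π with ha
  have hab : a ≠ 1 ∨ i ≠ 0 ∨ j ≠ 0 ∨ k ≠ 0 ∨ l ≠ 0 := by
    rcases hAij with h | h
    · left
      intro h1
      apply h
      rw [← a2, h1, PD_one]
    · exact Or.inr h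
  have h := fiber_le X z S₀ (fun u hu => (hS₀ u hu).1) F (fun S hS => (hF S hS).1)
    (fun π => (2 + (xr5 a i j k l π).re) / 3) (fun π => by
      have := g5_ge a i j k l π
      linarith) 1 (fun S hS => by
      refine le_of_eq (prod_eq_one fun π hπ => ?_).symm
      rw [hval S hS π hπ]
      norm_num)
  rw [mul_one] at h
  refine h.trans ((hC a i j k l a1 hi hj hk hl hab _).trans ?_)
  have hnn : nrm a ≤ pN S₀ * pN Z := by
    have h1 : nrm a ≤ pN (S₀ ∪ Z) := by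
      rw [ha, nrm_prod]
      unfold pN
      refine prod_le_prod_of_subset_of_one_le' hA fun u hu _ => ?_
      rcases mem_union.1 hu with h | h
      · exact nrm_pos' (pq_ne (hS₀ u h).1)
      · exact nrm_pos' (pq_ne (hZ u h).1)
    refine h1.trans ?_
    unfold pN
    rw [← prod_union_inter]
    refine Nat.le_mul_of_pos_right _ (prod_pos fun u hu => ?_)
    exact nrm_pos' (pq_ne (hS₀ u (mem_inter.1 hu).1).1)
  have h4 : (lgn (nrm a)) ^ (1 / 3 : ℝ) ≤ 2 * lgn (pN Z) * lgn (pN S₀) := by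
    calc (lgn (nrm a)) ^ (1 / 3 : ℝ) ≤ (lgn (nrm a)) ^ (1 : ℝ) :=
          Real.rpow_le_rpow_of_exponent_le (one_le_lgn _) (by norm_num)
      _ = lgn (nrm a) := Real.rpow_one _
      _ ≤ lgn (pN S₀ * pN Z) := lgn_mono hnn
      _ ≤ _ := Pool.Agent.R426.QJ.FB.lgn_mul (pN_pos fun u hu => (hS₀ u hu).1)
          (pN_pos fun u hu => (hZ u hu).1)
  have hTl : 0 ≤ ((X / pN S₀ : ℕ) : ℝ) * (lgn (X / pN S₀)) ^ (-(1 / 3) : ℝ) :=
    mul_nonneg (Nat.cast_nonneg _) (Real.rpow_nonneg (zero_le_one.trans (one_le_lgn _)) _)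
  calc C * (lgn (nrm a)) ^ (1 / 3 : ℝ) * (((X / pN S₀ : ℕ) : ℝ) *
        (lgn (X / pN S₀)) ^ (-(1 / 3) : ℝ)) ≤
        C * (2 * lgn (pN Z) * lgn (pN S₀)) * (((X / pN S₀ : ℕ) : ℝ) *
        (lgn (X / pN S₀)) ^ (-(1 / 3) : ℝ)) := by gcongr
    _ = _ := by ring

theorem bad_count (hR : RecP) (hSUP : S_SUP5) (x y : ZMod 2) {C : ℝ} (hC1 : 1 ≤ C)
    (hC : ∀ (n : RR) (i j k l : ℕ), PS n → i < 2 → j < 2 → k < 2 → l < 2 →
      (n ≠ 1 ∨ i ≠ 0 ∨ j ≠ 0 ∨ k ≠ 0 ∨ l ≠ 0) → ∀ T : ℕ,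
      ∑ a ∈ SB T, mf (fun π => (2 + (xr5 n i j k l π).re) / 3) a ≤
        C * (lgn (nrm n)) ^ (1 / 3 : ℝ) * (T * (lgn T) ^ (-(1 / 3) : ℝ)))
    (X : ℕ) (Z S₀ : Finset RR) (hZq : ∀ u ∈ Z, Pq u) (hS₀ : ∀ u ∈ S₀, Pq u ∧ nrm u ≤ zz X)
    (G : Finset (Finset RR))
    (hG : ∀ S ∈ G, S ∈ SS X ∧ (S.card ≤ kk X ∧ ((∀ u ∈ Z, nrm u ≤ zz X) ∧
      ¬ Nd5 x y (sm (zz X) S ∪ Z) (la (zz X) S))) ∧
      sm (zz X) S = S₀) : (G.card : ℝ) ≤
        (16 * 2 ^ Z.card * (2 * C * lgn (pN Z))) * 2 ^ S₀.card * lgn (pN S₀) *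
          (((X / pN S₀ : ℕ) : ℝ) * (lgn (X / pN S₀)) ^ (-(1 / 3) : ℝ)) := by
  rcases G.eq_empty_or_nonempty with rfl | ⟨S', hS'⟩
  · rw [card_empty, Nat.cast_zero]
    have h1 := one_le_lgn (pN Z)
    have h2 := one_le_lgn (pN S₀)
    have h3 := one_le_lgn (X / pN S₀)
    positivity
  have hZ : ∀ u ∈ Z, Pq u ∧ nrm u ≤ zz X := fun u hu => ⟨hZq u hu, (hG S' hS').2.1.2.1 u hu⟩
  set P := ((S₀ ∪ Z).powerset ×ˢ (range 2 ×ˢ range 2 ×ˢ range 2 ×ˢ range 2)).filter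
    fun p => p.1 ≠ ∅ ∨ p.2.1 ≠ 0 ∨ p.2.2.1 ≠ 0 ∨ p.2.2.2.1 ≠ 0 ∨ p.2.2.2.2 ≠ 0 with hP
  have hsub : G ⊆ P.biUnion fun p =>
      G.filter fun S => Dg5 p.1 p.2.1 p.2.2.1 p.2.2.2.1 p.2.2.2.2 (la (zz X) S) := by
    intro S hS
    obtain ⟨h1, ⟨h2, -, h3⟩, h4⟩ := hG S hS
    rw [h4] at h3
    have hT : ∀ π ∈ la (zz X) S, Pq π ∧ π ∉ S₀ ∪ Z := by
      intro π hπ
      unfold la at hπ
      rw [mem_filter] at hπ
      unfold SS at h1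
      rw [mem_filter] at h1
      refine ⟨h1.2.1.1 π hπ.1, fun h => hπ.2 ?_⟩
      rcases mem_union.1 h with h | h
      · exact (hS₀ π h).2
      · exact (hZ π h).2
    have hq : ∀ u ∈ S₀ ∪ Z, Pq u := fun u hu => by
      rcases mem_union.1 hu with h | h
      · exact (hS₀ u h).1
      · exact (hZ u h).1
    obtain ⟨A, i, j, k, l, hA, hi, hj, hk, hl, hAij, hDg⟩ := notNd5 hR x y hq hT h3
    rw [mem_biUnion]
    refine ⟨(A, i, j, k, l), ?_, ?_⟩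
    · rw [hP, mem_filter, mem_product, mem_product, mem_product, mem_product, mem_powerset,
        mem_range, mem_range, mem_range, mem_range]
      exact ⟨⟨hA, hi, hj, hk, hl⟩, hAij⟩
    · rw [mem_filter]
      exact ⟨hS, hDg⟩
  have h1 : (G.card : ℝ) ≤ ∑ p ∈ P,
      ((G.filter fun S => Dg5 p.1 p.2.1 p.2.2.1 p.2.2.2.1 p.2.2.2.2 (la (zz X) S)).card : ℝ) := by
    exact_mod_cast (card_le_card hsub).trans card_biUnion_le
  have h2 : ∀ p ∈ P,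
      ((G.filter fun S => Dg5 p.1 p.2.1 p.2.2.1 p.2.2.2.1 p.2.2.2.2 (la (zz X) S)).card : ℝ) ≤
      2 * C * lgn (pN Z) * lgn (pN S₀) * (((X / pN S₀ : ℕ) : ℝ) *
        (lgn (X / pN S₀)) ^ (-(1 / 3) : ℝ)) := by
    intro p hp
    rw [hP, mem_filter, mem_product, mem_product, mem_product, mem_product, mem_powerset,
      mem_range, mem_range, mem_range, mem_range] at hp
    obtain ⟨⟨q1, q2, q3, q4, q5⟩, q6⟩ := hp
    refine pair_count hSUP hC1 hC X (zz X) Z S₀ hZ hS₀ p.1 p.2.1 p.2.2.1 p.2.2.2.1 p.2.2.2.2 q1 q2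
      q3 q4 q5 q6 _ ?_
    intro S hS
    rw [mem_filter] at hS
    have h := hG S hS.1
    exact ⟨⟨h.1, h.2.2⟩, hS.2⟩
  have h3 : (P.card : ℝ) ≤ 16 * 2 ^ Z.card * 2 ^ S₀.card := by
    have h5 : P.card ≤ 2 ^ (S₀ ∪ Z).card * (2 * (2 * (2 * 2))) := by
      refine (card_filter_le _ _).trans (le_of_eq ?_)
      rw [card_product, card_product, card_product, card_product, card_powerset, card_range]
    have h6 : 2 ^ (S₀ ∪ Z).card ≤ 2 ^ (S₀.card + Z.card) :=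
      Nat.pow_le_pow_right (by norm_num) (card_union_le _ _)
    have h7 : P.card ≤ 2 ^ (S₀.card + Z.card) * (2 * (2 * (2 * 2))) :=
      h5.trans (Nat.mul_le_mul_right _ h6)
    have h' : (P.card : ℝ) ≤ ((2 ^ (S₀.card + Z.card) * (2 * (2 * (2 * 2))) : ℕ) : ℝ) := by
      exact_mod_cast h7
    refine h'.trans (le_of_eq ?_)
    push_cast
    ring
  have hTl : 0 ≤ ((X / pN S₀ : ℕ) : ℝ) * (lgn (X / pN S₀)) ^ (-(1 / 3) : ℝ) :=
    mul_nonneg (Nat.cast_nonneg _) (Real.rpow_nonneg (zero_le_one.trans (one_le_lgn _)) _)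
  have hlg := lgn_pos (pN S₀)
  have hlg2 := lgn_pos (pN Z)
  calc (G.card : ℝ) ≤ ∑ p ∈ P, 2 * C * lgn (pN Z) * lgn (pN S₀) * (((X / pN S₀ : ℕ) : ℝ) *
        (lgn (X / pN S₀)) ^ (-(1 / 3) : ℝ)) := h1.trans (sum_le_sum h2)
    _ = P.card * (2 * C * lgn (pN Z) * lgn (pN S₀) * (((X / pN S₀ : ℕ) : ℝ) *
        (lgn (X / pN S₀)) ^ (-(1 / 3) : ℝ))) := by rw [sum_const, nsmul_eq_mul]
    _ ≤ (16 * 2 ^ Z.card * 2 ^ S₀.card) * (2 * C * lgn (pN Z) * lgn (pN S₀) *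
        (((X / pN S₀ : ℕ) : ℝ) * (lgn (X / pN S₀)) ^ (-(1 / 3) : ℝ))) :=
        mul_le_mul_of_nonneg_right h3 (by positivity)
    _ = _ := by ring

/-- the norms of finitely many primes are small -/
theorem norms (Z : Finset RR) : ∃ X₁ : ℕ, ∀ X : ℕ, X₁ ≤ X → ∀ u ∈ Z, nrm u ≤ zz X := by
  set M := Z.sup nrm with hMdef
  have hev := eL_tendsto.eventually (eventually_ge_atTop (max (M : ℝ) 1))
  obtain ⟨X₁, hX₁⟩ := eventually_atTop.1 hev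
  refine ⟨X₁, fun X hX u hu => ?_⟩
  refine (le_sup (f := nrm) hu).trans ?_
  have h1 := hX₁ X hX
  have h2 : (M : ℝ) ≤ eL X := (le_max_left _ _).trans h1
  have h3 : (1 : ℝ) ≤ eL X := (le_max_right _ _).trans h1
  unfold zz
  refine Nat.le_floor ?_
  have h4 := Real.add_one_le_exp ((eL X) ^ 3)
  have h5 : eL X ≤ (eL X) ^ 3 := by nlinarith [sq_nonneg (eL X - 1)]
  linarith

/-- one index -/
theorem one (hR : RecP) (hSUP : S_SUP5) (hH : S_HALL5) (hM : S_MERT) (Z : Finset RR)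
    (hZq : ∀ u ∈ Z, Pq u) (x y : ZMod 2) (ε : ℝ) (hε : 0 < ε) : ∃ X₀ : ℕ, ∀ X : ℕ, X₀ ≤ X →
    (((SSJ Z X).filter fun S => S.card ≤ kk X ∧
      ¬ Nd5 x y (sm (zz X) S ∪ Z) (la (zz X) S)).card : ℝ) ≤ ε * X := by
  obtain ⟨C, hC1, hC⟩ := hH
  have hlg := one_le_lgn (pN Z)
  obtain ⟨X₀, hX₀⟩ := gen hM 2 (16 * 2 ^ Z.card * (2 * C * lgn (pN Z))) (by norm_num)
    (by positivity)
    (fun X S => (∀ u ∈ Z, nrm u ≤ zz X) ∧ ¬ Nd5 x y (sm (zz X) S ∪ Z) (la (zz X) S))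
    (fun X S₀ hS₀ _ G hG => bad_count hR hSUP x y hC1 hC X Z S₀ hZq hS₀ G hG) ε hε
  obtain ⟨X₁, hX₁⟩ := norms Z
  refine ⟨max X₀ X₁, fun X hX => ?_⟩
  have hz := hX₁ X ((le_max_right _ _).trans hX)
  refine hX₀ X ((le_max_left _ _).trans hX) _ fun S hS => ?_
  rw [mem_filter] at hS
  unfold SSJ at hS
  rw [mem_filter] at hS
  exact ⟨hS.1.1, hS.2.1, hz, hS.2.2⟩

end Pool.Agent.NH57.BP.FBJ

namespace Pool.Agent.NH57.BP

open Finset Filter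
open Pool.Agent.R426.QK
open Pool.Agent.NH57.BO
open Pool.Agent.R426.QJ (Fx ZZ SSJ NdJ)
open Pool.Agent.Y698 (RR aR cj)
open Pool.Agent.Y703.CX (eL zz kk)

/-- **FBJ5** -/
theorem t_FBJ5 : S_FBJ5 := by
  intro hR hSUP hH hM hQ I _ F hF x y K V ε hε
  have hZq : ∀ u ∈ ZZ F, Pq u := by
    intro u hu
    unfold ZZ at hu
    rw [mem_biUnion] at hu
    obtain ⟨i, -, hi⟩ := hu
    exact (hF.cl i).1 u hi
  obtain ⟨XQ, hXQ⟩ := hQ I F hF K V (ε / 2) (by positivity)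
  set δ : ℝ := ε / (2 * (Fintype.card I + 1)) with hδ
  have hδ0 : 0 < δ := by positivity
  have hone : ∀ i : I, ∃ X₀ : ℕ, ∀ X : ℕ, X₀ ≤ X →
      (((SSJ (ZZ F) X).filter fun S => S.card ≤ kk X ∧
        ¬ Nd5 (x + xc (F i)) (y + yc (F i)) (sm (zz X) S ∪ ZZ F) (la (zz X) S)).card : ℝ) ≤
        δ * X := fun i =>
    FBJ.one hR hSUP hH hM (ZZ F) hZq (x + xc (F i)) (y + yc (F i)) δ hδ0
  choose X₀ hX₀ using hone
  refine ⟨max XQ (univ.sup X₀), fun X hX => ?_⟩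
  have hsub : ((SSJ (ZZ F) X).filter fun S => S.card ≤ kk X ∧
      ¬ NdC F K V x y (sm (zz X) S) (la (zz X) S)) ⊆
      ((SSJ (ZZ F) X).filter fun S => S.card ≤ kk X ∧
        ¬ NdJ F K V (sm (zz X) S) (la (zz X) S)) ∪
      (univ : Finset I).biUnion fun i => (SSJ (ZZ F) X).filter fun S => S.card ≤ kk X ∧
        ¬ Nd5 (x + xc (F i)) (y + yc (F i)) (sm (zz X) S ∪ ZZ F) (la (zz X) S) := by
    intro S hS
    rw [mem_filter] at hS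
    obtain ⟨h1, h2, h3⟩ := hS
    rw [mem_union]
    by_cases h4 : ∀ i, Nd5 (x + xc (F i)) (y + yc (F i)) (sm (zz X) S ∪ ZZ F) (la (zz X) S)
    · left
      rw [mem_filter]
      refine ⟨h1, h2, fun h5 => h3 ⟨h4, h5.2⟩⟩
    · right
      push Not at h4
      obtain ⟨i, hi⟩ := h4
      rw [mem_biUnion]
      refine ⟨i, mem_univ _, ?_⟩
      rw [mem_filter]
      exact ⟨h1, h2, hi⟩
  have hc : (((SSJ (ZZ F) X).filter fun S => S.card ≤ kk X ∧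
      ¬ NdC F K V x y (sm (zz X) S) (la (zz X) S)).card : ℝ) ≤
      (((SSJ (ZZ F) X).filter fun S => S.card ≤ kk X ∧
        ¬ NdJ F K V (sm (zz X) S) (la (zz X) S)).card : ℝ) +
      ∑ i : I, (((SSJ (ZZ F) X).filter fun S => S.card ≤ kk X ∧
        ¬ Nd5 (x + xc (F i)) (y + yc (F i)) (sm (zz X) S ∪ ZZ F) (la (zz X) S)).card : ℝ) := by
    exact_mod_cast (card_le_card hsub).trans
      ((card_union_le _ _).trans (Nat.add_le_add_left card_biUnion_le _))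
  have h1 := hXQ X ((le_max_left _ _).trans hX)
  have h2 : ∑ i : I, (((SSJ (ZZ F) X).filter fun S => S.card ≤ kk X ∧
        ¬ Nd5 (x + xc (F i)) (y + yc (F i)) (sm (zz X) S ∪ ZZ F) (la (zz X) S)).card : ℝ) ≤
      ∑ _i : I, δ * X := by
    refine sum_le_sum fun i _ => hX₀ i X ?_
    exact (le_sup (f := X₀) (mem_univ i)).trans ((le_max_right _ _).trans hX)
  rw [sum_const, nsmul_eq_mul, card_univ] at h2
  have h3 : (Fintype.card I : ℝ) * (δ * X) ≤ ε / 2 * X := by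
    have h4 : (Fintype.card I : ℝ) * δ ≤ ε / 2 := by
      rw [hδ, mul_div_assoc', div_le_div_iff₀ (by positivity) (by norm_num)]
      nlinarith [Nat.cast_nonneg (α := ℝ) (Fintype.card I)]
    calc (Fintype.card I : ℝ) * (δ * X) = ((Fintype.card I : ℝ) * δ) * X := by ring
      _ ≤ ε / 2 * X := mul_le_mul_of_nonneg_right h4 (Nat.cast_nonneg _)
  linarith

end Pool.Agent.NH57.BP
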