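import Pool.Agent.R426.QJ.KEY
import Pool.Agent.NH57.BL.Stm3

/-!
# BL-45 KEYJ: the sum over the boxes (helper86)

Union of `Pool/Agent/R426/QJ/KEY.lean` (helper33) and `Pool/Agent/NH57/BL/KEY2.lean` (helper49).
-/

set_option autoImplicit false

namespace Pool.Agent.NH57.BP.KEYJ

open Finset
open Pool.Agent.Y698
open Pool.Agent.Y698.SG hiding PD
open Pool.Agent.Y703.CX (jj XX)
open Pool.Agent.R426.QK
open Pool.Agent.R426.QJ (Fx ZZ SSJ RgJ)
open Pool.Agent.NH57.BJ (LAXJ)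
open Pool.Agent.R426.QK.KEY (fcc card_sub ky ph ph_div ph_mod CC mem_CC mem_SS le_XX nrm_one_le
  prod_split prod_ph prod_mod ph_inj sm_disj sm_union sm_fill la_fill ky_fill prod_tt hb_box
  card_QB_le sum_inv prs_card)
open Pool.Agent.R426.QJ.KEY (key_facts key_bij keg_err)
open scoped Classical

/-- the statement for the boxes with the decidability of equality as a variable -/
theorem box_dec (hR : RecP) (hE : S_EQ) (hB : S_BOXJ5) {I : Type} [Fintype I]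
    {F : I → Finset RR} (hF : Fx I F) {ε : ℝ} {K V : ℕ} (hL : LAXJ I ε K V)
    {x y : ZMod 2} {a b : I → ZMod 2} (hab : ∀ i, a i ≠ 0 ∨ b i ≠ 0) (ι : Type)
    [Fintype ι] [inst : DecidableEq ι]
    (lo : LinearOrder ι) (C : ι → Finset RR) (X : ι → ℕ) (κ : ℝ) (S₀ : Finset RR) (h1 : 0 ≤ κ)
    (h2 : ∀ i, (C i).card ≤ X i) (h3 : HB C X κ) (h4 : ∀ u ∈ S₀, Pq u)
    (h8 : Disjoint S₀ (ZZ F))
    (h5 : ∀ i, ∀ π ∈ C i, Pq π ∧ π ∉ S₀ ∪ ZZ F) (h6 : ∀ i l, i ≠ l → Disjoint (C i) (C l))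
    (h7 : ∀ p ∈ Fintype.piFinset C, ∑ u ∈ S₀, tt u + ∑ i, tt (p i) = 0) :
    |(((Fintype.piFinset C).filter fun p => NdJ5 F K V x y S₀ (univ.image p) ∧
        GdJ5 F x y a b (S₀ ∪ univ.image p)).card : ℝ) -
      c2 ^ Fintype.card I *
        (((Fintype.piFinset C).filter fun p => NdJ5 F K V x y S₀ (univ.image p)).card : ℝ)| ≤
    ε * (((Fintype.piFinset C).filter fun p => NdJ5 F K V x y S₀ (univ.image p)).card : ℝ) +
    2 ^ (((S₀ ∪ ZZ F).card + 4) * Fintype.card ι + (prs ι).card) * (κ * ∏ j, (X j : ℝ)) := by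
  have e : inst = fun s t => lo.toDecidableEq s t := Subsingleton.elim _ _
  subst e
  exact hB hR hE I F hF ε K V hL x y a b hab ι C X κ S₀ h1 h2 h3 h4 h8 h5 h6 h7

theorem per_key (hR : RecP) (hE : S_EQ) (hB : S_BOXJ5) {I : Type} [Fintype I]
    {F : I → Finset RR} (hF : Fx I F) {ε : ℝ} {K V : ℕ} (hL : LAXJ I ε K V)
    {x y : ZMod 2} {a b : I → ZMod 2} (hab : ∀ i, a i ≠ 0 ∨ b i ≠ 0)
    (hε : 0 < ε) {C₁ : ℝ}
    (hb1 : ∀ (P Q : Finset RR) (A B z : ℕ) (c d : RR → ℂ),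
      (∀ π ∈ P, Pq π ∧ nrm π ≤ A) → (∀ ρ ∈ Q, Pq ρ ∧ nrm ρ ≤ B) → Disjoint P Q →
      1 ≤ z → z ≤ A → z ≤ B → (∀ π, ‖c π‖ ≤ 1) → (∀ ρ, ‖d ρ‖ ≤ 1) →
      ‖∑ π ∈ P, ∑ ρ ∈ Q, c π * d ρ * ez (cs π ρ)‖ ^ 24 * z ≤ C₁ * ((A : ℝ) * B) ^ 24)
    {X z H k : ℕ} {κ : ℝ} (hH : 1 ≤ H) (hz : 1 ≤ z) (hκ : 0 ≤ κ)
    (h1 : C₁ ≤ κ ^ 24 * z) (hZ : ∀ u ∈ ZZ F, nrm u ≤ z) (hZk : (ZZ F).card ≤ k)
    {S₀ : Finset RR} {J : Finset ℕ}
    (hkey : (S₀, J) ∈ (RgJ (ZZ F) X z H k).image (ky z H)) :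
    |(((RgJ (ZZ F) X z H k).filter fun S => ky z H S = (S₀, J) ∧
        (NdJ5 F K V x y (sm z S) (la z S) ∧ GdJ5 F x y a b S)).card : ℝ) -
      c2 ^ Fintype.card I * (((RgJ (ZZ F) X z H k).filter fun S => ky z H S = (S₀, J) ∧
        NdJ5 F K V x y (sm z S) (la z S)).card : ℝ)| ≤
    ε * (((RgJ (ZZ F) X z H k).filter fun S => ky z H S = (S₀, J) ∧ True).card : ℝ) +
      (3 ^ (9 * k ^ 2) * κ) * (X * (1 / ((∏ p ∈ S₀, nrm p : ℕ) : ℝ))) := by
  obtain ⟨h₀O, h₀, hJi, hCd, hJf⟩ := key_facts hH hZ hkey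
  obtain ⟨c1, c4, c5, c6⟩ := hCd
  have hcJ : Fintype.card J = J.card := Fintype.card_coe J
  have hCmem : ∀ i : J, ∀ p ∈ CC z H i, Pq p ∧ z < nrm p ∧ nrm p ≤ XX H (i.1 / 4) := by
    intro i p hp
    obtain ⟨k1, k2, k3⟩ := (mem_CC hH).1 hp
    refine ⟨k1, k2, ?_⟩
    unfold CC at hp
    rw [Finset.mem_filter, mem_QB] at hp
    exact hp.1.1
  have hdis : ∀ i l : J, i ≠ l → Disjoint (CC z H (i : ℕ)) (CC z H (l : ℕ)) := by
    intro i l hil
    rw [Finset.disjoint_left]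
    intro p hp hp'
    have h5 := ((mem_CC hH).1 hp).2.2
    have h6 := ((mem_CC hH).1 hp').2.2
    exact hil (Subtype.ext (h5.symm.trans h6))
  have hzX : ∀ i : J, z ≤ XX H (i.1 / 4) := fun i => (hJf i i.2).1
  have hHB : HB (fun i : J => CC z H i) (fun i : J => 16 * XX H (i.1 / 4)) κ :=
    hb_box hb1 _ _ hz hκ h1 (fun i => by have := hzX i; omega)
      (fun i p hp => by
        obtain ⟨k1, k2, k3⟩ := hCmem i p hp
        exact ⟨k1, by omega⟩) hdis
  have hcard : ∀ i : J, (CC z H (i : ℕ)).card ≤ 16 * XX H (i.1 / 4) := by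
    intro i
    refine (Finset.card_filter_le _ _).trans (card_QB_le ?_)
    have := hzX i
    omega
  have hph : ∀ p ∈ Fintype.piFinset (fun i : J => CC z H (i : ℕ)), ∀ i : J,
      nrm (p i) % 4 = (i : ℕ) % 4 := by
    intro p hp i
    rw [Fintype.mem_piFinset] at hp
    have h5 := ((mem_CC hH).1 (hp i)).2.2
    rw [← ph_mod H (p i), h5]
  have hbox := box_dec hR hE hB hF hL (x := x) (y := y) hab J inferInstance (fun i : J => CC z H i)
    (fun i : J => 16 * XX H (i.1 / 4)) κ S₀ hκ hcard hHB h₀O c6 (fun i p hp => by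
      obtain ⟨k1, k2, k3⟩ := hCmem i p hp
      refine ⟨k1, fun h => ?_⟩
      rw [Finset.mem_union] at h
      rcases h with h | h
      · have := h₀ p h
        omega
      · have := hZ p h
        omega) hdis (by
        intro p hp
        have hq := hph p hp
        rw [Fintype.mem_piFinset] at hp
        have h5 := prod_tt S₀ (fun u => u) h₀O
        have h6 := prod_tt (univ : Finset J) p fun i _ => ((mem_CC hH).1 (hp i)).1
        have h7 : (∏ i ∈ J, i) % 4 = (∏ i : J, nrm (p i)) % 4 := by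
          rw [← Finset.prod_coe_sort J (fun i => i)]
          rw [Finset.prod_nat_mod, Finset.prod_nat_mod univ 4 (fun i : J => nrm (p i))]
          congr 1
          exact Finset.prod_congr rfl fun i _ => (hq i).symm
        rw [Nat.mul_mod, h7] at c1
        rcases h5 with ⟨h5, h8⟩ | ⟨h5, h8⟩ <;> rcases h6 with ⟨h6, h9⟩ | ⟨h6, h9⟩ <;>
          rw [h5, h6] at c1 <;> rw [h8, h9]
        · rfl
        · omega
        · omega
        · decide)
  have e1 : (((Fintype.piFinset fun i : J => CC z H i).filter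
      fun p => NdJ5 F K V x y S₀ (univ.image p) ∧ GdJ5 F x y a b (S₀ ∪ univ.image p)).card) =
      ((RgJ (ZZ F) X z H k).filter fun S => ky z H S = (S₀, J) ∧
        (NdJ5 F K V x y (sm z S) (la z S) ∧ GdJ5 F x y a b S)).card := by
    refine Eq.trans (fcc ?_) ((key_bij hH hZ hkey
      (fun S => NdJ5 F K V x y (sm z S) (la z S) ∧ GdJ5 F x y a b S)).trans (fcc fun _ _ => Iff.rfl))
    intro p hp
    rw [Fintype.mem_piFinset] at hp
    rw [sm_fill hH h₀ hp, la_fill hH h₀ hp]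
  have e2 : (((Fintype.piFinset fun i : J => CC z H i).filter
      fun p => NdJ5 F K V x y S₀ (univ.image p)).card) =
      ((RgJ (ZZ F) X z H k).filter fun S => ky z H S = (S₀, J) ∧
        NdJ5 F K V x y (sm z S) (la z S)).card := by
    refine Eq.trans (fcc ?_) ((key_bij hH hZ hkey (fun S => NdJ5 F K V x y (sm z S) (la z S))).trans
      (fcc fun _ _ => Iff.rfl))
    intro p hp
    rw [Fintype.mem_piFinset] at hp
    rw [sm_fill hH h₀ hp, la_fill hH h₀ hp]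
  rw [← e1, ← e2]
  have e3 : (((Fintype.piFinset fun i : J => CC z H i).filter
      fun p => NdJ5 F K V x y S₀ (univ.image p)).card : ℝ) ≤
      (((RgJ (ZZ F) X z H k).filter fun S => ky z H S = (S₀, J) ∧ True).card : ℝ) := by
    rw [e2]
    have : (RgJ (ZZ F) X z H k).filter (fun S => ky z H S = (S₀, J) ∧
        NdJ5 F K V x y (sm z S) (la z S)) ⊆
        (RgJ (ZZ F) X z H k).filter fun S => ky z H S = (S₀, J) ∧ True := by
      intro S hS
      rw [Finset.mem_filter] at hS ⊢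
      exact ⟨hS.1, hS.2.1, trivial⟩
    exact_mod_cast Finset.card_le_card this
  refine hbox.trans ?_
  have hJK : J.card ≤ k := by omega
  have hSK : (S₀ ∪ ZZ F).card + J.card ≤ 2 * k := by
    have := Finset.card_union_le S₀ (ZZ F)
    omega
  obtain ⟨m, hm⟩ : ∃ m : ℕ, m = (prs J).card := ⟨_, rfl⟩
  have hpr : m ≤ J.card * J.card := by
    rw [hm]
    refine (prs_card J).trans ?_
    rw [hcJ]
  rw [← hm]
  have hN0 : (0 : ℝ) < ((∏ p ∈ S₀, nrm p : ℕ) : ℝ) := by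
    exact_mod_cast Finset.prod_pos fun p hp => nrm_one_le (h₀O p hp)
  have hprod : ∏ j : J, ((16 * XX H (j.1 / 4) : ℕ) : ℝ) ≤
      3 ^ (3 * k) * (X * (1 / ((∏ p ∈ S₀, nrm p : ℕ) : ℝ))) := by
    have h5 : ∏ j : J, ((16 * XX H (j.1 / 4) : ℕ) : ℝ) =
        16 ^ J.card * ((∏ i ∈ J, XX H (i / 4) : ℕ) : ℝ) := by
      rw [← Finset.prod_coe_sort J (fun i => XX H (i / 4))]
      push_cast
      rw [Finset.prod_mul_distrib, Finset.prod_const, Finset.card_univ, hcJ]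
    have h6 : ((∏ i ∈ J, XX H (i / 4) : ℕ) : ℝ) ≤ X * (1 / ((∏ p ∈ S₀, nrm p : ℕ) : ℝ)) := by
      rw [mul_one_div, le_div_iff₀ hN0, mul_comm]
      exact_mod_cast c5
    have h7 : (16 : ℝ) ^ J.card ≤ 3 ^ (3 * k) := by
      calc (16 : ℝ) ^ J.card ≤ 27 ^ J.card := pow_le_pow_left₀ (by norm_num) (by norm_num) _
        _ = 3 ^ (3 * J.card) := by rw [pow_mul]; norm_num
        _ ≤ 3 ^ (3 * k) := pow_le_pow_right₀ (by norm_num) (by omega)
    rw [h5]
    gcongr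
  have hpw : (2 : ℝ) ^ (((S₀ ∪ ZZ F).card + 4) * Fintype.card J + m) * 3 ^ (3 * k) ≤
      3 ^ (9 * k ^ 2) := by
    refine (mul_le_mul_of_nonneg_right (pow_le_pow_left₀ (by norm_num)
      (show (2 : ℝ) ≤ 3 by norm_num) _) (by positivity)).trans ?_
    rw [← pow_add]
    apply pow_le_pow_right₀ (by norm_num)
    rw [hcJ]
    have h5 : ((S₀ ∪ ZZ F).card + J.card) * J.card ≤ 2 * k * k := Nat.mul_le_mul hSK hJK
    have h6 : k ≤ k * k := by
      rcases Nat.eq_zero_or_pos k with h | h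
      · rw [h]
      · exact Nat.le_mul_of_pos_left k h
    nlinarith
  refine add_le_add ?_ ?_
  · exact mul_le_mul_of_nonneg_left e3 hε.le
  · have hX1 : (0 : ℝ) ≤ X * (1 / ((∏ p ∈ S₀, nrm p : ℕ) : ℝ)) := by positivity
    calc (2 : ℝ) ^ (((S₀ ∪ ZZ F).card + 4) * Fintype.card J + m) *
        (κ * ∏ j : J, ((16 * XX H (j.1 / 4) : ℕ) : ℝ)) ≤
        2 ^ (((S₀ ∪ ZZ F).card + 4) * Fintype.card J + m) *
          (κ * (3 ^ (3 * k) * (X * (1 / ((∏ p ∈ S₀, nrm p : ℕ) : ℝ))))) := by gcongr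
      _ = (2 ^ (((S₀ ∪ ZZ F).card + 4) * Fintype.card J + m) * 3 ^ (3 * k)) *
          (κ * (X * (1 / ((∏ p ∈ S₀, nrm p : ℕ) : ℝ)))) := by ring
      _ ≤ 3 ^ (9 * k ^ 2) * (κ * (X * (1 / ((∏ p ∈ S₀, nrm p : ℕ) : ℝ)))) := by gcongr
      _ = _ := by ring

end Pool.Agent.NH57.BP.KEYJ

namespace Pool.Agent.NH57.BP

open Finset
open Pool.Agent.Y698
open Pool.Agent.Y698.SG hiding PD
open Pool.Agent.Y703.CX (jj XX)
open Pool.Agent.R426.QK
open Pool.Agent.R426.QJ (Fx ZZ SSJ RgJ)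
open Pool.Agent.NH57.BJ (LAXJ)
open Pool.Agent.R426.QK.KEY (fcc card_sub ky ph ph_div ph_mod CC mem_CC mem_SS le_XX nrm_one_le
  prod_split prod_ph prod_mod ph_inj sm_disj sm_union sm_fill la_fill ky_fill prod_tt hb_box
  card_QB_le sum_inv prs_card)
open Pool.Agent.R426.QJ.KEY (key_facts key_bij keg_err)
open Pool.Agent.NH57.BP.KEYJ
open scoped Classical

/-- **BL-45 KEYJ.** -/
theorem t_KEYJ5 : S_KEYJ5 := by
  rintro hR ⟨C₁, hC₁, hb1⟩ hE hB
  refine ⟨C₁, hC₁, ?_⟩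
  intro I _ F hF ε K V hε hL x y a b hab X z H k N κ hX hH hz hκ h1 hN hZ hZk
  set T := (RgJ (ZZ F) X z H k).image (ky z H) with hT
  have hfib : ∀ P : Finset RR → Prop, (((RgJ (ZZ F) X z H k).filter fun S => P S).card : ℝ) =
      ∑ k' ∈ T, (((RgJ (ZZ F) X z H k).filter fun S => ky z H S = k' ∧ P S).card : ℝ) := by
    intro P
    rw [Finset.card_eq_sum_card_fiberwise (f := ky z H) (t := T) (by
      intro S hS
      rw [Finset.mem_coe, Finset.mem_filter] at hS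
      exact Finset.mem_coe.2 (Finset.mem_image_of_mem _ hS.1))]
    push_cast
    refine Finset.sum_congr rfl fun k' _ => ?_
    congr 2
    ext S
    simp only [Finset.mem_filter]
    tauto
  have hall : ((RgJ (ZZ F) X z H k).card : ℝ) =
      ∑ k' ∈ T, (((RgJ (ZZ F) X z H k).filter fun S => ky z H S = k' ∧ True).card : ℝ) := by
    rw [Finset.card_eq_sum_card_fiberwise (f := ky z H) (t := T) (by
      intro S hS
      exact Finset.mem_coe.2 (Finset.mem_image_of_mem _ hS))]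
    push_cast
    exact Finset.sum_congr rfl fun k' _ => congrArg _ (fcc fun _ _ => by tauto)
  have q1 : (((RgJ (ZZ F) X z H k).filter fun S =>
      NdJ5 F K V x y (sm z S) (la z S) ∧ GdJ5 F x y a b S).card : ℝ) =
      ∑ k' ∈ T, (((RgJ (ZZ F) X z H k).filter fun S => ky z H S = k' ∧
        (NdJ5 F K V x y (sm z S) (la z S) ∧ GdJ5 F x y a b S)).card : ℝ) :=
    (congrArg _ (fcc fun _ _ => Iff.rfl)).trans
      ((hfib fun S => NdJ5 F K V x y (sm z S) (la z S) ∧ GdJ5 F x y a b S).trans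
      (Finset.sum_congr rfl fun k' _ => congrArg _ (fcc fun _ _ => Iff.rfl)))
  rw [q1, hfib, Finset.mul_sum, ← Finset.sum_sub_distrib, hall, Finset.mul_sum]
  refine (Finset.abs_sum_le_sum_abs _ _).trans ?_
  have h3 : ∑ k' ∈ T, |(((RgJ (ZZ F) X z H k).filter fun S => ky z H S = k' ∧
      (NdJ5 F K V x y (sm z S) (la z S) ∧ GdJ5 F x y a b S)).card : ℝ) -
      c2 ^ Fintype.card I * (((RgJ (ZZ F) X z H k).filter fun S =>
      ky z H S = k' ∧ NdJ5 F K V x y (sm z S) (la z S)).card : ℝ)| ≤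
      ∑ k' ∈ T, (ε * (((RgJ (ZZ F) X z H k).filter fun S =>
      ky z H S = k' ∧ True).card : ℝ) +
      (3 ^ (9 * k ^ 2) * κ) * (X * (1 / ((∏ p ∈ k'.1, nrm p : ℕ) : ℝ)))) := by
    refine Finset.sum_le_sum fun k' hk => ?_
    obtain ⟨S₀, J⟩ := k'
    exact per_key hR hE hB hF hL hab hε hb1 hH hz hκ h1 hZ hZk hk
  refine h3.trans ?_
  rw [Finset.sum_add_distrib]
  refine add_le_add (le_refl _) ?_
  exact keg_err hX hH hz hκ hN hZ fun k' hk => hk

end Pool.Agent.NH57.BP
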