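import Pool.Agent.NH57.BL.Stm3
import Pool.Agent.NH57.BL.LOW2
import Pool.Agent.R426.QJ.LOW

/-!
# BL-47: the classes modulo `8` of the sets disjoint from `Z` have positive density

After `Pool/Agent/NH57/BL/LOW2.lean` (helper15) and `Pool/Agent/R426/QJ/LOW.lean`.
-/

set_option autoImplicit false
set_option linter.unusedVariables false

open scoped Classical

namespace Pool.Agent.NH57.BP.LOWJ

open Finset
open Pool.Agent.Y698
open Pool.Agent.Y698.SG hiding PD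
open Pool.Agent.R426.QK
open Pool.Agent.R426.QJ.LOW (nrm_mk_le)
open Pool.Agent.NH57.BO
open Pool.Agent.NH57.BO.LOW (Res exists_res T5 mem_T5 nrm_add_le eight_fR_ne dD dm d_spec PD_mem5
  card_big)

/-- the elements `r` modulo `M` of norm at most `X` -/
noncomputable def TJ5 (M r : RR) (X : ℕ) : Finset RR := (ZB X).filter fun n => M ∣ n - r

lemma mem_TJ5 {M r : RR} {X : ℕ} {n : RR} : n ∈ TJ5 M r X ↔ nrm n ≤ X ∧ M ∣ n - r := by
  unfold TJ5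
  rw [mem_filter, mem_ZB]

lemma TJ5_lower {M : RR} (hM0 : M ≠ 0) (r : RR) {X : ℕ} (hX : 4 * nrm r + 2 ≤ X) :
    X ≤ 16 * nrm M * (TJ5 M r X).card := by
  have hN : 0 < nrm M := nrm_pos' hM0
  obtain ⟨B, hB1, hB2⟩ : ∃ B : ℕ, B * B ≤ (X - 2 * nrm r) / (8 * nrm M) ∧
      (X - 2 * nrm r) / (8 * nrm M) < (B + 1) * (B + 1) :=
    ⟨Nat.sqrt ((X - 2 * nrm r) / (8 * nrm M)), Nat.sqrt_le _, Nat.lt_succ_sqrt _⟩
  have h1 : ((range (B + 1)) ×ˢ (range (B + 1))).card ≤ (TJ5 M r X).card := by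
    refine card_le_card_of_injOn
      (fun p : ℕ × ℕ => r + M * mk ((p.1 : ℤ), (p.2 : ℤ))) ?_ ?_
    · intro p hp
      have hp' : p.1 < B + 1 ∧ p.2 < B + 1 := by
        simpa using hp
      rw [mem_coe, mem_TJ5]
      refine ⟨?_, ⟨mk ((p.1 : ℤ), (p.2 : ℤ)), by ring⟩⟩
      have h2 : nrm (r + M * mk ((p.1 : ℤ), (p.2 : ℤ))) ≤
          2 * nrm r + 2 * nrm (M * mk ((p.1 : ℤ), (p.2 : ℤ))) := by
        exact_mod_cast nrm_add_le r (M * mk ((p.1 : ℤ), (p.2 : ℤ)))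
      rw [nrm_mul] at h2
      have h3 := nrm_mk_le (Nat.lt_succ_iff.1 hp'.1) (Nat.lt_succ_iff.1 hp'.2)
      have h4 : B * B * (8 * nrm M) ≤ X - 2 * nrm r :=
        (Nat.le_div_iff_mul_le (by positivity)).1 hB1
      have h5 : nrm M * nrm (mk ((p.1 : ℤ), (p.2 : ℤ))) ≤ nrm M * (4 * (B * B)) :=
        Nat.mul_le_mul_left _ h3
      calc nrm (r + M * mk ((p.1 : ℤ), (p.2 : ℤ))) ≤
          2 * nrm r + 2 * (nrm M * nrm (mk ((p.1 : ℤ), (p.2 : ℤ)))) := h2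
        _ ≤ 2 * nrm r + 2 * (nrm M * (4 * (B * B))) :=
          Nat.add_le_add_left (Nat.mul_le_mul_left _ h5) _
        _ = 2 * nrm r + B * B * (8 * nrm M) := by ring
        _ ≤ 2 * nrm r + (X - 2 * nrm r) := Nat.add_le_add_left h4 _
        _ = X := by omega
    · intro p _ q _ h
      have h2 : M * mk ((p.1 : ℤ), (p.2 : ℤ)) = M * mk ((q.1 : ℤ), (q.2 : ℤ)) :=
        add_left_cancel h
      have h3 := mk_inj (mul_left_cancel₀ hM0 h2)
      rw [Prod.mk.injEq] at h3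
      exact Prod.ext (by exact_mod_cast h3.1) (by exact_mod_cast h3.2)
  rw [card_product, card_range] at h1
  have h2 : X - 2 * nrm r < (B + 1) * (B + 1) * (8 * nrm M) := by
    rw [Nat.div_lt_iff_lt_mul (by positivity)] at hB2
    exact hB2
  have h3 : (B + 1) * (B + 1) * (8 * nrm M) ≤ (TJ5 M r X).card * (8 * nrm M) :=
    Nat.mul_le_mul_right _ h1
  have h5 : 16 * nrm M * (TJ5 M r X).card = 2 * ((TJ5 M r X).card * (8 * nrm M)) := by ring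
  rw [h5]
  omega

/-- the primary primes are prime to `8 * fR` -/
lemma cop8 {u : RR} (h : Pq u) : IsCoprime u (8 * fR) := by
  have h1 : IsCoprime u aR := ((prime_aR.irreducible.coprime_iff_not_dvd).2 (not_aR h.prm)).symm
  have h2 : IsCoprime u (cj aR) :=
    ((prime_cjaR.irreducible.coprime_iff_not_dvd).2 h.prm.cop2).symm
  have h3 : IsCoprime u fR := ((Pool.Agent.Y698.prime_fR.irreducible.coprime_iff_not_dvd).2 h.prm.cop7).symm
  have h8 : (8 : RR) = aR ^ 3 * cj aR ^ 3 := Pool.Agent.R426.QC.eight_eq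
  rw [h8]
  exact ((h1.pow_right (n := 3)).mul_right (h2.pow_right (n := 3))).mul_right h3

/-- the Chinese remainder theorem -/
lemma exists_crt {Z : Finset RR} (hZ : ∀ u ∈ Z, Pq u) (r : RR) :
    ∃ r' : RR, 8 * fR ∣ r' - r ∧ (∏ u ∈ Z, u) ∣ r' - 1 := by
  have h : IsCoprime (∏ u ∈ Z, u) (8 * fR) := IsCoprime.prod_left fun u hu => cop8 (hZ u hu)
  obtain ⟨b, a, hab⟩ := h
  refine ⟨r * (b * ∏ u ∈ Z, u) + a * (8 * fR), ⟨a * (1 - r), ?_⟩, ⟨b * (r - 1), ?_⟩⟩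
  · linear_combination r * hab
  · linear_combination hab

section

variable {x y : ZMod 2} {r r' : RR} (hr : Res x y r)

lemma TJ5_sub {P : RR} (h : 8 * fR ∣ r' - r) (X : ℕ) : TJ5 (8 * fR * P) r' X ⊆ T5 r X := by
  intro n hn
  rw [mem_TJ5] at hn
  rw [mem_T5]
  refine ⟨hn.1, ?_⟩
  have h1 : n - r = (n - r') + (r' - r) := by ring
  rw [h1]
  exact dvd_add ((dvd_mul_right _ _).trans hn.2) h

lemma PD_memJ5 (hS : S_SUP5) {Z : Finset RR} (h : 8 * fR ∣ r' - r) (h' : (∏ u ∈ Z, u) ∣ r' - 1)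
    {n : RR} {X : ℕ} (hn : n ∈ TJ5 (8 * fR * ∏ u ∈ Z, u) r' X) :
    PD (dD hr n) ∈ SSJ5 Z x y X := by
  have hT := mem_T5.1 (TJ5_sub h X hn)
  rw [mem_TJ5] at hn
  obtain ⟨h1, h3, h4⟩ := d_spec hr hT.2
  unfold SSJ5
  rw [mem_filter]
  refine ⟨PD_mem5 hS h1 ((norm_le_of_dvd h4 ⟨_, h3⟩).trans hT.1), ?_⟩
  rw [Finset.disjoint_left]
  intro π hπ hπZ
  rw [mem_PD h1.1.ne] at hπ
  have hd : π ∣ ∏ u ∈ Z, u := Finset.dvd_prod_of_mem (fun u => u) hπZ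
  have h5 : π ∣ n := hπ.2.trans ⟨_, h3⟩
  have h6 : π ∣ n - r' := (hd.mul_left _).trans hn.2
  have h7 : π ∣ n - (n - r') - (r' - 1) := dvd_sub (dvd_sub h5 h6) (hd.trans h')
  have h8 : n - (n - r') - (r' - 1) = 1 := by ring
  rw [h8] at h7
  exact hπ.1.prime.not_isUnit (isUnit_of_dvd_one h7)

lemma card_smallJ5 (hS : S_SUP5) {Z : Finset RR} (h : 8 * fR ∣ r' - r)
    (h' : (∏ u ∈ Z, u) ∣ r' - 1) (X L : ℕ) :
    ((TJ5 (8 * fR * ∏ u ∈ Z, u) r' X).filter fun n => nrm (dm hr n) ≤ L).card ≤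
    (ZB L).card * (SSJ5 Z x y X).card := by
  rw [← card_product]
  refine card_le_card_of_injOn (fun n => (dm hr n, PD (dD hr n))) ?_ ?_
  · intro n hn
    rw [mem_coe, mem_filter] at hn
    rw [mem_coe, mem_product, mem_ZB]
    exact ⟨hn.2, PD_memJ5 hr hS h h' hn.1⟩
  · intro n hn n' hn' he
    rw [mem_coe, mem_filter] at hn hn'
    have k := mem_T5.1 (TJ5_sub h X hn.1)
    have k' := mem_T5.1 (TJ5_sub h X hn'.1)
    obtain ⟨h1, h3, h4⟩ := d_spec hr k.2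
    obtain ⟨k1, k3, k4⟩ := d_spec hr k'.2
    rw [Prod.mk.injEq] at he
    rw [h3, k3, ← h1.1.prod, ← k1.1.prod, he.1, he.2]

lemma card_bigJ5 {P : RR} (h : 8 * fR ∣ r' - r) {X L : ℕ} (hL : 1 ≤ L) :
    (((TJ5 (8 * fR * P) r' X).filter fun n => ¬ nrm (dm hr n) ≤ L).card : ℝ) ≤
      16 * X * (64 / L) := by
  refine le_trans ?_ (card_big hr hL)
  exact_mod_cast card_le_card (filter_subset_filter _ (TJ5_sub h X))

end

end Pool.Agent.NH57.BP.LOWJ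

namespace Pool.Agent.NH57.BP

open Finset
open Pool.Agent.Y698
open Pool.Agent.Y698.SG hiding PD
open Pool.Agent.R426.QK
open Pool.Agent.NH57.BO
open Pool.Agent.NH57.BO.LOW (Res exists_res T5 mem_T5 nrm_add_le eight_fR_ne dD dm d_spec PD_mem5
  card_big)

/-- **BL-47** -/
theorem t_LOWJ5 : S_SUP5 → S_LOWJ5 := by
  intro hS Z hZ x y
  obtain ⟨r, hr⟩ := exists_res x y
  obtain ⟨r', hr1, hr2⟩ := LOWJ.exists_crt hZ r
  have hP : (∏ u ∈ Z, u) ≠ 0 := Finset.prod_ne_zero_iff.2 fun u hu => (hZ u hu).prime.ne_zero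
  have hM0 : (8 * fR * ∏ u ∈ Z, u : RR) ≠ 0 := mul_ne_zero eight_fR_ne hP
  have hN : 0 < nrm (8 * fR * ∏ u ∈ Z, u) := nrm_pos' hM0
  obtain ⟨N, hNdef⟩ : ∃ N : ℕ, N = nrm (8 * fR * ∏ u ∈ Z, u) := ⟨_, rfl⟩
  rw [← hNdef] at hN
  obtain ⟨L, hL⟩ : ∃ L : ℕ, L = 32768 * N := ⟨_, rfl⟩
  have hL1 : 1 ≤ L := by rw [hL]; omega
  have hZ1 : 0 < (ZB L).card := by
    rw [card_pos]
    exact ⟨1, mem_ZB.2 (by rw [nrm_one]; exact hL1)⟩
  have hZ' : (0 : ℝ) < (ZB L).card := by exact_mod_cast hZ1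
  have hN' : (0 : ℝ) < N := by exact_mod_cast hN
  refine ⟨1 / (32 * N * (ZB L).card), 4 * nrm r' + 2, by positivity, fun X hX => ?_⟩
  obtain ⟨c, hc⟩ : ∃ c : ℕ, c = (LOWJ.TJ5 (8 * fR * ∏ u ∈ Z, u) r' X).card := ⟨_, rfl⟩
  have h1 : (X : ℝ) ≤ 16 * N * c := by
    rw [hc, hNdef]
    exact_mod_cast LOWJ.TJ5_lower hM0 r' hX
  have h2 : (c : ℝ) =
      (((LOWJ.TJ5 (8 * fR * ∏ u ∈ Z, u) r' X).filter fun n => nrm (dm hr n) ≤ L).card : ℝ) +
      (((LOWJ.TJ5 (8 * fR * ∏ u ∈ Z, u) r' X).filter fun n => ¬ nrm (dm hr n) ≤ L).card : ℝ) := by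
    rw [hc]
    exact_mod_cast (card_filter_add_card_filter_not
      (s := LOWJ.TJ5 (8 * fR * ∏ u ∈ Z, u) r' X) (fun n => nrm (dm hr n) ≤ L)).symm
  have h3 : (((LOWJ.TJ5 (8 * fR * ∏ u ∈ Z, u) r' X).filter fun n =>
      nrm (dm hr n) ≤ L).card : ℝ) ≤ (ZB L).card * (SSJ5 Z x y X).card := by
    exact_mod_cast LOWJ.card_smallJ5 hr hS hr1 hr2 X L
  have h4 := LOWJ.card_bigJ5 hr (P := ∏ u ∈ Z, u) hr1 (X := X) hL1
  have h5 : (16 * X * (64 / L) : ℝ) = X / (32 * N) := by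
    rw [hL]
    push_cast
    field_simp
    ring
  rw [h5] at h4
  have h6 : 16 * (N : ℝ) * c ≤
      16 * N * ((ZB L).card * (SSJ5 Z x y X).card + X / (32 * N)) := by
    apply mul_le_mul_of_nonneg_left _ (by positivity)
    linarith
  have h7 : 16 * (N : ℝ) * ((ZB L).card * (SSJ5 Z x y X).card + X / (32 * N)) =
      16 * N * ((ZB L).card * (SSJ5 Z x y X).card) + X / 2 := by
    field_simp
    ring
  have h8 : (X : ℝ) ≤ 32 * N * ((ZB L).card * (SSJ5 Z x y X).card) := by linarith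
  calc 1 / (32 * N * ((ZB L).card : ℝ)) * X ≤
      1 / (32 * N * ((ZB L).card : ℝ)) * (32 * N * ((ZB L).card * (SSJ5 Z x y X).card)) :=
        mul_le_mul_of_nonneg_left h8 (by positivity)
    _ = (SSJ5 Z x y X).card := by
      field_simp

end Pool.Agent.NH57.BP
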