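import Pool.Agent.NH57.BL.LJ
import Pool.Agent.NH57.BL.LX2

/-!
# BL-41 (S_LXJ2): the number of the tuples that can lie in the kernels

After `Pool/Agent/R426/QJ/LA2.lean`.
-/

set_option autoImplicit false
set_option linter.unusedVariables false
set_option linter.unusedSectionVars false

open scoped Classical

namespace Pool.Agent.NH57.BJ.LXJ2

open Finset
open Pool.Agent.NH57.BL (prs ext c2 IndA Vc)
open Pool.Agent.NH57.BL.LX2 (ch ch_add ch_zero ch_abs sum_ch two0 add_self0 add_eq0 sq0 sum_pairs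
  prs_card aa mem_prs aa_neg sum_aa gg gg_pos eq_one ch_one sum_ch_add card_ker dual_ker)

section generic

variable {E : Type} [AddCommGroup E] [Module (ZMod 2) E] [Fintype E] {M : ℕ}

/-- the exponent -/
noncomputable def EE (bl : Fin M → Fin M → E →ₗ[ZMod 2] E →ₗ[ZMod 2] ZMod 2)
    (h : prs (Fin M) → ZMod 2) (x : Fin M → E) : ZMod 2 :=
  ∑ e : prs (Fin M), h e * bl e.1.1 e.1.2 (x e.1.1) (x e.1.2)

theorem EE_eq (bl : Fin M → Fin M → E →ₗ[ZMod 2] E →ₗ[ZMod 2] ZMod 2)
    (h : prs (Fin M) → ZMod 2) (x : Fin M → E) :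
    EE bl h x = ∑ i, ∑ j, aa h (i, j) * bl i j (x i) (x j) := by
  unfold EE
  rw [sum_aa h fun e => bl e.1 e.2 (x e.1) (x e.2), sum_pairs]
  have h1 : ∑ k, aa h (k, k) * bl k k (x k) (x k) = 0 :=
    Finset.sum_eq_zero fun k _ => by rw [aa_neg h (e := (k, k)) (lt_irrefl _), zero_mul]
  rw [h1, add_zero]
  refine Finset.sum_congr rfl fun e he => ?_
  have h2 : e.1 < e.2 := mem_prs.1 he
  rw [aa_neg h (e := (e.2, e.1)) (not_lt.2 h2.le), zero_mul, add_zero]

theorem EE_add (bl : Fin M → Fin M → E →ₗ[ZMod 2] E →ₗ[ZMod 2] ZMod 2)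
    (hb : ∀ i j v w, bl i j v w = bl j i w v)
    (h : prs (Fin M) → ZMod 2) (x : Fin M → E) (i0 : Fin M) (v : E) :
    EE bl h (x + Pi.single i0 v) = EE bl h x + ∑ j, gg h i0 j * bl i0 j v (x j) := by
  rw [EE_eq, EE_eq]
  have h1 : ∀ i j, aa h (i, j) * bl i j ((x + Pi.single i0 v : Fin M → E) i)
      ((x + Pi.single i0 v : Fin M → E) j) =
      aa h (i, j) * bl i j (x i) (x j) +
        aa h (i, j) * bl i j (x i) ((Pi.single i0 v : Fin M → E) j) +
        (aa h (i, j) * bl i j ((Pi.single i0 v : Fin M → E) i) (x j) +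
          aa h (i, j) * bl i j ((Pi.single i0 v : Fin M → E) i)
            ((Pi.single i0 v : Fin M → E) j)) := by
    intro i j
    simp only [Pi.add_apply, map_add, LinearMap.add_apply]
    ring
  simp only [h1, Finset.sum_add_distrib]
  have h2 : ∑ i, ∑ j, aa h (i, j) * bl i j (x i) ((Pi.single i0 v : Fin M → E) j) =
      ∑ i, aa h (i, i0) * bl i0 i v (x i) := by
    refine Finset.sum_congr rfl fun i _ => ?_
    rw [Finset.sum_eq_single i0 (fun j _ hj => by rw [Pi.single_eq_of_ne hj, map_zero, mul_zero])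
      (fun hh => absurd (Finset.mem_univ _) hh), Pi.single_eq_same, hb]
  have h3 : ∑ i, ∑ j, aa h (i, j) * bl i j ((Pi.single i0 v : Fin M → E) i) (x j) =
      ∑ j, aa h (i0, j) * bl i0 j v (x j) := by
    rw [Finset.sum_eq_single i0 (fun i _ hi => Finset.sum_eq_zero fun j _ => by
      rw [Pi.single_eq_of_ne hi, map_zero, LinearMap.zero_apply, mul_zero])
      (fun hh => absurd (Finset.mem_univ _) hh), Pi.single_eq_same]
  have h4 : ∑ i, ∑ j, aa h (i, j) *
      bl i j ((Pi.single i0 v : Fin M → E) i) ((Pi.single i0 v : Fin M → E) j) = 0 := by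
    refine Finset.sum_eq_zero fun i _ => Finset.sum_eq_zero fun j _ => ?_
    by_cases hi : i = i0
    · by_cases hj : j = i0
      · subst hi
        subst hj
        rw [aa_neg h (e := (j, j)) (lt_irrefl _), zero_mul]
      · rw [Pi.single_eq_of_ne hj, map_zero, mul_zero]
    · rw [Pi.single_eq_of_ne hi, map_zero, LinearMap.zero_apply, mul_zero]
  rw [h2, h3, h4, add_zero, add_assoc]
  congr 1
  rw [← Finset.sum_add_distrib]
  refine Finset.sum_congr rfl fun j _ => ?_
  unfold gg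
  ring

/-- the tuples of elements of given subspaces -/
noncomputable def PP (V : Fin M → Submodule (ZMod 2) E) : Finset (Fin M → E) :=
  univ.filter fun x : Fin M → E => ∀ a, x a ∈ V a

theorem mem_PP {V : Fin M → Submodule (ZMod 2) E} {x : Fin M → E} :
    x ∈ PP V ↔ ∀ a, x a ∈ V a := by
  unfold PP
  rw [Finset.mem_filter]
  exact ⟨fun h => h.2, fun h => ⟨Finset.mem_univ _, h⟩⟩

theorem card_PP (V : Fin M → Submodule (ZMod 2) E) (Q : ℕ)
    (hQ : ∀ a, Fintype.card (V a) = Q) : (PP V).card = Q ^ M := by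
  have h1 : PP V = Fintype.piFinset fun a => univ.filter fun x : E => x ∈ V a := by
    ext x
    rw [mem_PP, Fintype.mem_piFinset]
    refine forall_congr' fun a => ?_
    rw [Finset.mem_filter]
    exact ⟨fun h => ⟨Finset.mem_univ _, h⟩, fun h => h.2⟩
  rw [h1, Fintype.card_piFinset]
  have h2 : ∀ a, (univ.filter fun x : E => x ∈ V a).card = Q := by
    intro a
    rw [← hQ a, ← Fintype.card_subtype]
  rw [Finset.prod_congr rfl fun a _ => h2 a, Finset.prod_const, Finset.card_univ,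
    Fintype.card_fin]

theorem mem_tr (V : Fin M → Submodule (ZMod 2) E) (j0 : Fin M) (v : E) (hv : v ∈ V j0)
    (x : Fin M → E) : x + Pi.single j0 v ∈ PP V ↔ x ∈ PP V := by
  rw [mem_PP, mem_PP]
  refine forall_congr' fun a => ?_
  by_cases ha : a = j0
  · subst ha
    rw [Pi.add_apply, Pi.single_eq_same]
    exact (V a).add_mem_iff_left hv
  · rw [Pi.add_apply, Pi.single_eq_of_ne ha, add_zero]

/-- translations -/
theorem sum_tr {R : Type} [AddCommMonoid R] (V : Fin M → Submodule (ZMod 2) E) (j0 : Fin M)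
    (v : E) (hv : v ∈ V j0) (F : (Fin M → E) → R) :
    ∑ x ∈ PP V, F (x + Pi.single j0 v) = ∑ x ∈ PP V, F x := by
  refine Finset.sum_nbij' (fun x => x + Pi.single j0 v) (fun x => x - Pi.single j0 v)
    ?_ ?_ ?_ ?_ ?_
  · intro x hx
    exact (mem_tr V j0 v hv x).2 hx
  · intro x hx
    rw [← mem_tr V j0 v hv, sub_add_cancel]
    exact hx
  · intro x _
    exact add_sub_cancel_right _ _
  · intro x _
    exact sub_add_cancel _ _
  · intro x _
    rfl

theorem card_fib (V : Fin M → Submodule (ZMod 2) E) (j0 : Fin M) (Z : (Fin M → E) → Prop)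
    (C : ℕ) (hC : ∀ x ∈ PP V,
      (univ.filter fun v : V j0 => Z (x + Pi.single j0 v.1)).card ≤ C) :
    ((PP V).filter Z).card * Fintype.card (V j0) ≤ C * (PP V).card := by
  have h1 : ∀ v : V j0, ((PP V).filter Z).card =
      ∑ x ∈ PP V, if Z (x + Pi.single j0 v.1) then 1 else 0 := by
    intro v
    rw [Finset.card_filter]
    exact (sum_tr V j0 v.1 v.2 fun x => if Z x then 1 else 0).symm
  calc ((PP V).filter Z).card * Fintype.card (V j0)
      = ∑ v : V j0, ∑ x ∈ PP V, (if Z (x + Pi.single j0 v.1) then 1 else 0 : ℕ) := by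
        rw [← Finset.sum_congr rfl fun v _ => h1 v, Finset.sum_const, Finset.card_univ,
          smul_eq_mul, mul_comm]
    _ = ∑ x ∈ PP V, (univ.filter fun v : V j0 => Z (x + Pi.single j0 v.1)).card := by
        rw [Finset.sum_comm]
        exact Finset.sum_congr rfl fun x _ => (Finset.card_filter _ _).symm
    _ ≤ ∑ x ∈ PP V, C := Finset.sum_le_sum hC
    _ = C * (PP V).card := by rw [Finset.sum_const, smul_eq_mul, mul_comm]

/-- the radical -/
noncomputable def Rd (V W : Submodule (ZMod 2) E) (b : E →ₗ[ZMod 2] E →ₗ[ZMod 2] ZMod 2) :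
    Finset W := univ.filter fun w : W => ∀ v ∈ V, b v w.1 = 0

theorem mem_Rd {V W : Submodule (ZMod 2) E} {b : E →ₗ[ZMod 2] E →ₗ[ZMod 2] ZMod 2} {w : W} :
    w ∈ Rd V W b ↔ ∀ v ∈ V, b v w.1 = 0 := by
  unfold Rd
  rw [Finset.mem_filter]
  exact ⟨fun h => h.2, fun h => ⟨Finset.mem_univ _, h⟩⟩

theorem sum_EE (V : Fin M → Submodule (ZMod 2) E)
    (bl : Fin M → Fin M → E →ₗ[ZMod 2] E →ₗ[ZMod 2] ZMod 2)
    (hb : ∀ i j v w, bl i j v w = bl j i w v) (Q R : ℕ) (hQ : ∀ a, Fintype.card (V a) = Q)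
    (hQ0 : 0 < Q) (hR : ∀ i j, (Rd (V i) (V j) (bl i j)).card ≤ R)
    (h : prs (Fin M) → ZMod 2) (hh : h ≠ 0) :
    |∑ x ∈ PP V, ch (EE bl h x)| * (Q : ℤ) ≤ R * ((PP V).card : ℤ) := by
  obtain ⟨e0, he0⟩ : ∃ e, h e ≠ 0 := by
    by_contra hcon
    push Not at hcon
    exact hh (funext hcon)
  obtain ⟨i0, hi0⟩ : ∃ i0, i0 = e0.1.1 := ⟨_, rfl⟩
  obtain ⟨j0, hj0⟩ : ∃ j0, j0 = e0.1.2 := ⟨_, rfl⟩
  have hij : gg h i0 j0 = 1 := by
    rw [hi0, hj0, gg_pos, eq_one _ he0]
  obtain ⟨Z, hZd⟩ : ∃ Z : (Fin M → E) → Prop, Z = fun x =>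
    ∀ v ∈ V i0, ∑ j, gg h i0 j * bl i0 j v (x j) = 0 := ⟨_, rfl⟩
  have h1 : (Q : ℤ) * ∑ x ∈ PP V, ch (EE bl h x) =
      (Q : ℤ) * ∑ x ∈ (PP V).filter Z, ch (EE bl h x) := by
    have h2 : ∀ v : V i0, ∑ x ∈ PP V, ch (EE bl h x) =
        ∑ x ∈ PP V, ch (EE bl h x) * ch (∑ j, gg h i0 j * bl i0 j v.1 (x j)) := by
      intro v
      refine (sum_tr V i0 v.1 v.2 fun x => ch (EE bl h x)).symm.trans ?_
      refine Finset.sum_congr rfl fun x _ => ?_
      rw [EE_add bl hb, ch_add]
    have h3 : (Q : ℤ) * ∑ x ∈ PP V, ch (EE bl h x) =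
        ∑ v : V i0, ∑ x ∈ PP V,
          ch (EE bl h x) * ch (∑ j, gg h i0 j * bl i0 j v.1 (x j)) := by
      rw [← Finset.sum_congr rfl fun v _ => h2 v, Finset.sum_const, Finset.card_univ, hQ,
        nsmul_eq_mul]
    rw [h3, Finset.sum_comm, Finset.sum_filter, Finset.mul_sum]
    refine Finset.sum_congr rfl fun x _ => ?_
    have h5 := sum_ch_add (fun v : V i0 => ∑ j, gg h i0 j * bl i0 j v.1 (x j)) (fun v w => by
      rw [← Finset.sum_add_distrib]
      refine Finset.sum_congr rfl fun j _ => ?_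
      rw [Submodule.coe_add, map_add, LinearMap.add_apply]
      ring)
    rw [← Finset.mul_sum, h5]
    have h4 : Z x ↔ ∀ v : V i0, ∑ j, gg h i0 j * bl i0 j v.1 (x j) = 0 := by
      rw [hZd]
      exact ⟨fun h v => h v.1 v.2, fun h v hv => h ⟨v, hv⟩⟩
    by_cases h6 : Z x
    · rw [if_pos (h4.1 h6), if_pos h6, hQ, mul_comm]
    · rw [if_neg (fun h => h6 (h4.2 h)), if_neg h6, mul_zero, mul_zero]
  have hV : (Q : ℤ) ≠ 0 := by exact_mod_cast hQ0.ne'
  rw [mul_left_cancel₀ hV h1]
  have h3 : |∑ x ∈ (PP V).filter Z, ch (EE bl h x)| ≤ (((PP V).filter Z).card : ℤ) := by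
    refine (Finset.abs_sum_le_sum_abs _ _).trans ?_
    rw [Finset.sum_congr rfl fun x _ => ch_abs _]
    simp
  have h4 : ((PP V).filter Z).card * Fintype.card (V j0) ≤ R * (PP V).card := by
    refine card_fib V j0 Z R fun x hx => ?_
    by_cases hne : (univ.filter fun v : V j0 => Z (x + Pi.single j0 v.1)).Nonempty
    swap
    · rw [Finset.not_nonempty_iff_eq_empty.1 hne, Finset.card_empty]
      exact Nat.zero_le _
    obtain ⟨w0, hw0⟩ := hne
    refine le_trans ?_ (hR i0 j0)
    refine Finset.card_le_card_of_injOn (fun w => w - w0) ?_ ?_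
    · intro w hw
      rw [Finset.mem_coe, mem_Rd]
      rw [Finset.mem_coe, Finset.mem_filter, hZd] at hw
      rw [Finset.mem_filter, hZd] at hw0
      intro v hv
      have h5 := hw.2 v hv
      have h6 := hw0.2 v hv
      have h7 : ∀ w : E, ∑ j, gg h i0 j * bl i0 j v ((x + Pi.single j0 w : Fin M → E) j) =
          ∑ j, gg h i0 j * bl i0 j v (x j) + bl i0 j0 v w := by
        intro w
        simp only [Pi.add_apply, map_add, mul_add, Finset.sum_add_distrib]
        congr 1
        rw [Finset.sum_eq_single j0 (fun j _ hj => by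
          rw [Pi.single_eq_of_ne hj, map_zero, mul_zero])
          (fun hh => absurd (Finset.mem_univ _) hh), Pi.single_eq_same, hij, one_mul]
      rw [h7] at h5 h6
      rw [Submodule.coe_sub, map_sub]
      linear_combination h5 - h6
    · intro w _ w' _ hww
      exact sub_left_injective hww
  rw [hQ] at h4
  have h5 : (((PP V).filter Z).card : ℤ) * (Q : ℤ) ≤ R * ((PP V).card : ℤ) := by
    exact_mod_cast h4
  exact (mul_le_mul_of_nonneg_right h3 (Int.natCast_nonneg _)).trans h5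

/-- the number of the orthogonal tuples -/
theorem card_orth (V : Fin M → Submodule (ZMod 2) E)
    (bl : Fin M → Fin M → E →ₗ[ZMod 2] E →ₗ[ZMod 2] ZMod 2)
    (hb : ∀ i j v w, bl i j v w = bl j i w v) (Q R : ℕ) (hQ : ∀ a, Fintype.card (V a) = Q)
    (hQ0 : 0 < Q) (hR : ∀ i j, (Rd (V i) (V j) (bl i j)).card ≤ R) :
    |(((PP V).filter fun x : Fin M → E =>
        ∀ e : prs (Fin M), bl e.1.1 e.1.2 (x e.1.1) (x e.1.2) = 0).card : ℤ) *
        2 ^ M.choose 2 - ((PP V).card : ℤ)| * (Q : ℤ) ≤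
      2 ^ M.choose 2 * (R * ((PP V).card : ℤ)) := by
  have h1 : (((PP V).filter fun x : Fin M → E =>
      ∀ e : prs (Fin M), bl e.1.1 e.1.2 (x e.1.1) (x e.1.2) = 0).card : ℤ) * 2 ^ M.choose 2 =
      ∑ h : prs (Fin M) → ZMod 2, ∑ x ∈ PP V, ch (EE bl h x) := by
    rw [Finset.sum_comm, Finset.card_filter]
    push_cast
    rw [Finset.sum_mul]
    refine Finset.sum_congr rfl fun x _ => ?_
    unfold EE
    rw [sum_ch (fun e : prs (Fin M) => bl e.1.1 e.1.2 (x e.1.1) (x e.1.2)), Fintype.card_coe,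
      prs_card]
    split_ifs
    · rw [one_mul]
    · rw [zero_mul]
  have h2 : ∑ x ∈ PP V, ch (EE bl 0 x) = ((PP V).card : ℤ) := by
    have h3 : ∀ x : Fin M → E, ch (EE bl 0 x) = 1 := by
      intro x
      unfold EE
      simp only [Pi.zero_apply, zero_mul, Finset.sum_const_zero, ch_zero]
    rw [Finset.sum_congr rfl fun x _ => h3 x, Finset.sum_const, nsmul_eq_mul, mul_one]
  rw [h1, ← Finset.add_sum_erase univ _ (Finset.mem_univ (0 : prs (Fin M) → ZMod 2)), h2,
    add_sub_cancel_left]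
  have h3 : |∑ h ∈ univ.erase (0 : prs (Fin M) → ZMod 2), ∑ x ∈ PP V, ch (EE bl h x)| *
      (Q : ℤ) ≤ ∑ h ∈ univ.erase (0 : prs (Fin M) → ZMod 2), R * ((PP V).card : ℤ) := by
    refine (mul_le_mul_of_nonneg_right (Finset.abs_sum_le_sum_abs _ _)
      (Int.natCast_nonneg _)).trans ?_
    rw [Finset.sum_mul]
    exact Finset.sum_le_sum fun h hh =>
      sum_EE V bl hb Q R hQ hQ0 hR h (Finset.ne_of_mem_erase hh)
  refine h3.trans ?_
  rw [Finset.sum_const, nsmul_eq_mul]
  refine mul_le_mul_of_nonneg_right ?_ (by positivity)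
  have h4 : (univ.erase (0 : prs (Fin M) → ZMod 2)).card ≤ 2 ^ M.choose 2 := by
    refine (Finset.card_erase_le).trans ?_
    rw [Finset.card_univ, Fintype.card_fun, Fintype.card_coe, prs_card, ZMod.card]
  exact_mod_cast h4

/-- the orthogonal tuples that are independent modulo `K` -/
noncomputable def GG (V : Fin M → Submodule (ZMod 2) E)
    (bl : Fin M → Fin M → E →ₗ[ZMod 2] E →ₗ[ZMod 2] ZMod 2) (K : Finset E) :
    Finset (Fin M → E) :=
  (PP V).filter fun x : Fin M → E =>
    (∀ e : prs (Fin M), bl e.1.1 e.1.2 (x e.1.1) (x e.1.2) = 0) ∧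
    ∀ a : Fin M → ZMod 2, (∃ i, a i ≠ 0) → ∑ i, a i • x i ∉ K

theorem mem_GG {V : Fin M → Submodule (ZMod 2) E}
    {bl : Fin M → Fin M → E →ₗ[ZMod 2] E →ₗ[ZMod 2] ZMod 2} {K : Finset E}
    {x : Fin M → E} : x ∈ GG V bl K ↔ (∀ a, x a ∈ V a) ∧
    (∀ e : prs (Fin M), bl e.1.1 e.1.2 (x e.1.1) (x e.1.2) = 0) ∧
    ∀ a : Fin M → ZMod 2, (∃ i, a i ≠ 0) → ∑ i, a i • x i ∉ K := by
  unfold GG
  rw [Finset.mem_filter, mem_PP]

/-- the number of the orthogonal tuples that are independent modulo `K` -/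
theorem card_good (V : Fin M → Submodule (ZMod 2) E)
    (bl : Fin M → Fin M → E →ₗ[ZMod 2] E →ₗ[ZMod 2] ZMod 2)
    (hb : ∀ i j v w, bl i j v w = bl j i w v) (Q R : ℕ) (hQ : ∀ a, Fintype.card (V a) = Q)
    (hQ0 : 0 < Q) (hR : ∀ i j, (Rd (V i) (V j) (bl i j)).card ≤ R) (K : Finset E) :
    |((GG V bl K).card : ℤ) * 2 ^ M.choose 2 - (Q : ℤ) ^ M| * (Q : ℤ) ≤
      2 ^ M.choose 2 * ((Q : ℤ) ^ M * (R + 2 ^ M * K.card : ℤ)) := by
  obtain ⟨O, hOd⟩ : ∃ O : Finset (Fin M → E), O = (PP V).filter fun x : Fin M → E =>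
    ∀ e : prs (Fin M), bl e.1.1 e.1.2 (x e.1.1) (x e.1.2) = 0 := ⟨_, rfl⟩
  obtain ⟨G, hGd⟩ : ∃ G : Finset (Fin M → E), G = GG V bl K := ⟨_, rfl⟩
  have h0 := card_orth V bl hb Q R hQ hQ0 hR
  rw [← hOd, card_PP V Q hQ] at h0
  rw [← hGd]
  have hGO : G ⊆ O := by
    intro x hx
    rw [hGd, mem_GG] at hx
    rw [hOd, Finset.mem_filter, mem_PP]
    exact ⟨hx.1, hx.2.1⟩
  obtain ⟨Zf, hZf⟩ : ∃ Zf : (Fin M → ZMod 2) → (Fin M → E) → Prop,
    ∀ a x, Zf a x ↔ ∑ i, a i • x i ∈ K := ⟨fun a x => ∑ i, a i • x i ∈ K, fun _ _ => Iff.rfl⟩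
  have h1 : ((O.card : ℤ) - G.card) * (Q : ℤ) ≤ 2 ^ M * ((Q : ℤ) ^ M * K.card) := by
    have h2 : O.card - G.card ≤ ∑ a ∈ univ.erase (0 : Fin M → ZMod 2),
        ((PP V).filter (Zf a)).card := by
      rw [← Finset.card_sdiff_of_subset hGO]
      refine (Finset.card_le_card ?_).trans Finset.card_biUnion_le
      intro x hx
      rw [Finset.mem_sdiff, hOd, hGd, Finset.mem_filter, mem_GG, mem_PP] at hx
      obtain ⟨hx1, hx2⟩ := hx
      rw [Finset.mem_biUnion]
      by_contra hcon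
      push Not at hcon
      refine hx2 ⟨hx1.1, hx1.2, fun a ha hK => ?_⟩
      refine hcon a ?_ ?_
      · rw [Finset.mem_erase]
        refine ⟨fun h3 => ?_, Finset.mem_univ _⟩
        obtain ⟨i, hi⟩ := ha
        rw [h3] at hi
        exact hi rfl
      · rw [Finset.mem_filter, mem_PP, hZf]
        exact ⟨hx1.1, hK⟩
    have h3 : ∀ a ∈ univ.erase (0 : Fin M → ZMod 2),
        ((PP V).filter (Zf a)).card * Q ≤ K.card * Q ^ M := by
      intro a ha
      obtain ⟨j0, hj0⟩ : ∃ j, a j ≠ 0 := by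
        by_contra hcon
        push Not at hcon
        exact Finset.ne_of_mem_erase ha (funext hcon)
      have h4 := card_fib V j0 (Zf a) K.card fun x hx => by
        refine Finset.card_le_card_of_injOn (fun v => ∑ i, a i • x i + v.1) ?_ ?_
        · intro v hv
          rw [Finset.mem_coe, Finset.mem_filter, hZf] at hv
          have h5 : ∑ i, a i • (x + Pi.single j0 v.1 : Fin M → E) i =
              ∑ i, a i • x i + v.1 := by
            simp only [Pi.add_apply, smul_add, Finset.sum_add_distrib]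
            congr 1
            rw [Finset.sum_eq_single j0 (fun j _ hj => by
              rw [Pi.single_eq_of_ne hj, smul_zero])
              (fun hh => absurd (Finset.mem_univ _) hh), Pi.single_eq_same, eq_one _ hj0,
              one_smul]
          rw [h5] at hv
          exact Finset.mem_coe.2 hv.2
        · intro v _ v' _ hvv
          exact Subtype.ext (add_left_cancel hvv)
      rw [hQ, card_PP V Q hQ] at h4
      exact h4
    have h4 : (O.card - G.card) * Q ≤ 2 ^ M * (Q ^ M * K.card) := by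
      refine (Nat.mul_le_mul_right _ h2).trans ?_
      rw [Finset.sum_mul]
      refine (Finset.sum_le_sum h3).trans ?_
      rw [Finset.sum_const, smul_eq_mul, mul_comm K.card]
      refine Nat.mul_le_mul_right _ ?_
      refine (Finset.card_erase_le).trans ?_
      rw [Finset.card_univ, Fintype.card_fun, Fintype.card_fin, ZMod.card]
    have h5 : ((O.card - G.card : ℕ) : ℤ) = (O.card : ℤ) - G.card :=
      Nat.cast_sub (Finset.card_le_card hGO)
    rw [← h5]
    exact_mod_cast h4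
  have h2 : (0 : ℤ) ≤ (O.card : ℤ) - G.card :=
    sub_nonneg.2 (by exact_mod_cast Finset.card_le_card hGO)
  push_cast at h0
  have h3 : |(G.card : ℤ) * 2 ^ M.choose 2 - (Q : ℤ) ^ M| ≤
      |(O.card : ℤ) * 2 ^ M.choose 2 - (Q : ℤ) ^ M| +
        ((O.card : ℤ) - G.card) * 2 ^ M.choose 2 := by
    have h4 : (G.card : ℤ) * 2 ^ M.choose 2 - (Q : ℤ) ^ M =
        ((O.card : ℤ) * 2 ^ M.choose 2 - (Q : ℤ) ^ M) -
          ((O.card : ℤ) - G.card) * 2 ^ M.choose 2 := by ring
    rw [h4]
    refine (abs_sub _ _).trans ?_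
    rw [abs_of_nonneg (a := ((O.card : ℤ) - G.card) * 2 ^ M.choose 2) (by positivity)]
  refine (mul_le_mul_of_nonneg_right h3 (Int.natCast_nonneg _)).trans ?_
  have h5 : (0 : ℤ) ≤ 2 ^ M.choose 2 := by positivity
  have h6 := mul_le_mul_of_nonneg_left h1 h5
  calc (|(O.card : ℤ) * 2 ^ M.choose 2 - (Q : ℤ) ^ M| +
        ((O.card : ℤ) - G.card) * 2 ^ M.choose 2) * (Q : ℤ)
      = |(O.card : ℤ) * 2 ^ M.choose 2 - (Q : ℤ) ^ M| * (Q : ℤ) +
        2 ^ M.choose 2 * (((O.card : ℤ) - G.card) * (Q : ℤ)) := by ring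
    _ ≤ 2 ^ M.choose 2 * (R * (Q : ℤ) ^ M) +
        2 ^ M.choose 2 * (2 ^ M * ((Q : ℤ) ^ M * K.card)) := add_le_add h0 h6
    _ = _ := by ring

end generic

section blocks

variable {I U J : Type} [Fintype U] [Fintype J] [LinearOrder J] (a b : I → ZMod 2)
  (L : Blk I U J)

theorem fJ_add (i : I) (x y : Vc U J) (k : J) :
    fJ L i (x + y) k = fJ L i x k + fJ L i y k := by
  unfold fJ
  have h1 : ∑ u ∈ L.W i, (L.B u k + L.tU u * L.tJ k) * ((x + y).2.1 k + (x + y).1 u) =
      ∑ u ∈ L.W i, (L.B u k + L.tU u * L.tJ k) * (x.2.1 k + x.1 u) +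
        ∑ u ∈ L.W i, (L.B u k + L.tU u * L.tJ k) * (y.2.1 k + y.1 u) := by
    rw [← Finset.sum_add_distrib]
    refine Finset.sum_congr rfl fun u _ => ?_
    simp only [Prod.fst_add, Prod.snd_add, Pi.add_apply]
    ring
  rw [h1]
  simp only [Prod.snd_add, Prod.fst_add, Pi.add_apply]
  ring

theorem bj_def (i j : I) (x y : Vc U J) : bj L i j x y =
    ∑ k, (fJ L i x k * y.2.1 k + fJ L j y k * x.2.1 k) +
      ∑ k, ∑ l, (if k = l then 0 else L.tJ k * L.tJ l * (x.2.1 k * y.2.1 l)) := by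
  unfold bj
  congr 1
  refine Finset.sum_congr rfl fun k _ => Finset.sum_congr rfl fun l _ => ?_
  by_cases h : k = l
  · rw [if_pos h, if_pos h]
  · rw [if_neg h, if_neg h]

theorem bj_add (i j : I) (x y z : Vc U J) :
    bj L i j (x + y) z = bj L i j x z + bj L i j y z := by
  simp only [bj_def]
  have h1 : ∑ k, (fJ L i (x + y) k * z.2.1 k + fJ L j z k * (x + y).2.1 k) =
      ∑ k, (fJ L i x k * z.2.1 k + fJ L j z k * x.2.1 k) +
        ∑ k, (fJ L i y k * z.2.1 k + fJ L j z k * y.2.1 k) := by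
    rw [← Finset.sum_add_distrib]
    refine Finset.sum_congr rfl fun k _ => ?_
    rw [fJ_add, Prod.snd_add, Prod.fst_add, Pi.add_apply]
    ring
  have h2 : ∑ k, ∑ l, (if k = l then 0 else L.tJ k * L.tJ l * ((x + y).2.1 k * z.2.1 l)) =
      ∑ k, ∑ l, (if k = l then 0 else L.tJ k * L.tJ l * (x.2.1 k * z.2.1 l)) +
        ∑ k, ∑ l, (if k = l then 0 else L.tJ k * L.tJ l * (y.2.1 k * z.2.1 l)) := by
    rw [← Finset.sum_add_distrib]
    refine Finset.sum_congr rfl fun k _ => ?_
    rw [← Finset.sum_add_distrib]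
    refine Finset.sum_congr rfl fun l _ => ?_
    split_ifs
    · ring
    · rw [Prod.snd_add, Prod.fst_add, Pi.add_apply]
      ring
  rw [h1, h2]
  ring

theorem bj_symm (i j : I) (x y : Vc U J) : bj L i j x y = bj L j i y x := by
  unfold bj
  congr 1
  · exact Finset.sum_congr rfl fun k _ => add_comm _ _
  · rw [Finset.sum_comm]
    refine Finset.sum_congr rfl fun k _ => Finset.sum_congr rfl fun l _ => ?_
    by_cases h : l = k
    · rw [if_pos h, if_pos h.symm]
    · rw [if_neg h, if_neg (Ne.symm h)]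
      ring

/-- the form -/
noncomputable def bjL (i j : I) : Vc U J →ₗ[ZMod 2] Vc U J →ₗ[ZMod 2] ZMod 2 :=
  LinearMap.mk₂ (ZMod 2) (fun x y => bj L i j x y)
    (fun x x' y => bj_add L i j x x' y)
    (fun c x y => ZMod.map_smul (AddMonoidHom.mk' (fun x => bj L i j x y)
      fun x x' => bj_add L i j x x' y) c x)
    (fun x y y' => by
      rw [bj_symm, bj_add, bj_symm, bj_symm L j i y' x])
    (fun c x y => ZMod.map_smul (AddMonoidHom.mk' (fun y => bj L i j x y)
      fun y y' => by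
        rw [bj_symm, bj_add, bj_symm, bj_symm L j i y' x]) c y)

theorem bjL_apply (i j : I) (x y : Vc U J) : bjL L i j x y = bj L i j x y := rfl

/-- the unit vector of a large prime -/
noncomputable def ek (k : J) : Vc U J :=
  (fun _ => 0, fun l => if l = k then 1 else 0, 0)

theorem fJ_ek (i : I) (k l : J) :
    fJ L i (ek k) l = if l = k then L.sJ k + La L i k else 0 := by
  unfold fJ ek La
  by_cases h : l = k
  · subst h
    simp
  · simp [h]

theorem bj_ek (i j : I) (k : J) (x : Vc U J) :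
    bj L i j x (ek k) = (La L i k + La L j k + L.tJ k) * x.2.1 k +
      (∑ u ∈ L.W i, (L.B u k + L.tU u * L.tJ k) * x.1 u + x.2.2 * L.gJ i k +
        L.tJ k * ∑ l, L.tJ l * x.2.1 l) := by
  rw [bj_def]
  have h1 : ∑ l, (fJ L i x l * (ek (U := U) k).2.1 l + fJ L j (ek k) l * x.2.1 l) =
      fJ L i x k + (L.sJ k + La L j k) * x.2.1 k := by
    rw [Finset.sum_eq_single k (fun l _ hl => ?_) (fun hh => absurd (Finset.mem_univ _) hh)]
    · rw [fJ_ek, if_pos rfl]
      unfold ek
      simp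
    · rw [fJ_ek, if_neg hl]
      unfold ek
      simp [hl]
  have h2 : ∀ l, ∑ l', (if l = l' then 0 else
      L.tJ l * L.tJ l' * (x.2.1 l * (ek (U := U) k).2.1 l')) =
      L.tJ k * (L.tJ l * x.2.1 l) + if l = k then L.tJ k * x.2.1 k else 0 := by
    intro l
    rw [Finset.sum_eq_single k (fun l' _ hl => ?_) (fun hh => absurd (Finset.mem_univ _) hh)]
    · by_cases h : l = k
      · subst h
        rw [if_pos rfl, if_pos rfl]
        linear_combination (-(x.2.1 l)) * sq0 (L.tJ l) - (L.tJ l * x.2.1 l) * two0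
      · rw [if_neg h, if_neg h]
        unfold ek
        simp only [if_true]
        ring
    · unfold ek
      simp [hl]
  have h3 : fJ L i x k = L.sJ k * x.2.1 k + (La L i k * x.2.1 k +
      ∑ u ∈ L.W i, (L.B u k + L.tU u * L.tJ k) * x.1 u) + x.2.2 * L.gJ i k := by
    unfold fJ La
    rw [Finset.sum_mul, ← Finset.sum_add_distrib]
    congr 2
    exact Finset.sum_congr rfl fun u _ => mul_add _ _ _
  rw [h1, Finset.sum_congr rfl fun l _ => h2 l, Finset.sum_add_distrib, ← Finset.mul_sum,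
    Finset.sum_ite_eq' univ k, if_pos (Finset.mem_univ _), h3]
  linear_combination (L.sJ k * x.2.1 k) * two0

/-- the sum of the rows of the large primes -/
noncomputable def pS (i : I) (x : Vc U J) : ZMod 2 :=
  ∑ k, fJ L i x k + ∑ e ∈ prs J, L.tJ e.1 * L.tJ e.2 * (x.2.1 e.1 + x.2.1 e.2)

/-- the rows of the small primes -/
noncomputable def pU (i : I) (x : Vc U J) (u : U) : ZMod 2 :=
  if u ∈ L.W i then rowU L i x u else x.1 u

theorem pS_add (i : I) (x y : Vc U J) : pS L i (x + y) = pS L i x + pS L i y := by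
  unfold pS
  have h1 : ∑ e ∈ prs J, L.tJ e.1 * L.tJ e.2 * ((x + y).2.1 e.1 + (x + y).2.1 e.2) =
      ∑ e ∈ prs J, L.tJ e.1 * L.tJ e.2 * (x.2.1 e.1 + x.2.1 e.2) +
        ∑ e ∈ prs J, L.tJ e.1 * L.tJ e.2 * (y.2.1 e.1 + y.2.1 e.2) := by
    rw [← Finset.sum_add_distrib]
    refine Finset.sum_congr rfl fun e _ => ?_
    simp only [Prod.snd_add, Prod.fst_add, Pi.add_apply]
    ring
  rw [Finset.sum_congr rfl fun k _ => fJ_add L i x y k, Finset.sum_add_distrib, h1]
  ring

theorem pU_add (i : I) (x y : Vc U J) (u : U) :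
    pU L i (x + y) u = pU L i x u + pU L i y u := by
  unfold pU
  by_cases h : u ∈ L.W i
  · rw [if_pos h, if_pos h, if_pos h]
    unfold rowU
    have h1 : ∑ v ∈ L.W i, L.A u v * ((x + y).1 u + (x + y).1 v) =
        ∑ v ∈ L.W i, L.A u v * (x.1 u + x.1 v) + ∑ v ∈ L.W i, L.A u v * (y.1 u + y.1 v) := by
      rw [← Finset.sum_add_distrib]
      refine Finset.sum_congr rfl fun v _ => ?_
      simp only [Prod.fst_add, Pi.add_apply]
      ring
    have h2 : ∑ l, L.B u l * ((x + y).1 u + (x + y).2.1 l) =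
        ∑ l, L.B u l * (x.1 u + x.2.1 l) + ∑ l, L.B u l * (y.1 u + y.2.1 l) := by
      rw [← Finset.sum_add_distrib]
      refine Finset.sum_congr rfl fun v _ => ?_
      simp only [Prod.fst_add, Prod.snd_add, Pi.add_apply]
      ring
    rw [h1, h2]
    simp only [Prod.fst_add, Prod.snd_add, Pi.add_apply]
    ring
  · rw [if_neg h, if_neg h, if_neg h]
    rfl

theorem bor_add (i : I) (x y : Vc U J) : bor a b L i (x + y) = bor a b L i x + bor a b L i y := by
  unfold bor
  have h1 : ∑ u ∈ L.W i, L.dU i u * (x + y).1 u =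
      ∑ u ∈ L.W i, L.dU i u * x.1 u + ∑ u ∈ L.W i, L.dU i u * y.1 u := by
    rw [← Finset.sum_add_distrib]
    refine Finset.sum_congr rfl fun v _ => ?_
    simp only [Prod.fst_add, Pi.add_apply]
    ring
  have h2 : ∑ l, L.dJ i l * (x + y).2.1 l =
      ∑ l, L.dJ i l * x.2.1 l + ∑ l, L.dJ i l * y.2.1 l := by
    rw [← Finset.sum_add_distrib]
    refine Finset.sum_congr rfl fun v _ => ?_
    simp only [Prod.fst_add, Prod.snd_add, Pi.add_apply]
    ring
  rw [h1, h2]
  simp only [Prod.snd_add]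
  ring

/-- the equations that the vectors satisfy -/
noncomputable def Psi (i : I) : Vc U J →ₗ[ZMod 2] (Option (Option U) → ZMod 2) :=
  AddMonoidHom.toZModLinearMap 2 (AddMonoidHom.mk' (fun x c =>
    Option.elim c (pS L i x) (fun c => Option.elim c (bor a b L i x) (fun u => pU L i x u)))
    (fun x y => by
      funext c
      rcases c with _ | _ | u
      · exact pS_add L i x y
      · exact bor_add a b L i x y
      · exact pU_add L i x y u))

theorem Psi_none (i : I) (x : Vc U J) : Psi a b L i x none = pS L i x := rfl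

theorem Psi_one (i : I) (x : Vc U J) : Psi a b L i x (some none) = bor a b L i x := rfl

theorem Psi_some (i : I) (x : Vc U J) (u : U) : Psi a b L i x (some (some u)) = pU L i x u := rfl

theorem UR_iff (i : I) (x : Vc U J) : UR a b L i x ↔ Psi a b L i x = 0 := by
  constructor
  · rintro ⟨h1, h2, h4, h3⟩
    funext c
    rcases c with _ | _ | u
    · rw [Psi_none]
      exact h3
    · rw [Psi_one]
      exact h4
    · rw [Psi_some]
      unfold pU
      by_cases h : u ∈ L.W i
      · rw [if_pos h]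
        exact h2 u h
      · rw [if_neg h]
        exact h1 u h
  · intro h
    refine ⟨fun u hu => ?_, fun u hu => ?_, ?_, ?_⟩
    · have h1 := congrFun h (some (some u))
      rw [Psi_some] at h1
      unfold pU at h1
      rw [if_neg hu] at h1
      exact h1
    · have h1 := congrFun h (some (some u))
      rw [Psi_some] at h1
      unfold pU at h1
      rw [if_pos hu] at h1
      exact h1
    · have h1 := congrFun h (some none)
      rw [Psi_one] at h1
      exact h1
    · have h1 := congrFun h none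
      rw [Psi_none] at h1
      exact h1

theorem prs_sum (tJ : J → ZMod 2) (y : J → ZMod 2) :
    ∑ e ∈ prs J, tJ e.1 * tJ e.2 * (y e.1 + y e.2) =
    (∑ k, tJ k * y k) * (∑ k, tJ k) + ∑ k, tJ k * y k := by
  have h1 := sum_pairs (ι := J) fun k l => (tJ k * y k) * tJ l
  rw [← Finset.sum_mul_sum] at h1
  have h2 : ∑ e ∈ prs J, tJ e.1 * tJ e.2 * (y e.1 + y e.2) =
      ∑ e ∈ prs J, ((tJ e.1 * y e.1) * tJ e.2 + (tJ e.2 * y e.2) * tJ e.1) :=
    Finset.sum_congr rfl fun e _ => by ring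
  have h3 : ∑ k, tJ k * y k * tJ k = ∑ k, tJ k * y k :=
    Finset.sum_congr rfl fun k _ => by linear_combination (y k) * sq0 (tJ k)
  rw [h2, h1, h3]
  linear_combination (-(∑ k, tJ k * y k)) * two0

theorem pS_ek (i : I) (hp : ∑ u ∈ L.W i, L.tU u + ∑ j, L.tJ j = 0) (k : J) :
    pS L i (ek k) = L.sJ k + L.tJ k + ∑ u ∈ L.W i, L.B u k := by
  unfold pS
  rw [prs_sum, Finset.sum_congr rfl fun l _ => fJ_ek L i k l, Finset.sum_ite_eq' univ k,
    if_pos (Finset.mem_univ _)]
  have h1 : ∑ l, L.tJ l * (ek (U := U) k).2.1 l = L.tJ k := by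
    unfold ek
    simp
  rw [h1]
  unfold La
  rw [Finset.sum_add_distrib, ← Finset.sum_mul]
  linear_combination (L.tJ k) * hp

theorem pU_ek (i : I) (k : J) (u : U) :
    pU L i (ek k) u = if u ∈ L.W i then L.B u k else 0 := by
  unfold pU rowU ek
  by_cases h : u ∈ L.W i
  · simp [h]
  · simp [h]

theorem bor_ek (i : I) (k : J) : bor a b L i (ek k) = b i * L.dJ i k := by
  unfold bor ek
  simp

/-- the functionals are independent -/
theorem Psi_ne (i : I) (hab : a i ≠ 0 ∨ b i ≠ 0) (hp : ∑ u ∈ L.W i, L.tU u + ∑ j, L.tJ j = 0)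
    (hnd : ∀ (w : U → ZMod 2) (e f : ZMod 2), ((∃ u, w u ≠ 0) ∨ e ≠ 0 ∨ f ≠ 0) →
      (∃ k, e * L.sJ k + f * L.gJ i k + ∑ u, w u * (L.B u k + L.tU u * L.tJ k) ≠ 0) ∧
      ∃ k, e * (L.sJ k + L.tJ k) + f * L.dJ i k + ∑ u, w u * L.B u k ≠ 0)
    (w : Option (Option U) → ZMod 2) (hw : w ≠ 0) :
    ∃ x, ∑ c, w c * Psi a b L i x c ≠ 0 := by
  by_cases h1 : ∃ u, u ∉ L.W i ∧ w (some (some u)) ≠ 0
  · obtain ⟨u, hu, hwu⟩ := h1
    refine ⟨(fun v => if v = u then 1 else 0, fun _ => 0, 0), ?_⟩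
    rw [Fintype.sum_option, Fintype.sum_option, Psi_none, Psi_one]
    simp only [Psi_some]
    have h2 : pS L i ((fun v => if v = u then 1 else 0 : U → ZMod 2),
        (fun _ => 0 : J → ZMod 2), (0 : ZMod 2)) = 0 := by
      unfold pS fJ
      have h3 : ∀ k, ∑ v ∈ L.W i, (L.B v k + L.tU v * L.tJ k) * ((0 : ZMod 2) +
          if v = u then 1 else 0) = 0 := by
        intro k
        refine Finset.sum_eq_zero fun v hv => ?_
        rw [if_neg (fun h : v = u => hu (h ▸ hv)), add_zero, mul_zero]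
      simp only [h3, mul_zero, zero_mul, add_zero, Finset.sum_const_zero]
    have h2' : bor a b L i ((fun v => if v = u then 1 else 0 : U → ZMod 2),
        (fun _ => 0 : J → ZMod 2), (0 : ZMod 2)) = 0 := by
      unfold bor
      have h3 : ∑ v ∈ L.W i, L.dU i v * (if v = u then 1 else 0 : ZMod 2) = 0 := by
        refine Finset.sum_eq_zero fun v hv => ?_
        rw [if_neg (fun h : v = u => hu (h ▸ hv)), mul_zero]
      simp only [h3, mul_zero, add_zero, Finset.sum_const_zero]
    have h4 : ∀ v, pU L i ((fun v => if v = u then 1 else 0 : U → ZMod 2),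
        (fun _ => 0 : J → ZMod 2), (0 : ZMod 2)) v = if v = u then 1 else 0 := by
      intro v
      unfold pU rowU
      by_cases hv : v ∈ L.W i
      · rw [if_pos hv]
        have h5 : ¬ v = u := fun h => hu (h ▸ hv)
        have h6 : ∑ v' ∈ L.W i, L.A v v' * ((if v = u then 1 else 0 : ZMod 2) +
            if v' = u then 1 else 0) = 0 := by
          refine Finset.sum_eq_zero fun v' hv' => ?_
          rw [if_neg h5, if_neg (fun h : v' = u => hu (h ▸ hv')), add_zero, mul_zero]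
        simp only [if_neg h5] at h6 ⊢
        simp only [h6, mul_zero, zero_mul, add_zero, Finset.sum_const_zero]
      · rw [if_neg hv]
    rw [h2, h2', mul_zero, mul_zero, zero_add, zero_add]
    simp only [h4, mul_ite, mul_one, mul_zero]
    rw [Finset.sum_ite_eq' univ u, if_pos (Finset.mem_univ _)]
    exact hwu
  · push Not at h1
    by_cases h2 : (∃ u, (if u ∈ L.W i then w (some (some u)) + w none else 0) ≠ 0) ∨
        w none ≠ 0 ∨ w (some none) * b i ≠ 0
    · obtain ⟨-, k, hk⟩ := hnd _ (w none) (w (some none) * b i) h2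
      refine ⟨ek k, ?_⟩
      rw [Fintype.sum_option, Fintype.sum_option, Psi_none, Psi_one, pS_ek L i hp, bor_ek]
      simp only [Psi_some, pU_ek]
      have h3 : ∑ u, (if u ∈ L.W i then w (some (some u)) + w none else 0) * L.B u k =
          ∑ u, w (some (some u)) * (if u ∈ L.W i then L.B u k else 0) +
            w none * ∑ u ∈ L.W i, L.B u k := by
        have h4 : w none * ∑ u ∈ L.W i, L.B u k =
            ∑ u, if u ∈ L.W i then w none * L.B u k else 0 := by
          rw [Finset.mul_sum, Finset.sum_ite_mem, Finset.univ_inter]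
        rw [h4, ← Finset.sum_add_distrib]
        refine Finset.sum_congr rfl fun u _ => ?_
        split_ifs
        · ring
        · ring
      rw [h3] at hk
      intro h5
      apply hk
      refine Eq.trans ?_ h5
      ring
    · push Not at h2
      obtain ⟨h3, h4, h5⟩ := h2
      have h6 : ∀ u, w (some (some u)) = 0 := by
        intro u
        by_cases hu : u ∈ L.W i
        · have h7 := h3 u
          rw [if_pos hu, h4, add_zero] at h7
          exact h7
        · exact h1 u hu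
      have h7 : w (some none) ≠ 0 := by
        intro h7
        apply hw
        funext c
        rcases c with _ | _ | u
        · exact h4
        · exact h7
        · exact h6 u
      have h8 : b i = 0 := by
        rcases mul_eq_zero.1 h5 with h | h
        · exact absurd h h7
        · exact h
      have h9 : a i ≠ 0 := by
        rcases hab with h | h
        · exact h
        · exact absurd h8 h
      refine ⟨(0, 0, 1), ?_⟩
      rw [Fintype.sum_option, Fintype.sum_option, Psi_one, h4, zero_mul, zero_add]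
      simp only [h6, zero_mul, Finset.sum_const_zero, add_zero]
      unfold bor
      rw [h8, zero_mul, add_zero]
      exact mul_ne_zero h7 (mul_ne_zero h9 one_ne_zero)

/-- the radical is small -/
theorem card_Rd (i j : I) :
    (Rd (LinearMap.ker (Psi a b L i)) (LinearMap.ker (Psi a b L j))
      (bjL L i j)).card ≤ 2 ^ (Fintype.card U + 1 + 1) * (2 * (2 ^ Fintype.card U *
      (2 * 2 ^ Fintype.card {k : J // ¬ La L i k + La L j k + L.tJ k = 1}))) := by
  have h1 : ∀ x ∈ Rd (LinearMap.ker (Psi a b L i))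
      (LinearMap.ker (Psi a b L j)) (bjL L i j),
      ∃ w : Option (Option U) → ZMod 2, ∀ y, bj L i j y x.1 =
        ∑ c, w c * Psi a b L i y c := by
    intro x hx
    refine dual_ker (Psi a b L i) (fun y => bj L i j y x.1)
      (fun y y' => bj_add L i j y y' x.1) (fun y hy => ?_)
    rw [mem_Rd] at hx
    exact hx y (LinearMap.mem_ker.2 hy)
  choose! w hw using h1
  have h2 : (Rd (LinearMap.ker (Psi a b L i))
      (LinearMap.ker (Psi a b L j)) (bjL L i j)).card ≤
      (univ : Finset ((Option (Option U) → ZMod 2) × (ZMod 2 × ((U → ZMod 2) × (ZMod 2 ×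
        ({k : J // ¬ La L i k + La L j k + L.tJ k = 1} → ZMod 2)))))).card := by
    refine Finset.card_le_card_of_injOn (fun x => (w x,
      (∑ j, L.tJ j * x.1.2.1 j, (x.1.1, (x.1.2.2, fun j => x.1.2.1 j.1))))) ?_ ?_
    · intro x _
      exact Finset.mem_coe.2 (Finset.mem_univ _)
    · intro x hx y hy hxy
      simp only [Prod.mk.injEq] at hxy
      obtain ⟨h3, h4, h5, h55, h6⟩ := hxy
      have h7 : x.1.2.1 = y.1.2.1 := by
        funext k
        by_cases hk : La L i k + La L j k + L.tJ k = 1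
        · have h8 := hw x hx (ek k)
          have h9 := hw y hy (ek k)
          rw [bj_symm, bj_ek, add_comm (La L j k), hk, one_mul] at h8 h9
          rw [h3, ← h9, h4, h5, h55] at h8
          exact add_right_cancel h8
        · exact congrFun h6 ⟨k, hk⟩
      exact Subtype.ext (Prod.ext h5 (Prod.ext h7 h55))
  refine h2.trans (le_of_eq ?_)
  rw [Finset.card_univ]
  simp only [Fintype.card_prod, Fintype.card_fun, ZMod.card, Fintype.card_option]

/-- few vectors are constant on the large primes -/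
theorem card_K [Nonempty J] : (univ.filter fun x : Vc U J =>
    ∀ k l, x.2.1 k + x.2.1 l = 0).card ≤ 2 ^ Fintype.card U * (2 * 2) := by
  obtain ⟨k0⟩ := ‹Nonempty J›
  have h2 : (univ.filter fun x : Vc U J =>
      ∀ k l, x.2.1 k + x.2.1 l = 0).card ≤
      (univ : Finset ((U → ZMod 2) × (ZMod 2 × ZMod 2))).card := by
    refine Finset.card_le_card_of_injOn (fun x => (x.1, (x.2.1 k0, x.2.2))) ?_ ?_
    · intro x _
      exact Finset.mem_coe.2 (Finset.mem_univ _)
    · intro x hx y hy hxy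
      simp only [Prod.mk.injEq] at hxy
      rw [Finset.mem_coe, Finset.mem_filter] at hx hy
      refine Prod.ext hxy.1 (Prod.ext (funext fun j => ?_) hxy.2.2)
      rw [add_eq0.1 (hx.2 j k0), add_eq0.1 (hy.2 j k0)]
      exact hxy.2.1
  refine h2.trans (le_of_eq ?_)
  rw [Finset.card_univ]
  simp only [Fintype.card_prod, Fintype.card_fun, ZMod.card]

end blocks

section reidx

variable {T : Type} [Fintype T] {M : ℕ} {J : Type} [Fintype J]

theorem IndA_iff (e : T ≃ Fin M) (d : T → J → ZMod 2) : IndA d ↔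
    ∀ w : Fin M → ZMod 2, (∃ a, w a ≠ 0) →
      ¬ ∀ k l, ∑ a, w a * d (e.symm a) k + ∑ a, w a * d (e.symm a) l = 0 := by
  have h1 : ∀ (w : Fin M → ZMod 2) (k l : J), ∑ a, w a * d (e.symm a) k +
      ∑ a, w a * d (e.symm a) l = ∑ t, w (e t) * (d t k + d t l) := by
    intro w k l
    rw [← Finset.sum_add_distrib, ← Equiv.sum_comp e]
    refine Finset.sum_congr rfl fun t _ => ?_
    rw [Equiv.symm_apply_apply]
    ring
  constructor
  · rintro h w ⟨a, ha⟩ hcon
    obtain ⟨k, l, hkl⟩ := h (fun t => w (e t)) ⟨e.symm a, by rwa [Equiv.apply_symm_apply]⟩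
    exact hkl ((h1 w k l).symm.trans (hcon k l))
  · rintro h w ⟨t, ht⟩
    have h2 := h (fun a => w (e.symm a)) ⟨e t, by rwa [Equiv.symm_apply_apply]⟩
    push Not at h2
    obtain ⟨k, l, hkl⟩ := h2
    refine ⟨k, l, fun h3 => hkl ?_⟩
    rw [h1 (fun a => w (e.symm a)) k l, ← h3]
    refine Finset.sum_congr rfl fun t _ => ?_
    rw [Equiv.symm_apply_apply]

end reidx

end Pool.Agent.NH57.BJ.LXJ2

namespace Pool.Agent.NH57.BJ

open Finset
open Pool.Agent.NH57.BL (prs ext c2 IndA Vc)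
open Pool.Agent.NH57.BL.LX2 (mem_prs card_ker)
open LXJ2

/-- BL-41 -/
theorem t_LXJ2 : S_LXJ2 := by
  intro I _ m δ hδ
  obtain ⟨M, hM⟩ : ∃ M, M = ∑ i, m i := ⟨_, rfl⟩
  have hT : Fintype.card (Σ i, Fin (m i)) = M := by
    rw [Fintype.card_sigma, hM]
    simp only [Fintype.card_fin]
  obtain ⟨V0, hV0⟩ : ∃ V0 : ℕ, (2 : ℝ) ^ M.choose 2 * (8 + 4 * 2 ^ M) / δ < 2 ^ V0 :=
    pow_unbounded_of_one_lt _ (by norm_num)
  refine ⟨4, V0 + 2, ?_⟩
  intro a b hab U J _ _ _ L hyp
  rw [← hM]
  obtain ⟨n, hn⟩ : ∃ n, n = Fintype.card J := ⟨_, rfl⟩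
  rw [← hn]
  let eT : (Σ i, Fin (m i)) ≃ Fin M := Fintype.equivFinOfCardEq hT
  -- the spaces and the forms
  let Wf : Fin M → I := fun c => (eT.symm c).1
  let Vf : Fin M → Submodule (ZMod 2) (Vc U J) := fun c =>
    LinearMap.ker (Psi a b L (Wf c))
  let bl : Fin M → Fin M → Vc U J →ₗ[ZMod 2] Vc U J →ₗ[ZMod 2] ZMod 2 :=
    fun c d => bjL L (Wf c) (Wf d)
  obtain ⟨K, hK⟩ : ∃ K : Finset (Vc U J), K =
    univ.filter fun x : Vc U J => ∀ k l, x.2.1 k + x.2.1 l = 0 := ⟨_, rfl⟩
  obtain ⟨N, hN⟩ : ∃ N, N = (GG Vf bl K).card := ⟨_, rfl⟩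
  -- the count of the tuples
  have hNe : (univ.filter fun z : (Σ i, Fin (m i)) → Vc U J =>
      IndA (fun p => (z p).2.1) ∧ (∀ p, UR a b L p.1 (z p)) ∧
      ∀ p q, p ≠ q → bj L p.1 q.1 (z p) (z q) = 0).card = N := by
    rw [hN]
    have h0 : ∀ (w : Fin M → ZMod 2) (y : Fin M → Vc U J) (k : J),
        (∑ c, w c • y c).2.1 k = ∑ c, w c * (y c).2.1 k := by
      intro w y k
      rw [Prod.snd_sum, Prod.fst_sum, Finset.sum_apply]
      rfl
    refine Finset.card_bij (fun x _ => fun c => x (eT.symm c)) ?_ ?_ ?_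
    · intro x hx
      rw [Finset.mem_filter] at hx
      obtain ⟨-, h1, h2, h3⟩ := hx
      rw [mem_GG]
      refine ⟨fun c => ?_, fun e => ?_, fun w hw hcon => ?_⟩
      · exact LinearMap.mem_ker.2 ((UR_iff a b L _ _).1 (h2 (eT.symm c)))
      · refine h3 (eT.symm e.1.1) (eT.symm e.1.2) fun h4 => ?_
        have h5 := mem_prs.1 e.2
        rw [eT.symm.injective h4] at h5
        exact lt_irrefl _ h5
      · rw [hK, Finset.mem_filter] at hcon
        refine (IndA_iff eT _).1 h1 w hw fun k l => ?_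
        have h4 := hcon.2 k l
        rw [h0, h0] at h4
        exact h4
    · intro x _ y _ hxy
      funext t
      have h1 := congrFun hxy (eT t)
      simp only [Equiv.symm_apply_apply] at h1
      exact h1
    · intro y hy
      rw [mem_GG] at hy
      obtain ⟨h1, h2, h3⟩ := hy
      have h4 : ∀ c d, c ≠ d → bj L (Wf c) (Wf d) (y c) (y d) = 0 := by
        intro c d hcd
        rcases lt_or_gt_of_ne hcd with h | h
        · exact h2 ⟨(c, d), mem_prs.2 h⟩
        · rw [bj_symm]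
          exact h2 ⟨(d, c), mem_prs.2 h⟩
      refine ⟨fun t => y (eT t), ?_, ?_⟩
      · rw [Finset.mem_filter]
        refine ⟨Finset.mem_univ _, ?_, fun t => ?_, fun t t' htt => ?_⟩
        · rw [IndA_iff eT]
          intro w hw hcon
          refine h3 w hw ?_
          rw [hK, Finset.mem_filter]
          refine ⟨Finset.mem_univ _, fun k l => ?_⟩
          have h5 := hcon k l
          simp only [Equiv.apply_symm_apply] at h5
          rw [h0, h0]
          exact h5
        · have h5 := LinearMap.mem_ker.1 (h1 (eT t))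
          rw [UR_iff]
          have h6 : Wf (eT t) = t.1 := by
            change (eT.symm (eT t)).1 = t.1
            rw [Equiv.symm_apply_apply]
          rw [← h6]
          exact h5
        · have h5 := h4 (eT t) (eT t') fun h => htt (eT.injective h)
          have h6 : ∀ t, Wf (eT t) = t.1 := by
            intro t
            change (eT.symm (eT t)).1 = t.1
            rw [Equiv.symm_apply_apply]
          rw [h6, h6] at h5
          exact h5
      · funext c
        change y (eT (eT.symm c)) = y c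
        rw [Equiv.apply_symm_apply]
  rw [hNe]
  obtain ⟨Q, hQ⟩ : ∃ Q : ℕ, Q = 2 ^ (n - 1) := ⟨_, rfl⟩
  have hQ0 : 0 < Q := by
    rw [hQ]
    positivity
  have hmain : |(N : ℤ) * 2 ^ M.choose 2 - (Q : ℤ) ^ M| * 2 ^ V0 ≤
      2 ^ M.choose 2 * (Q : ℤ) ^ M * (8 + 4 * 2 ^ M) := by
    rcases Nat.eq_zero_or_pos M with hM0 | hM0
    · -- there is just one tuple
      have h1 : IsEmpty (Fin M) := by
        rw [hM0]
        infer_instance
      have h2 : N = 1 := by
        rw [hN]
        have h3 : GG Vf bl K = univ := by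
          ext x
          rw [mem_GG]
          exact ⟨fun _ => Finset.mem_univ _, fun _ => ⟨fun c => h1.elim c,
            fun e => h1.elim e.1.1, fun w hw => hw.elim fun c _ => h1.elim c⟩⟩
        rw [h3, Finset.card_univ, Fintype.card_fun, Fintype.card_fin, hM0, pow_zero]
      rw [h2, hM0]
      norm_num
    · obtain ⟨u, hu⟩ : ∃ u, u = Fintype.card U := ⟨_, rfl⟩
      have hmany := hyp.many
      rw [← hu] at hmany
      have hcu : ∀ s : Finset J, s.card ≤ n := by
        intro s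
        rw [hn]
        exact Finset.card_le_univ s
      have hun : 4 * u + (V0 + 2) ≤ n :=
        (hmany (eT.symm ⟨0, hM0⟩).1 (eT.symm ⟨0, hM0⟩).1).trans (hcu _)
      have hne : Nonempty J := Fintype.card_pos_iff.1 (by omega)
      have hQ1 : ∀ c, Fintype.card (Vf c) = Q := by
        intro c
        have h1 := card_ker (Psi a b L (Wf c))
          (Psi_ne a b L (Wf c) (hab _) (hyp.par _) (hyp.nd _))
        simp only [Fintype.card_prod, Fintype.card_fun, ZMod.card, Fintype.card_option] at h1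
        rw [← hu, ← hn] at h1
        have h2 : 2 ^ u * (2 ^ n * 2) = 2 ^ (n - 1) * 2 ^ (u + 1 + 1) := by
          rw [← pow_succ, ← pow_add, ← pow_add]
          congr 1
          omega
        rw [h2] at h1
        rw [hQ]
        exact Nat.eq_of_mul_eq_mul_right (by positivity) h1
      obtain ⟨R, hR⟩ : ∃ R : ℕ, R = 2 ^ (n + 2 - V0) := ⟨_, rfl⟩
      have hR1 : R * 2 ^ V0 ≤ 8 * Q := by
        rw [hR, hQ, ← pow_add]
        have h5 : n + 2 - V0 + V0 = 3 + (n - 1) := by omega
        rw [h5, pow_add]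
        norm_num
      have hR2 : ∀ i j, (Rd (Vf i) (Vf j) (bl i j)).card ≤ R := by
        intro i j
        refine (card_Rd a b L (Wf i) (Wf j)).trans ?_
        rw [← hu, hR]
        have h1 := hmany (eT.symm i).1 (eT.symm j).1
        obtain ⟨ν, hν⟩ : ∃ ν, ν = Fintype.card
          {k : J // ¬ La L (Wf i) k + La L (Wf j) k + L.tJ k = 1} := ⟨_, rfl⟩
        have h2 : (univ.filter fun k => La L (Wf i) k + La L (Wf j) k + L.tJ k =
            1).card + ν = n := by
          rw [hν, hn, Fintype.card_subtype, Finset.card_filter_add_card_filter_not]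
          exact Finset.card_univ
        have h3 : 4 * u + (V0 + 2) + ν ≤ n := by
          rw [← h2]
          exact Nat.add_le_add_right h1 _
        rw [← hν]
        have h4 : 2 ^ (u + 1 + 1) * (2 * (2 ^ u * (2 * 2 ^ ν))) = 2 ^ (2 * u + 4 + ν) := by ring
        rw [h4]
        exact Nat.pow_le_pow_right (by norm_num) (by omega)
      have hK1 : K.card * 2 ^ V0 ≤ 4 * Q := by
        have h1 := card_K (U := U) (J := J)
        rw [← hK, ← hu] at h1
        have h2 : 2 ^ u * (2 * 2) * 2 ^ V0 ≤ 4 * Q := by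
          have h3 : 2 ^ u * (2 * 2) * 2 ^ V0 = 2 ^ (u + 2 + V0) := by
            ring
          have h4 : 4 * Q = 2 ^ (n + 1) := by
            rw [hQ]
            have h5 : n + 1 = 2 + (n - 1) := by omega
            rw [h5, pow_add]
            norm_num
          rw [h3, h4]
          exact Nat.pow_le_pow_right (by norm_num) (by omega)
        exact (Nat.mul_le_mul_right _ h1).trans h2
      have hgood := card_good Vf bl (fun i j v w => bj_symm L (Wf i) (Wf j) v w)
        Q R hQ1 hQ0 hR2 K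
      rw [← hN] at hgood
      have h2 : (R : ℤ) * 2 ^ V0 ≤ 8 * Q := by exact_mod_cast hR1
      have h3 : (K.card : ℤ) * 2 ^ V0 ≤ 4 * Q := by exact_mod_cast hK1
      have h4 : |(N : ℤ) * 2 ^ M.choose 2 - (Q : ℤ) ^ M| * 2 ^ V0 * Q ≤
          2 ^ M.choose 2 * (Q : ℤ) ^ M * (8 + 4 * 2 ^ M) * Q := by
        calc |(N : ℤ) * 2 ^ M.choose 2 - (Q : ℤ) ^ M| * 2 ^ V0 * Q
            = (|(N : ℤ) * 2 ^ M.choose 2 - (Q : ℤ) ^ M| * Q) * 2 ^ V0 := by ring
          _ ≤ (2 ^ M.choose 2 * ((Q : ℤ) ^ M * (R + 2 ^ M * K.card : ℤ))) * 2 ^ V0 :=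
            mul_le_mul_of_nonneg_right hgood (by positivity)
          _ = 2 ^ M.choose 2 * (Q : ℤ) ^ M * (R * 2 ^ V0 + 2 ^ M * (K.card * 2 ^ V0)) := by
            ring
          _ ≤ 2 ^ M.choose 2 * (Q : ℤ) ^ M * (8 * Q + 2 ^ M * (4 * Q)) := by
            refine mul_le_mul_of_nonneg_left ?_ (by positivity)
            exact add_le_add h2 (mul_le_mul_of_nonneg_left h3 (by positivity))
          _ = _ := by ring
      exact le_of_mul_le_mul_right h4 (by exact_mod_cast hQ0)
  -- the estimate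
  have h2 : |(N : ℝ) * 2 ^ M.choose 2 - (Q : ℝ) ^ M| * 2 ^ V0 ≤
      2 ^ M.choose 2 * (Q : ℝ) ^ M * (8 + 4 * 2 ^ M) := by exact_mod_cast hmain
  have hQr : (0 : ℝ) < (Q : ℝ) ^ M := by
    have : (0 : ℝ) < Q := by exact_mod_cast hQ0
    positivity
  have h3 : (2 : ℝ) ^ (M * (n - 1)) = (Q : ℝ) ^ M := by
    rw [hQ]
    push_cast
    rw [← pow_mul, mul_comm]
  rw [h3]
  have h4 : (N : ℝ) * 2 ^ M.choose 2 / (Q : ℝ) ^ M - 1 =
      ((N : ℝ) * 2 ^ M.choose 2 - (Q : ℝ) ^ M) / (Q : ℝ) ^ M := by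
    field_simp
  rw [h4, abs_div, abs_of_pos hQr, div_le_iff₀ hQr]
  rw [div_lt_iff₀ hδ] at hV0
  have h5 : (0 : ℝ) < 2 ^ V0 := by positivity
  have h6 : |(N : ℝ) * 2 ^ M.choose 2 - (Q : ℝ) ^ M| * 2 ^ V0 ≤ δ * (Q : ℝ) ^ M * 2 ^ V0 := by
    refine h2.trans ?_
    have h7 := mul_le_mul_of_nonneg_right hV0.le hQr.le
    calc (2 : ℝ) ^ M.choose 2 * (Q : ℝ) ^ M * (8 + 4 * 2 ^ M)
        = 2 ^ M.choose 2 * (8 + 4 * 2 ^ M) * (Q : ℝ) ^ M := by ring
      _ ≤ 2 ^ V0 * δ * (Q : ℝ) ^ M := h7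
      _ = _ := by ring
  exact le_of_mul_le_mul_right h6 h5

end Pool.Agent.NH57.BJ
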