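import Pool.Agent.NH57.BL.LJ

/-!
# BL-42: cross-degenerate tuples are rare (port of `R426/QJ/LA3.lean`, helper58)
-/

set_option autoImplicit false

open scoped Classical

namespace Pool.Agent.NH57.BJ.LXJ3

open Finset
open Pool.Agent.NH57.BL (prs ext c2 IndA S_LA1J Vc)

/-- independence modulo the constants on a finite set of indices -/
def IndO {T J : Type} (A : Finset T) (d : T → J → ZMod 2) : Prop :=
  ∀ w : T → ZMod 2, (∃ a ∈ A, w a ≠ 0) → ∃ k l, ∑ a ∈ A, w a * (d a k + d a l) ≠ 0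

lemma IndO.ind {T J : Type} {A : Finset T} {d : T → J → ZMod 2} (h : IndO A d) :
    IndA (fun a : A => d a) := by
  rintro w ⟨a, ha⟩
  obtain ⟨k, l, hkl⟩ := h (fun t => if ht : t ∈ A then w ⟨t, ht⟩ else 0) ⟨a, a.2, by simpa using ha⟩
  refine ⟨k, l, ?_⟩
  rw [← Finset.sum_coe_sort] at hkl
  intro h0
  apply hkl
  rw [← h0]
  refine Finset.sum_congr rfl fun t _ => ?_
  simp

lemma two_cases (x : ZMod 2) : x = 0 ∨ x = 1 := by
  revert x; decide

lemma add_self2 (x : ZMod 2) : x + x = 0 := CharTwo.add_self_eq_zero x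

lemma eq_of_add_zero {x y : ZMod 2} (h : x + y = 0) : x = y := by
  have := congrArg (· + y) h
  simp only [add_assoc, add_self2, add_zero, zero_add] at this
  exact this

lemma exists_code {T J I : Type} [Fintype T] (g : T → I) (d : T → J → ZMod 2)
    (hgrp : ∀ i, ∀ w : T → ZMod 2, (∃ a, g a = i ∧ w a ≠ 0) → (∀ a, g a ≠ i → w a = 0) →
      ∃ k l, ∑ a, w a * (d a k + d a l) ≠ 0) (hnot : ¬ IndA d) :
    ∃ (A : Finset T) (w : T → T → ZMod 2) (e : T → ZMod 2) (b a₀ : T), b ∉ A ∧ a₀ ∈ A ∧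
      w b a₀ = 1 ∧ g b ≠ g a₀ ∧ IndO A d ∧
      ∀ b', b' ∉ A → ∀ k, d b' k = ∑ a ∈ A, w b' a * d a k + e b' := by
  obtain ⟨A, hA, hmax⟩ := Finset.exists_max_image
    ((univ : Finset (Finset T)).filter (fun A => IndO A d)) Finset.card
    ⟨∅, by
      rw [Finset.mem_filter]
      refine ⟨mem_univ _, ?_⟩
      rintro w ⟨a, ha, -⟩
      exact absurd ha (Finset.notMem_empty a)⟩
  have hA' : IndO A d := (Finset.mem_filter.mp hA).2
  have hwe : ∀ b, ∃ (wb : T → ZMod 2) (eb : ZMod 2), b ∉ A →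
      ∀ k, d b k = ∑ a ∈ A, wb a * d a k + eb := by
    intro b
    by_cases hb : b ∈ A
    · exact ⟨0, 0, fun h => absurd hb h⟩
    have hn : ¬ IndO (insert b A) d := by
      intro hcon
      have := hmax (insert b A) (Finset.mem_filter.mpr ⟨mem_univ _, hcon⟩)
      rw [Finset.card_insert_of_notMem hb] at this
      omega
    have hn' : ∃ w : T → ZMod 2, (∃ a ∈ insert b A, w a ≠ 0) ∧
        ∀ k l, ∑ a ∈ insert b A, w a * (d a k + d a l) = 0 := by
      by_contra hcon
      apply hn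
      intro w hw
      by_contra hcon2
      push Not at hcon2
      exact hcon ⟨w, hw, hcon2⟩
    obtain ⟨w, ⟨a, ha, hwa⟩, hw0⟩ := hn'
    simp only [Finset.sum_insert hb] at hw0
    have hwb : w b = 1 := by
      rcases two_cases (w b) with h | h
      · exfalso
        have haA : a ∈ A := by
          rcases Finset.mem_insert.mp ha with rfl | h'
          · exact absurd h hwa
          · exact h'
        obtain ⟨k, l, hkl⟩ := hA' w ⟨a, haA, hwa⟩
        have := hw0 k l
        rw [h, zero_mul, zero_add] at this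
        exact hkl this
      · exact h
    by_cases hJ : Nonempty J
    · obtain ⟨l₀⟩ := hJ
      refine ⟨w, d b l₀ + ∑ a ∈ A, w a * d a l₀, fun _ k => ?_⟩
      have h1 := hw0 k l₀
      rw [hwb, one_mul] at h1
      have h2 := eq_of_add_zero h1
      simp only [mul_add, Finset.sum_add_distrib] at h2
      have h3 : d b k = (d b k + d b l₀) + d b l₀ := by
        rw [add_assoc, add_self2, add_zero]
      rw [h3, h2]
      ring
    · exact ⟨w, 0, fun _ k => absurd ⟨k⟩ hJ⟩
  choose w e hwe using hwe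
  have hne : ∃ b, b ∉ A := by
    by_contra hcon
    push Not at hcon
    apply hnot
    intro w ⟨a, ha⟩
    obtain ⟨k, l, hkl⟩ := hA' w ⟨a, hcon a, ha⟩
    have hu : A = univ := Finset.eq_univ_of_forall hcon
    rw [hu] at hkl
    exact ⟨k, l, hkl⟩
  obtain ⟨b, hb⟩ := hne
  have ha0 : ∃ a₀ ∈ A, w b a₀ = 1 ∧ g b ≠ g a₀ := by
    by_contra hcon
    push Not at hcon
    obtain ⟨k, l, hkl⟩ := hgrp (g b) (fun a => if a = b then 1 else if a ∈ A then w b a else 0)
      ⟨b, rfl, by simp⟩ (by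
        intro a ha
        have hab : a ≠ b := by
          rintro rfl
          exact ha rfl
        rw [if_neg hab]
        by_cases haA : a ∈ A
        · rw [if_pos haA]
          rcases two_cases (w b a) with h | h
          · exact h
          · exact absurd (hcon a haA h).symm ha
        · rw [if_neg haA])
    apply hkl
    have h1 : ∑ a, (if a = b then 1 else if a ∈ A then w b a else 0) * (d a k + d a l) =
        ∑ a, ((if a = b then (d a k + d a l) else 0) +
          (if a ∈ A then w b a * (d a k + d a l) else 0)) := by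
      refine Finset.sum_congr rfl fun a _ => ?_
      by_cases hab : a = b
      · subst hab
        rw [if_pos rfl, if_pos rfl, if_neg hb, one_mul, add_zero]
      · rw [if_neg hab, if_neg hab, zero_add]
        split_ifs
        · rfl
        · rw [zero_mul]
    rw [h1, Finset.sum_add_distrib, Finset.sum_ite_eq' univ b, if_pos (mem_univ b),
      Finset.sum_ite_mem, Finset.univ_inter, hwe b hb k, hwe b hb l]
    simp only [mul_add, Finset.sum_add_distrib]
    rw [show ∀ x y z : ZMod 2, x + z + (y + z) + (x + y) = (x + x) + (y + y) + (z + z) by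
      intro x y z; ring]
    simp only [add_self2, add_zero]
  obtain ⟨a₀, ha0, hw1, hg⟩ := ha0
  exact ⟨A, w, e, b, a₀, hb, ha0, hw1, hg, hA', hwe⟩

section count

variable {T U J I : Type} [Fintype T] [Fintype U] [Fintype J] [LinearOrder J]

omit [Fintype U] [Fintype J] [LinearOrder J] in
lemma fJ_eq (L : Blk I U J) (i : I) (z : Vc U J) (k : J) :
    fJ L i z k = (L.sJ k + La L i k) * z.2.1 k +
      (∑ u ∈ L.W i, (L.B u k + L.tU u * L.tJ k) * z.1 u + z.2.2 * L.gJ i k) := by
  rw [fJ, La]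
  simp only [mul_add, Finset.sum_add_distrib, add_mul, Finset.sum_mul]
  ring

/-- the pairs for a code -/
noncomputable def SC (L : Blk I U J) (g : T → I) (A : Finset T) (w : T → T → ZMod 2) (e : T → ZMod 2) :
    Finset ((prs J → ZMod 2) × (T → Vc U J)) :=
  univ.filter fun y => IndO A (fun a => (y.2 a).2.1) ∧
    (∀ b, b ∉ A → ∀ k, (y.2 b).2.1 k = ∑ a ∈ A, w b a * (y.2 a).2.1 k + e b) ∧
    ∀ a k, fJ L (g a) (y.2 a) k +
      ∑ l, ext L.tJ y.1 k l * ((y.2 a).2.1 k + (y.2 a).2.1 l) = 0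

/-- the tuples for a code -/
noncomputable def XC (L : Blk I U J) (g : T → I) (A : Finset T) (w : T → T → ZMod 2) (e : T → ZMod 2) (b : T) :
    Finset (T → Vc U J) :=
  univ.filter fun x => (∀ b, b ∉ A → ∀ k, (x b).2.1 k = ∑ a ∈ A, w b a * (x a).2.1 k + e b) ∧
    ∀ k, fJ L (g b) (x b) k = ∑ a ∈ A, w b a * fJ L (g a) (x a) k

lemma maps (L : Blk I U J) (g : T → I) (A : Finset T) (w : T → T → ZMod 2) (e : T → ZMod 2) (b : T)
    (hb : b ∉ A) : ∀ y ∈ SC L g A w e, y.2 ∈ XC L g A w e b := by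
  intro y hy
  rw [SC, Finset.mem_filter] at hy
  obtain ⟨-, -, h2, h3⟩ := hy
  rw [XC, Finset.mem_filter]
  refine ⟨mem_univ _, h2, fun k => ?_⟩
  have e1 := eq_of_add_zero (h3 b k)
  have e2 : ∀ a, fJ L (g a) (y.2 a) k =
      ∑ l, ext L.tJ y.1 k l * ((y.2 a).2.1 k + (y.2 a).2.1 l) := fun a => eq_of_add_zero (h3 a k)
  rw [e1]
  simp only [e2, Finset.mul_sum]
  rw [Finset.sum_comm]
  refine Finset.sum_congr rfl fun l _ => ?_
  rw [h2 b hb k, h2 b hb l]
  have e3 : ∑ a ∈ A, w b a * (y.2 a).2.1 k + e b + (∑ a ∈ A, w b a * (y.2 a).2.1 l + e b) =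
      ∑ a ∈ A, w b a * ((y.2 a).2.1 k + (y.2 a).2.1 l) := by
    simp only [mul_add, Finset.sum_add_distrib]
    rw [show ∀ x y z : ZMod 2, x + z + (y + z) = x + y + (z + z) by intro x y z; ring, add_self2,
      add_zero]
  rw [e3, Finset.mul_sum]
  refine Finset.sum_congr rfl fun a _ => ?_
  ring

lemma fiber (h1 : S_LA1J) (L : Blk I U J) (g : T → I) (A : Finset T) (w : T → T → ZMod 2) (e : T → ZMod 2)
    (x : T → Vc U J) :
    ((SC L g A w e).filter fun y => y.2 = x).card * 2 ^ (A.card * (Fintype.card J - 1)) ≤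
      2 ^ ((prs J).card + A.card.choose 2) := by
  by_cases hx : IndO A (fun a => (x a).2.1)
  · have h2 := h1 J A L.tJ (fun a k => fJ L (g a) (x a) k) (fun a => (x a).2.1) hx.ind
    rw [Fintype.card_coe] at h2
    have h3 : ((SC L g A w e).filter fun y => y.2 = x).card ≤
        (univ.filter fun α : prs J → ZMod 2 => ∀ (a : A) (k : J),
          fJ L (g a) (x a) k +
            ∑ l, ext L.tJ α k l * ((x a).2.1 k + (x a).2.1 l) = 0).card := by
      apply Finset.card_le_card_of_injOn (fun y => y.1)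
      · intro y hy
        rw [Finset.mem_coe, Finset.mem_filter, SC, Finset.mem_filter] at hy
        obtain ⟨⟨-, -, -, h5⟩, rfl⟩ := hy
        rw [Finset.mem_coe, Finset.mem_filter]
        exact ⟨mem_univ _, fun a k => h5 a k⟩
      · intro y hy y' hy' hyy
        rw [Finset.mem_coe, Finset.mem_filter] at hy hy'
        exact Prod.ext hyy (hy.2.trans hy'.2.symm)
    refine (Nat.mul_le_mul_right _ h3).trans ?_
    rw [h2]
    split_ifs
    · exact le_refl _
    · exact Nat.zero_le _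
  · have h2 : ((SC L g A w e).filter fun y => y.2 = x) = ∅ := by
      rw [Finset.filter_eq_empty_iff]
      rintro y hy rfl
      rw [SC, Finset.mem_filter] at hy
      exact hx hy.2.1
    rw [h2, Finset.card_empty, zero_mul]
    exact Nat.zero_le _


omit [Fintype T] in
lemma sub_sum_aux {A : Finset T} {v p q : T → ZMod 2} {a₀ : T} (ha0 : a₀ ∈ A) (hv : v a₀ = 1)
    (h : ∀ a ∈ A, a ≠ a₀ → p a = q a) :
    ∑ a ∈ A, v a * p a - ∑ a ∈ A, v a * q a = p a₀ - q a₀ := by
  rw [← Finset.sum_sub_distrib, Finset.sum_eq_single_of_mem a₀ ha0]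
  · rw [hv, one_mul, one_mul]
  · intro a ha hne
    rw [h a ha hne, sub_self]

lemma card_XC (L : Blk I U J) (g : T → I) (A : Finset T) (w : T → T → ZMod 2)
    (e : T → ZMod 2) (b a₀ : T)
    (hb : b ∉ A) (ha0 : a₀ ∈ A) (hw : w b a₀ = 1) (N : ℕ)
    (hN : N ≤ (univ.filter fun k => La L (g b) k + La L (g a₀) k = 1).card) :
    (XC L g A w e b).card * 2 ^ N ≤
      2 ^ (Fintype.card T * Fintype.card U) * 2 ^ Fintype.card T *
        2 ^ (A.card * Fintype.card J) := by
  set Ks : Finset J := univ.filter fun k => La L (g b) k + La L (g a₀) k = 1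
    with hKs
  -- the injection
  let φ : (T → Vc U J) →
      (T → U → ZMod 2) × (T → ZMod 2) × (↥(A.erase a₀) → J → ZMod 2) × (↥Ksᶜ → ZMod 2) :=
    fun x => (fun a => (x a).1, fun a => (x a).2.2, fun a => (x a).2.1, fun k => (x a₀).2.1 k)
  have hinj : Set.InjOn φ (XC L g A w e b : Set _) := by
    intro x hx x' hx' hφ
    rw [Finset.mem_coe, XC, Finset.mem_filter] at hx hx'
    obtain ⟨-, hx1, hx2⟩ := hx
    obtain ⟨-, hx1', hx2'⟩ := hx'
    have hc : ∀ a, (x a).1 = (x' a).1 := fun a => congrFun (congrArg Prod.fst hφ) a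
    have he : ∀ a, (x a).2.2 = (x' a).2.2 := fun a =>
      congrFun (congrArg (fun t => t.2.1) hφ) a
    have hd : ∀ a ∈ A, a ≠ a₀ → (x a).2.1 = (x' a).2.1 := fun a ha hne =>
      congrFun (congrArg (fun t => t.2.2.1) hφ) ⟨a, Finset.mem_erase.mpr ⟨hne, ha⟩⟩
    have hk : ∀ k, k ∉ Ks → (x a₀).2.1 k = (x' a₀).2.1 k := fun k hk =>
      congrFun (congrArg (fun t => t.2.2.2) hφ) ⟨k, Finset.mem_compl.mpr hk⟩
    have hd0 : (x a₀).2.1 = (x' a₀).2.1 := by
      funext k
      by_cases hkK : k ∈ Ks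
      · rw [hKs, Finset.mem_filter] at hkK
        have e1 : (x b).2.1 k - (x' b).2.1 k = (x a₀).2.1 k - (x' a₀).2.1 k := by
          rw [hx1 b hb k, hx1' b hb k, add_sub_add_right_eq_sub]
          exact sub_sum_aux ha0 hw (fun a ha hne => by rw [hd a ha hne])
        have e2 : fJ L (g b) (x b) k - fJ L (g b) (x' b) k =
            fJ L (g a₀) (x a₀) k - fJ L (g a₀) (x' a₀) k := by
          rw [hx2 k, hx2' k]
          refine sub_sum_aux ha0 hw (fun a ha hne => ?_)
          rw [fJ_eq, fJ_eq, hc a, he a, hd a ha hne]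
        rw [fJ_eq, fJ_eq, fJ_eq, fJ_eq, hc a₀, hc b, he a₀, he b, add_sub_add_right_eq_sub,
          add_sub_add_right_eq_sub, ← mul_sub, ← mul_sub, e1] at e2
        have e3 : (La L (g b) k + La L (g a₀) k) *
            ((x a₀).2.1 k - (x' a₀).2.1 k) = 0 := by
          have e4 : (La L (g b) k + La L (g a₀) k) *
              ((x a₀).2.1 k - (x' a₀).2.1 k) = (L.sJ k + La L (g b) k) *
              ((x a₀).2.1 k - (x' a₀).2.1 k) + (L.sJ k + La L (g a₀) k) *
              ((x a₀).2.1 k - (x' a₀).2.1 k) -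
              (L.sJ k + L.sJ k) * ((x a₀).2.1 k - (x' a₀).2.1 k) := by ring
          rw [e4, e2, add_self2, add_self2, zero_mul, sub_zero]
        rw [hkK.2, one_mul] at e3
        exact sub_eq_zero.mp e3
      · exact hk k hkK
    have hdA : ∀ a ∈ A, (x a).2.1 = (x' a).2.1 := by
      intro a ha
      by_cases hne : a = a₀
      · rw [hne]
        exact hd0
      · exact hd a ha hne
    funext a
    refine Prod.ext (hc a) (Prod.ext ?_ (he a))
    by_cases ha : a ∈ A
    · exact hdA a ha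
    · funext k
      rw [hx1 a ha k, hx1' a ha k]
      congr 1
      refine Finset.sum_congr rfl fun a' ha' => ?_
      rw [hdA a' ha']
  have hcard : (XC L g A w e b).card ≤
      2 ^ (Fintype.card T * Fintype.card U) * (2 ^ Fintype.card T *
        (2 ^ ((A.card - 1) * Fintype.card J) * 2 ^ (Fintype.card J - Ks.card))) := by
    have h1 := Finset.card_le_card_of_injOn φ (t := univ) (fun x _ => mem_univ _) hinj
    refine h1.trans (le_of_eq ?_)
    rw [Finset.card_univ, Fintype.card_prod, Fintype.card_prod, Fintype.card_prod,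
      Fintype.card_fun, Fintype.card_fun, Fintype.card_fun,
      Fintype.card_fun, Fintype.card_fun, Fintype.card_fun, ZMod.card, Fintype.card_coe,
      Fintype.card_coe, Finset.card_compl, Finset.card_erase_of_mem ha0, ← pow_mul, ← pow_mul,
      mul_comm (Fintype.card U), mul_comm (Fintype.card J)]
  have hKJ : Ks.card ≤ Fintype.card J := Finset.card_le_univ _
  have hA1 : 1 ≤ A.card := Finset.card_pos.mpr ⟨a₀, ha0⟩
  calc (XC L g A w e b).card * 2 ^ N
      ≤ 2 ^ (Fintype.card T * Fintype.card U) * (2 ^ Fintype.card T *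
        (2 ^ ((A.card - 1) * Fintype.card J) * 2 ^ (Fintype.card J - Ks.card))) * 2 ^ Ks.card :=
        Nat.mul_le_mul hcard (Nat.pow_le_pow_right (by norm_num) hN)
    _ = 2 ^ (Fintype.card T * Fintype.card U) * 2 ^ Fintype.card T *
        (2 ^ ((A.card - 1) * Fintype.card J) *
          2 ^ (Fintype.card J - Ks.card + Ks.card)) := by
        rw [pow_add]
        ring
    _ = 2 ^ (Fintype.card T * Fintype.card U) * 2 ^ Fintype.card T *
        2 ^ (A.card * Fintype.card J) := by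
        rw [Nat.sub_add_cancel hKJ, ← pow_add _ ((A.card - 1) * Fintype.card J)]
        congr 2
        obtain ⟨c, hc⟩ := Nat.exists_eq_add_of_le hA1
        rw [hc, Nat.add_sub_cancel_left]
        ring

lemma card_SC (h1 : S_LA1J) (L : Blk I U J) (g : T → I) (A : Finset T) (w : T → T → ZMod 2) (e : T → ZMod 2) (b a₀ : T)
    (hb : b ∉ A) (ha0 : a₀ ∈ A) (hw : w b a₀ = 1) (N : ℕ)
    (hN : N ≤ (univ.filter fun k => La L (g b) k + La L (g a₀) k = 1).card) :
    (SC L g A w e).card * 2 ^ N ≤ 2 ^ (Fintype.card T * Fintype.card U) * 2 ^ Fintype.card T *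
      2 ^ (Fintype.card T + Fintype.card T ^ 2) * 2 ^ (prs J).card := by
  have hX := card_XC L g A w e b a₀ hb ha0 hw N hN
  have hS : (SC L g A w e).card * 2 ^ (A.card * (Fintype.card J - 1)) ≤
      (XC L g A w e b).card * 2 ^ ((prs J).card + A.card.choose 2) := by
    rw [Finset.card_eq_sum_card_fiberwise (f := fun y => y.2) (t := XC L g A w e b)
      (fun y hy => maps L g A w e b hb y hy), Finset.sum_mul]
    refine (Finset.sum_le_sum fun x _ => fiber h1 L g A w e x).trans ?_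
    rw [Finset.sum_const, smul_eq_mul]
  have hAT : A.card ≤ Fintype.card T := Finset.card_le_univ _
  have hch : A.card.choose 2 ≤ Fintype.card T ^ 2 :=
    (Nat.choose_le_pow A.card 2).trans (Nat.pow_le_pow_left hAT 2)
  have hJ : A.card * Fintype.card J ≤ A.card * (Fintype.card J - 1) + A.card := by
    rw [← Nat.mul_succ]
    exact Nat.mul_le_mul_left _ (by omega)
  have hpos : 0 < 2 ^ (A.card * Fintype.card J) := by positivity
  apply Nat.le_of_mul_le_mul_right _ hpos
  calc (SC L g A w e).card * 2 ^ N * 2 ^ (A.card * Fintype.card J)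
      ≤ (SC L g A w e).card * 2 ^ N *
        2 ^ (A.card * (Fintype.card J - 1) + A.card) :=
        Nat.mul_le_mul_left _ (Nat.pow_le_pow_right (by norm_num) hJ)
    _ = ((SC L g A w e).card * 2 ^ (A.card * (Fintype.card J - 1))) *
        (2 ^ N * 2 ^ A.card) := by rw [pow_add]; ring
    _ ≤ ((XC L g A w e b).card * 2 ^ ((prs J).card + A.card.choose 2)) *
        (2 ^ N * 2 ^ A.card) := Nat.mul_le_mul_right _ hS
    _ = ((XC L g A w e b).card * 2 ^ N) * (2 ^ ((prs J).card + A.card.choose 2) *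
        2 ^ A.card) := by ring
    _ ≤ (2 ^ (Fintype.card T * Fintype.card U) * 2 ^ Fintype.card T *
        2 ^ (A.card * Fintype.card J)) *
        (2 ^ ((prs J).card + A.card.choose 2) * 2 ^ A.card) := Nat.mul_le_mul_right _ hX
    _ = (2 ^ (Fintype.card T * Fintype.card U) * 2 ^ Fintype.card T *
        2 ^ (A.card * Fintype.card J)) *
        (2 ^ (A.card + A.card.choose 2) * 2 ^ (prs J).card) := by
        congr 1
        rw [← pow_add, ← pow_add]
        congr 1
        ring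
    _ ≤ (2 ^ (Fintype.card T * Fintype.card U) * 2 ^ Fintype.card T *
        2 ^ (A.card * Fintype.card J)) *
        (2 ^ (Fintype.card T + Fintype.card T ^ 2) * 2 ^ (prs J).card) :=
        Nat.mul_le_mul_left _ (Nat.mul_le_mul_right _
          (Nat.pow_le_pow_right (by norm_num) (Nat.add_le_add hAT hch)))
    _ = 2 ^ (Fintype.card T * Fintype.card U) * 2 ^ Fintype.card T *
        2 ^ (Fintype.card T + Fintype.card T ^ 2) *
        2 ^ (prs J).card * 2 ^ (A.card * Fintype.card J) := by ring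

/-- the number of the codes -/
noncomputable def NC (T : Type) [Fintype T] : ℕ :=
  Fintype.card (Finset T × (T → T → ZMod 2) × (T → ZMod 2) × T × T)

/-- the bound for all the codes -/
lemma total (h1 : S_LA1J) (L : Blk I U J) (g : T → I) (N : ℕ)
    (hN : ∀ i j : I, i ≠ j → N ≤
      (univ.filter fun k => La L i k + La L j k = 1).card)
    (S : Finset ((prs J → ZMod 2) × (T → Vc U J)))
    (hS : ∀ y ∈ S, (∀ i, ∀ w : T → ZMod 2, (∃ a, g a = i ∧ w a ≠ 0) → (∀ a, g a ≠ i → w a = 0) →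
        ∃ k l, ∑ a, w a * ((y.2 a).2.1 k + (y.2 a).2.1 l) ≠ 0) ∧ ¬ IndA (fun a => (y.2 a).2.1) ∧
      ∀ a k, fJ L (g a) (y.2 a) k +
        ∑ l, ext L.tJ y.1 k l * ((y.2 a).2.1 k + (y.2 a).2.1 l) = 0) :
    S.card * 2 ^ N ≤ NC T *
      (2 ^ (Fintype.card T * Fintype.card U) * 2 ^ Fintype.card T *
        2 ^ (Fintype.card T + Fintype.card T ^ 2) * 2 ^ (prs J).card) := by
  set V : Finset (Finset T × (T → T → ZMod 2) × (T → ZMod 2) × T × T) :=
    univ.filter fun c => c.2.2.2.1 ∉ c.1 ∧ c.2.2.2.2 ∈ c.1 ∧ c.2.1 c.2.2.2.1 c.2.2.2.2 = 1 ∧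
      g c.2.2.2.1 ≠ g c.2.2.2.2 with hV
  have hsub : S ⊆ V.biUnion fun c => SC L g c.1 c.2.1 c.2.2.1 := by
    intro y hy
    obtain ⟨h2, h3, h4⟩ := hS y hy
    obtain ⟨A, w, e, b, a₀, hb, ha0, hw, hg, hIO, hd⟩ := exists_code g (fun a => (y.2 a).2.1) h2 h3
    rw [Finset.mem_biUnion]
    refine ⟨(A, w, e, b, a₀), ?_, ?_⟩
    · rw [hV, Finset.mem_filter]
      exact ⟨mem_univ _, hb, ha0, hw, hg⟩
    · rw [SC, Finset.mem_filter]
      exact ⟨mem_univ _, hIO, hd, h4⟩
  have hle : S.card ≤ ∑ c ∈ V, (SC L g c.1 c.2.1 c.2.2.1).card :=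
    (Finset.card_le_card hsub).trans Finset.card_biUnion_le
  calc S.card * 2 ^ N ≤ (∑ c ∈ V, (SC L g c.1 c.2.1 c.2.2.1).card) * 2 ^ N :=
        Nat.mul_le_mul_right _ hle
    _ = ∑ c ∈ V, (SC L g c.1 c.2.1 c.2.2.1).card * 2 ^ N := Finset.sum_mul _ _ _
    _ ≤ ∑ c ∈ V, (2 ^ (Fintype.card T * Fintype.card U) * 2 ^ Fintype.card T *
        2 ^ (Fintype.card T + Fintype.card T ^ 2) * 2 ^ (prs J).card) := by
        refine Finset.sum_le_sum fun c hc => ?_
        rw [hV, Finset.mem_filter] at hc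
        obtain ⟨-, c1, c2, c3, c4⟩ := hc
        exact card_SC h1 L g c.1 c.2.1 c.2.2.1 c.2.2.2.1 c.2.2.2.2 c1 c2 c3 N
          (hN _ _ c4)
    _ = V.card * (2 ^ (Fintype.card T * Fintype.card U) * 2 ^ Fintype.card T *
        2 ^ (Fintype.card T + Fintype.card T ^ 2) * 2 ^ (prs J).card) := by
        rw [Finset.sum_const, smul_eq_mul]
    _ ≤ _ := Nat.mul_le_mul_right _ (Finset.card_le_univ _)

end count

end Pool.Agent.NH57.BJ.LXJ3

namespace Pool.Agent.NH57.BJ

open Finset
open Pool.Agent.NH57.BL (prs ext c2 IndA S_LA1J Vc)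

theorem t_LXJ3 : S_LXJ3 := by
  intro h1 I _ m δ hδ
  set T := Σ i, Fin (m i) with hT
  set c : ℕ := LXJ3.NC T * 2 ^ Fintype.card T * 2 ^ (Fintype.card T + Fintype.card T ^ 2) with hc
  obtain ⟨V, hV⟩ := pow_unbounded_of_one_lt ((c : ℝ) / δ) (one_lt_two : (1 : ℝ) < 2)
  refine ⟨Fintype.card T, V, ?_⟩
  intro a b hab U J _ _ _ L hyp
  have key := LXJ3.total (T := T) h1 L (fun a => a.1) (Fintype.card T * Fintype.card U + V)
    (fun i j hij => hyp.diff i j hij)
    (univ.filter fun y : (prs J → ZMod 2) × (T → Vc U J) =>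
      (∀ i, IndA (fun p : Fin (m i) => (y.2 ⟨i, p⟩).2.1)) ∧ ¬ IndA (fun p => (y.2 p).2.1) ∧
      (∀ p, UR a b L p.1 (y.2 p)) ∧
      ∀ p k, rowJ L (ext L.tJ y.1) p.1 (y.2 p) k = 0) (by
      intro y hy
      rw [Finset.mem_filter] at hy
      obtain ⟨-, g1, g2, -, g4⟩ := hy
      refine ⟨?_, g2, g4⟩
      rintro i w ⟨⟨i', a⟩, rfl, hwa⟩ hw0
      obtain ⟨k, l, hkl⟩ := g1 i' (fun a => w ⟨i', a⟩) ⟨a, hwa⟩
      refine ⟨k, l, ?_⟩
      rw [Fintype.sum_sigma, Finset.sum_eq_single i']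
      · exact hkl
      · intro j _ hj
        refine Finset.sum_eq_zero fun a' _ => ?_
        rw [hw0 ⟨j, a'⟩ hj, zero_mul]
      · intro h
        exact absurd (mem_univ _) h)
  set Sc : ℕ := (univ.filter fun y : (prs J → ZMod 2) × (T → Vc U J) =>
      (∀ i, IndA (fun p : Fin (m i) => (y.2 ⟨i, p⟩).2.1)) ∧ ¬ IndA (fun p => (y.2 p).2.1) ∧
      (∀ p, UR a b L p.1 (y.2 p)) ∧
      ∀ p k, rowJ L (ext L.tJ y.1) p.1 (y.2 p) k = 0).card with hSc
  have key2 : Sc * 2 ^ V ≤ c * 2 ^ (prs J).card := by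
    have hpos : 0 < 2 ^ (Fintype.card T * Fintype.card U) := by positivity
    apply Nat.le_of_mul_le_mul_right _ hpos
    calc Sc * 2 ^ V * 2 ^ (Fintype.card T * Fintype.card U)
        = Sc * 2 ^ (Fintype.card T * Fintype.card U + V) := by rw [pow_add]; ring
      _ ≤ _ := key
      _ = c * 2 ^ (prs J).card * 2 ^ (Fintype.card T * Fintype.card U) := by rw [hc]; ring
  have key3 : (Sc : ℝ) * 2 ^ V ≤ c * 2 ^ (prs J).card := by exact_mod_cast key2
  have hV' : (c : ℝ) ≤ δ * 2 ^ V := by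
    rw [div_lt_iff₀ hδ] at hV
    linarith
  have hV0 : (0 : ℝ) < 2 ^ V := by positivity
  have hP : (0 : ℝ) ≤ 2 ^ (prs J).card := by positivity
  have : (Sc : ℝ) * 2 ^ V ≤ (δ * 2 ^ (prs J).card) * 2 ^ V := by
    calc (Sc : ℝ) * 2 ^ V ≤ c * 2 ^ (prs J).card := key3
      _ ≤ (δ * 2 ^ V) * 2 ^ (prs J).card := mul_le_mul_of_nonneg_right hV' hP
      _ = (δ * 2 ^ (prs J).card) * 2 ^ V := by ring
  exact le_of_mul_le_mul_right this hV0

end Pool.Agent.NH57.BJ
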