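import Pool.Agent.NH57.BL.LJ

/-!
# Project BL, job BL-43: the assembly of the joint linear algebra law (port of `R426/QJ/LA4.lean`)
-/

set_option autoImplicit false
set_option linter.unusedVariables false
set_option linter.unusedSectionVars false

open scoped Classical

namespace Pool.Agent.NH57.BJ

namespace LXJ4

open Finset
open Pool.Agent.NH57.BL (prs ext c2 IndA S_LA1J Vc)

/-- the number of the linearly independent tuples -/
theorem card_li {V : Type} [AddCommGroup V] [Module (ZMod 2) V] [Finite V] (m : ℕ) :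
    (Nat.card {s : Fin m → V // LinearIndependent (ZMod 2) s} : ℝ) =
      ∏ i ∈ range m, ((2 : ℝ) ^ Module.finrank (ZMod 2) V - 2 ^ i) := by
  have hfin : Module.Finite (ZMod 2) V := Module.Finite.of_finite
  by_cases hm : m ≤ Module.finrank (ZMod 2) V
  · rw [card_linearIndependent hm, ZMod.card, Nat.cast_prod, Finset.prod_range]
    apply Finset.prod_congr rfl
    intro i _
    rw [Nat.cast_sub]
    · push_cast; rfl
    · exact Nat.pow_le_pow_right (by norm_num) (by omega)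
  · rw [Finset.prod_eq_zero (i := Module.finrank (ZMod 2) V)]
    · have : IsEmpty {s : Fin m → V // LinearIndependent (ZMod 2) s} := by
        constructor
        rintro ⟨s, hs⟩
        have := hs.fintype_card_le_finrank
        rw [Fintype.card_fin] at this
        exact hm this
      rw [Nat.card_of_isEmpty, Nat.cast_zero]
    · rw [Finset.mem_range]; omega
    · rw [sub_self]

theorem two_eq : (2 : ZMod 2) = 0 := rfl

section

variable {I U J : Type} [Fintype U] [Fintype J]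

theorem rowU_add (L : Blk I U J) (i : I) (z z' : Vc U J) (u : U) :
    rowU L i (z + z') u = rowU L i z u + rowU L i z' u := by
  unfold rowU
  simp only [Prod.fst_add, Prod.snd_add, Pi.add_apply]
  have h1 : ∑ v ∈ L.W i, L.A u v * (z.1 u + z'.1 u + (z.1 v + z'.1 v)) =
      ∑ v ∈ L.W i, L.A u v * (z.1 u + z.1 v) + ∑ v ∈ L.W i, L.A u v * (z'.1 u + z'.1 v) := by
    rw [← Finset.sum_add_distrib]
    exact Finset.sum_congr rfl fun v _ => by ring
  have h2 : ∑ l, L.B u l * (z.1 u + z'.1 u + (z.2.1 l + z'.2.1 l)) =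
      ∑ l, L.B u l * (z.1 u + z.2.1 l) + ∑ l, L.B u l * (z'.1 u + z'.2.1 l) := by
    rw [← Finset.sum_add_distrib]
    exact Finset.sum_congr rfl fun v _ => by ring
  rw [h1, h2]; ring

theorem rowU_smul (L : Blk I U J) (i : I) (a : ZMod 2) (z : Vc U J) (u : U) :
    rowU L i (a • z) u = a * rowU L i z u := by
  unfold rowU
  simp only [Prod.smul_fst, Prod.smul_snd, Pi.smul_apply, smul_eq_mul]
  rw [mul_add, mul_add, mul_add, Finset.mul_sum, Finset.mul_sum]
  congr 1
  · congr 1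
    · congr 1
      · ring
      · exact Finset.sum_congr rfl fun v _ => by ring
    · exact Finset.sum_congr rfl fun v _ => by ring
  · ring

theorem fJ_add (L : Blk I U J) (i : I) (z z' : Vc U J) (k : J) :
    fJ L i (z + z') k = fJ L i z k + fJ L i z' k := by
  unfold fJ
  simp only [Prod.fst_add, Prod.snd_add, Pi.add_apply]
  have h1 : ∑ u ∈ L.W i, (L.B u k + L.tU u * L.tJ k) * (z.2.1 k + z'.2.1 k + (z.1 u + z'.1 u)) =
      ∑ u ∈ L.W i, (L.B u k + L.tU u * L.tJ k) * (z.2.1 k + z.1 u) +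
        ∑ u ∈ L.W i, (L.B u k + L.tU u * L.tJ k) * (z'.2.1 k + z'.1 u) := by
    rw [← Finset.sum_add_distrib]
    exact Finset.sum_congr rfl fun v _ => by ring
  rw [h1]; ring

theorem fJ_smul (L : Blk I U J) (i : I) (a : ZMod 2) (z : Vc U J) (k : J) :
    fJ L i (a • z) k = a * fJ L i z k := by
  unfold fJ
  simp only [Prod.smul_fst, Prod.smul_snd, Pi.smul_apply, smul_eq_mul]
  rw [mul_add, mul_add, Finset.mul_sum]
  congr 1
  · congr 1
    · ring
    · exact Finset.sum_congr rfl fun v _ => by ring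
  · ring

theorem rowJ_add (L : Blk I U J) (R : J → J → ZMod 2) (i : I) (z z' : Vc U J) (k : J) :
    rowJ L R i (z + z') k = rowJ L R i z k + rowJ L R i z' k := by
  unfold rowJ
  rw [fJ_add]
  simp only [Prod.fst_add, Prod.snd_add, Pi.add_apply]
  have h2 : ∑ l, R k l * (z.2.1 k + z'.2.1 k + (z.2.1 l + z'.2.1 l)) =
      ∑ l, R k l * (z.2.1 k + z.2.1 l) + ∑ l, R k l * (z'.2.1 k + z'.2.1 l) := by
    rw [← Finset.sum_add_distrib]
    exact Finset.sum_congr rfl fun v _ => by ring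
  rw [h2]; ring

theorem rowJ_smul (L : Blk I U J) (R : J → J → ZMod 2) (i : I) (a : ZMod 2) (z : Vc U J) (k : J) :
    rowJ L R i (a • z) k = a * rowJ L R i z k := by
  unfold rowJ
  rw [fJ_smul]
  simp only [Prod.smul_fst, Prod.smul_snd, Pi.smul_apply, smul_eq_mul]
  rw [mul_add, Finset.mul_sum]
  congr 1
  exact Finset.sum_congr rfl fun v _ => by ring

theorem bor_add (a b : I → ZMod 2) (L : Blk I U J) (i : I) (z z' : Vc U J) :
    bor a b L i (z + z') = bor a b L i z + bor a b L i z' := by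
  unfold bor
  simp only [Prod.fst_add, Prod.snd_add, Pi.add_apply, mul_add, Finset.sum_add_distrib]
  ring

theorem bor_smul (a b : I → ZMod 2) (L : Blk I U J) (i : I) (c : ZMod 2) (z : Vc U J) :
    bor a b L i (c • z) = c * bor a b L i z := by
  unfold bor
  simp only [Prod.smul_fst, Prod.smul_snd, Pi.smul_apply, smul_eq_mul]
  have h1 : ∑ u ∈ L.W i, L.dU i u * (c * z.1 u) = c * ∑ u ∈ L.W i, L.dU i u * z.1 u := by
    rw [Finset.mul_sum]
    exact Finset.sum_congr rfl fun v _ => by ring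
  have h2 : ∑ l, L.dJ i l * (c * z.2.1 l) = c * ∑ l, L.dJ i l * z.2.1 l := by
    rw [Finset.mul_sum]
    exact Finset.sum_congr rfl fun v _ => by ring
  rw [h1, h2]
  ring

/-- the kernel of the bordered system `i` -/
def Kr (a b : I → ZMod 2) (L : Blk I U J) (R : J → J → ZMod 2) (i : I) :
    Submodule (ZMod 2) (Vc U J) where
  carrier := {z | (∀ u, u ∉ L.W i → z.1 u = 0) ∧ (∀ u ∈ L.W i, rowU L i z u = 0) ∧
    (∀ k, rowJ L R i z k = 0) ∧ bor a b L i z = 0}
  zero_mem' := by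
    refine ⟨fun u _ => rfl, fun u _ => ?_, fun k => ?_, ?_⟩
    · have := rowU_smul L i 0 (0 : Vc U J) u
      simpa using this
    · have := rowJ_smul L R i 0 (0 : Vc U J) k
      simpa using this
    · have := bor_smul a b L i 0 (0 : Vc U J)
      simpa using this
  add_mem' := by
    rintro z z' ⟨h0, h1, h2, h3⟩ ⟨h0', h4, h5, h6⟩
    refine ⟨fun u hu => ?_, fun u hu => ?_, fun k => ?_, ?_⟩
    · rw [Prod.fst_add, Pi.add_apply, h0 u hu, h0' u hu, add_zero]
    · rw [rowU_add, h1 u hu, h4 u hu, add_zero]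
    · rw [rowJ_add, h2, h5, add_zero]
    · rw [bor_add, h3, h6, add_zero]
  smul_mem' := by
    rintro c z ⟨h0, h1, h2, h3⟩
    refine ⟨fun u hu => ?_, fun u hu => ?_, fun k => ?_, ?_⟩
    · rw [Prod.smul_fst, Pi.smul_apply, h0 u hu, smul_zero]
    · rw [rowU_smul, h1 u hu, mul_zero]
    · rw [rowJ_smul, h2, mul_zero]
    · rw [bor_smul, h3, mul_zero]

theorem gd_iff {a b : I → ZMod 2} {L : Blk I U J} {R : J → J → ZMod 2} {i : I} :
    GdJ a b L R i ↔ Module.finrank (ZMod 2) (Kr a b L R i) = 0 := by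
  rw [Submodule.finrank_eq_zero, Submodule.eq_bot_iff]
  constructor
  · intro h z hz
    exact h z hz.1 hz.2.1 hz.2.2.1 hz.2.2.2
  · intro h z h0 h1 h2 h3
    exact h z ⟨h0, h1, h2, h3⟩

/-- linear independence in the kernel -/
theorem li_iff {a b : I → ZMod 2} {L : Blk I U J} {R : J → J → ZMod 2} {i : I} (k0 : J)
    (h4 : ∀ (w : U → ZMod 2) (e f : ZMod 2), ((∃ u, w u ≠ 0) ∨ e ≠ 0 ∨ f ≠ 0) →
      ∃ k, e * L.sJ k + f * L.gJ i k + ∑ u, w u * (L.B u k + L.tU u * L.tJ k) ≠ 0) {m : ℕ}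
    (s : Fin m → Kr a b L R i) :
    LinearIndependent (ZMod 2) s ↔ IndA (fun p => (s p).1.2.1) := by
  rw [Fintype.linearIndependent_iff]
  have hsum2 : ∀ (c : Fin m → ZMod 2) (k : J),
      (((∑ p, c p • s p : Kr a b L R i) : Vc U J).2.1 k) = ∑ p, c p * (s p).1.2.1 k := by
    intro c k
    rw [Submodule.coe_sum, Prod.snd_sum, Prod.fst_sum, Finset.sum_apply]
    rfl
  constructor
  · intro h c ⟨i0, hi0⟩
    by_contra hcon
    push Not at hcon
    apply hi0
    refine h c ?_ i0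
    obtain ⟨y, hy⟩ : ∃ y, y = ∑ p, c p • s p := ⟨_, rfl⟩
    rw [← hy]
    have hyk : ∀ k, y.1.2.1 k = ∑ p, c p * (s p).1.2.1 k := by
      intro k; rw [hy]; exact hsum2 c k
    have hconst : ∀ l, y.1.2.1 l = y.1.2.1 k0 := by
      intro l
      have h1 := hcon l k0
      simp_rw [mul_add] at h1
      rw [Finset.sum_add_distrib, ← hyk, ← hyk] at h1
      have h2 : y.1.2.1 l = -y.1.2.1 k0 := eq_neg_of_add_eq_zero_left h1
      rw [h2, ZMod.neg_eq_self_mod_two]
    have hy1 := y.2.1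
    have hy2 := y.2.2.2.1
    by_contra hy0
    have hor : (∃ u, (if u ∈ L.W i then y.1.1 u + y.1.2.1 k0 else 0) ≠ 0) ∨ y.1.2.1 k0 ≠ 0 ∨
        y.1.2.2 ≠ 0 := by
      by_contra hn
      push Not at hn
      obtain ⟨hn1, hn2, hn3⟩ := hn
      apply hy0
      apply Subtype.ext
      refine Prod.ext ?_ (Prod.ext ?_ hn3)
      · funext u
        by_cases hu : u ∈ L.W i
        · have := hn1 u
          rw [if_pos hu, hn2, add_zero] at this
          exact this
        · exact hy1 u hu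
      · funext l
        change y.1.2.1 l = 0
        rw [hconst l, hn2]
    obtain ⟨k, hk⟩ := h4 (fun u => if u ∈ L.W i then y.1.1 u + y.1.2.1 k0 else 0) (y.1.2.1 k0)
      y.1.2.2 hor
    apply hk
    have h5 : rowJ L R i y.1 k = 0 := hy2 k
    unfold rowJ fJ at h5
    rw [hconst k] at h5
    have h6 : ∑ l, R k l * (y.1.2.1 k0 + y.1.2.1 l) = 0 := by
      apply Finset.sum_eq_zero
      intro l _
      rw [hconst l, ← two_mul, two_eq, zero_mul, mul_zero]
    rw [h6, add_zero] at h5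
    have h7 : ∑ u ∈ L.W i, (L.B u k + L.tU u * L.tJ k) * (y.1.2.1 k0 + y.1.1 u) =
        ∑ u, if u ∈ L.W i then (L.B u k + L.tU u * L.tJ k) * (y.1.2.1 k0 + y.1.1 u) else 0 := by
      rw [Finset.sum_ite_mem, Finset.univ_inter]
    have h8 : ∑ u, (if u ∈ L.W i then y.1.1 u + y.1.2.1 k0 else 0) *
        (L.B u k + L.tU u * L.tJ k) =
        ∑ u, if u ∈ L.W i then (L.B u k + L.tU u * L.tJ k) * (y.1.2.1 k0 + y.1.1 u) else 0 := by
      apply Finset.sum_congr rfl
      intro u _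
      by_cases hu : u ∈ L.W i
      · rw [if_pos hu, if_pos hu]; ring
      · rw [if_neg hu, if_neg hu, zero_mul]
    rw [h7] at h5
    refine Eq.trans ?_ h5
    rw [h8]
    ring
  · intro h c hc
    by_contra hcon
    push Not at hcon
    obtain ⟨k, l, hkl⟩ := h c hcon
    apply hkl
    simp_rw [mul_add]
    rw [Finset.sum_add_distrib, ← hsum2 c k, ← hsum2 c l, hc]
    change (0 : ZMod 2) + 0 = 0
    rw [add_zero]

end

section

variable {I U J : Type} [Fintype U] [Fintype J] [LinearOrder J]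

theorem mem_prs (e : J × J) : e ∈ prs J ↔ e.1 < e.2 := by
  unfold prs
  rw [Finset.mem_filter]
  exact ⟨fun h => h.2, fun h => ⟨Finset.mem_univ _, h⟩⟩

theorem ext_add (t : J → ZMod 2) (α : prs J → ZMod 2) (k l : J) (h : k < l) :
    ext t α k l + ext t α l k = t k * t l := by
  have h1 : (l, k) ∉ prs J := by rw [mem_prs]; exact not_lt.2 h.le
  have h2 : (k, l) ∈ prs J := by rw [mem_prs]; exact h
  unfold Pool.Agent.NH57.BL.ext
  rw [dif_neg h1, dif_pos h2, dif_pos h2]
  have : α ⟨(k, l), h2⟩ + t k * t l + α ⟨(k, l), h2⟩ =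
      2 * α ⟨(k, l), h2⟩ + t k * t l := by ring
  rw [this, two_eq, zero_mul, zero_add]

/-- a sum over the pairs -/
theorem sum_pairs (g : J → J → ZMod 2) (hg : ∀ k, g k k = 0) :
    ∑ k, ∑ l, g k l = ∑ e ∈ prs J, (g e.1 e.2 + g e.2 e.1) := by
  rw [Finset.sum_add_distrib]
  have h1 : ∑ k, ∑ l, g k l = ∑ e : J × J, g e.1 e.2 := by
    rw [← Finset.univ_product_univ, Finset.sum_product]
  have h2 : ∑ e ∈ prs J, g e.2 e.1 = ∑ e ∈ univ.filter (fun e : J × J => e.2 < e.1), g e.1 e.2 := by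
    refine Finset.sum_bij' (fun e _ => (e.2, e.1)) (fun e _ => (e.2, e.1)) ?_ ?_ ?_ ?_ ?_
    · intro e he
      rw [mem_prs] at he
      exact Finset.mem_filter.2 ⟨Finset.mem_univ _, he⟩
    · intro e he
      rw [mem_prs]
      exact (Finset.mem_filter.1 he).2
    · intro e _; rfl
    · intro e _; rfl
    · intro e _; rfl
  have h3 : ∑ e : J × J, g e.1 e.2 = ∑ e ∈ prs J, g e.1 e.2 +
      ∑ e ∈ univ.filter (fun e : J × J => e.2 < e.1), g e.1 e.2 := by
    have e0 : prs J = univ.filter (fun e : J × J => e.1 < e.2) := by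
      apply Finset.ext
      intro e
      rw [mem_prs, Finset.mem_filter]
      exact ⟨fun h => ⟨Finset.mem_univ _, h⟩, fun h => h.2⟩
    have e1 : ∑ e ∈ univ.filter (fun e : J × J => e.2 < e.1), g e.1 e.2 =
        ∑ e ∈ univ.filter (fun e : J × J => ¬ e.1 < e.2), g e.1 e.2 := by
      apply Finset.sum_subset
      · intro e he
        rw [Finset.mem_filter] at he ⊢
        exact ⟨he.1, not_lt.2 he.2.le⟩
      · intro e he hne
        rw [Finset.mem_filter] at he hne
        have : e.1 = e.2 := by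
          apply le_antisymm
          · by_contra hc
            exact hne ⟨Finset.mem_univ _, not_le.1 hc⟩
          · exact not_lt.1 he.2
        rw [this]; exact hg _
    rw [e1, e0, Finset.sum_filter_add_sum_filter_not univ (fun e : J × J => e.1 < e.2)]
  rw [h1, h3, h2]

/-- the vectors of the kernel satisfy the necessary conditions -/
theorem ur_of_mem {a b : I → ZMod 2} {L : Blk I U J} {i : I} (α : prs J → ZMod 2) {z : Vc U J}
    (h : z ∈ Kr a b L (ext L.tJ α) i) : UR a b L i z := by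
  obtain ⟨h1, h2, h3, h0⟩ := h
  refine ⟨h1, fun u hu => h2 u hu, h0, ?_⟩
  have h4 : ∑ k, rowJ L (ext L.tJ α) i z k = 0 := Finset.sum_eq_zero fun k _ => h3 k
  unfold rowJ at h4
  rw [Finset.sum_add_distrib, sum_pairs (fun k l => ext L.tJ α k l * (z.2.1 k + z.2.1 l))
    (fun k => by rw [← two_mul, two_eq, zero_mul, mul_zero])] at h4
  rw [← h4]
  congr 1
  apply Finset.sum_congr rfl
  intro e he
  rw [mem_prs] at he
  rw [← ext_add L.tJ α e.1 e.2 he]
  ring

end

theorem ind_sub {I : Type} [Fintype I] {m : I → ℕ} {J : Type} {d : (Σ i, Fin (m i)) → J → ZMod 2}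
    (h : IndA d) (i : I) : IndA (fun a : Fin (m i) => d ⟨i, a⟩) := by
  intro w ⟨a, ha⟩
  obtain ⟨k, l, hkl⟩ := h (fun b => if hb : b.1 = i then w (hb ▸ b.2) else 0) ⟨⟨i, a⟩, by
    simpa using ha⟩
  refine ⟨k, l, ?_⟩
  intro h0
  apply hkl
  refine Eq.trans ?_ h0
  rw [← Finset.univ_sigma_univ, Finset.sum_sigma]
  rw [Finset.sum_eq_single i]
  · apply Finset.sum_congr rfl
    intro b _
    simp
  · intro j _ hj
    apply Finset.sum_eq_zero
    intro b _
    rw [dif_neg hj, zero_mul]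
  · intro h; exact absurd (Finset.mem_univ i) h

theorem hyp_mono {U J : Type} [Fintype U] [Fintype J] {I : Type} {K V K' V' : ℕ}
    {L : Blk I U J} (hK : K' ≤ K) (hV : V' ≤ V) (h : Hyp K V L) : Hyp K' V' L where
  many i j := (Nat.add_le_add (Nat.mul_le_mul_right _ hK) hV).trans (h.many i j)
  diff i j hij := (Nat.add_le_add (Nat.mul_le_mul_right _ hK) hV).trans (h.diff i j hij)
  par := h.par
  recip := h.recip
  nd := h.nd

theorem L1 (hLA1 : S_LA1J) (J T : Type) [Fintype J] [LinearOrder J] [Fintype T] (tJ : J → ZMod 2)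
    (f d : T → J → ZMod 2) (hd : IndA d) (Pr : Prop)
    (hPr : Pr ↔ ((∀ a, ∑ k, f a k + ∑ e ∈ prs J, tJ e.1 * tJ e.2 * (d a e.1 + d a e.2) = 0) ∧
        (∀ a b, a ≠ b → ∑ k, (f a k * d b k + f b k * d a k) +
          ∑ k, ∑ l, (if k = l then 0 else tJ k * tJ l * (d a k * d b l)) = 0))) :
    (univ.filter fun α : prs J → ZMod 2 =>
      ∀ a k, f a k + ∑ l, ext tJ α k l * (d a k + d a l) = 0).card *
      2 ^ (Fintype.card T * (Fintype.card J - 1)) =
      if Pr then 2 ^ ((prs J).card + (Fintype.card T).choose 2) else 0 := by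
  have h := hLA1 J T tJ f d hd
  rw [h]
  by_cases hp : Pr
  · rw [if_pos hp, if_pos (hPr.1 hp)]
  · rw [if_neg hp, if_neg fun h' => hp (hPr.2 h')]

theorem bj_eq {I U J : Type} [Fintype U] [Fintype J] [LinearOrder J] (L : Blk I U J) (i j : I)
    (z z' : Vc U J) : bj L i j z z' = ∑ k, (fJ L i z k * z'.2.1 k + fJ L j z' k * z.2.1 k) +
      ∑ k, ∑ l, (if k = l then 0 else L.tJ k * L.tJ l * (z.2.1 k * z'.2.1 l)) := by
  unfold bj
  congr 1
  refine Finset.sum_congr rfl fun k _ => Finset.sum_congr rfl fun l _ => ?_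
  by_cases h : k = l
  · rw [if_pos h, if_pos h]
  · rw [if_neg h, if_neg h]

end LXJ4

open Finset LXJ4
open Pool.Agent.NH57.BL (prs ext c2 IndA S_LA1J Vc)

/-- **BL-43** -/
theorem t_LXJ4 : S_LXJ4 := by
  intro hMOM hLA1 hLA2 hLA3 I _ ε hε
  by_cases hI : Nonempty I
  swap
  · refine ⟨0, 0, ?_⟩
    intro a b hab U J _ _ _ L hyp
    have h1 : (univ.filter fun α : prs J → ZMod 2 =>
        ∀ i, GdJ a b L (ext L.tJ α) i) = univ := by
      apply Finset.filter_true_of_mem
      intro α _ i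
      exact absurd ⟨i⟩ hI
    have h2 : Fintype.card I = 0 := by
      rw [Fintype.card_eq_zero_iff]
      exact not_nonempty_iff.1 hI
    rw [h1, h2, pow_zero, Finset.card_univ, Fintype.card_fun, ZMod.card, Fintype.card_coe]
    push_cast
    rw [div_self (by positivity), sub_self, abs_zero]
    exact hε.le
  obtain ⟨i0⟩ := hI
  obtain ⟨M, δ, hδ, hM⟩ := hMOM I ε hε
  choose K2 V2 h2 using fun m => hLA2 I m (δ / 2) (half_pos hδ)
  choose K3 V3 h3 using fun m => hLA3 hLA1 I m (δ / 2) (half_pos hδ)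
  obtain ⟨P, hP⟩ : ∃ P : Finset (I → ℕ), P = Fintype.piFinset fun _ : I => range (M + 1) :=
    ⟨_, rfl⟩
  refine ⟨P.sup K2 + P.sup K3, P.sup V2 + P.sup V3 + 1, ?_⟩
  intro av bv hab U J _ _ _ L hyp
  have hJ : ∃ k0 : J, True := by
    have := hyp.many i0 i0
    have h4 : 0 < (univ.filter fun k => La L i0 k + La L i0 k + L.tJ k = 1).card := by
      omega
    obtain ⟨k0, _⟩ := Finset.card_pos.1 h4
    exact ⟨k0, trivial⟩
  obtain ⟨k0, -⟩ := hJ
  have hcardΩ : (Fintype.card (prs J → ZMod 2) : ℝ) = 2 ^ (prs J).card := by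
    rw [Fintype.card_fun, ZMod.card, Fintype.card_coe]
    push_cast
    rfl
  have key := hM (prs J → ZMod 2)
    (fun α i => Module.finrank (ZMod 2) (Kr av bv L (ext L.tJ α) i)) ?_
  · rw [hcardΩ] at key
    have h1 : (univ.filter fun α : prs J → ZMod 2 => ∀ i, GdJ av bv L (ext L.tJ α) i) =
        univ.filter fun α : prs J → ZMod 2 =>
          ∀ i, Module.finrank (ZMod 2) (Kr av bv L (ext L.tJ α) i) = 0 :=
      Finset.filter_congr fun α _ => forall_congr' fun i => gd_iff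
    rw [h1]
    exact key
  · intro m hm
    have hmP : m ∈ P := by
      rw [hP, Fintype.mem_piFinset]
      intro i
      rw [Finset.mem_range]
      have := hm i
      omega
    have hyp2 : Hyp (K2 m) (V2 m) L :=
      hyp_mono ((Finset.le_sup (f := K2) hmP).trans (by omega))
        ((Finset.le_sup (f := V2) hmP).trans (by omega)) hyp
    have hyp3 : Hyp (K3 m) (V3 m) L :=
      hyp_mono ((Finset.le_sup (f := K3) hmP).trans (by omega))
        ((Finset.le_sup (f := V3) hmP).trans (by omega)) hyp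
    have hres2 := h2 m av bv hab U J L hyp2
    have hres3 := h3 m av bv hab U J L hyp3
    -- the tuples
    obtain ⟨Q, hQ⟩ : ∃ Q : (prs J → ZMod 2) → ((Σ i, Fin (m i)) → Vc U J) → Prop,
      ∀ α x, Q α x ↔ ∀ a, x a ∈ Kr av bv L (ext L.tJ α) a.1 :=
      ⟨fun α x => ∀ a, x a ∈ Kr av bv L (ext L.tJ α) a.1, fun _ _ => Iff.rfl⟩
    have hcount : ∀ α : prs J → ZMod 2, ∏ i, ∏ a ∈ range (m i),
        ((2 : ℝ) ^ Module.finrank (ZMod 2) (Kr av bv L (ext L.tJ α) i) - 2 ^ a) =
        ((univ.filter fun x : (Σ i, Fin (m i)) → Vc U J =>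
          (∀ i, IndA (fun a : Fin (m i) => (x ⟨i, a⟩).2.1)) ∧ Q α x).card : ℝ) := by
      intro α
      have e1 : ∀ i, ∏ a ∈ range (m i),
        ((2 : ℝ) ^ Module.finrank (ZMod 2) (Kr av bv L (ext L.tJ α) i) - 2 ^ a) =
          (Nat.card {s : Fin (m i) → Kr av bv L (ext L.tJ α) i //
            LinearIndependent (ZMod 2) s} : ℝ) := fun i => (card_li (m i)).symm
      rw [Finset.prod_congr rfl fun i _ => e1 i, ← Nat.cast_prod, ← Nat.card_pi]
      congr 1
      rw [← Fintype.card_coe, ← Nat.card_eq_fintype_card]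
      apply Nat.card_congr
      refine
        { toFun := fun s => ⟨fun a => ((s a.1).1 a.2).1, ?_⟩
          invFun := fun x => fun i => ⟨fun a => ⟨x.1 ⟨i, a⟩, ?_⟩, ?_⟩
          left_inv := ?_
          right_inv := ?_ }
      · rw [Finset.mem_filter, hQ]
        refine ⟨Finset.mem_univ _, fun i => ?_, fun a => ?_⟩
        · exact (li_iff k0 (fun w e f h => (hyp.nd i w e f h).1) (s i).1).1 (s i).2
        · exact ((s a.1).1 a.2).2
      · have hx := (Finset.mem_filter.1 x.2).2.2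
        rw [hQ] at hx
        exact hx ⟨i, a⟩
      · have hx := (Finset.mem_filter.1 x.2).2.1
        exact (li_iff k0 (fun w e f h => (hyp.nd i w e f h).1) _).2 (hx i)
      · intro s; rfl
      · intro x; rfl
    rw [Finset.sum_congr rfl fun α _ => hcount α, ← Nat.cast_sum, hcardΩ]
    -- the pairs
    have hpairs : ∑ α : prs J → ZMod 2,
        (univ.filter fun x : (Σ i, Fin (m i)) → Vc U J =>
          (∀ i, IndA (fun a : Fin (m i) => (x ⟨i, a⟩).2.1)) ∧ Q α x).card =
        (univ.filter fun y : (prs J → ZMod 2) × ((Σ i, Fin (m i)) → Vc U J) =>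
          (∀ i, IndA (fun a : Fin (m i) => (y.2 ⟨i, a⟩).2.1)) ∧ Q y.1 y.2).card := by
      rw [Finset.card_filter, ← Finset.univ_product_univ, Finset.sum_product]
      apply Finset.sum_congr rfl
      intro α _
      rw [Finset.card_filter]
    rw [hpairs]
    have hsplit : (univ.filter fun y : (prs J → ZMod 2) × ((Σ i, Fin (m i)) → Vc U J) =>
          (∀ i, IndA (fun a : Fin (m i) => (y.2 ⟨i, a⟩).2.1)) ∧ Q y.1 y.2).card =
        (univ.filter fun y : (prs J → ZMod 2) × ((Σ i, Fin (m i)) → Vc U J) =>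
          IndA (fun a => (y.2 a).2.1) ∧ Q y.1 y.2).card +
        (univ.filter fun y : (prs J → ZMod 2) × ((Σ i, Fin (m i)) → Vc U J) =>
      (∀ i, IndA (fun p : Fin (m i) => (y.2 ⟨i, p⟩).2.1)) ∧ ¬ IndA (fun p => (y.2 p).2.1) ∧
      (∀ p, UR av bv L p.1 (y.2 p)) ∧
      ∀ p k, rowJ L (ext L.tJ y.1) p.1 (y.2 p) k = 0).card := by
      rw [← Finset.card_union_of_disjoint]
      · congr 1
        ext y
        rw [Finset.mem_union, Finset.mem_filter, Finset.mem_filter, Finset.mem_filter]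
        constructor
        · rintro ⟨_, h5, h6⟩
          by_cases h7 : IndA (fun a => (y.2 a).2.1)
          · exact Or.inl ⟨Finset.mem_univ _, h7, h6⟩
          · refine Or.inr ⟨Finset.mem_univ _, h5, h7, fun a => ?_, fun a k => ?_⟩
            · exact ur_of_mem y.1 ((hQ _ _).1 h6 a)
            · exact ((hQ _ _).1 h6 a).2.2.1 k
        · rintro (⟨_, h5, h6⟩ | ⟨_, h5, h6, h7, h8⟩)
          · exact ⟨Finset.mem_univ _, fun i => ind_sub (d := fun a => (y.2 a).2.1) h5 i, h6⟩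
          · exact ⟨Finset.mem_univ _, h5, (hQ _ _).2 fun a => ⟨(h7 a).1, (h7 a).2.1,
              fun k => h8 a k, (h7 a).2.2.1⟩⟩
      · rw [Finset.disjoint_left]
        intro y hy hy'
        rw [Finset.mem_filter] at hy hy'
        exact hy'.2.2.1 hy.2.1
    -- the jointly independent tuples
    obtain ⟨T, hT⟩ : ∃ T : Finset ((Σ i, Fin (m i)) → Vc U J),
      T = univ.filter fun x => IndA (fun a => (x a).2.1) ∧
        ∀ a, (∀ u, u ∉ L.W a.1 → (x a).1 u = 0) ∧
        (∀ u ∈ L.W a.1, rowU L a.1 (x a) u = 0) ∧ bor av bv L a.1 (x a) = 0 := ⟨_, rfl⟩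
    have hTm : ∀ x, x ∈ T ↔ IndA (fun a => (x a).2.1) ∧
        ∀ a, (∀ u, u ∉ L.W a.1 → (x a).1 u = 0) ∧
        (∀ u ∈ L.W a.1, rowU L a.1 (x a) u = 0) ∧ bor av bv L a.1 (x a) = 0 := by
      intro x
      rw [hT, Finset.mem_filter]
      exact ⟨fun h => h.2, fun h => ⟨Finset.mem_univ _, h⟩⟩
    have hN1 : (univ.filter fun y : (prs J → ZMod 2) × ((Σ i, Fin (m i)) → Vc U J) =>
          IndA (fun a => (y.2 a).2.1) ∧ Q y.1 y.2).card =
        ∑ x ∈ T, (univ.filter fun α : prs J → ZMod 2 =>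
          ∀ a k, fJ L a.1 (x a) k +
            ∑ l, ext L.tJ α k l * ((x a).2.1 k + (x a).2.1 l) = 0).card := by
      rw [Finset.card_filter, ← Finset.univ_product_univ, Finset.sum_product_right, hT,
        Finset.sum_filter]
      apply Finset.sum_congr rfl
      intro x _
      rw [Finset.card_filter]
      split_ifs with h5
      · apply Finset.sum_congr rfl
        intro α _
        congr 1
        rw [eq_iff_iff, hQ]
        constructor
        · rintro ⟨_, h7⟩ a k
          exact (h7 a).2.2.1 k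
        · intro h7
          exact ⟨h5.1, fun a => ⟨(h5.2 a).1, (h5.2 a).2.1, fun k => h7 a k, (h5.2 a).2.2⟩⟩
      · apply Finset.sum_eq_zero
        intro α _
        rw [if_neg]
        rintro ⟨h6, h7⟩
        rw [hQ] at h7
        exact h5 ⟨h6, fun a => ⟨(h7 a).1, (h7 a).2.1, (h7 a).2.2.2⟩⟩
    have hcardT : Fintype.card (Σ i, Fin (m i)) = ∑ i, m i := by
      rw [Fintype.card_sigma]
      exact Finset.sum_congr rfl fun i _ => Fintype.card_fin _
    have hmul : (∑ x ∈ T, (univ.filter fun α : prs J → ZMod 2 =>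
          ∀ a k, fJ L a.1 (x a) k +
            ∑ l, ext L.tJ α k l * ((x a).2.1 k + (x a).2.1 l) = 0).card) *
          2 ^ ((∑ i, m i) * (Fintype.card J - 1)) =
        (univ.filter fun z : (Σ i, Fin (m i)) → Vc U J =>
      IndA (fun p => (z p).2.1) ∧ (∀ p, UR av bv L p.1 (z p)) ∧
      ∀ p q, p ≠ q → bj L p.1 q.1 (z p) (z q) = 0).card *
          2 ^ ((prs J).card + (∑ i, m i).choose 2) := by
      obtain ⟨Pr, hPr⟩ : ∃ Pr : ((Σ i, Fin (m i)) → Vc U J) → Prop,
          ∀ x, Pr x ↔ ((∀ a, ∑ k, fJ L a.1 (x a) k +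
              ∑ e ∈ prs J, L.tJ e.1 * L.tJ e.2 * ((x a).2.1 e.1 + (x a).2.1 e.2) = 0) ∧
              (∀ a b, a ≠ b → bj L a.1 b.1 (x a) (x b) = 0)) :=
        ⟨_, fun _ => Iff.rfl⟩
      rw [Finset.sum_mul]
      have h5 : ∀ x ∈ T, (univ.filter fun α : prs J → ZMod 2 =>
          ∀ a k, fJ L a.1 (x a) k +
            ∑ l, ext L.tJ α k l * ((x a).2.1 k + (x a).2.1 l) = 0).card *
          2 ^ ((∑ i, m i) * (Fintype.card J - 1)) =
          if Pr x then 2 ^ ((prs J).card + (∑ i, m i).choose 2) else 0 := by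
        intro x hx
        rw [hTm] at hx
        have hPr' := hPr x
        simp only [bj_eq] at hPr'
        have := L1 hLA1 J (Σ i, Fin (m i)) L.tJ (fun a k => fJ L a.1 (x a) k)
          (fun a => (x a).2.1) hx.1 (Pr x) hPr'
        rw [hcardT] at this
        exact this
      rw [Finset.sum_congr rfl h5, ← Finset.sum_filter, Finset.sum_const, smul_eq_mul]
      congr 2
      rw [hT, Finset.filter_filter]
      apply Finset.filter_congr
      intro x _
      constructor
      · rintro ⟨⟨h6, h7⟩, h8'⟩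
        obtain ⟨h8, h9⟩ := (hPr x).1 h8'
        exact ⟨h6, fun a => ⟨(h7 a).1, (h7 a).2.1, (h7 a).2.2, h8 a⟩, h9⟩
      · rintro ⟨h6, h7, h8⟩
        exact ⟨⟨h6, fun a => ⟨(h7 a).1, (h7 a).2.1, (h7 a).2.2.1⟩⟩,
          (hPr x).2 ⟨fun a => (h7 a).2.2.2, h8⟩⟩
    rw [hsplit, hN1]
    obtain ⟨N1, hN1'⟩ : ∃ N1 : ℕ, N1 = ∑ x ∈ T, (univ.filter fun α : prs J → ZMod 2 =>
          ∀ a k, fJ L a.1 (x a) k +
            ∑ l, ext L.tJ α k l * ((x a).2.1 k + (x a).2.1 l) = 0).card := ⟨_, rfl⟩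
    rw [← hN1'] at hmul ⊢
    obtain ⟨N2, hN2⟩ : ∃ N2 : ℕ, N2 =
        (univ.filter fun z : (Σ i, Fin (m i)) → Vc U J =>
      IndA (fun p => (z p).2.1) ∧ (∀ p, UR av bv L p.1 (z p)) ∧
      ∀ p q, p ≠ q → bj L p.1 q.1 (z p) (z q) = 0).card := ⟨_, rfl⟩
    rw [← hN2] at hmul
    have hfin2 : |(N2 : ℝ) * 2 ^ (∑ i, m i).choose 2 /
        2 ^ ((∑ i, m i) * (Fintype.card J - 1)) - 1| ≤ δ / 2 := by
      rw [hN2]
      exact hres2
    obtain ⟨N3, hN3⟩ : ∃ N3 : ℕ, N3 = (univ.filter fun y : (prs J → ZMod 2) ×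
          ((Σ i, Fin (m i)) → Vc U J) =>
      (∀ i, IndA (fun p : Fin (m i) => (y.2 ⟨i, p⟩).2.1)) ∧ ¬ IndA (fun p => (y.2 p).2.1) ∧
      (∀ p, UR av bv L p.1 (y.2 p)) ∧
      ∀ p k, rowJ L (ext L.tJ y.1) p.1 (y.2 p) k = 0).card := ⟨_, rfl⟩
    rw [← hN3]
    have hfin3 : (N3 : ℝ) ≤ δ / 2 * 2 ^ (prs J).card := by
      rw [hN3]
      exact hres3
    obtain ⟨P', hP'⟩ : ∃ P : ℕ, P = (prs J).card := ⟨_, rfl⟩
    rw [← hP'] at hmul hfin3 ⊢
    have hval : (N1 : ℝ) / 2 ^ P' = (N2 : ℝ) * 2 ^ (∑ i, m i).choose 2 /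
        2 ^ ((∑ i, m i) * (Fintype.card J - 1)) := by
      rw [div_eq_div_iff (by positivity) (by positivity)]
      have h2 : (N1 : ℝ) * 2 ^ ((∑ i, m i) * (Fintype.card J - 1)) =
          (N2 : ℝ) * 2 ^ (P' + (∑ i, m i).choose 2) := by
        exact_mod_cast hmul
      rw [h2, pow_add]
      ring
    rw [← hval] at hfin2
    have hfin3' : (N3 : ℝ) / 2 ^ P' ≤ δ / 2 := by
      rw [div_le_iff₀ (by positivity)]
      exact hfin3
    have hfin30 : 0 ≤ (N3 : ℝ) / 2 ^ P' := by positivity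
    push_cast
    rw [add_div]
    rw [abs_le] at hfin2 ⊢
    constructor
    · linarith [hfin2.1]
    · linarith [hfin2.2]

end Pool.Agent.NH57.BJ
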