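import Pool.Agent.NH57.BL.Asm
import Pool.Agent.NH57.BL.Stm3
import Pool.Agent.NH57.BL.LXJ2
import Pool.Agent.NH57.BL.LXJ3
import Pool.Agent.NH57.BL.LXJ4
import Pool.Agent.NH57.BL.KEYJ
import Pool.Agent.NH57.BL.FBJ
import Pool.Agent.NH57.BL.LOWJ
import Pool.Agent.NH57.BL.BOXJ
import Pool.Agent.NH57.BL.ASYJ
import Pool.Agent.NH57.BL.DENSJ
import Pool.Agent.R426.QJ.Fin
import Pool.Agent.R426.QM.Cls

/-!
# Project BL: the assembly of the joint proportion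
-/

set_option autoImplicit false

open scoped Classical

namespace Pool.Agent.NH57.BP

open Finset Filter
open Pool.Agent.Y698
open Pool.Agent.Y698.SG hiding PD
open Pool.Agent.R426.QK
open Pool.Agent.NH57.BO

theorem momJ : Pool.Agent.NH57.BJ.S_MOMJ := Pool.Agent.R426.QJ.MOMJ.t_MOMJ

theorem t_LAXJ : Pool.Agent.NH57.BJ.S_LAXJ :=
  Pool.Agent.NH57.BJ.t_LXJ4 momJ la1J Pool.Agent.NH57.BJ.t_LXJ2 Pool.Agent.NH57.BJ.t_LXJ3

theorem badJ5 : S_BADJ5 :=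
  t_FBJ5 recP t_SUP5 t_HALL5 t_MERT (Pool.Agent.R426.QJ.FB.t_FBJ recP t_HALL t_MERT)

theorem lowJ5 : S_LOWJ5 := t_LOWJ5 t_SUP5

theorem bothJ (hbox : S_BOXJ5) (hasy : S_ASYJ5) (htwo : S_TWOJ5) : S_BOTHJ :=
  htwo lowJ5 Pool.Agent.NH57.BL.t_PAR (hasy recP t_BIL EQ.t_EQ t_LAXJ hbox t_KEYJ5 CNT.t_CNT badJ5
    (FB.t_FEW t_HALL t_MERT) lowJ5 MOM.t_C2)

/-- **The joint proportion.** -/
theorem both : S_BOTHJ := bothJ t_BOXJ5 t_ASYJ5 t_TWOJ5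

end Pool.Agent.NH57.BP
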