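import Pool.Agent.NH57.BL.Gal
import Pool.Agent.NH57.BK.FreA

/-!
# The obstruction at the free place: homomorphisms with values in the fourth roots of unity
-/

set_option autoImplicit false
set_option linter.unusedVariables false

namespace Pool.Agent.NH57.BG

open Pool.Agent.R384
open Pool.Agent.NH57.BK
open Pool.Agent.Y715.Red Pool.Agent.Y715.Nr Pool.Agent.W237.RK
open Pool.Agent.Y715.Gi (QB KK GK)
open Pool.Agent.Y715.Df (Cmp exists_cmp)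

namespace FreA8

variable {i₀ : QB}

lemma I_or {I : QB} (hI : I ^ 2 = -1) (σ : GK i₀) : σ I = I ∨ σ I = -I := by
  have h : (σ I) ^ 2 = I ^ 2 := by rw [← map_pow, hI, map_neg, map_one]
  exact sq_eq_sq_iff_eq_or_eq_neg.1 h

/-- there is an element of the decomposition group that moves `√-1` -/
lemma exists_movI (hi : i₀ ^ 2 = i₀ - 2) (ι : QB →ₐ[ℚ] PadicAlgCl 2) {I : QB} (hI : I ^ 2 = -1) :
    ∃ σ ∈ (DD ι : Set (GK i₀)), σ I = -I := by
  by_contra hcon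
  push Not at hcon
  have hfix : ∀ τ : Au 2, τ (ι I) = ι I := by
    intro τ
    refine fix_D (fun σ hσ => ?_) τ (two_fix (iw hi ι) τ)
    rcases I_or hI σ with h | h
    · exact h
    · exact absurd h (hcon σ hσ)
  have h1 : (ι I) ^ 2 = -1 := by rw [← map_pow, hI, map_neg, map_one]
  have h2 : ‖ι I‖ = 1 := by
    have h3 : ‖ι I‖ ^ 2 = 1 := by rw [← norm_pow, h1, norm_neg, norm_one]
    exact (pow_eq_one_iff_of_nonneg (norm_nonneg _) two_ne_zero).1 h3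
  have h3 := sq_mod_eight h2 hfix
  rw [h1] at h3
  have e : (-1 - 1 : PadicAlgCl 2) = -((2 : ℤ) : PadicAlgCl 2) := by push_cast; ring
  rw [e, norm_neg, even_norm (z := 2) (k := 1) (n := 1) (by norm_num) (by norm_num)] at h3
  norm_num at h3

end FreA8

/-- **BL-4** -/
theorem t_FREA8 : S_FREA8 := by
  intro h90 hval i₀ hi ι a I s δ f ha hI hs2 hs0 hlc hfI hs hmul
  obtain ⟨φ, hφD, hφI⟩ := FreA8.exists_movI hi ι hI
  have hφa : φ a = a := ha φ hφD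
  have hI0 : I ≠ 0 := by
    rintro rfl
    rw [zero_pow two_ne_zero] at hI
    exact one_ne_zero (neg_eq_zero.1 hI.symm)
  have hne : ∀ σ, f σ ≠ 0 := by
    intro σ
    obtain ⟨k, hk⟩ := hfI σ
    rw [hk]
    exact pow_ne_zero _ hI0
  have hfixf : ∀ σ τ : GK i₀, σ I = I → σ (f τ) = f τ := by
    intro σ τ hσ
    obtain ⟨k, hk⟩ := hfI τ
    rw [hk, map_pow, hσ]
  have hφf : ∀ τ : GK i₀, φ (f τ) * f τ = 1 := by
    intro τ
    obtain ⟨k, hk⟩ := hfI τ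
    rw [hk, map_pow, hφI, ← mul_pow, neg_mul, ← sq, hI, neg_neg, one_pow]
  obtain ⟨β, hβ0, hβ⟩ := h90 a I f hlc hne (fun σ hσa hσI τ hτa hτI => by
    rw [hmul σ hσa τ hτa, hfixf σ τ hσI])
  have hφβ : φ β ≠ 0 := (map_ne_zero φ).2 hβ0
  have hinv : ∀ x, φ⁻¹ (φ x) = x := by
    intro x
    rw [← AlgEquiv.mul_apply, inv_mul_cancel, AlgEquiv.one_apply]
  have hinva : φ⁻¹ a = a := by
    conv_lhs => rw [← hφa]
    exact hinv a
  have hinvI : φ⁻¹ (-I) = I := by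
    rw [← hφI]
    exact hinv I
  -- an element that moves `I` is `φ` times an element that fixes `I`
  have hdec : ∀ σ : GK i₀, σ a = a → σ I = -I → ∃ h : GK i₀, σ = φ * h ∧ h a = a ∧ h I = I := by
    intro σ h1 h2
    refine ⟨φ⁻¹ * σ, by group, ?_, ?_⟩
    · rw [AlgEquiv.mul_apply, h1, hinva]
    · rw [AlgEquiv.mul_apply, h2, hinvI]
  -- `x`
  obtain ⟨x, hx⟩ : ∃ x, x = β ^ 2 / s := ⟨_, rfl⟩
  have hx0 : x ≠ 0 := by rw [hx]; exact div_ne_zero (pow_ne_zero _ hβ0) hs0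
  have hxH : ∀ σ : GK i₀, σ a = a → σ I = I → σ x = x := by
    intro σ h1 h2
    rw [hx, map_div₀, map_pow, hβ σ h1 h2, hs σ h1, mul_pow,
      mul_div_mul_left _ _ (pow_ne_zero 2 (hne σ))]
  -- `y`
  obtain ⟨y, hy⟩ : ∃ y, y = β * φ β := ⟨_, rfl⟩
  have hyH : ∀ σ : GK i₀, σ a = a → σ I = I → σ y = y := by
    intro σ h1 h2
    obtain ⟨t, ht⟩ : ∃ t : GK i₀, t = φ⁻¹ * σ * φ := ⟨_, rfl⟩
    have hcm : φ * t = σ * φ := by rw [ht]; group
    have hta : t a = a := by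
      rw [ht, AlgEquiv.mul_apply, AlgEquiv.mul_apply, hφa, h1, hinva]
    have htI : t I = I := by
      rw [ht, AlgEquiv.mul_apply, AlgEquiv.mul_apply, hφI, map_neg, h2, hinvI]
    have e1 : f t = f σ := by
      have e2 : f (φ * t) = f φ * f t := hmul φ hφa t hta
      have e3 : f (σ * φ) = f σ * f φ := hmul σ h1 φ hφa
      rw [hcm, e3, mul_comm] at e2
      exact (mul_left_cancel₀ (hne φ) e2).symm
    have e2 : σ (φ β) = φ (f σ) * φ β := by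
      rw [← AlgEquiv.mul_apply, ← hcm, AlgEquiv.mul_apply, hβ t hta htI, map_mul, e1]
    rw [hy, map_mul, hβ σ h1 h2, e2]
    calc f σ * β * (φ (f σ) * φ β) = (φ (f σ) * f σ) * (β * φ β) := by ring
      _ = β * φ β := by rw [hφf σ, one_mul]
  have hφφ : φ (φ β) = f φ ^ 2 * β := by
    have h1 : (φ * φ) a = a := by rw [AlgEquiv.mul_apply, hφa, hφa]
    have h2 : (φ * φ) I = I := by rw [AlgEquiv.mul_apply, hφI, map_neg, hφI, neg_neg]
    rw [← AlgEquiv.mul_apply, hβ _ h1 h2, hmul φ hφa φ hφa, sq]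
  have hφy : φ y = f φ ^ 2 * y := by
    rw [hy, map_mul, hφφ]
    ring
  have hη : f φ ^ 2 = 1 ∨ f φ ^ 2 = -1 := by
    obtain ⟨k, hk⟩ := hfI φ
    rw [hk, ← pow_mul, mul_comm k 2, pow_mul, hI]
    exact neg_one_pow_eq_or _ k
  have hη2 : (f φ ^ 2) ^ 2 = 1 := by
    rcases hη with h | h <;> rw [h] <;> ring
  have hδ0 : em hi δ ≠ 0 := by rw [← hs2]; exact pow_ne_zero _ hs0
  have hxx : em hi δ * (x * φ x) = f φ ^ 2 * y ^ 2 := by
    have h1 : φ x = (φ β) ^ 2 / (f φ ^ 2 * s) := by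
      rw [hx, map_div₀, map_pow, hs φ hφa]
    have h2 : f φ ^ 2 ≠ 0 := pow_ne_zero _ (hne φ)
    rw [h1, hx, hy, ← hs2]
    field_simp
    rw [div_eq_iff h2, ← sq, hη2]
  -- `Y`
  obtain ⟨Y, hY1, hY2⟩ : ∃ Y : QB, em hi δ * (x * φ x) = Y ^ 2 ∧
      ∀ σ : GK i₀, σ a = a → σ Y = Y := by
    obtain ⟨Y, hY1, hYH, hYφ⟩ : ∃ Y : QB, em hi δ * (x * φ x) = Y ^ 2 ∧
        (∀ σ : GK i₀, σ a = a → σ I = I → σ Y = Y) ∧ φ Y = Y := by
      rcases hη with h | h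
      · refine ⟨y, by rw [hxx, h, one_mul], hyH, by rw [hφy, h, one_mul]⟩
      · refine ⟨I * y, by rw [hxx, h, mul_pow, hI], fun σ h1 h2 => ?_, ?_⟩
        · rw [map_mul, h2, hyH σ h1 h2]
        · rw [map_mul, hφI, hφy, h]
          ring
    refine ⟨Y, hY1, fun σ h1 => ?_⟩
    rcases FreA8.I_or hI σ with h2 | h2
    · exact hYH σ h1 h2
    · obtain ⟨h, hh, hha, hhI⟩ := hdec σ h1 h2
      rw [hh, AlgEquiv.mul_apply, hYH h hha hhI, hYφ]
  -- in the completion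
  have hcmp : ∀ τ : Au 2, ∃ σ : GK i₀, Cmp ι τ σ ∧ σ a = a := by
    intro τ
    obtain ⟨σ, hσ⟩ := exists_cmp (i₀ := i₀) ι τ (two_fix (iw hi ι) τ)
    exact ⟨σ, hσ, ha σ ⟨τ, hσ⟩⟩
  refine hval (ι I) (ι x) (ι (φ x)) (ι Y) (em (iw hi ι) δ) ?_ ?_ ((map_ne_zero ι).2 hx0)
    ((map_ne_zero ι).2 ((map_ne_zero φ).2 hx0)) ?_ ?_ (fun τ => em_fix (iw hi ι) (two_fix (iw hi ι) τ) δ)
    ?_ ?_
  · rw [← map_pow, hI, map_neg, map_one]
  · rw [← ι_em hi]
    exact (map_ne_zero ι).2 hδ0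
  · intro τ hτ
    obtain ⟨σ, hσ, hσa⟩ := hcmp τ
    have h2 : σ I = I := by
      apply ι.injective
      show ι (σ I) = ι I
      rw [← hσ, hτ]
    rw [hσ, hxH σ hσa h2]
  · intro τ hτ
    obtain ⟨σ, hσ, hσa⟩ := hcmp τ
    have h2 : σ I = -I := by
      apply ι.injective
      show ι (σ I) = ι (-I)
      rw [← hσ, hτ, map_neg]
    obtain ⟨h, hh, hha, hhI⟩ := hdec σ hσa h2
    rw [hσ, hh, AlgEquiv.mul_apply, hxH h hha hhI]
  · intro τ
    obtain ⟨σ, hσ, hσa⟩ := hcmp τ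
    rw [hσ, hY2 σ hσa]
  · rw [← ι_em hi, ← map_mul, ← map_mul, hY1, map_pow]

end Pool.Agent.NH57.BG
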