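import Pool.Agent.NH57.BL.Gal2
import Pool.Agent.NH57.BK.FreA

/-!
# The obstruction at the free place where the radicand is three modulo eight
-/

set_option autoImplicit false
set_option linter.unusedVariables false

namespace Pool.Agent.NH57.BH

open Pool.Agent.R384
open Pool.Agent.NH57.BK
open Pool.Agent.Y715.Red Pool.Agent.Y715.Nr Pool.Agent.W237.RK
open Pool.Agent.Y715.Gi (QB KK GK)
open Pool.Agent.Y715.Df (Cmp exists_cmp)

namespace FreAG

variable {i₀ : QB}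

/-- there is an element of the decomposition group that moves `√e` if `e = -5` modulo eight -/
lemma exists_movN (hi : i₀ ^ 2 = i₀ - 2) (ι : QB →ₐ[ℚ] PadicAlgCl 2) {e : OO} {u : QB}
    (hu : u ^ 2 = em hi e) (h5 : ‖em (iw hi ι) e + 5‖ ≤ 1 / 8) :
    ∃ σ ∈ (DD ι : Set (GK i₀)), σ u = -u := by
  by_contra hcon
  push Not at hcon
  have hfix : ∀ τ : Au 2, τ (ι u) = ι u := by
    intro τ
    refine fix_D (fun σ hσ => ?_) τ (two_fix (iw hi ι) τ)
    rcases rt_or hi hu σ with h | h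
    · exact h
    · exact absurd h (hcon σ hσ)
  have h1 : (ι u) ^ 2 = em (iw hi ι) e := by rw [← map_pow, hu, ι_em]
  have h2 : ‖ι u‖ = 1 := by
    have h4 : ‖-em (iw hi ι) e - 5‖ ≤ 1 / 8 := by
      rw [← norm_neg, neg_sub, sub_neg_eq_add, add_comm]
      exact h5
    have h3 := norm_one_of5 h4
    rw [norm_neg, ← h1, norm_pow] at h3
    exact (pow_eq_one_iff_of_nonneg (norm_nonneg _) two_ne_zero).1 h3
  have h3 := sq_mod_eight h2 hfix
  rw [h1] at h3
  have h6 : ‖((-6 : ℤ) : PadicAlgCl 2)‖ ≤ 1 / 8 := by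
    have e : ((-6 : ℤ) : PadicAlgCl 2) = (em (iw hi ι) e - 1) - (em (iw hi ι) e + 5) := by
      push_cast
      ring
    rw [e]
    exact sub_le h3 h5
  rw [even_norm (z := -6) (k := -3) (n := 1) (by norm_num) (by norm_num)] at h6
  norm_num at h6

end FreAG

/-- **BL-34** -/
theorem t_FREAG : S_FREAG := by
  intro h90 hval i₀ hi ι u s e δ f hu he hs2 hs0 hlc hf hs hrel
  obtain ⟨φ, hφD, hφu⟩ := FreAG.exists_movN hi ι hu he
  have hne : ∀ σ, f σ ≠ 0 := by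
    intro σ h0
    have h1 := hf σ
    rw [h0, zero_pow (by omega)] at h1
    exact zero_ne_one h1
  have hsq : ∀ σ, (f σ ^ 2) ^ 2 = 1 := fun σ => by rw [← pow_mul, hf]
  have hu0 : u ≠ 0 := by
    rintro rfl
    rw [zero_pow two_ne_zero] at hu
    rw [← ι_em hi, ← hu, map_zero, zero_add] at he
    have h2 : ‖((5 : ℤ) : PadicAlgCl 2)‖ = 1 := odd_norm (by norm_num)
    push_cast at h2
    rw [h2] at he
    norm_num at he
  have hφne : φ u ≠ u := by
    rw [hφu]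
    intro h
    have h2 : (2 : QB) * u = 0 := by linear_combination -h
    rcases mul_eq_zero.1 h2 with h3 | h3
    · exact two_ne_zero h3
    · exact hu0 h3
  obtain ⟨β, hβ0, hβ'⟩ := h90 0 u f hlc hne (fun σ _ hσu τ _ hτu => by
    rw [hrel σ τ, if_pos hσu])
  have hβ : ∀ σ : GK i₀, σ u = u → σ β = f σ * β := fun σ h => hβ' σ (map_zero σ) h
  -- signs are fixed
  have hsign : ∀ (σ : GK i₀) (x : QB), x ^ 2 = 1 → σ x = x := by
    intro σ x hx
    rcases sq_eq_one_iff.1 hx with h | h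
    · rw [h, map_one]
    · rw [h, map_neg, map_one]
  have hφβ : φ β ≠ 0 := (map_ne_zero φ).2 hβ0
  have hinv : ∀ x, φ⁻¹ (φ x) = x := by
    intro x
    rw [← AlgEquiv.mul_apply, inv_mul_cancel, AlgEquiv.one_apply]
  have hinvu : φ⁻¹ (-u) = u := by
    rw [← hφu]
    exact hinv u
  -- an element that moves `u` is `φ` times an element that fixes `u`
  have hdec : ∀ σ : GK i₀, σ u = -u → ∃ h : GK i₀, σ = φ * h ∧ h u = u := by
    intro σ h2
    refine ⟨φ⁻¹ * σ, by group, ?_⟩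
    rw [AlgEquiv.mul_apply, h2, hinvu]
  -- `x`
  obtain ⟨x, hx⟩ : ∃ x, x = β ^ 2 / s := ⟨_, rfl⟩
  have hx0 : x ≠ 0 := by rw [hx]; exact div_ne_zero (pow_ne_zero _ hβ0) hs0
  have hxH : ∀ σ : GK i₀, σ u = u → σ x = x := by
    intro σ h2
    rw [hx, map_div₀, map_pow, hβ σ h2, hs σ, mul_pow,
      mul_div_mul_left _ _ (pow_ne_zero 2 (hne σ))]
  -- `y`
  obtain ⟨y, hy⟩ : ∃ y, y = β * φ β / f φ := ⟨_, rfl⟩
  have hyH : ∀ σ : GK i₀, σ u = u → σ y = y := by
    intro σ h2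
    obtain ⟨t, ht⟩ : ∃ t : GK i₀, t = φ⁻¹ * σ * φ := ⟨_, rfl⟩
    have hcm : φ * t = σ * φ := by rw [ht]; group
    have htu : t u = u := by
      rw [ht, AlgEquiv.mul_apply, AlgEquiv.mul_apply, hφu, map_neg, h2, hinvu]
    have e1 : f (φ * t) = f φ * φ (f t) * f t ^ 2 := by
      rw [hrel φ t, if_neg hφne]
    have e2 : f (σ * φ) = f σ * σ (f φ) := by
      rw [hrel σ φ, if_pos h2]
    have e4 : f t ^ 2 = f σ ^ 2 := by
      have h1 : (φ * t) s = (σ * φ) s := by rw [hcm]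
      rw [AlgEquiv.mul_apply, AlgEquiv.mul_apply, hs t, hs φ, map_mul, map_mul,
        hsign φ _ (hsq t), hsign σ _ (hsq φ), hs φ, hs σ] at h1
      have h2 : f φ ^ 2 * s ≠ 0 := mul_ne_zero (pow_ne_zero _ (hne φ)) hs0
      apply mul_right_cancel₀ h2
      rw [h1]
      ring
    have e3 : f σ * σ (f φ) = f φ * φ (f t) * f σ ^ 2 := by rw [← e2, ← hcm, e1, e4]
    have e3' : σ (f φ) = f φ * φ (f t) * f σ := by
      apply mul_left_cancel₀ (hne σ)
      rw [e3]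
      ring
    have e5 : σ (φ β) = φ (f t) * φ β := by
      rw [← AlgEquiv.mul_apply, ← hcm, AlgEquiv.mul_apply, hβ t htu, map_mul]
    have hφt : φ (f t) ≠ 0 := (map_ne_zero φ).2 (hne t)
    rw [hy, map_div₀, map_mul, hβ σ h2, e5, e3', div_eq_div_iff (mul_ne_zero (mul_ne_zero (hne φ) hφt)
      (hne σ)) (hne φ)]
    ring
  have hφφ : φ (φ β) = f φ * φ (f φ) * f φ ^ 2 * β := by
    have h2 : (φ * φ) u = u := by rw [AlgEquiv.mul_apply, hφu, map_neg, hφu, neg_neg]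
    rw [← AlgEquiv.mul_apply, hβ _ h2, hrel φ φ, if_neg hφne]
  have hφy : φ y = y := by
    have h3 : φ (f φ) ≠ 0 := (map_ne_zero φ).2 (hne φ)
    rw [hy, map_div₀, map_mul, hφφ, div_eq_div_iff h3 (hne φ)]
    linear_combination (φ β * β * φ (f φ)) * hf φ
  have hyG : ∀ σ : GK i₀, σ y = y := by
    intro σ
    rcases rt_or hi hu σ with h2 | h2
    · exact hyH σ h2
    · obtain ⟨h, hh, hhu⟩ := hdec σ h2
      rw [hh, AlgEquiv.mul_apply, hyH h hhu, hφy]
  have hδ0 : em hi δ ≠ 0 := by rw [← hs2]; exact pow_ne_zero _ hs0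
  have hxx : em hi δ * (x * φ x) = y ^ 2 := by
    have h1 : φ x = (φ β) ^ 2 / (f φ ^ 2 * s) := by
      rw [hx, map_div₀, map_pow, hs φ]
    have h2 : f φ ≠ 0 := hne φ
    rw [h1, hx, hy, ← hs2]
    field_simp
  -- in the completion
  refine hval (ι u) (ι x) (ι (φ x)) (ι y) (em (iw hi ι) δ) ?_ ?_ ?_ ((map_ne_zero ι).2 hx0)
    ((map_ne_zero ι).2 ((map_ne_zero φ).2 hx0)) ?_ ?_
    (fun τ => em_fix (iw hi ι) (two_fix (iw hi ι) τ) δ) ?_ ?_
  · intro τ
    rw [← map_pow ι, hu, ι_em]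
    exact em_fix (iw hi ι) (two_fix (iw hi ι) τ) e
  · rw [← map_pow, hu, ι_em]
    exact he
  · rw [← ι_em hi]
    exact (map_ne_zero ι).2 hδ0
  · intro τ hτ
    obtain ⟨σ, hσ⟩ := exists_cmp (i₀ := i₀) ι τ (two_fix (iw hi ι) τ)
    have h2 : σ u = u := by
      apply ι.injective
      show ι (σ u) = ι u
      rw [← hσ, hτ]
    rw [hσ, hxH σ h2]
  · intro τ hτ
    obtain ⟨σ, hσ⟩ := exists_cmp (i₀ := i₀) ι τ (two_fix (iw hi ι) τ)
    have h2 : σ u = -u := by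
      apply ι.injective
      show ι (σ u) = ι (-u)
      rw [← hσ, hτ, map_neg]
    obtain ⟨h, hh, hhu⟩ := hdec σ h2
    rw [hσ, hh, AlgEquiv.mul_apply, hxH h hhu]
  · intro τ
    obtain ⟨σ, hσ⟩ := exists_cmp (i₀ := i₀) ι τ (two_fix (iw hi ι) τ)
    rw [hσ, hyG σ]
  · rw [← ι_em hi, ← map_mul, ← map_mul, hxx, map_pow]

end Pool.Agent.NH57.BH
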