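import Pool.Agent.NH57.BL.Gal
import Pool.Agent.NH57.BK.FreB

/-!
# BL-5: the local condition at the free place from the obstruction
-/

set_option autoImplicit false
set_option linter.unusedVariables false
set_option linter.unusedSectionVars false

namespace Pool.Agent.NH57.BG

open Pool.Agent.R384
open Pool.Agent.NH57.BK
open Pool.Agent.Y715.Red Pool.Agent.Y715.Nr Pool.Agent.W237.RK
open Pool.Agent.Y715.Gi (QB KK GK)
open Pool.Agent.Y715.Df (Cmp)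

open scoped Classical

namespace FB8

section

variable {i₀ : QB} (hi : i₀ ^ 2 = i₀ - 2) {χ : GK i₀ →* ℤ_[2]ˣ} {c : GK i₀ → ℚ_[2]} {m : OO} {r : QB}

/-- application of the obstruction -/
lemma gen (hfre : Fre8) (hχ : ChiD hi χ m r) (hc : Coc χ c) (hc1 : ∀ σ, ‖c σ‖ ≤ 1)
    (ι : QB →ₐ[ℚ] PadicAlgCl 2) {I : QB} {δ : OO} (hI : I ^ 2 = -1)
    (ha : ∀ σ ∈ (DD ι : Set (GK i₀)), σ r = r) {s : QB} (hs0 : s ≠ 0) (hs : s ^ 2 = em hi δ)
    (hk : ∀ σ : GK i₀, σ s = s ↔ md c σ = 0) :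
    ∃ k : ℤ, ‖em (iw hi ι) δ / (2 : PadicAlgCl 2) ^ k - 1‖ ≤ 1 / 4 := by
  have hI4 : I ^ 4 = 1 := by
    have : I ^ 4 = (I ^ 2) ^ 2 := by ring
    rw [this, hI]; ring
  have h8 : I ^ 8 = 1 := by
    have : I ^ 8 = (I ^ 4) ^ 2 := by ring
    rw [this, hI4]; ring
  refine hfre hi ι r I s δ (fun σ => pw I (q8 (zi (c σ) (hc1 σ)))) ha hI hs hs0 ?_ ?_ ?_ ?_
  · exact (loc_const hc hc1).comp (pw I)
  · intro σ
    exact ⟨_, rfl⟩
  · intro σ _
    show σ s = (I ^ _) ^ 2 * s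
    rw [← pow_mul, mul_comm _ 2, pow_mul, hI]
    have h1 := md_q8 hc1 σ
    rw [← hk σ] at h1
    rcases Nat.mod_two_eq_zero_or_one (q8 (zi (c σ) (hc1 σ))).val with h2 | h2
    · rw [h1.2 h2, (Nat.even_iff.2 h2).neg_one_pow, one_mul]
    · rw [(Nat.odd_iff.2 h2).neg_one_pow, neg_one_mul]
      rcases rt_or hi hs σ with h3 | h3
      · exact absurd (h1.1 h3) (by omega)
      · exact h3
  · intro σ hσ τ _
    have h1 : zi (c (σ * τ)) (hc1 (σ * τ)) = zi (c σ) (hc1 σ) +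
        (χ σ : ℤ_[2]) * zi (c τ) (hc1 τ) := by
      apply Subtype.ext
      show c (σ * τ) = c σ + ((χ σ : ℤ_[2]) : ℚ_[2]) * c τ
      exact hc.mul σ τ
    have h2 : pw I (q8 (χ σ)) = I := by
      have h3 := hχ.one σ hσ
      have h4 := q8_four (e := 1) (by push_cast; exact h3)
      push_cast at h4
      rcases h4 with h4 | h4
      · have : (1 : Z8).val = 1 := by decide
        rw [h4, pw, this, pow_one]
      · have : (1 + 4 : Z8).val = 4 + 1 := by decide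
        rw [h4, pw, this, pow_add, hI4, one_mul, pow_one]
    show pw I (q8 (zi (c (σ * τ)) (hc1 (σ * τ)))) =
      pw I (q8 (zi (c σ) (hc1 σ))) * pw I (q8 (zi (c τ) (hc1 τ)))
    rw [h1, map_add, map_mul, pw_add h8, pw_mul h8, h2]

/-- the other root is `-1` modulo four at the free place -/
lemma near (ι : QB →ₐ[ℚ] PadicAlgCl 2) {ϖ ϖ' : OO} (hpl : Pl ϖ ϖ')
    (hι : ‖em (iw hi ι) ϖ‖ < 1) : ‖em (iw hi ι) ϖ' + 1‖ ≤ 1 / 4 := by
  have hw := iw hi ι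
  have hom : em (iw hi ι) om = ι i₀ := by
    rw [em_apply]
    simp [om]
  have h32 : ‖(32 : PadicAlgCl 2)‖ = 1 / 32 := by
    have e : (32 : PadicAlgCl 2) = 2 ^ 5 := by norm_num
    rw [e, norm_pow, Pool.Agent.Y715.Gi.norm_two']
    norm_num
  have h4n : ‖(4 : PadicAlgCl 2)‖ = 1 / 4 := by
    have e : (4 : PadicAlgCl 2) = 2 ^ 2 := by norm_num
    rw [e, norm_pow, Pool.Agent.Y715.Gi.norm_two']
    norm_num
  have h5n : ‖(5 : PadicAlgCl 2)‖ = 1 := by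
    have h4 : ‖((5 : ℤ) : PadicAlgCl 2)‖ = 1 := odd_norm (by norm_num)
    push_cast at h4
    exact h4
  have h6 : ‖ι i₀ - 6‖ * ‖ι i₀ + 5‖ = 1 / 32 := by
    rw [← norm_mul]
    have : (ι i₀ - 6) * (ι i₀ + 5) = -32 := by linear_combination hw
    rw [this, norm_neg, h32]
  have h5' : ∀ x : PadicAlgCl 2, ‖x‖ < 1 → ‖x + 5‖ = 1 := by
    intro x hx
    rw [add_comm, ← h5n]
    exact eq_of_lt (by rw [h5n]; exact hx)
  rcases hpl with ⟨rfl, rfl⟩ | ⟨rfl, rfl⟩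
  · -- `ϖ = om`
    rw [hom] at hι
    rw [h5' _ hι, mul_one] at h6
    rw [map_sub, map_one, hom]
    have e : (1 : PadicAlgCl 2) - ι i₀ + 1 = -(ι i₀ - 6) - 4 := by ring
    rw [e]
    exact sub_le (by rw [norm_neg, h6]; norm_num) (by rw [h4n])
  · rw [map_sub, map_one, hom] at hι
    have h7 : ‖ι i₀ - 6‖ = 1 := by
      have := h5' _ hι
      rw [← norm_neg, ← this]
      congr 1
      ring
    rw [h7, one_mul] at h6
    rw [hom]
    have e : ι i₀ + 1 = ι i₀ + 5 - 4 := by ring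
    rw [e]
    exact sub_le (by rw [h6]; norm_num) (by rw [h4n])

end

/-- the size from the approximation -/
lemma size {x y : PadicAlgCl 2} (h : ‖x / y - 1‖ ≤ 1 / 4) (hy : y ≠ 0) : ‖x‖ = ‖y‖ := by
  have h1 : ‖x / y‖ = 1 := by
    have e : x / y = 1 + (x / y - 1) := by ring
    rw [e, ← norm_one (α := PadicAlgCl 2)]
    exact eq_of_lt (by rw [norm_one]; linarith)
  rw [norm_div, div_eq_one_iff_eq (norm_ne_zero_iff.2 hy)] at h1
  exact h1

end FB8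

open FB8 in
theorem t_FREB8 : S_FREB8 := by
  intro hfre i₀ hi χ m r ϖ ϖ' hpl hχ ι hι hM c hc hc1 δ s hδ hs hk
  obtain ⟨I, hI⟩ : ∃ I : QB, I ^ 2 = -1 := IsAlgClosed.exists_pow_nat_eq _ (by norm_num)
  have hδ0 : δ ≠ 0 := hδ.ne_zero
  have hs0 : s ≠ 0 := by
    intro h0
    rw [h0] at hs
    apply hδ0
    apply Pool.Agent.R384.em_inj (iw hi ι)
    rw [← ι_em hi, ← hs]
    simp
  have hϖp : Prime ϖ := by
    rcases hpl with ⟨rfl, rfl⟩ | ⟨rfl, rfl⟩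
    · exact prime_om
    · exact prime_om'
  have hϖ2 : ϖ * ϖ' = 2 := by
    rcases hpl with ⟨rfl, rfl⟩ | ⟨rfl, rfl⟩
    · exact om_mul
    · rw [mul_comm]; exact om_mul
  have hϖ1 : ϖ * (1 - ϖ) = 2 := by
    rcases hpl with ⟨rfl, rfl⟩ | ⟨rfl, rfl⟩
    · rw [← om_mul]
    · rw [← om_mul]; ring
  have hhalf : ‖em (iw hi ι) ϖ‖ = 1 / 2 := by
    apply half_norm _ hι
    rw [← map_one (em (iw hi ι)), ← map_sub, ← map_mul, hϖ1, map_ofNat]
  have hfix : ∀ σ ∈ (DD ι : Set (GK i₀)), σ r = r := by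
    rintro σ ⟨τ, hτ⟩
    apply ι.injective
    show ι (σ r) = ι r
    rw [← hτ]
    refine fix_eight (x := em (iw hi ι) m) ?_ hM (em_fix (iw hi ι) hτ.fix _)
    rw [← map_pow, hχ.hr, ι_em]
  obtain ⟨k, hk4⟩ := gen hi hfre hχ hc hc1 ι hI hfix hs0 hs hk
  have h2k : ((2 : PadicAlgCl 2) ^ k) ≠ 0 := zpow_ne_zero _ two_ne_zero
  have hsz := size hk4 h2k
  rw [norm_zpow, Pool.Agent.Y715.Gi.norm_two'] at hsz
  have hinj := zpow_right_injective₀ (a := ((2 : ℝ)⁻¹)) (by norm_num) (by norm_num)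
  by_cases hd : ϖ ∣ δ
  · right
    obtain ⟨d1, rfl⟩ := hd
    have h4 : ¬ ϖ ∣ d1 := by
      rintro ⟨v, rfl⟩
      exact hϖp.not_isUnit (hδ ϖ ⟨v, by ring⟩)
    have h5 := eq_one_of_not_lt (iw hi ι) ((dvd_iff (iw hi ι) hϖp hι d1).not.1 h4)
    have hk1 : k = 1 := by
      apply hinj
      show ((2 : ℝ)⁻¹) ^ k = ((2 : ℝ)⁻¹) ^ (1 : ℤ)
      rw [← hsz, map_mul, norm_mul, h5, hhalf]
      norm_num
    refine ⟨-d1, by ring, ?_⟩
    rw [hk1, zpow_one] at hk4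
    have hprod : em (iw hi ι) ϖ * em (iw hi ι) ϖ' = 2 := by
      rw [← map_mul, hϖ2, map_ofNat]
    have hnear := near hi ι hpl hι
    have h2ne : (2 : PadicAlgCl 2) ≠ 0 := two_ne_zero
    have e : em (iw hi ι) (-d1) - 1 =
        (em (iw hi ι) (ϖ * d1) / 2 - 1) * (-em (iw hi ι) ϖ') - (em (iw hi ι) ϖ' + 1) := by
      rw [map_mul, map_neg]
      field_simp
      linear_combination em (iw hi ι) d1 * hprod
    rw [e]
    refine sub_le ?_ hnear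
    rw [norm_mul, norm_neg]
    have h6 := em_le (iw hi ι) ϖ'
    calc ‖em (iw hi ι) (ϖ * d1) / 2 - 1‖ * ‖em (iw hi ι) ϖ'‖
        ≤ (1 / 4) * 1 := mul_le_mul hk4 h6 (norm_nonneg _) (by norm_num)
      _ = 1 / 4 := by norm_num
  · left
    have h5 := eq_one_of_not_lt (iw hi ι) ((dvd_iff (iw hi ι) hϖp hι δ).not.1 hd)
    have hk0 : k = 0 := by
      apply hinj
      show ((2 : ℝ)⁻¹) ^ k = ((2 : ℝ)⁻¹) ^ (0 : ℤ)
      rw [← hsz, h5, zpow_zero]
    rw [hk0, zpow_zero, div_one] at hk4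
    exact hk4

end Pool.Agent.NH57.BG
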