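import Pool.Agent.NH57.BL.Gal2
import Pool.Agent.NH57.BL.FreB8

/-!
# BL-35: the local condition at the free place from the obstruction, `m = 5` modulo `8`
-/

set_option autoImplicit false
set_option linter.unusedVariables false
set_option linter.unusedSectionVars false

namespace Pool.Agent.NH57.BH

open Pool.Agent.R384
open Pool.Agent.NH57.BK
open Pool.Agent.Y715.Red Pool.Agent.Y715.Nr Pool.Agent.W237.RK
open Pool.Agent.Y715.Gi (QB KK GK)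
open Pool.Agent.Y715.Df (Cmp)
open Pool.Agent.NH57.BG.FB8 (near size)

open scoped Classical

namespace FBG

section

variable {i₀ : QB} (hi : i₀ ^ 2 = i₀ - 2) {χ : GK i₀ →* ℤ_[2]ˣ} {c : GK i₀ → ℚ_[2]} {m : OO} {r : QB}

/-- application of the obstruction -/
lemma gen (hfre : FreG) (hχ : ChiD hi χ m r) (hc : Coc χ c) (hc1 : ∀ σ, ‖c σ‖ ≤ 1)
    (ι : QB →ₐ[ℚ] PadicAlgCl 2) {I : QB} {δ : OO} (hI : I ^ 2 = -1) (hr0 : r ≠ 0)
    (hM : ‖em (iw hi ι) m - 5‖ ≤ 1 / 8) {s : QB} (hs0 : s ≠ 0) (hs : s ^ 2 = em hi δ)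
    (hk : ∀ σ : GK i₀, σ s = s ↔ md c σ = 0) :
    ∃ k : ℤ, ‖em (iw hi ι) δ / (-2 : PadicAlgCl 2) ^ k - 1‖ ≤ 1 / 4 := by
  have hI4 : I ^ 4 = 1 := by
    have : I ^ 4 = (I ^ 2) ^ 2 := by ring
    rw [this, hI]; ring
  have h8 : I ^ 8 = 1 := by
    have : I ^ 8 = (I ^ 4) ^ 2 := by ring
    rw [this, hI4]; ring
  have hu : (I * r) ^ 2 = em hi (-m) := by
    rw [mul_pow, hI, hχ.hr, map_neg]
    ring
  have he : ‖em (iw hi ι) (-m) + 5‖ ≤ 1 / 8 := by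
    have e : em (iw hi ι) (-m) + 5 = -(em (iw hi ι) m - 5) := by
      rw [map_neg]
      ring
    rw [e, norm_neg]
    exact hM
  refine hfre hi ι (I * r) s (-m) δ (fun σ => pw I (q8 (zi (c σ) (hc1 σ)))) hu he hs hs0
    ?_ ?_ ?_ ?_
  · exact (loc_const hc hc1).comp (pw I)
  · intro σ
    show (I ^ _) ^ 4 = 1
    rw [← pow_mul, mul_comm _ 4, pow_mul, hI4, one_pow]
  · intro σ
    show σ s = (I ^ _) ^ 2 * s
    rw [← pow_mul, mul_comm _ 2, pow_mul, hI]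
    have h1 := md_q8 hc1 σ
    rw [← hk σ] at h1
    rcases Nat.mod_two_eq_zero_or_one (q8 (zi (c σ) (hc1 σ))).val with h2 | h2
    · rw [h1.2 h2, (Nat.even_iff.2 h2).neg_one_pow, one_mul]
    · rw [(Nat.odd_iff.2 h2).neg_one_pow, neg_one_mul]
      rcases rt_or hi hs σ with h3 | h3
      · exact absurd (h1.1 h3) (by omega)
      · exact h3
  · intro σ τ
    have h1 : zi (c (σ * τ)) (hc1 (σ * τ)) = zi (c σ) (hc1 σ) +
        (χ σ : ℤ_[2]) * zi (c τ) (hc1 τ) := by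
      apply Subtype.ext
      show c (σ * τ) = c σ + ((χ σ : ℤ_[2]) : ℚ_[2]) * c τ
      exact hc.mul σ τ
    have h2 := rel_four hi hχ hI hr0 σ
    show pw I (q8 (zi (c (σ * τ)) (hc1 (σ * τ)))) = if σ (I * r) = I * r then
      pw I (q8 (zi (c σ) (hc1 σ))) * σ (pw I (q8 (zi (c τ) (hc1 τ)))) else
      pw I (q8 (zi (c σ) (hc1 σ))) * σ (pw I (q8 (zi (c τ) (hc1 τ)))) *
        (pw I (q8 (zi (c τ) (hc1 τ)))) ^ 2
    rw [h1, map_add, map_mul, pw_add h8, pw_mul h8, h2]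
    split_ifs with h3
    · congr 1
      exact (map_pow σ I _).symm
    · rw [mul_assoc]
      congr 1
      show (σ I * I ^ 2) ^ _ = σ (I ^ _) * (I ^ _) ^ 2
      rw [mul_pow, map_pow, ← pow_mul, ← pow_mul, mul_comm 2]

end

end FBG

open FBG in
theorem t_FREBG : S_FREBG := by
  intro hfre i₀ hi χ m r ϖ ϖ' hpl hχ ι hι hM c hc hc1 δ s hδ hs hk
  obtain ⟨I, hI⟩ : ∃ I : QB, I ^ 2 = -1 := IsAlgClosed.exists_pow_nat_eq _ (by norm_num)
  have hδ0 : δ ≠ 0 := hδ.ne_zero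
  have hs0 : s ≠ 0 := by
    intro h0
    rw [h0] at hs
    apply hδ0
    apply Pool.Agent.R384.em_inj (iw hi ι)
    rw [← ι_em hi, ← hs]
    simp
  have hϖp : Prime ϖ := by
    rcases hpl with ⟨rfl, rfl⟩ | ⟨rfl, rfl⟩
    · exact prime_om
    · exact prime_om'
  have hϖ2 : ϖ * ϖ' = 2 := by
    rcases hpl with ⟨rfl, rfl⟩ | ⟨rfl, rfl⟩
    · exact om_mul
    · rw [mul_comm]; exact om_mul
  have hϖ1 : ϖ * (1 - ϖ) = 2 := by
    rcases hpl with ⟨rfl, rfl⟩ | ⟨rfl, rfl⟩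
    · rw [← om_mul]
    · rw [← om_mul]; ring
  have hhalf : ‖em (iw hi ι) ϖ‖ = 1 / 2 := by
    apply half_norm _ hι
    rw [← map_one (em (iw hi ι)), ← map_sub, ← map_mul, hϖ1, map_ofNat]
  have hr0 : r ≠ 0 := by
    intro h0
    have h1 := hχ.hr
    rw [h0] at h1
    have h2 : em (iw hi ι) m = 0 := by
      rw [← ι_em hi, ← h1]
      simp
    rw [h2, zero_sub, norm_neg] at hM
    have h4 : ‖((5 : ℤ) : PadicAlgCl 2)‖ = 1 := odd_norm (by norm_num)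
    push_cast at h4
    rw [h4] at hM
    norm_num at hM
  obtain ⟨k, hk4⟩ := gen hi hfre hχ hc hc1 ι hI hr0 hM hs0 hs hk
  have h2ne : (-2 : PadicAlgCl 2) ≠ 0 := by norm_num
  have h2k : ((-2 : PadicAlgCl 2) ^ k) ≠ 0 := zpow_ne_zero _ h2ne
  have hsz := size hk4 h2k
  rw [norm_zpow, norm_neg, Pool.Agent.Y715.Gi.norm_two'] at hsz
  have hinj := zpow_right_injective₀ (a := ((2 : ℝ)⁻¹)) (by norm_num) (by norm_num)
  by_cases hd : ϖ ∣ δ
  · right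
    obtain ⟨d1, rfl⟩ := hd
    have h4 : ¬ ϖ ∣ d1 := by
      rintro ⟨v, rfl⟩
      exact hϖp.not_isUnit (hδ ϖ ⟨v, by ring⟩)
    have h5 := eq_one_of_not_lt (iw hi ι) ((dvd_iff (iw hi ι) hϖp hι d1).not.1 h4)
    have hk1 : k = 1 := by
      apply hinj
      show ((2 : ℝ)⁻¹) ^ k = ((2 : ℝ)⁻¹) ^ (1 : ℤ)
      rw [← hsz, map_mul, norm_mul, h5, hhalf]
      norm_num
    refine ⟨d1, rfl, ?_⟩
    rw [hk1, zpow_one] at hk4
    have hprod : em (iw hi ι) ϖ * em (iw hi ι) ϖ' = 2 := by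
      rw [← map_mul, hϖ2, map_ofNat]
    have hnear := near hi ι hpl hι
    have e : em (iw hi ι) d1 - 1 =
        (em (iw hi ι) (ϖ * d1) / (-2) - 1) * (-em (iw hi ι) ϖ') - (em (iw hi ι) ϖ' + 1) := by
      rw [map_mul]
      field_simp
      linear_combination (-em (iw hi ι) d1) * hprod
    rw [e]
    refine sub_le ?_ hnear
    rw [norm_mul, norm_neg]
    have h6 := em_le (iw hi ι) ϖ'
    calc ‖em (iw hi ι) (ϖ * d1) / (-2) - 1‖ * ‖em (iw hi ι) ϖ'‖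
        ≤ (1 / 4) * 1 := mul_le_mul hk4 h6 (norm_nonneg _) (by norm_num)
      _ = 1 / 4 := by norm_num
  · left
    have h5 := eq_one_of_not_lt (iw hi ι) ((dvd_iff (iw hi ι) hϖp hι δ).not.1 hd)
    have hk0 : k = 0 := by
      apply hinj
      show ((2 : ℝ)⁻¹) ^ k = ((2 : ℝ)⁻¹) ^ (0 : ℤ)
      rw [← hsz, h5, zpow_zero]
    rw [hk0, zpow_zero, div_one] at hk4
    exact hk4

end Pool.Agent.NH57.BH
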