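import Pool.Agent.NH57.BK.Stm

/-!
# Project BL (helper57): Bloch–Kato Selmer groups of all weights, `D = 5` modulo `8`

Continuation of `Pool/Agent/NH57/BK/Stm.lean`. There the characters `χ = κ^j κ'^(1-j)` are treated for `j`
even with the strict place `ω` (and the free place `1 - ω`) and for `j` odd with the strict place `1 - ω`
(the free place `ω`). Here the remaining weights: `j` even with the strict place `1 - ω` and the free place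
`ω`, and `j` odd with the strict place `ω` and the free place `1 - ω`. Now the strict place is `ϖ'`, the
place where `χ` is ramified modulo four, and the free place is `ϖ`, where `χ` is trivial modulo four.
Statements of the parts. For `D = 5` modulo `8`.
-/

set_option autoImplicit false
set_option linter.unusedVariables false

namespace Pool.Agent.NH57.BG

open Pool.Agent.R384
open Pool.Agent.NH57.BK
open Pool.Agent.Y676.IS (Cu)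
open Pool.Agent.Y715.Red Pool.Agent.Y715.Nr Pool.Agent.W237.RK
open Pool.Agent.Y715.Gi (QB KK GK)
open Pool.Agent.Y715.Df (Cmp)

open scoped Classical

/-- BL-1: the sizes at the two places above two for `D = 5` modulo `8` (compare `S_MOD`,
`Pool/Agent/NH57/BK/Mod.lean`) -/
def S_MOD8 : Prop := ∀ {i₀ : QB} (hi : i₀ ^ 2 = i₀ - 2) (ι : QB →ₐ[ℚ] PadicAlgCl 2) (D : OO),
  (8 : OO) ∣ D - 5 →
  (‖em (iw hi ι) om‖ < 1 → ‖em (iw hi ι) (-(s7 * D)) - 1‖ ≤ 1 / 8) ∧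
  (‖em (iw hi ι) (1 - om)‖ < 1 → ‖em (iw hi ι) (s7 * D) - 1‖ ≤ 1 / 8)

/-- BL-1: reduction modulo eight and modulo four at a place above two -/
def S_RED8 : Prop := ∀ {i₀ : QB} (hi : i₀ ^ 2 = i₀ - 2) (ι : QB →ₐ[ℚ] PadicAlgCl 2) (ϖ : OO)
  (w8 : ZMod 8) (hw8 : w8 ^ 2 = w8 - 2) (w4 : ZMod 4) (hw4 : w4 ^ 2 = w4 - 2),
  (ϖ = om ∧ w8 = 6 ∧ w4 = 2) ∨ (ϖ = 1 - om ∧ w8 = 3 ∧ w4 = 3) → ‖em (iw hi ι) ϖ‖ < 1 →
  ∀ x : OO, (‖em (iw hi ι) x‖ ≤ 1 / 8 → em hw8 x = 0) ∧ (‖em (iw hi ι) x‖ ≤ 1 / 4 → em hw4 x = 0)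

/-- BL-2: the local condition at the strict place `ϖ'`, where `m = -1` modulo `8`: `δ` is `± 1`
modulo `8` -/
def S_STR8 : Prop := ∀ {i₀ : QB} (hi : i₀ ^ 2 = i₀ - 2) {χ : GK i₀ →* ℤ_[2]ˣ} {m : OO} {r : QB}
  {ϖ ϖ' : OO}, Pl ϖ ϖ' → ChiD hi χ m r →
  ∀ (ι : QB →ₐ[ℚ] PadicAlgCl 2), ‖em (iw hi ι) ϖ'‖ < 1 → ‖em (iw hi ι) (-m) - 1‖ ≤ 1 / 8 →
  ∀ (c : GK i₀ → ℚ_[2]), (∀ σ, ‖c σ‖ ≤ 1) → CobOn χ (DD ι) c →
  ∀ (δ : OO) (s : QB), Squarefree δ → s ^ 2 = em hi δ → (∀ σ : GK i₀, σ s = s ↔ md c σ = 0) →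
  ‖em (iw hi ι) δ - 1‖ ≤ 1 / 8 ∨ ‖em (iw hi ι) δ + 1‖ ≤ 1 / 8

/-- BL-3: sums of two squares in `ℚ_2`: the elements `e` of `ℚ_2` such that `e (x x') = y ^ 2` with
`x`, `x'` conjugate in `ℚ_2(i)` are `1` modulo four up to a power of two -/
def S_VAL8 : Prop := ∀ (i x x' y e : PadicAlgCl 2), i ^ 2 = -1 → e ≠ 0 → x ≠ 0 → x' ≠ 0 →
  (∀ τ : Au 2, τ i = i → τ x = x) → (∀ τ : Au 2, τ i = -i → τ x = x') →
  (∀ τ : Au 2, τ e = e) → (∀ τ : Au 2, τ y = y) → e * (x * x') = y ^ 2 →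
  ∃ k : ℤ, ‖e / (2 : PadicAlgCl 2) ^ k - 1‖ ≤ 1 / 4

/-- the obstruction at the free place: a homomorphism with values in the fourth roots of unity that lifts
the quadratic character of `δ` -/
def Fre8 : Prop := ∀ {i₀ : QB} (hi : i₀ ^ 2 = i₀ - 2) (ι : QB →ₐ[ℚ] PadicAlgCl 2)
  (a I s : QB) (δ : OO) (f : GK i₀ → QB),
  (∀ σ ∈ (DD ι : Set (GK i₀)), σ a = a) → I ^ 2 = -1 → s ^ 2 = em hi δ → s ≠ 0 →
  IsLocallyConstant f → (∀ σ, ∃ k : ℕ, f σ = I ^ k) →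
  (∀ σ : GK i₀, σ a = a → σ s = f σ ^ 2 * s) →
  (∀ σ : GK i₀, σ a = a → ∀ τ : GK i₀, τ a = a → f (σ * τ) = f σ * f τ) →
  ∃ k : ℤ, ‖em (iw hi ι) δ / (2 : PadicAlgCl 2) ^ k - 1‖ ≤ 1 / 4

/-- BL-4: the obstruction at the free place (compare `S_FREA`, `Pool/Agent/NH57/BK/FreA.lean`) -/
def S_FREA8 : Prop := S_H90 → S_VAL8 → Fre8

/-- the local condition at the free place `ϖ`, where `m = 1` modulo `8`: `δ` is `1` modulo `4` up to a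
power of `-ϖ` -/
def S_FRE8 : Prop := ∀ {i₀ : QB} (hi : i₀ ^ 2 = i₀ - 2) {χ : GK i₀ →* ℤ_[2]ˣ} {m : OO} {r : QB}
  {ϖ ϖ' : OO}, Pl ϖ ϖ' → ChiD hi χ m r →
  ∀ (ι : QB →ₐ[ℚ] PadicAlgCl 2), ‖em (iw hi ι) ϖ‖ < 1 → ‖em (iw hi ι) m - 1‖ ≤ 1 / 8 →
  ∀ (c : GK i₀ → ℚ_[2]), Coc χ c → (∀ σ, ‖c σ‖ ≤ 1) →
  ∀ (δ : OO) (s : QB), Squarefree δ → s ^ 2 = em hi δ → (∀ σ : GK i₀, σ s = s ↔ md c σ = 0) →
  ‖em (iw hi ι) δ - 1‖ ≤ 1 / 4 ∨ ∃ δ' : OO, δ = -ϖ * δ' ∧ ‖em (iw hi ι) δ' - 1‖ ≤ 1 / 4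

/-- BL-5: from the obstruction to the local condition (compare `S_FREB`,
`Pool/Agent/NH57/BK/FreB.lean`) -/
def S_FREB8 : Prop := Fre8 → S_FRE8

/-! ### The global part -/

lemma e6 : (6 : ZMod 8) ^ 2 = 6 - 2 := by decide

lemma e3 : (3 : ZMod 8) ^ 2 = 3 - 2 := by decide

/-- the supplementary laws (proved in the library `R426`; a hypothesis of the parts) -/
def S_SUPO : Prop := ∀ q : OO, Pp q →
  ((em e6 q = 1 ∧ qs q (-om) = 0) ∨ (em e6 q = 5 ∧ qs q (-om) = 1)) ∧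
  (((em e3 q = 1 ∨ em e3 q = 7) ∧ qs q (-(1 - om)) = 0) ∨
    ((em e3 q = 3 ∨ em e3 q = 5) ∧ qs q (-(1 - om)) = 1))

/-- The good sets of primary primes for all weights: the product is `5` modulo `8` and the matrices `M` and
`M + g d^T` are not singular, `g q = qs q (-(1 - om))`, `d q = qs q (-om)`. -/
structure GoodT (S : Finset OO) : Prop where
  gs : GoodS S
  five : (8 : OO) ∣ (∏ q ∈ S, q) - 5
  reg : ∀ v : OO → ZMod 2,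
    (∀ π ∈ S, qs s7 π * v π + ∑ ρ ∈ S, qs ρ π * (v π + v ρ) +
      qs π (-(1 - om)) * ∑ ρ ∈ S, qs ρ (-om) * v ρ = 0) → ∀ π ∈ S, v π = 0

/-- BL-6: the elements that satisfy the local conditions (compare `S_ALG`,
`Pool/Agent/NH57/BK/Alg.lean`) -/
def S_ALG8 : Prop := S_REC → S_SUPO → ∀ (S : Finset OO), GoodT S → ∀ (m ϖ ϖ' δ : OO) (w4 : ZMod 4)
  (hw4 : w4 ^ 2 = w4 - 2) (w8 : ZMod 8) (hw8 : w8 ^ 2 = w8 - 2),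
  ((m = -(s7 * ∏ q ∈ S, q) ∧ ϖ = om ∧ ϖ' = 1 - om ∧ w4 = 2 ∧ w8 = 3) ∨
    (m = s7 * ∏ q ∈ S, q ∧ ϖ = 1 - om ∧ ϖ' = om ∧ w4 = 3 ∧ w8 = 6)) →
  Squarefree δ → (em hw8 δ = 1 ∨ em hw8 δ = 7) →
  (em hw4 δ = 1 ∨ ∃ δ' : OO, δ = -ϖ * δ' ∧ em hw4 δ' = 1) →
  (∀ π : OO, Prime π → π ∣ δ → ¬ π ∣ 2 → π ∣ m) →
  (∀ q : OO, Prime q → q ∣ m → (¬ q ∣ δ ∧ Sqm q δ) ∨
    ∃ δ1 m1, δ = q * δ1 ∧ m = q * m1 ∧ Sqm q (δ1 * m1)) →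
  δ = 1 ∨ δ = m

/-- the vanishing theorem over `K` for the remaining weights: the strict place is `1 - ω` for even `j` and
`ω` for odd `j` -/
def Van8 : Prop :=
  ∀ {i₀ : QB} (hi : i₀ ^ 2 = i₀ - 2) {κ κ' : GK i₀ →* ℤ_[2]ˣ} {S : Finset OO} {r I : QB},
  GoodT S → KD hi κ κ' (-(s7 * ∏ q ∈ S, q)) r I → K8 κ κ' →
  ∀ (j : ℤ) {ϖ' : OO}, (Even j ∧ ϖ' = 1 - om) ∨ (Odd j ∧ ϖ' = om) →
  ∀ {c : GK i₀ → ℚ_[2]}, Coc (κ ^ j * κ' ^ (1 - j)) c →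
  (∀ (p : ℕ) [Fact p.Prime] (ι : QB →ₐ[ℚ] PadicAlgCl p), p ≠ 2 →
      CobOn (κ ^ j * κ' ^ (1 - j)) (II ι) c) →
  (∀ ι : QB →ₐ[ℚ] PadicAlgCl 2, ‖ι (em hi ϖ')‖ < 1 → CobOn (κ ^ j * κ' ^ (1 - j)) (DD ι) c) →
  ∃ y : ℚ_[2], ∀ σ, c σ = (vl (κ ^ j * κ' ^ (1 - j)) σ - 1) * y

/-- BL-7: the assembly (compare `S_MAIN`, `Pool/Agent/NH57/BK/Main.lean`) -/
def S_MAIN8 : Prop := S_C8 → S_MOD8 → S_RED8 → S_STR8 → S_FRE8 → S_ALG8 → S_REC → S_SUPO → Van8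

end Pool.Agent.NH57.BG
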