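import Pool.Agent.NH57.BL.LA

/-!
# Project BL, BL-10: the number of the completions with a given tuple in the kernel (helper26)
-/

set_option autoImplicit false
set_option linter.unusedVariables false
set_option linter.unusedSectionVars false

open scoped Classical

namespace Pool.Agent.NH57.BL

open Finset

namespace LX1

lemma dbl (x : ZMod 2) : x + x = 0 := CharTwo.add_self_eq_zero x

lemma msq (x : ZMod 2) : x * x = x := by revert x; decide

lemma two0 : (2 : ZMod 2) = 0 := rfl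

lemma filter_eq {α : Type} [Fintype α] (p q : α → Prop) (D : DecidablePred p)
    (D' : DecidablePred q) (h : ∀ x, p x ↔ q x) :
    @Finset.filter α p D univ = @Finset.filter α q D' univ := by
  have e : p = q := funext fun x => propext (h x)
  subst e
  rw [Subsingleton.elim D D']

section

variable {U J : Type} [Fintype U] [Fintype J]

lemma recip' {A : U → U → ZMod 2} {t : U → ZMod 2}
    (h : ∀ u v, u ≠ v → A u v + A v u = t u * t v) (u v : U) :
    A u v + A v u = t u * t v + (if u = v then t u else 0) := by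
  by_cases huv : u = v
  · subst huv; rw [if_pos rfl, msq, dbl, dbl]
  · rw [if_neg huv, add_zero, h u v huv]

/-- the sum of the entries against a vector -/
lemma sumA {A : U → U → ZMod 2} {t : U → ZMod 2}
    (h : ∀ u v, u ≠ v → A u v + A v u = t u * t v) (c : U → ZMod 2) :
    ∑ u, ∑ v, A u v * (c u + c v) = (∑ u, t u) * (∑ u, t u * c u) + ∑ u, t u * c u := by
  have e1 : ∑ u, ∑ v, A u v * (c u + c v) = ∑ u, ∑ v, (A u v + A v u) * c u := by
    simp only [mul_add, add_mul, sum_add_distrib]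
    congr 1
    rw [sum_comm]
  have e2 : ∀ u, ∑ v, (A u v + A v u) * c u = (∑ v, t v) * (t u * c u) + t u * c u := by
    intro u
    have e3 : ∀ v, (A u v + A v u) * c u = t v * (t u * c u) + (if u = v then t u * c u else 0) := by
      intro v
      rw [recip' h u v, add_mul, ite_mul, zero_mul]
      ring
    rw [sum_congr rfl fun v _ => e3 v, sum_add_distrib, ← sum_mul, sum_ite_eq, if_pos (mem_univ _)]
  rw [e1, sum_congr rfl fun u _ => e2 u, sum_add_distrib, ← mul_sum]

/-- the polarised version -/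
lemma sumA2 {A : U → U → ZMod 2} {t : U → ZMod 2}
    (h : ∀ u v, u ≠ v → A u v + A v u = t u * t v) (c c' : U → ZMod 2) :
    ∑ u, (∑ v, A u v * (c u + c v)) * c' u + ∑ u, (∑ v, A u v * (c' u + c' v)) * c u =
      (∑ u, t u * c u) * (∑ u, t u * c' u) + ∑ u, t u * (c u * c' u) := by
  have e1 : ∑ u, (∑ v, A u v * (c u + c v)) * c' u + ∑ u, (∑ v, A u v * (c' u + c' v)) * c u =
      ∑ u, ∑ v, (A u v + A v u) * (c v * c' u) := by
    have a1 : ∑ u, (∑ v, A u v * (c u + c v)) * c' u =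
        ∑ u, ∑ v, A u v * (c u * c' u) + ∑ u, ∑ v, A u v * (c v * c' u) := by
      rw [← sum_add_distrib]
      refine sum_congr rfl fun u _ => ?_
      rw [sum_mul, ← sum_add_distrib]
      exact sum_congr rfl fun v _ => by ring
    have a2 : ∑ u, (∑ v, A u v * (c' u + c' v)) * c u =
        ∑ u, ∑ v, A u v * (c u * c' u) + ∑ u, ∑ v, A v u * (c v * c' u) := by
      rw [sum_comm (f := fun u v => A v u * (c v * c' u)), ← sum_add_distrib]
      refine sum_congr rfl fun u _ => ?_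
      rw [sum_mul, ← sum_add_distrib]
      exact sum_congr rfl fun v _ => by ring
    have a3 : ∑ u, ∑ v, (A u v + A v u) * (c v * c' u) =
        ∑ u, ∑ v, A u v * (c v * c' u) + ∑ u, ∑ v, A v u * (c v * c' u) := by
      simp only [add_mul, sum_add_distrib]
    rw [a1, a2, a3]
    have h2 := two0
    linear_combination (∑ u, ∑ v, A u v * (c u * c' u)) * h2
  have e2 : ∀ u, ∑ v, (A u v + A v u) * (c v * c' u) =
      (∑ v, t v * c v) * (t u * c' u) + t u * (c u * c' u) := by
    intro u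
    have e3 : ∀ v, (A u v + A v u) * (c v * c' u) =
        (t v * c v) * (t u * c' u) + (if u = v then t u * (c v * c' u) else 0) := by
      intro v
      rw [recip' h u v, add_mul, ite_mul, zero_mul]
      ring
    rw [sum_congr rfl fun v _ => e3 v, sum_add_distrib, ← sum_mul, sum_ite_eq, if_pos (mem_univ _)]
  rw [e1, sum_congr rfl fun u _ => e2 u, sum_add_distrib, ← mul_sum]

/-- the block `U x J` -/
lemma sumB (B : U → J → ZMod 2) (t : U → ZMod 2) (t' : J → ZMod 2) (c : U → ZMod 2)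
    (x : J → ZMod 2) :
    ∑ k, ∑ u, (B u k + t u * t' k) * (x k + c u) = ∑ u, ∑ l, B u l * (c u + x l) +
      ((∑ u, t u) * (∑ k, t' k * x k) + (∑ u, t u * c u) * (∑ k, t' k)) := by
  rw [sum_comm, sum_mul_sum, sum_mul_sum, ← sum_add_distrib, ← sum_add_distrib]
  refine sum_congr rfl fun u _ => ?_
  rw [← sum_add_distrib, ← sum_add_distrib]
  exact sum_congr rfl fun k _ => by ring

/-- the block `U x J`, polarised -/
lemma sumB2 (B : U → J → ZMod 2) (t : U → ZMod 2) (t' : J → ZMod 2) (c c' : U → ZMod 2)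
    (x x' : J → ZMod 2) :
    ∑ k, (∑ u, (B u k + t u * t' k) * (x k + c u)) * x' k +
      ∑ k, (∑ u, (B u k + t u * t' k) * (x' k + c' u)) * x k +
      (∑ u, (∑ l, B u l * (c u + x l)) * c' u + ∑ u, (∑ l, B u l * (c' u + x' l)) * c u) =
      (∑ u, t u * c u) * (∑ k, t' k * x' k) + (∑ u, t u * c' u) * (∑ k, t' k * x k) := by
  have e1 : ∀ (y y' : J → ZMod 2) (d : U → ZMod 2),
      ∑ k, (∑ u, (B u k + t u * t' k) * (y k + d u)) * y' k =
      ∑ u, ∑ k, (B u k + t u * t' k) * (y k + d u) * y' k := by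
    intro y y' d
    rw [sum_comm]
    exact sum_congr rfl fun k _ => by rw [sum_mul]
  have e2 : ∀ (d d' : U → ZMod 2) (y : J → ZMod 2),
      ∑ u, (∑ l, B u l * (d u + y l)) * d' u = ∑ u, ∑ l, B u l * (d u + y l) * d' u :=
    fun d d' y => sum_congr rfl fun u _ => by rw [sum_mul]
  rw [e1, e1, e2, e2, sum_mul_sum, sum_mul_sum]
  simp only [← sum_add_distrib]
  refine sum_congr rfl fun u _ => sum_congr rfl fun k _ => ?_
  have h2 := two0
  linear_combination ((B u k + t u * t' k) * x k * x' k + B u k * c u * c' u +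
    B u k * c u * x' k + B u k * x k * c' u) * h2

variable [LinearOrder J]

/-- the sum over the pairs -/
lemma sumP (t x : J → ZMod 2) : ∑ e ∈ prs J, t e.1 * t e.2 * (x e.1 + x e.2) =
    (∑ k, t k) * (∑ k, t k * x k) + ∑ k, t k * x k := by
  have h : ∀ u v : J, u ≠ v → (if u < v then t u * t v else 0) + (if v < u then t v * t u else 0) =
      t u * t v := by
    intro u v huv
    rcases lt_or_gt_of_ne huv with h | h
    · rw [if_pos h, if_neg (not_lt.2 h.le), add_zero]
    · rw [if_neg (not_lt.2 h.le), if_pos h, zero_add, mul_comm]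
  rw [← sumA h x]
  unfold prs
  rw [sum_filter, ← univ_product_univ, sum_product]
  refine sum_congr rfl fun u _ => sum_congr rfl fun v _ => ?_
  by_cases huv : u < v
  · rw [if_pos huv, if_pos huv]
  · rw [if_neg huv, if_neg huv, zero_mul]

lemma sumOff (t x y : J → ZMod 2) :
    ∑ k, ∑ l, (if k = l then 0 else t k * t l * (x k * y l)) =
      (∑ k, t k * x k) * (∑ k, t k * y k) + ∑ k, t k * (x k * y k) := by
  rw [sum_mul_sum, ← sum_add_distrib]
  refine sum_congr rfl fun k _ => ?_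
  have e3 : ∀ l, (if k = l then 0 else t k * t l * (x k * y l)) =
      t k * x k * (t l * y l) + (if k = l then t k * (x k * y l) else 0) := by
    intro l
    by_cases hkl : k = l
    · subst hkl
      rw [if_pos rfl, if_pos rfl]
      have h1 := msq (t k)
      have h2 := two0
      linear_combination -(x k * y k) * h1 - (t k * x k * y k) * h2
    · rw [if_neg hkl, if_neg hkl]
      ring
  rw [sum_congr rfl fun l _ => e3 l, sum_add_distrib, sum_ite_eq, if_pos (mem_univ _)]

end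

section

variable {U J : Type} [Fintype U] [Fintype J] [LinearOrder J]

/-- the part of the row without the completion -/
def ff (L : Blk U J) (z : Vc U J) (k : J) : ZMod 2 :=
  L.sJ k * z.2.1 k + ∑ u, (L.B u k + L.tU u * L.tJ k) * (z.2.1 k + z.1 u) + z.2.2 * L.gJ k

lemma rowJ_ff (L : Blk U J) (z : Vc U J) (R : J → J → ZMod 2) (k : J) :
    rowJ L R z k = ff L z k + ∑ l, R k l * (z.2.1 k + z.2.1 l) := by
  unfold rowJ ff
  ring

lemma cond1 (L : Blk U J) (hpar : ∑ u, L.tU u + ∑ j, L.tJ j = 0)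
    (hrec : ∀ u v, u ≠ v → L.A u v + L.A v u = L.tU u * L.tU v) (z : Vc U J)
    (hU : ∀ u, rowU L z u = 0) :
    ∑ k, ff L z k + ∑ e ∈ prs J, L.tJ e.1 * L.tJ e.2 * (z.2.1 e.1 + z.2.1 e.2) = colS L z := by
  have h0 : ∑ u, rowU L z u = 0 := sum_eq_zero fun u _ => hU u
  have e0 : ∑ u, rowU L z u = ∑ u, L.sU u * z.1 u + ∑ u, ∑ v, L.A u v * (z.1 u + z.1 v) +
      ∑ u, ∑ l, L.B u l * (z.1 u + z.2.1 l) + z.2.2 * ∑ u, L.gU u := by
    unfold rowU
    rw [sum_add_distrib, sum_add_distrib, sum_add_distrib, mul_sum]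
  have e1 : ∑ k, ff L z k = ∑ k, L.sJ k * z.2.1 k +
      ∑ k, ∑ u, (L.B u k + L.tU u * L.tJ k) * (z.2.1 k + z.1 u) + z.2.2 * ∑ k, L.gJ k := by
    unfold ff
    rw [sum_add_distrib, sum_add_distrib, mul_sum]
  have e2 : colS L z = ∑ u, L.sU u * z.1 u + ∑ u, L.tU u * z.1 u + (∑ j, L.sJ j * z.2.1 j +
      ∑ j, L.tJ j * z.2.1 j) + z.2.2 * (∑ u, L.gU u + ∑ j, L.gJ j) := by
    unfold colS
    simp only [add_mul, sum_add_distrib]
  rw [sumA hrec] at e0
  rw [sumB] at e1
  rw [e0] at h0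
  rw [e1, e2, sumP]
  have h2 := two0
  generalize ∑ u, ∑ l, L.B u l * (z.1 u + z.2.1 l) = β at *
  generalize ∑ u, L.tU u * z.1 u = P at *
  generalize ∑ j, L.tJ j * z.2.1 j = P' at *
  generalize ∑ u, L.tU u = T at *
  generalize ∑ j, L.tJ j = T' at *
  generalize ∑ u, L.sU u * z.1 u = S at *
  generalize ∑ j, L.sJ j * z.2.1 j = S' at *
  generalize ∑ u, L.gU u = g at *
  generalize ∑ j, L.gJ j = g' at *
  linear_combination h0 + (P + P') * hpar - (T * P + P + S + z.2.2 * g) * h2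

lemma cond2 (L : Blk U J)
    (hrec : ∀ u v, u ≠ v → L.A u v + L.A v u = L.tU u * L.tU v) (z z' : Vc U J)
    (hU : ∀ u, rowU L z u = 0) (hU' : ∀ u, rowU L z' u = 0) :
    ∑ k, (ff L z k * z'.2.1 k + ff L z' k * z.2.1 k) +
      ∑ k, ∑ l, (if k = l then 0 else L.tJ k * L.tJ l * (z.2.1 k * z'.2.1 l)) = bb L z z' := by
  have h0 : ∑ u, (rowU L z u * z'.1 u + rowU L z' u * z.1 u) = 0 :=
    sum_eq_zero fun u _ => by rw [hU u, hU' u, zero_mul, zero_mul, add_zero]
  have h2 := two0
  have e0 : ∑ u, (rowU L z u * z'.1 u + rowU L z' u * z.1 u) =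
      (∑ u, (∑ v, L.A u v * (z.1 u + z.1 v)) * z'.1 u +
        ∑ u, (∑ v, L.A u v * (z'.1 u + z'.1 v)) * z.1 u) +
      (∑ u, (∑ l, L.B u l * (z.1 u + z.2.1 l)) * z'.1 u +
        ∑ u, (∑ l, L.B u l * (z'.1 u + z'.2.1 l)) * z.1 u) +
      (z.2.2 * ∑ u, L.gU u * z'.1 u + z'.2.2 * ∑ u, L.gU u * z.1 u) := by
    unfold rowU
    simp only [mul_sum, ← sum_add_distrib]
    refine sum_congr rfl fun u _ => ?_
    linear_combination (L.sU u * z.1 u * z'.1 u) * h2
  have e1 : ∑ k, (ff L z k * z'.2.1 k + ff L z' k * z.2.1 k) =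
      (∑ k, (∑ u, (L.B u k + L.tU u * L.tJ k) * (z.2.1 k + z.1 u)) * z'.2.1 k +
      ∑ k, (∑ u, (L.B u k + L.tU u * L.tJ k) * (z'.2.1 k + z'.1 u)) * z.2.1 k) +
      (z.2.2 * ∑ j, L.gJ j * z'.2.1 j + z'.2.2 * ∑ j, L.gJ j * z.2.1 j) := by
    unfold ff
    simp only [mul_sum, ← sum_add_distrib]
    refine sum_congr rfl fun k _ => ?_
    linear_combination (L.sJ k * z.2.1 k * z'.2.1 k) * h2
  rw [sumA2 hrec] at e0
  rw [e0] at h0
  have e3 := sumB2 L.B L.tU L.tJ z.1 z'.1 z.2.1 z'.2.1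
  rw [e1, sumOff]
  unfold bb
  linear_combination e3 - h0

lemma bb_self (L : Blk U J) (z : Vc U J) : bb L z z = 0 := by
  unfold bb
  have h1 : ∀ u, L.tU u * (z.1 u * z.1 u) = L.tU u * z.1 u := fun u => by rw [msq]
  have h3 : ∀ j, L.tJ j * (z.2.1 j * z.2.1 j) = L.tJ j * z.2.1 j := fun j => by rw [msq]
  rw [sum_congr rfl fun u _ => h1 u, sum_congr rfl fun j _ => h3 j, msq]
  have h2 := two0
  linear_combination (∑ u, L.tU u * z.1 u + ∑ j, L.tJ j * z.2.1 j +
    z.2.2 * (∑ u, L.gU u * z.1 u + ∑ j, L.gJ j * z.2.1 j)) * h2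

end

end LX1

open LX1 in
theorem t_LX1 (h : S_LA1J) : S_LX1 := by
  intro a b U J _ _ _ L hpar hrec m z hind hU hbor
  have h1 := h J (Fin m) L.tJ (fun i => ff L (z i)) (fun i => (z i).2.1) hind
  have hiff : ((∀ i, ∑ k, ff L (z i) k + ∑ e ∈ prs J, L.tJ e.1 * L.tJ e.2 *
        ((z i).2.1 e.1 + (z i).2.1 e.2) = 0) ∧
      (∀ i j, i ≠ j → ∑ k, (ff L (z i) k * (z j).2.1 k + ff L (z j) k * (z i).2.1 k) +
          ∑ k, ∑ l, (if k = l then 0 else L.tJ k * L.tJ l * ((z i).2.1 k * (z j).2.1 l)) = 0)) ↔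
      OKt a b L z := by
    constructor
    · rintro ⟨k1, k2⟩
      refine ⟨hU, fun i => ?_, hbor, fun i j => ?_⟩
      · rw [← cond1 L hpar hrec (z i) (hU i)]
        exact k1 i
      · by_cases hij : i = j
        · subst hij
          exact bb_self L (z i)
        · rw [← cond2 L hrec (z i) (z j) (hU i) (hU j)]
          exact k2 i j hij
    · rintro ⟨-, k1, -, k2⟩
      refine ⟨fun i => ?_, fun i j _ => ?_⟩
      · rw [cond1 L hpar hrec (z i) (hU i)]
        exact k1 i
      · rw [cond2 L hrec (z i) (z j) (hU i) (hU j)]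
        exact k2 i j
  rw [Fintype.card_fin] at h1
  refine (congrArg (fun x : Finset (prs J → ZMod 2) => x.card * 2 ^ (m * (Fintype.card J - 1)))
    ?_).trans (h1.trans ?_)
  · refine filter_eq _ _ _ _ fun α => ?_
    refine forall_congr' fun i => forall_congr' fun k => ?_
    rw [rowJ_ff]
  by_cases hok : OKt a b L z
  · rw [if_pos hok, if_pos (hiff.2 hok)]
  · rw [if_neg hok, if_neg (fun hh => hok (hiff.1 hh))]

end Pool.Agent.NH57.BL
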