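import Pool.Agent.NH57.BL.Gal2
import Pool.Agent.NH57.BK.Main

/-!
# Project BL: the vanishing theorem over `K` for the remaining weights, `D = 1` modulo four

Port of `Pool/Agent/NH57/BL/Main8.lean` to all the classes modulo eight.
-/

set_option autoImplicit false
set_option linter.unusedSectionVars false
set_option linter.unusedVariables false

namespace Pool.Agent.NH57.BH

open Pool.Agent.R384
open Pool.Agent.NH57.BK
open Pool.Agent.NH57.BK.Mn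
open Pool.Agent.NH57.BG (e6 e3 S_SUPO S_RED8 S_VAL8 Fre8 S_FRE8)
open Pool.Agent.Y676.IS (Cu)
open Pool.Agent.Y715.Red Pool.Agent.Y715.Nr Pool.Agent.W237.RK
open Pool.Agent.Y715.Gi (QB KK GK)
open Pool.Agent.Y715.Df (Cmp)

open scoped Classical

namespace MnG

variable {i₀ : QB} (hi : i₀ ^ 2 = i₀ - 2) {χ : GK i₀ →* ℤ_[2]ˣ} {m : OO} {r : QB}

theorem core (hRED : S_RED8) (hSTR : S_STRG) (hFR8 : S_FRE8) (hFRE : S_FREG) (hALG : S_ALGG)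
    (hREC : S_REC) (hSUP : S_SUPO) {x₀ y₀ z : ZMod 2} {S : Finset OO} (hT : GoodX x₀ y₀ S)
    {ϖ ϖ' : OO} (cd : ChiD hi χ m r)
    {w4 : ZMod 4} (hw4 : w4 ^ 2 = w4 - 2) {w8 : ZMod 8} (hw8 : w8 ^ 2 = w8 - 2)
    (hcase : (m = -(s7 * ∏ q ∈ S, q) ∧ ϖ = om ∧ ϖ' = 1 - om ∧ w4 = 2 ∧ w8 = 3 ∧ z = x₀) ∨
      (m = s7 * ∏ q ∈ S, q ∧ ϖ = 1 - om ∧ ϖ' = om ∧ w4 = 3 ∧ w8 = 6 ∧ z = y₀))
    (hm5 : ∀ ι : QB →ₐ[ℚ] PadicAlgCl 2, ‖em (iw hi ι) ϖ‖ < 1 → Mz z (em (iw hi ι) m))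
    (hm6 : ∀ ι : QB →ₐ[ℚ] PadicAlgCl 2, ‖em (iw hi ι) ϖ'‖ < 1 → M15 (em (iw hi ι) (-m)))
    {c : GK i₀ → ℚ_[2]} (hc : Coc χ c)
    (hodd : ∀ (p : ℕ) [Fact p.Prime] (ι : QB →ₐ[ℚ] PadicAlgCl p), p ≠ 2 → CobOn χ (II ι) c)
    (hstr : ∀ ι : QB →ₐ[ℚ] PadicAlgCl 2, ‖ι (em hi ϖ')‖ < 1 → CobOn χ (DD ι) c) :
    ∃ y : ℚ_[2], ∀ σ, c σ = (vl χ σ - 1) * y := by
  by_contra hn
  have hS : GoodS S := hT.gs
  have hPl : Pl ϖ ϖ' := by
    rcases hcase with ⟨-, h1, h2, -, -, -⟩ | ⟨-, h1, h2, -, -, -⟩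
    · exact Or.inl ⟨h1, h2⟩
    · exact Or.inr ⟨h1, h2⟩
  have hϖp : Prime ϖ := by
    rcases hPl with ⟨rfl, -⟩ | ⟨rfl, -⟩
    · exact prime_om
    · exact prime_om'
  have hϖp' : Prime ϖ' := by
    rcases hPl with ⟨-, rfl⟩ | ⟨-, rfl⟩
    · exact prime_om'
    · exact prime_om
  have hϖ2 : ϖ * ϖ' = 2 := by
    rcases hPl with ⟨rfl, rfl⟩ | ⟨rfl, rfl⟩
    · exact om_mul
    · rw [mul_comm]; exact om_mul
  obtain ⟨v, hv, hm⟩ : ∃ v : OO, (v = 1 ∨ v = -1) ∧ m = v * (s7 * ∏ q ∈ S, q) := by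
    rcases hcase with ⟨h1, -, -, -, -, -⟩ | ⟨h1, -, -, -, -, -⟩
    · exact ⟨-1, Or.inr rfl, by rw [h1]; ring⟩
    · exact ⟨1, Or.inl rfl, by rw [h1]; ring⟩
  have hv' : ∀ {π : OO}, Prime π → ¬ π ∣ v := by
    intro π hπ h
    rcases hv with h1 | h1
    · rw [h1] at h
      exact hπ.not_isUnit (isUnit_of_dvd_one h)
    · rw [h1, dvd_neg] at h
      exact hπ.not_isUnit (isUnit_of_dvd_one h)
  -- the free place
  obtain ⟨p, hpf, ι, hι⟩ := exists_emb hi hϖp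
  have hp2 : p = 2 := by
    rw [ι_em] at hι
    exact (two_of_dvd hϖp (iw hi ι) hι).2 ⟨_, hϖ2.symm⟩
  subst hp2
  have hι' : ‖em (iw hi ι) ϖ‖ < 1 := by rwa [ι_em] at hι
  -- the strict place
  obtain ⟨p, hpf', ι₁, hι₁⟩ := exists_emb hi hϖp'
  have hp2 : p = 2 := by
    rw [ι_em] at hι₁
    exact (two_of_dvd hϖp' (iw hi ι₁) hι₁).2 ⟨_, by rw [mul_comm]; exact hϖ2.symm⟩
  subst hp2
  have hι₁' : ‖em (iw hi ι₁) ϖ'‖ < 1 := by rwa [ι_em] at hι₁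
  -- an element that moves `r`
  obtain ⟨σ₀, hσ₀⟩ : ∃ σ₀ : GK i₀, σ₀ r = -r := by
    obtain ⟨l, hl, κ, hκ⟩ := exists_emb hi prime_s7
    rw [ι_em] at hκ
    have hns : ¬ s7 ∣ v * ∏ q ∈ S, q := by
      intro h
      rcases prime_s7.dvd_or_dvd h with h1 | h1
      · exact hv' prime_s7 h1
      · obtain ⟨j, hj, h2⟩ := (prime_s7.dvd_finsetProd_iff _).1 h1
        exact (hS.pp j hj).sev h2
    obtain ⟨σ₀, -, h⟩ := exists_ram hi cd prime_s7 (m1 := v * ∏ q ∈ S, q) (by rw [hm]; ring)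
      hns hκ
    exact ⟨σ₀, h⟩
  -- normalization
  obtain ⟨a, y, ha, hint, hmin⟩ := normalize hc (cd.big hi hσ₀) hn
  set c' : GK i₀ → ℚ_[2] := fun σ => a * c σ + (vl χ σ - 1) * y with hc'
  have hcc : Coc χ c' := hc.twist cd.cont a y
  have hodd' : ∀ (p : ℕ) [Fact p.Prime] (ι : QB →ₐ[ℚ] PadicAlgCl p), p ≠ 2 →
      CobOn χ (II ι) c' := fun p _ ι hp => (hodd p ι hp).twist a y
  have hstr' : CobOn χ (DD ι₁) c' := (hstr ι₁ hι₁).twist a y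
  -- Kummer theory
  obtain ⟨δ, hδ, hkum⟩ := kum hi (md c') (md_cont hcc) (md_mul hcc hint)
  obtain ⟨s, hs⟩ : ∃ s : QB, s ^ 2 = em hi δ := IsAlgClosed.exists_pow_nat_eq _ (by norm_num)
  have hk : ∀ σ : GK i₀, σ s = s ↔ md c' σ = 0 := hkum s hs
  have hst := hSTR hi hPl cd ι₁ hι₁' (hm6 ι₁ hι₁') c' hint hstr' δ s hδ hs hk
  have hfr : ‖em (iw hi ι) δ - 1‖ ≤ 1 / 4 ∨
      ∃ δ' : OO, δ = (if z = 1 then -ϖ else ϖ) * δ' ∧ ‖em (iw hi ι) δ' - 1‖ ≤ 1 / 4 := by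
    rcases hm5 ι hι' with ⟨hz, h⟩ | ⟨hz, h⟩
    · rw [if_pos hz]
      exact hFR8 hi hPl cd ι hι' h c' hcc hint δ s hδ hs hk
    · rw [if_neg (by rw [hz]; exact zero_ne_one)]
      exact hFRE hi hPl cd ι hι' h c' hcc hint δ s hδ hs hk
  -- the prime divisors of `δ`
  have hsup : ∀ π : OO, Prime π → π ∣ δ → ¬ π ∣ 2 → π ∣ m := by
    intro π hπ hπδ hπ2
    by_contra hπm
    obtain ⟨l, hl, κ, hκ⟩ := exists_emb hi hπ
    rw [ι_em] at hκ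
    have hl2 : l ≠ 2 := fun h => hπ2 ((two_of_dvd hπ (iw hi κ) hκ).1 h)
    have h1 := unram hi cd hl2 (hodd' l κ hl2) ((dvd_iff (iw hi κ) hπ hκ m).not.1 hπm)
    refine not_dvd_of_fix (iw hi κ) hπ hκ hδ (s := κ s) ?_ ?_ hπδ
    · rw [← map_pow, hs, ι_em]
    · intro τ hin hτ
      exact fix_I (fun σ hσ => (hk σ).2 (h1 σ hσ)) τ hin hτ
  -- the prime divisors of `m`
  have hloc := loc_all hi cd hS hv hm hcc hint hodd' hδ hs hk
  -- modulo eight at the strict place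
  have h8 : em hw8 δ = 1 ∨ em hw8 (δ * m) = 1 := by
    have hred : ∀ x : OO, ‖em (iw hi ι₁) x‖ ≤ 1 / 8 → em hw8 x = 0 := by
      intro x hx
      rcases hcase with ⟨-, -, h1, -, h2, -⟩ | ⟨-, -, h1, -, h2, -⟩
      · exact (hRED hi ι₁ ϖ' w8 hw8 3 (by decide) (Or.inr ⟨h1, h2, rfl⟩) hι₁' x).1 hx
      · exact (hRED hi ι₁ ϖ' w8 hw8 2 (by decide) (Or.inl ⟨h1, h2, rfl⟩) hι₁' x).1 hx
    rcases hst with h | h
    · left
      have h3 := hred (δ - 1) (by rwa [map_sub, map_one])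
      rw [map_sub, map_one, sub_eq_zero] at h3
      exact h3
    · right
      have h3 := hred (δ * m - 1) (by rwa [map_sub, map_one])
      rw [map_sub, map_one, sub_eq_zero] at h3
      exact h3
  -- modulo four at the free place
  have h4 : em hw4 δ = 1 ∨
      ∃ δ' : OO, δ = (if z = 1 then -ϖ else ϖ) * δ' ∧ em hw4 δ' = 1 := by
    have hred : ∀ x : OO, ‖em (iw hi ι) x - 1‖ ≤ 1 / 4 → em hw4 x = 1 := by
      intro x hx
      have hx' : ‖em (iw hi ι) (x - 1)‖ ≤ 1 / 4 := by rwa [map_sub, map_one]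
      have h3 : em hw4 (x - 1) = 0 := by
        rcases hcase with ⟨-, h1, -, h2, -, -⟩ | ⟨-, h1, -, h2, -, -⟩
        · exact (hRED hi ι ϖ 6 e6 w4 hw4 (Or.inl ⟨h1, rfl, h2⟩) hι' (x - 1)).2 hx'
        · exact (hRED hi ι ϖ 3 e3 w4 hw4 (Or.inr ⟨h1, rfl, h2⟩) hι' (x - 1)).2 hx'
      rw [map_sub, map_one, sub_eq_zero] at h3
      exact h3
    rcases hfr with h | ⟨δ', h1, h2⟩
    · exact Or.inl (hred δ h)
    · exact Or.inr ⟨δ', h1, hred δ' h2⟩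
  have hδ2 := hALG hREC hSUP x₀ y₀ S hT m ϖ ϖ' δ w4 hw4 w8 hw8 z hcase hδ h8 h4 hsup hloc
  rcases hδ2 with h | h
  · -- `δ = 1`
    rw [h, map_one] at hs
    obtain ⟨σ, hσ⟩ := hmin 0
    rw [mul_zero, sub_zero] at hσ
    apply hσ
    have h1 : σ s = s := by
      rcases sq_eq_one_iff.1 hs with h2 | h2
      · rw [h2, map_one]
      · rw [h2, map_neg, map_one]
    have h5 : ‖c' σ‖ < 1 := md_zero.1 ((hk σ).1 h1)
    exact h5
  · -- `δ = m`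
    rw [h] at hs
    have hsr : ∀ σ : GK i₀, σ s = s ↔ σ r = r := by
      intro σ
      have h1 : s ^ 2 = r ^ 2 := by rw [hs, cd.hr]
      rcases sq_eq_sq_iff_eq_or_eq_neg.1 h1 with h2 | h2
      · rw [h2]
      · rw [h2, map_neg, neg_inj]
    obtain ⟨σ, hσ⟩ := hmin (1 / 2)
    apply hσ
    have h2n : ‖(2 : ℚ_[2])‖ = 1 / 2 := norm_two'
    have h3 : ‖(vl χ σ - 1) * (1 / 2)‖ = 2 * ‖vl χ σ - 1‖ := by
      rw [norm_mul, norm_div, norm_one, h2n]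
      ring
    by_cases h4 : md c' σ = 0
    · have h5 : ‖c' σ‖ < 1 := md_zero.1 h4
      have h6 := (cd.iff hi σ).2 ((hsr σ).1 ((hk σ).2 h4))
      have e : c' σ - (vl χ σ - 1) * (1 / 2) = c' σ + -((vl χ σ - 1) * (1 / 2)) := by ring
      have h7 : ‖c' σ - (vl χ σ - 1) * (1 / 2)‖ < 1 := by
        rw [e]
        refine add_lt' h5 ?_
        rw [norm_neg, h3]
        linarith
      exact h7
    · have h5 : ¬ ‖c' σ‖ < 1 := fun h => h4 (md_zero.2 h)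
      have h6 := (md_eq (hint σ)).1 h5
      have h7 : σ r = -r := by
        rcases rt_or hi cd.hr σ with h7 | h7
        · exact absurd ((hk σ).1 ((hsr σ).2 h7)) h4
        · exact h7
      have h8 := cd.big hi h7
      have h9 : ¬ ‖(vl χ σ - 1) * (1 / 2)‖ < 1 := by
        rw [h3, h8]
        norm_num
      have h10 := (md_eq (by rw [h3, h8]; norm_num)).1 h9
      have e : c' σ - (vl χ σ - 1) * (1 / 2) = (c' σ - 1) + -((vl χ σ - 1) * (1 / 2) - 1) := by ring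
      rw [e]
      exact add_lt' h6 (by rwa [norm_neg])

lemma m15_of {z : ZMod 2} {t : PadicAlgCl 2} (h : Mz z t) : M15 t := by
  rcases h with ⟨-, h⟩ | ⟨-, h⟩
  · exact Or.inl h
  · exact Or.inr h

end MnG

/-- BL-37: the vanishing theorem over `K` for the remaining weights, all `D = 1` modulo four -/
theorem t_MAING : S_MAING := by
  intro hC8 hMOD hRED hSTR hFR8 hFRE hALG hREC hSUP i₀ hi κ κ' x y S r I hT kd k8 j ϖ' hϖ c hc hodd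
    hstr
  obtain ⟨he, ho⟩ := hC8 hi kd k8 j
  have hM := fun ι : QB →ₐ[ℚ] PadicAlgCl 2 => hMOD hi ι _ x y hT.gs.one hT.six hT.three
  rcases hϖ with ⟨hj, rfl⟩ | ⟨hj, rfl⟩
  · obtain ⟨s, c8⟩ := he hj
    refine MnG.core hi hRED hSTR hFR8 hFRE hALG hREC hSUP hT c8.cd (w4 := 2) (by decide) (w8 := 3)
      e3 (Or.inl ⟨rfl, rfl, rfl, rfl, rfl, rfl⟩) (fun ι hι => (hM ι).1 hι) (fun ι hι => ?_)
      hc hodd hstr
    rw [neg_neg]
    exact MnG.m15_of ((hM ι).2 hι)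
  · obtain ⟨s, c8⟩ := ho hj
    rw [neg_neg] at c8
    exact MnG.core hi hRED hSTR hFR8 hFRE hALG hREC hSUP hT c8.cd (w4 := 3) (by decide) (w8 := 6)
      e6 (Or.inr ⟨rfl, rfl, rfl, rfl, rfl, rfl⟩) (fun ι hι => (hM ι).2 hι)
      (fun ι hι => MnG.m15_of ((hM ι).1 hι)) hc hodd hstr

end Pool.Agent.NH57.BH
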