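import Pool.Agent.NH57.BL.Gal
import Pool.Agent.NH57.BK.Mod

/-!
# Project BL: sizes and reductions at the two places above two (BL-1)
-/

set_option autoImplicit false
set_option linter.unusedVariables false

namespace Pool.Agent.NH57.BG

open Pool.Agent.R384
open Pool.Agent.NH57.BK
open Pool.Agent.Y676.IS (Cu)
open Pool.Agent.Y715.Red Pool.Agent.Y715.Nr Pool.Agent.W237.RK
open Pool.Agent.Y715.Gi (QB KK GK)
open Pool.Agent.Y715.Df (Cmp)

open scoped Classical

namespace Mod8P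

/-- integers of norm at most `1/8` -/
lemma int_eight {z : ℤ} (h : ‖(z : PadicAlgCl 2)‖ ≤ 1 / 8) : ((z : ℤ) : ZMod 8) = 0 := by
  have h4 := int_four (z := z) (by linarith)
  rw [ZMod.intCast_zmod_eq_zero_iff_dvd] at h4 ⊢
  obtain ⟨k, hk⟩ := h4
  rcases Int.even_or_odd k with hk' | hk'
  · obtain ⟨l, hl⟩ := hk'
    exact ⟨l, by rw [hk, hl]; push_cast; ring⟩
  · exfalso
    rw [even_norm (z := z) (k := k) (n := 2) (by rw [hk]; push_cast; ring) (Int.odd_iff.1 hk')] at h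
    norm_num at h

lemma norm_sub_six {w : PadicAlgCl 2} (hw : w ^ 2 = w - 2) (h : ‖w‖ < 1) : ‖w - 6‖ = 1 / 32 := by
  have h5 : ‖((5 : ℤ) : PadicAlgCl 2)‖ = 1 := odd_norm (by norm_num)
  push_cast at h5
  have h1 : ‖w + 5‖ = 1 := by
    have e : w + 5 = 5 + w := by ring
    rw [e, eq_of_lt (by rw [h5]; exact h), h5]
  have h2 : (w - 6) * (w + 5) = -(2 ^ 5) := by linear_combination hw
  have h3 := congrArg norm h2
  rw [norm_mul, h1, mul_one, norm_neg, norm_pow, Pool.Agent.Y715.Gi.norm_two'] at h3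
  rw [h3]
  norm_num

lemma norm_add_five {w : PadicAlgCl 2} (hw : w ^ 2 = w - 2) (h : ‖1 - w‖ < 1) : ‖w + 5‖ = 1 / 32 := by
  have h5 : ‖((5 : ℤ) : PadicAlgCl 2)‖ = 1 := odd_norm (by norm_num)
  push_cast at h5
  have h1 : ‖w - 6‖ = 1 := by
    have e : w - 6 = -(5 + (1 - w)) := by ring
    rw [e, norm_neg, eq_of_lt (by rw [h5]; exact h), h5]
  have h2 : (w - 6) * (w + 5) = -(2 ^ 5) := by linear_combination hw
  have h3 := congrArg norm h2
  rw [norm_mul, h1, one_mul, norm_neg, norm_pow, Pool.Agent.Y715.Gi.norm_two'] at h3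
  rw [h3]
  norm_num

lemma int_mul_le (a : ℤ) {x : PadicAlgCl 2} {r : ℝ} (h : ‖x‖ ≤ r) : ‖(a : PadicAlgCl 2) * x‖ ≤ r := by
  rw [norm_mul]
  have := IsUltrametricDist.norm_intCast_le_one (PadicAlgCl 2) a
  nlinarith [norm_nonneg (a : PadicAlgCl 2), norm_nonneg x]

end Mod8P

theorem t_MOD8 : S_MOD8 := by
  intro i₀ hi ι D h8
  have hom : em (iw hi ι) om = ι i₀ := by
    rw [em_apply]
    simp [om]
  have hs : em (iw hi ι) s7 = 2 * ι i₀ - 1 := by
    rw [em_apply]
    show ((-1 : ℤ) : PadicAlgCl 2) + ((2 : ℤ) : PadicAlgCl 2) * ι i₀ = _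
    push_cast
    ring
  obtain ⟨t, ht⟩ := h8
  have hP : D = 5 + 8 * t := by linear_combination ht
  have hPe : em (iw hi ι) D = 5 + 8 * em (iw hi ι) t := by
    rw [hP, map_add, map_mul, map_ofNat, map_ofNat]
  set w := ι i₀ with hwdef
  set T := em (iw hi ι) t with hT
  have hT1 : ‖T‖ ≤ 1 := em_le (iw hi ι) t
  have hs1 : ‖em (iw hi ι) s7‖ ≤ 1 := em_le (iw hi ι) s7
  have hsT : ‖em (iw hi ι) s7 * T‖ ≤ 1 := by
    rw [norm_mul]
    nlinarith [norm_nonneg (em (iw hi ι) s7), norm_nonneg T]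
  have h7 : ‖(7 : PadicAlgCl 2)‖ ≤ 1 := by
    have := IsUltrametricDist.norm_intCast_le_one (PadicAlgCl 2) 7
    push_cast at this
    exact this
  constructor
  · intro h
    rw [hom] at h
    have h1 := Mod8P.norm_sub_six (iw hi ι) h
    have e : em (iw hi ι) (-(s7 * D)) - 1 = (((-10 : ℤ) : PadicAlgCl 2) * (w - 6) - 8 * 7) -
        8 * (em (iw hi ι) s7 * T) := by
      rw [map_neg, map_mul, hPe, hs]
      push_cast
      ring
    rw [e]
    exact sub_le (sub_le (Mod8P.int_mul_le _ (by rw [h1]; norm_num)) (ModP.eight_mul_le h7))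
      (ModP.eight_mul_le hsT)
  · intro h
    rw [map_sub, map_one, hom] at h
    have h1 := Mod8P.norm_add_five (iw hi ι) h
    have e : em (iw hi ι) (s7 * D) - 1 = (((10 : ℤ) : PadicAlgCl 2) * (w + 5) - 8 * 7) +
        8 * (em (iw hi ι) s7 * T) := by
      rw [map_mul, hPe, hs]
      push_cast
      ring
    rw [e]
    exact add_le (sub_le (Mod8P.int_mul_le _ (by rw [h1]; norm_num)) (ModP.eight_mul_le h7))
      (ModP.eight_mul_le hsT)

theorem t_RED8 : S_RED8 := by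
  intro i₀ hi ι ϖ w8 hw8 w4 hw4 hϖ hs x
  refine ⟨?_, ?_⟩
  · intro h
    have hom : em (iw hi ι) om = ι i₀ := by
      rw [em_apply]
      simp [om]
    rw [em_apply] at h
    rcases hϖ with ⟨rfl, rfl, rfl⟩ | ⟨rfl, rfl, rfl⟩
    · rw [hom] at hs
      have h1 := Mod8P.norm_sub_six (iw hi ι) hs
      have h2 : ‖((x.re + 6 * x.im : ℤ) : PadicAlgCl 2)‖ ≤ 1 / 8 := by
        have e : ((x.re + 6 * x.im : ℤ) : PadicAlgCl 2) =
            ((x.re : PadicAlgCl 2) + (x.im : PadicAlgCl 2) * ι i₀) - (x.im : PadicAlgCl 2) * (ι i₀ - 6) := by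
          push_cast
          ring
        rw [e]
        exact sub_le h (Mod8P.int_mul_le _ (by rw [h1]; norm_num))
      have h3 := Mod8P.int_eight h2
      rw [em_apply]
      push_cast at h3
      rw [← h3]
      ring
    · rw [map_sub, map_one, hom] at hs
      have h1 := Mod8P.norm_add_five (iw hi ι) hs
      have h2 : ‖((x.re - 5 * x.im : ℤ) : PadicAlgCl 2)‖ ≤ 1 / 8 := by
        have e : ((x.re - 5 * x.im : ℤ) : PadicAlgCl 2) =
            ((x.re : PadicAlgCl 2) + (x.im : PadicAlgCl 2) * ι i₀) - (x.im : PadicAlgCl 2) * (ι i₀ + 5) := by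
          push_cast
          ring
        rw [e]
        exact sub_le h (Mod8P.int_mul_le _ (by rw [h1]; norm_num))
      have h3 := Mod8P.int_eight h2
      rw [em_apply]
      push_cast at h3
      have h31 : (3 : ZMod 8) = -5 := by decide
      rw [h31, ← h3]
      ring
  · intro h
    refine em_four (iw hi ι) hw4 ?_ hs h
    rcases hϖ with ⟨h1, -, h2⟩ | ⟨h1, -, h2⟩
    · exact Or.inl ⟨h1, h2⟩
    · exact Or.inr ⟨h1, h2⟩

end Pool.Agent.NH57.BG
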