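import Pool.Agent.NH57.BL.Gal2
import Pool.Agent.NH57.BL.Mod8

/-!
# Project BL: sizes at the two places above two, all classes (BL-31)
-/

set_option autoImplicit false
set_option linter.unusedVariables false

namespace Pool.Agent.NH57.BH

open Pool.Agent.R384
open Pool.Agent.NH57.BK
open Pool.Agent.NH57.BG (e6 e3 S_SUPO S_RED8 S_VAL8 Fre8 S_FRE8)
open Pool.Agent.Y676.IS (Cu)
open Pool.Agent.Y715.Red Pool.Agent.Y715.Nr Pool.Agent.W237.RK
open Pool.Agent.Y715.Gi (QB KK GK)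
open Pool.Agent.Y715.Df (Cmp)

open scoped Classical

namespace ModGP

/-- the residue of `1 + 4 t` modulo `8` -/
lemma five_iff (w8 : ZMod 8) (hw8 : w8 ^ 2 = w8 - 2) (k : ℤ) (hk : w8 = (k : ZMod 8)) (t : OO) :
    em hw8 (1 + 4 * t) = 5 ↔ (t.re + k * t.im) % 2 = 1 := by
  have e : em hw8 (1 + 4 * t) = ((1 + 4 * (t.re + k * t.im) : ℤ) : ZMod 8) := by
    rw [map_add, map_mul, map_one, map_ofNat, em_apply, hk]
    push_cast
    ring
  have e5 : (5 : ZMod 8) = ((5 : ℤ) : ZMod 8) := by norm_num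
  rw [e, e5, ZMod.intCast_eq_intCast_iff_dvd_sub]
  constructor
  · rintro ⟨c, hc⟩
    push_cast at hc
    omega
  · intro h
    refine ⟨(1 - (t.re + k * t.im)) / 2, ?_⟩
    push_cast
    omega

lemma four_le_one {T : PadicAlgCl 2} (hT : ‖T‖ ≤ 1) : ‖(1 : PadicAlgCl 2) + 4 * T‖ ≤ 1 := by
  refine add_le (by rw [norm_one]) ?_
  rw [norm_mul, norm_four']
  linarith

/-- the computation of the product modulo `8` -/
lemma core {A T : PadicAlgCl 2} (hA : ‖A‖ ≤ 1 / 8) (hT : ‖T‖ ≤ 1) :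
    (‖T - 1‖ ≤ 1 / 2 → ‖(5 + A) * (1 + 4 * T) - 1‖ ≤ 1 / 8) ∧
    (‖T‖ ≤ 1 / 2 → ‖(5 + A) * (1 + 4 * T) - 5‖ ≤ 1 / 8) := by
  have h3 : ‖(3 : PadicAlgCl 2)‖ ≤ 1 := by
    have := IsUltrametricDist.norm_intCast_le_one (PadicAlgCl 2) 3
    push_cast at this
    exact this
  have hAT : ‖A * (1 + 4 * T)‖ ≤ 1 / 8 := by
    rw [norm_mul]
    nlinarith [norm_nonneg A, norm_nonneg ((1 : PadicAlgCl 2) + 4 * T), four_le_one hT]
  constructor
  · intro h
    have e : (5 + A) * (1 + 4 * T) - 1 = (8 * 3 + ((5 : ℤ) : PadicAlgCl 2) * (4 * (T - 1))) +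
        A * (1 + 4 * T) := by
      push_cast
      ring
    rw [e]
    exact add_le (add_le (ModP.eight_mul_le h3) (Pool.Agent.NH57.BG.Mod8P.int_mul_le _ (ModP.four_mul_le h))) hAT
  · intro h
    have e : (5 + A) * (1 + 4 * T) - 5 = ((5 : ℤ) : PadicAlgCl 2) * (4 * T) +
        A * (1 + 4 * T) := by
      push_cast
      ring
    rw [e]
    exact add_le (Pool.Agent.NH57.BG.Mod8P.int_mul_le _ (ModP.four_mul_le h)) hAT

lemma norm_sixteen_sub {x : PadicAlgCl 2} (hx : ‖x‖ ≤ 1 / 8) : ‖-16 + 2 * x‖ ≤ 1 / 8 := by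
  have e : (-16 : PadicAlgCl 2) + 2 * x = 8 * (-2) + ((2 : ℤ) : PadicAlgCl 2) * x := by
    push_cast
    ring
  rw [e]
  refine add_le (ModP.eight_mul_le ?_) (Pool.Agent.NH57.BG.Mod8P.int_mul_le _ hx)
  rw [norm_neg, Pool.Agent.Y715.Gi.norm_two']
  norm_num

end ModGP

theorem t_MODG : S_MODG := by
  intro i₀ hi ι D x y h4 hx hy
  have hom : em (iw hi ι) om = ι i₀ := by
    rw [em_apply]
    simp [om]
  have hs : em (iw hi ι) s7 = 2 * ι i₀ - 1 := by
    rw [em_apply]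
    show ((-1 : ℤ) : PadicAlgCl 2) + ((2 : ℤ) : PadicAlgCl 2) * ι i₀ = _
    push_cast
    ring
  obtain ⟨t, ht⟩ := h4
  have hP : D = 1 + 4 * t := by linear_combination ht
  have hPe : em (iw hi ι) D = 1 + 4 * em (iw hi ι) t := by
    rw [hP, map_add, map_mul, map_one, map_ofNat]
  have hT1 : ‖em (iw hi ι) t‖ ≤ 1 := em_le (iw hi ι) t
  rw [hP, ModGP.five_iff 6 e6 6 (by norm_num) t] at hx
  rw [hP, ModGP.five_iff 3 e3 3 (by norm_num) t] at hy
  have hm : ∀ (a : ℤ) {x : PadicAlgCl 2}, ‖x‖ ≤ 1 / 2 → ‖(a : PadicAlgCl 2) * x‖ ≤ 1 / 2 := fun a x h =>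
    Pool.Agent.NH57.BG.Mod8P.int_mul_le a h
  have z01 : ∀ z : ZMod 2, z = 0 ∨ z = 1 := by decide
  constructor
  · intro h
    rw [hom] at h
    have h1 := Pool.Agent.NH57.BG.Mod8P.norm_sub_six (iw hi ι) h
    have hhalf : ‖ι i₀‖ = 1 / 2 := half_norm (by linear_combination -(iw hi ι)) h
    have hA : ‖-16 + 2 * (-(ι i₀ - 6))‖ ≤ 1 / 8 :=
      ModGP.norm_sixteen_sub (by rw [norm_neg, h1]; norm_num)
    have e : em (iw hi ι) (-(s7 * D)) = (5 + (-16 + 2 * (-(ι i₀ - 6)))) * (1 + 4 * em (iw hi ι) t) := by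
      rw [map_neg, map_mul, hPe, hs]
      ring
    obtain ⟨hc1, hc2⟩ := ModGP.core hA hT1
    rw [← e] at hc1 hc2
    rcases z01 x with h0 | h0
    · right
      refine ⟨h0, hc2 ?_⟩
      have h5 : ¬ (t.re + 6 * t.im) % 2 = 1 := by
        rw [hx, h0]
        decide
      rw [em_apply]
      refine add_le (ModP.even_le ?_) (hm _ hhalf.le)
      rw [Int.even_iff]
      omega
    · left
      refine ⟨h0, hc1 ?_⟩
      have h5 : (t.re + 6 * t.im) % 2 = 1 := hx.2 h0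
      have e2 : em (iw hi ι) t - 1 = ((t.re - 1 : ℤ) : PadicAlgCl 2) + t.im * ι i₀ := by
        rw [em_apply]
        push_cast
        ring
      rw [e2]
      refine add_le (ModP.even_le ?_) (hm _ hhalf.le)
      rw [Int.even_iff]
      omega
  · intro h
    rw [map_sub, map_one, hom] at h
    have h1 := Pool.Agent.NH57.BG.Mod8P.norm_add_five (iw hi ι) h
    have hhalf : ‖1 - ι i₀‖ = 1 / 2 := half_norm (by linear_combination -(iw hi ι)) h
    have hA : ‖-16 + 2 * (ι i₀ + 5)‖ ≤ 1 / 8 :=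
      ModGP.norm_sixteen_sub (by rw [h1]; norm_num)
    have e : em (iw hi ι) (s7 * D) = (5 + (-16 + 2 * (ι i₀ + 5))) * (1 + 4 * em (iw hi ι) t) := by
      rw [map_mul, hPe, hs]
      ring
    obtain ⟨hc1, hc2⟩ := ModGP.core hA hT1
    rw [← e] at hc1 hc2
    rcases z01 y with h0 | h0
    · right
      refine ⟨h0, hc2 ?_⟩
      have h5 : ¬ (t.re + 3 * t.im) % 2 = 1 := by
        rw [hy, h0]
        decide
      have e2 : em (iw hi ι) t = ((t.re + t.im : ℤ) : PadicAlgCl 2) - t.im * (1 - ι i₀) := by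
        rw [em_apply]
        push_cast
        ring
      rw [e2]
      refine sub_le (ModP.even_le ?_) (hm _ hhalf.le)
      rw [Int.even_iff]
      omega
    · left
      refine ⟨h0, hc1 ?_⟩
      have h5 : (t.re + 3 * t.im) % 2 = 1 := hy.2 h0
      have e2 : em (iw hi ι) t - 1 = ((t.re + t.im - 1 : ℤ) : PadicAlgCl 2) - t.im * (1 - ι i₀) := by
        rw [em_apply]
        push_cast
        ring
      rw [e2]
      refine sub_le (ModP.even_le ?_) (hm _ hhalf.le)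
      rw [Int.even_iff]
      omega

end Pool.Agent.NH57.BH
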