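import Pool.Agent.NH57.BL.Gal2
import Pool.Agent.NH57.BK.Mq

/-! BL-38: the vanishing theorem over multiquadratic fields, all weights. -/

set_option autoImplicit false
set_option linter.unusedSectionVars false

namespace Pool.Agent.NH57.BH

open Pool.Agent.R384
open Pool.Agent.NH57.BK
open Pool.Agent.Y676.IS (Cu)
open Pool.Agent.Y715.Red Pool.Agent.Y715.Nr Pool.Agent.W237.RK
open Pool.Agent.Y715.Gi (QB KK GK)
open Pool.Agent.Y715.Df (Cmp)

open scoped Classical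

open Pool.Agent.NH57.BK.Mq78 in
theorem t_MQG : S_MQG := by
  intro hV i₀ hi κ κ' D r I n s E hE kd k8 hD hE0 hgood j ϖ' hϖ
  have hs0 : ∀ i, s i ≠ 0 := by
    intro i h
    have h1 := hE i
    rw [h, zero_pow two_ne_zero] at h1
    exact hE0 i (em_inj hi h1.symm)
  have hs : ∀ (i) (σ : GK i₀), σ (s i) = s i ∨ σ (s i) = -s i := fun i σ => rt_or hi (hE i) σ
  refine van_all hi hs0 hs ϖ' Finset.univ _ fun T _ => ?_
  obtain ⟨x, y, S', z, hgS, hz, hprod⟩ := hgood T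
  have kd1 := KD.twists hi hs0 hs hE kd hD hE0 T
  have hz0 : em hi z ≠ 0 := em_ne hi hz
  have kd2 := KD.resc hi kd1 (D' := -(s7 * ∏ q ∈ S', q)) (u := (em hi z)⁻¹) (inv_ne_zero hz0)
    (fun σ => by rw [map_inv₀, gk_em]) (by
      rw [mul_pow, kd1.hr, hprod, map_mul, map_pow]
      field_simp)
  have k82 : K8 (κ * ∏ i ∈ T, sgc (es (hs0 i) (hs i))) (κ' * ∏ i ∈ T, sgc (es (hs0 i) (hs i))) :=
    k8_tw k8 (prod_pm (fun i => es (hs0 i) (hs i)) T)
  set S := ∏ i ∈ T, sgc (es (hs0 i) (hs i)) with hS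
  have e : κ ^ j * κ' ^ (1 - j) * S = (κ * S) ^ j * (κ' * S) ^ (1 - j) := by
    refine MonoidHom.ext fun σ => ?_
    have key : ∀ a b c : ℤ_[2]ˣ, a ^ j * b ^ (1 - j) * c = (a * c) ^ j * (b * c) ^ (1 - j) :=
      fun a b c => by
        rw [mul_zpow, mul_zpow, mul_mul_mul_comm, ← zpow_add, add_sub_cancel, zpow_one]
    exact key _ _ _
  intro c hc hodd hstr
  rw [e] at hc hodd hstr ⊢
  obtain ⟨y', hy⟩ := hV hi hgS kd2 k82 j hϖ
    (c := c) ⟨by
      have := hc.cont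
      rwa [Subgroup.coe_top, continuousOn_univ] at this, fun σ τ => hc.mul σ trivial τ trivial⟩
    (fun p _ ι hp => by
      obtain ⟨y, hy⟩ := hodd p ι hp
      exact ⟨y, fun σ hσ => hy σ hσ trivial⟩)
    (fun ι hι => by
      obtain ⟨y, hy⟩ := hstr ι hι
      exact ⟨y, fun σ hσ => hy σ hσ trivial⟩)
  exact ⟨y', fun σ _ => hy σ⟩

end Pool.Agent.NH57.BH
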