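import Pool.Agent.NH57.BL.Gal2
import Pool.Agent.NH57.BK.Str

/-!
# BL-32: the local condition at the strict place, where `-m` is `1` or `5` modulo `8` (helper72)
-/

set_option autoImplicit false
set_option linter.unusedSectionVars false

namespace Pool.Agent.NH57.BH

open Pool.Agent.R384
open Pool.Agent.NH57.BK
open Pool.Agent.Y676.IS (Cu)
open Pool.Agent.Y715.Red Pool.Agent.Y715.Nr Pool.Agent.W237.RK
open Pool.Agent.Y715.Gi (QB KK GK)
open Pool.Agent.Y715.Df (Cmp)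

open scoped Classical

namespace StrG

lemma norm_one_of1 {x : PadicAlgCl 2} (h : ‖x - 1‖ ≤ 1 / 8) : ‖x‖ = 1 := by
  have h2 : ‖((1 : ℤ) : PadicAlgCl 2)‖ = 1 := odd_norm (by norm_num)
  push_cast at h2
  have e : x = 1 + (x - 1) := by ring
  rw [e, eq_of_lt, h2]
  rw [h2]
  linarith

lemma norm_one_of15 {x : PadicAlgCl 2} (h : M15 x) : ‖x‖ = 1 := by
  rcases h with h | h
  · exact norm_one_of1 h
  · exact norm_one_of5 h

variable {i₀ : QB} (hi : i₀ ^ 2 = i₀ - 2)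

/-- there is an element of the decomposition group that moves `√m`, if `-m` is `1` or `5` modulo `8` -/
lemma exists_dec {m : OO} {r : QB} (hr : r ^ 2 = em hi m) (ι : QB →ₐ[ℚ] PadicAlgCl 2)
    (h15 : M15 (em (iw hi ι) (-m))) : ∃ σ ∈ (DD ι : Set (GK i₀)), σ r = -r := by
  by_contra hcon
  push Not at hcon
  have hfix : ∀ τ : Au 2, τ (ι r) = ι r := by
    intro τ
    refine fix_D (fun σ hσ => ?_) τ (two_fix (iw hi ι) τ)
    rcases rt_or hi hr σ with h | h
    · exact h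
    · exact absurd h (hcon σ hσ)
  have h1 : (ι r) ^ 2 = em (iw hi ι) m := by rw [← map_pow, hr, ι_em]
  have h2 : ‖ι r‖ = 1 := by
    have h3 := norm_one_of15 h15
    rw [map_neg, norm_neg, ← h1, norm_pow] at h3
    exact (pow_eq_one_iff_of_nonneg (norm_nonneg _) two_ne_zero).1 h3
  have h3 := sq_mod_eight h2 hfix
  rw [h1] at h3
  rcases h15 with h15 | h15
  · have h6 : ‖((-2 : ℤ) : PadicAlgCl 2)‖ ≤ 1 / 8 := by
      have e : ((-2 : ℤ) : PadicAlgCl 2) =
          (em (iw hi ι) m - 1) + (em (iw hi ι) (-m) - 1) := by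
        rw [map_neg]
        push_cast
        ring
      rw [e]
      exact add_le h3 h15
    rw [even_norm (z := -2) (k := -1) (n := 1) (by norm_num) (by decide)] at h6
    norm_num at h6
  · have h6 : ‖((-6 : ℤ) : PadicAlgCl 2)‖ ≤ 1 / 8 := by
      have e : ((-6 : ℤ) : PadicAlgCl 2) =
          (em (iw hi ι) m - 1) + (em (iw hi ι) (-m) - 5) := by
        rw [map_neg]
        push_cast
        ring
      rw [e]
      exact add_le h3 h15
    rw [even_norm (z := -6) (k := -3) (n := 1) (by norm_num) (by decide)] at h6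
    norm_num at h6

end StrG

theorem t_STRG : S_STRG := by
  intro i₀ hi χ m r ϖ₀ ϖ hP cd ι hι h15 c hc1 hD δ s hδ hs hk
  have hϖ : Prime ϖ := by
    rcases hP with ⟨-, rfl⟩ | ⟨-, rfl⟩
    · exact prime_om'
    · exact prime_om
  obtain ⟨σ₀, h0, h2⟩ := StrG.exists_dec hi cd.hr ι h15
  have hm1 : ‖em (iw hi ι) m‖ = 1 := by
    have := StrG.norm_one_of15 h15
    rwa [map_neg, norm_neg] at this
  have hϖm : ¬ ϖ ∣ m := by
    rw [dvd_iff (iw hi ι) hϖ hι, hm1]
    exact lt_irrefl _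
  have hsq : (ι s) ^ 2 = em (iw hi ι) δ := by rw [← map_pow, hs, ι_em]
  have key : ∀ {x : OO} {y : PadicAlgCl 2}, y ^ 2 = em (iw hi ι) x → ¬ ϖ ∣ x →
      (∀ τ : Au 2, τ y = y) → ‖em (iw hi ι) x - 1‖ ≤ 1 / 8 := by
    intro x y hy hx hfix
    have h3 := eq_one_of_not_lt (iw hi ι) ((dvd_iff (iw hi ι) hϖ hι x).not.1 hx)
    rw [← hy, norm_pow] at h3
    rw [← hy]
    exact sq_mod_eight ((pow_eq_one_iff_of_nonneg (norm_nonneg _) two_ne_zero).1 h3) hfix
  rcases loc_dich hi cd hc1 hD h0 h2 hs hk with h | h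
  · have h3 := not_dvd_of_fix (iw hi ι) hϖ hι hδ hsq fun τ _ hτ => fix_D h τ hτ
    exact Or.inl (key hsq h3 fun τ => fix_D h τ (two_fix (iw hi ι) τ))
  · have hsr : (ι (s * r)) ^ 2 = em (iw hi ι) (δ * m) := by
      rw [← map_pow, mul_pow, hs, cd.hr, ← map_mul, ι_em]
    have h3 : ¬ ϖ ∣ δ := by
      rintro ⟨t, ht⟩
      have h4 : ¬ ϖ ∣ t := by
        rintro ⟨v, rfl⟩
        exact hϖ.not_isUnit (hδ ϖ ⟨v, by rw [ht]; ring⟩)
      refine no_simple (iw hi ι) hϖ hι (t := t * m) (s := ι (s * r))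
        (fun h => (hϖ.dvd_or_dvd h).elim h4 hϖm) ?_ fun τ _ hτ => fix_D h τ hτ
      rw [hsr, ht]
      congr 1
      ring
    exact Or.inr (key hsr (fun h => (hϖ.dvd_or_dvd h).elim h3 hϖm)
      fun τ => fix_D h τ (two_fix (iw hi ι) τ))

end Pool.Agent.NH57.BH
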