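import Pool.Agent.NH57.BL.Gal
import Pool.Agent.NH57.BK.Val

/-!
# Sums of two squares in `ℚ_2` (helper51)
-/

set_option autoImplicit false
set_option linter.unusedVariables false

namespace Pool.Agent.NH57.BG

open Pool.Agent.R384
open Pool.Agent.NH57.BK
open Pool.Agent.Y715.Red Pool.Agent.Y715.Nr Pool.Agent.W237.RK

namespace Val8

/-- `1` modulo four up to a power of two -/
def Qo (w : PadicAlgCl 2) : Prop := ∃ k : ℤ, ‖w / (2 : PadicAlgCl 2) ^ k - 1‖ ≤ 1 / 4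

lemma nm {a : PadicAlgCl 2} (h : ‖a - 1‖ ≤ 1 / 4) : ‖a‖ = 1 := by
  have e : a = 1 + (a - 1) := by ring
  rw [e, eq_of_lt, norm_one]
  rw [norm_one]
  linarith

lemma mul1 {a b : PadicAlgCl 2} (ha : ‖a - 1‖ ≤ 1 / 4) (hb : ‖b - 1‖ ≤ 1 / 4) :
    ‖a * b - 1‖ ≤ 1 / 4 := by
  have e : a * b - 1 = a * (b - 1) - (1 - a) := by ring
  rw [e]
  refine sub_le ?_ ?_
  · rw [norm_mul, nm ha, one_mul]
    exact hb
  · rw [norm_sub_rev]
    exact ha

lemma inv1 {a : PadicAlgCl 2} (ha : ‖a - 1‖ ≤ 1 / 4) : ‖a⁻¹ - 1‖ ≤ 1 / 4 := by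
  have h0 : a ≠ 0 := by
    rintro rfl
    have := nm ha
    rw [norm_zero] at this
    exact zero_ne_one this
  have e : a⁻¹ - 1 = (1 - a) / a := by field_simp
  rw [e, norm_div, nm ha, div_one, norm_sub_rev]
  exact ha

lemma Qo.mul {v w : PadicAlgCl 2} (hv : Qo v) (hw : Qo w) : Qo (v * w) := by
  obtain ⟨k, hk⟩ := hv
  obtain ⟨l, hl⟩ := hw
  refine ⟨k + l, ?_⟩
  have e : v * w / (2 : PadicAlgCl 2) ^ (k + l) = v / 2 ^ k * (w / 2 ^ l) := by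
    rw [zpow_add₀ two_ne_zero, div_mul_div_comm]
  rw [e]
  exact mul1 hk hl

lemma Qo.inv {v : PadicAlgCl 2} (hv : Qo v) : Qo v⁻¹ := by
  obtain ⟨k, hk⟩ := hv
  refine ⟨-k, ?_⟩
  have e : v⁻¹ / (2 : PadicAlgCl 2) ^ (-k) = (v / 2 ^ k)⁻¹ := by
    rw [zpow_neg, div_inv_eq_mul, inv_div, div_eq_mul_inv, mul_comm]
  rw [e]
  exact inv1 hk

lemma nt : ‖(2 : PadicAlgCl 2)‖ = 1 / 2 := by
  rw [Pool.Agent.Y715.Gi.norm_two', one_div]

lemma Qo.sq {w : PadicAlgCl 2} (hw : w ≠ 0) (h : ∀ τ : Au 2, τ w = w) : Qo (w ^ 2) := by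
  obtain ⟨k, hk⟩ := norm_fix hw h
  refine ⟨-(2 * k), ?_⟩
  have h1 : ‖w * (2 : PadicAlgCl 2) ^ k‖ = 1 := by
    rw [norm_mul, norm_zpow, nt, hk, ← mul_zpow]
    norm_num
  have h2 := sq_mod_eight h1 (fun τ => by rw [map_mul, map_zpow₀, map_ofNat, h])
  have e : w ^ 2 / (2 : PadicAlgCl 2) ^ (-(2 * k)) = (w * (2 : PadicAlgCl 2) ^ k) ^ 2 := by
    rw [zpow_neg, div_inv_eq_mul, mul_pow, mul_comm (2 : ℤ) k, zpow_mul]
    norm_cast
  rw [e]
  linarith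

lemma Qo.sum' {A B : PadicAlgCl 2} (hA : A ≠ 0) (hAf : ∀ τ : Au 2, τ A = A)
    (hBf : ∀ τ : Au 2, τ B = B) (hle : ‖B‖ ≤ ‖A‖) : Qo (A ^ 2 + B ^ 2) := by
  have hA0 : ‖A‖ ≠ 0 := norm_ne_zero_iff.2 hA
  have hf : ∀ τ : Au 2, τ (B / A) = B / A := fun τ => by rw [map_div₀, hAf, hBf]
  have e : A ^ 2 + B ^ 2 = A ^ 2 * (1 + (B / A) ^ 2) := by
    field_simp
  rw [e]
  refine (Qo.sq hA hAf).mul ?_
  rcases hle.lt_or_eq with hlt | heq
  · refine ⟨0, ?_⟩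
    rw [zpow_zero, div_one, add_sub_cancel_left, norm_pow]
    by_cases hB : B / A = 0
    · rw [hB, norm_zero]
      norm_num
    · obtain ⟨k, hk⟩ := norm_fix hB hf
      have h1 : ‖B / A‖ < 1 := by
        rw [norm_div, div_lt_one (lt_of_le_of_ne (norm_nonneg _) hA0.symm)]
        exact hlt
      have h2 : k < 0 := by
        rw [hk] at h1
        by_contra hc
        exact absurd h1 (not_lt.2 (one_le_zpow₀ (by norm_num) (not_lt.1 hc)))
      have h3 : ‖B / A‖ ≤ 1 / 2 := by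
        rw [hk]
        have : (2 : ℝ) ^ k ≤ 2 ^ (-1 : ℤ) := zpow_le_zpow_right₀ (by norm_num) (by omega)
        refine this.trans ?_
        norm_num
      calc ‖B / A‖ ^ 2 ≤ (1 / 2) ^ 2 := pow_le_pow_left₀ (norm_nonneg _) h3 2
        _ = 1 / 4 := by norm_num
  · refine ⟨1, ?_⟩
    have h1 : ‖B / A‖ = 1 := by rw [norm_div, heq, div_self hA0]
    have h2 := sq_mod_eight h1 hf
    have e : (1 + (B / A) ^ 2) / (2 : PadicAlgCl 2) ^ (1 : ℤ) - 1 = ((B / A) ^ 2 - 1) / 2 := by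
      rw [zpow_one]
      ring
    rw [e, norm_div, nt]
    linarith

lemma Qo.sum {A B : PadicAlgCl 2} (h : ¬ (A = 0 ∧ B = 0)) (hAf : ∀ τ : Au 2, τ A = A)
    (hBf : ∀ τ : Au 2, τ B = B) : Qo (A ^ 2 + B ^ 2) := by
  rcases le_total ‖B‖ ‖A‖ with hle | hle
  · refine Qo.sum' ?_ hAf hBf hle
    rintro rfl
    rw [norm_zero] at hle
    exact h ⟨rfl, norm_eq_zero.1 (le_antisymm hle (norm_nonneg _))⟩
  · rw [add_comm]
    refine Qo.sum' ?_ hBf hAf hle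
    rintro rfl
    rw [norm_zero] at hle
    exact h ⟨norm_eq_zero.1 (le_antisymm hle (norm_nonneg _)), rfl⟩

end Val8

open Val8 in
/-- **BL-3** -/
theorem t_VAL8 : S_VAL8 := by
  intro i x x' y e hi he hx hx' h1 h2 hef hyf hmul
  have hi0 : i ≠ 0 := by
    rintro rfl
    norm_num at hi
  have hor : ∀ τ : Au 2, τ i = i ∨ τ i = -i := by
    intro τ
    have h3 : (τ i) ^ 2 = i ^ 2 := by rw [← map_pow, hi, map_neg, map_one]
    exact sq_eq_sq_iff_eq_or_eq_neg.1 h3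
  have hni : ¬ ∀ τ : Au 2, τ i = i := by
    intro hall
    have h3 : ‖i‖ = 1 := by
      have h4 : ‖i‖ ^ 2 = 1 := by rw [← norm_pow, hi, norm_neg, norm_one]
      exact (pow_eq_one_iff_of_nonneg (norm_nonneg _) two_ne_zero).1 h4
    have h4 := sq_mod_eight h3 hall
    have e1 : i ^ 2 - 1 = -2 := by rw [hi]; norm_num
    rw [e1, norm_neg, nt] at h4
    norm_num at h4
  push Not at hni
  obtain ⟨t, ht⟩ := hni
  have hti : t i = -i := (hor t).resolve_left ht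
  have htx : t x = x' := h2 t hti
  have hc1 : ∀ τ : Au 2, τ i = i → τ x' = x' := by
    intro τ h3
    have h4 := h2 (τ * t) (by rw [AlgEquiv.mul_apply, hti, map_neg, h3])
    rwa [AlgEquiv.mul_apply, htx] at h4
  have hc2 : ∀ τ : Au 2, τ i = -i → τ x' = x := by
    intro τ h3
    have h4 := h1 (τ * t) (by rw [AlgEquiv.mul_apply, hti, map_neg, h3, neg_neg])
    rwa [AlgEquiv.mul_apply, htx] at h4
  obtain ⟨A, hAdef⟩ : ∃ A, A = (x + x') / 2 := ⟨_, rfl⟩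
  obtain ⟨B, hBdef⟩ : ∃ B, B = (x - x') / (2 * i) := ⟨_, rfl⟩
  have hA : ∀ τ : Au 2, τ A = A := by
    intro τ
    rw [hAdef, map_div₀, map_add, map_ofNat]
    rcases hor τ with h3 | h3
    · rw [h1 τ h3, hc1 τ h3]
    · rw [h2 τ h3, hc2 τ h3, add_comm]
  have hB : ∀ τ : Au 2, τ B = B := by
    intro τ
    rw [hBdef, map_div₀, map_sub, map_mul, map_ofNat]
    rcases hor τ with h3 | h3
    · rw [h1 τ h3, hc1 τ h3, h3]
    · rw [h2 τ h3, hc2 τ h3, h3]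
      have e : (2 : PadicAlgCl 2) * -i = -(2 * i) := by ring
      rw [e, div_neg, ← neg_div, neg_sub]
  have hxx : x * x' = A ^ 2 + B ^ 2 := by
    rw [hAdef, hBdef, div_pow, div_pow, mul_pow, hi]
    ring
  have hne : A ^ 2 + B ^ 2 ≠ 0 := by
    rw [← hxx]
    exact mul_ne_zero hx hx'
  have hAB : ¬ (A = 0 ∧ B = 0) := by
    rintro ⟨rfl, rfl⟩
    exact hne (by norm_num)
  have hy : y ≠ 0 := by
    rintro rfl
    rw [hxx] at hmul
    exact mul_ne_zero he hne (by rw [hmul]; norm_num)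
  have he' : e = y ^ 2 * (A ^ 2 + B ^ 2)⁻¹ := by
    rw [← hmul, hxx, mul_assoc, mul_inv_cancel₀ hne, mul_one]
  rw [he']
  exact (Qo.sq hy hyf).mul (Qo.sum hAB hA hB).inv

end Pool.Agent.NH57.BG
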