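import Pool.Agent.NH57.BL.Gal2
import Pool.Agent.NH57.BK.Val

/-!
# Norms from `ℚ_2(√3)`
-/

set_option autoImplicit false
set_option linter.unusedVariables false

namespace Pool.Agent.NH57.BH

open Pool.Agent.R384
open Pool.Agent.NH57.BK
open Pool.Agent.Y715.Red Pool.Agent.Y715.Nr Pool.Agent.W237.RK

namespace ValG

/-- `1` modulo `4`, up to a power of `-2` -/
def P (z : PadicAlgCl 2) : Prop := ∃ k : ℤ, ‖z / (-2 : PadicAlgCl 2) ^ k - 1‖ ≤ 1 / 4

lemma two0 : (-2 : PadicAlgCl 2) ≠ 0 := neg_ne_zero.2 two_ne_zero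

lemma p_mul {z w : PadicAlgCl 2} (hz : P z) (hw : P w) : P (z * w) := by
  obtain ⟨k, hk⟩ := hz
  obtain ⟨l, hl⟩ := hw
  refine ⟨k + l, ?_⟩
  rw [zpow_add₀ two0]
  have e : z * w / ((-2 : PadicAlgCl 2) ^ k * (-2 : PadicAlgCl 2) ^ l) - 1 =
      (z / (-2 : PadicAlgCl 2) ^ k - 1) * (w / (-2 : PadicAlgCl 2) ^ l - 1) +
      ((z / (-2 : PadicAlgCl 2) ^ k - 1) + (w / (-2 : PadicAlgCl 2) ^ l - 1)) := by
    rw [mul_div_mul_comm]
    ring
  rw [e]
  refine add_le ?_ (add_le hk hl)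
  rw [norm_mul]
  calc _ ≤ (1 / 4 : ℝ) * (1 / 4) := mul_le_mul hk hl (norm_nonneg _) (by norm_num)
    _ ≤ 1 / 4 := by norm_num

lemma norm_one_add {b : PadicAlgCl 2} (hb : ‖b‖ ≤ 1 / 4) : ‖1 + b‖ = 1 := by
  rw [eq_of_lt, norm_one]
  rw [norm_one]
  linarith

lemma p_div {z w : PadicAlgCl 2} (hz : P z) (hw : P w) : P (z / w) := by
  obtain ⟨k, hk⟩ := hz
  obtain ⟨l, hl⟩ := hw
  refine ⟨k - l, ?_⟩
  obtain ⟨b, hb⟩ : ∃ b, b = w / (-2 : PadicAlgCl 2) ^ l - 1 := ⟨_, rfl⟩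
  obtain ⟨a, ha⟩ : ∃ a, a = z / (-2 : PadicAlgCl 2) ^ k - 1 := ⟨_, rfl⟩
  have hkn : (-2 : PadicAlgCl 2) ^ k ≠ 0 := zpow_ne_zero _ two0
  have hln : (-2 : PadicAlgCl 2) ^ l ≠ 0 := zpow_ne_zero _ two0
  have hz' : z = (1 + a) * (-2 : PadicAlgCl 2) ^ k := by
    rw [ha]
    field_simp
    ring
  have hw' : w = (1 + b) * (-2 : PadicAlgCl 2) ^ l := by
    rw [hb]
    field_simp
    ring
  rw [← ha] at hk
  rw [← hb] at hl
  have h1 := norm_one_add hl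
  have h0 : (1 : PadicAlgCl 2) + b ≠ 0 := by
    intro h
    rw [h, norm_zero] at h1
    exact zero_ne_one h1
  have e : z / w / (-2 : PadicAlgCl 2) ^ (k - l) - 1 = (a - b) / (1 + b) := by
    rw [hz', hw', zpow_sub₀ two0]
    field_simp
    ring
  rw [e, norm_div, h1, div_one]
  exact sub_le hk hl

lemma p_sq {y : PadicAlgCl 2} (hy : y ≠ 0) (h : ∀ τ : Au 2, τ y = y) : P (y ^ 2) := by
  obtain ⟨k, hk⟩ := norm_fix hy h
  refine ⟨-2 * k, ?_⟩
  have h20 : (2 : PadicAlgCl 2) ≠ 0 := two_ne_zero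
  have e1 : (-2 : PadicAlgCl 2) ^ (-2 * k) = ((2 : PadicAlgCl 2) ^ (-k)) ^ 2 := by
    have h2 : -2 * k = 2 * (-k) := by ring
    have h3 : (-k) * ((2 : ℕ) : ℤ) = 2 * (-k) := by
      push_cast
      ring
    rw [← zpow_natCast ((2 : PadicAlgCl 2) ^ (-k)) 2, ← zpow_mul, h2, h3, zpow_mul, zpow_mul]
    congr 1
    norm_num
  rw [e1, ← div_pow]
  have h1 : ‖y / (2 : PadicAlgCl 2) ^ (-k)‖ = 1 := by
    rw [norm_div, hk, norm_zpow, Pool.Agent.Y715.Gi.norm_two', inv_zpow, ← zpow_neg, neg_neg, div_self]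
    positivity
  have h2 := sq_mod_eight h1 (fun τ => by rw [map_div₀, h, map_zpow₀, map_ofNat])
  linarith

/-- the fixed elements of norm less than one -/
lemma small {t : PadicAlgCl 2} (h : ∀ τ : Au 2, τ t = t) (ht : ‖t‖ < 1) : ‖t ^ 2‖ ≤ 1 / 4 := by
  by_cases h0 : t = 0
  · rw [h0]
    norm_num
  obtain ⟨k, hk⟩ := norm_fix h0 h
  have h1 : k < 0 := by
    by_contra hcon
    push Not at hcon
    have : (1 : ℝ) ≤ (2 : ℝ) ^ k := one_le_zpow₀ (by norm_num) hcon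
    rw [hk] at ht
    linarith
  have h2 : ‖t‖ ≤ 1 / 2 := by
    rw [hk]
    calc (2 : ℝ) ^ k ≤ (2 : ℝ) ^ (-1 : ℤ) := zpow_le_zpow_right₀ (by norm_num) (by omega)
      _ = 1 / 2 := by norm_num
  rw [norm_pow]
  calc ‖t‖ ^ 2 ≤ (1 / 2) ^ 2 := pow_le_pow_left₀ (norm_nonneg _) h2 2
    _ = 1 / 4 := by norm_num

lemma norm_eight : ‖(8 : PadicAlgCl 2)‖ = 1 / 8 := by
  have e : (8 : PadicAlgCl 2) = 2 ^ 3 := by norm_num
  rw [e, norm_pow, Pool.Agent.Y715.Gi.norm_two']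
  norm_num

lemma norm_four : ‖(4 : PadicAlgCl 2)‖ = 1 / 4 := by
  have e : (4 : PadicAlgCl 2) = 2 ^ 2 := by norm_num
  rw [e, norm_pow, Pool.Agent.Y715.Gi.norm_two']
  norm_num

lemma norm_n {n : PadicAlgCl 2} (hn : ‖n + 5‖ ≤ 1 / 8) : ‖n‖ ≤ 1 := by
  have e : n = (n + 5) - 5 := by ring
  rw [e]
  refine sub_le (hn.trans (by norm_num)) ?_
  have : ‖((5 : ℤ) : PadicAlgCl 2)‖ ≤ 1 := by
    have h1 : ((5 : ℤ) : PadicAlgCl 2) = 1 + 2 ^ 2 := by norm_num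
    rw [h1]
    refine add_le (by rw [norm_one]) ?_
    rw [norm_pow, Pool.Agent.Y715.Gi.norm_two']
    norm_num
  simpa using this

lemma p_norm {A B n : PadicAlgCl 2} (hA : ∀ τ : Au 2, τ A = A) (hB : ∀ τ : Au 2, τ B = B)
    (hn : ‖n + 5‖ ≤ 1 / 8) (h0 : A ^ 2 - n * B ^ 2 ≠ 0) : P (A ^ 2 - n * B ^ 2) := by
  rcases le_or_gt ‖B‖ ‖A‖ with hle | hgt
  · have hA0 : A ≠ 0 := by
      rintro rfl
      rw [norm_zero] at hle
      have : B = 0 := norm_le_zero_iff.1 hle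
      apply h0
      rw [this]
      ring
    obtain ⟨t, ht⟩ : ∃ t, t = B / A := ⟨_, rfl⟩
    have htf : ∀ τ : Au 2, τ t = t := fun τ => by rw [ht, map_div₀, hA, hB]
    have e : A ^ 2 - n * B ^ 2 = A ^ 2 * (1 - n * t ^ 2) := by
      rw [ht]
      field_simp
    have hA0' : 0 < ‖A‖ := norm_pos_iff.2 hA0
    have ht1 : ‖t‖ ≤ 1 := by
      rw [ht, norm_div, div_le_one hA0']
      exact hle
    rw [e]
    refine p_mul (p_sq hA0 hA) ?_
    rcases lt_or_eq_of_le ht1 with hlt | heq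
    · refine ⟨0, ?_⟩
      rw [zpow_zero, div_one]
      have e2 : 1 - n * t ^ 2 - 1 = -(n * t ^ 2) := by ring
      rw [e2, norm_neg, norm_mul]
      calc ‖n‖ * ‖t ^ 2‖ ≤ 1 * (1 / 4) :=
            mul_le_mul (norm_n hn) (small htf hlt) (norm_nonneg _) (by norm_num)
        _ = 1 / 4 := one_mul _
    · refine ⟨1, ?_⟩
      have h2 := sq_mod_eight heq htf
      have e2 : (1 - n * t ^ 2) / (-2 : PadicAlgCl 2) ^ (1 : ℤ) - 1 =
          -(8 + 5 * (t ^ 2 - 1) - (n + 5) * t ^ 2) / 2 := by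
        rw [zpow_one]
        field_simp
        ring
      have h3 : ‖8 + 5 * (t ^ 2 - 1) - (n + 5) * t ^ 2‖ ≤ 1 / 8 := by
        refine sub_le (add_le norm_eight.le ?_) ?_
        · rw [norm_mul]
          have h5 : ‖(5 : PadicAlgCl 2)‖ ≤ 1 := by
            have h1 : (5 : PadicAlgCl 2) = 1 + 2 ^ 2 := by norm_num
            rw [h1]
            refine add_le (by rw [norm_one]) ?_
            rw [norm_pow, Pool.Agent.Y715.Gi.norm_two']
            norm_num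
          calc _ ≤ (1 : ℝ) * (1 / 8) := mul_le_mul h5 h2 (norm_nonneg _) (by norm_num)
            _ = 1 / 8 := one_mul _
        · rw [norm_mul, norm_pow, heq, one_pow, mul_one]
          exact hn
      rw [e2, norm_div, norm_neg, Pool.Agent.Y715.Gi.norm_two']
      calc _ ≤ (1 / 8 : ℝ) / 2⁻¹ := by gcongr
        _ = 1 / 4 := by norm_num
  · have hB0 : B ≠ 0 := by
      rintro rfl
      rw [norm_zero] at hgt
      exact absurd hgt (not_lt.2 (norm_nonneg _))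
    obtain ⟨t, ht⟩ : ∃ t, t = A / B := ⟨_, rfl⟩
    have htf : ∀ τ : Au 2, τ t = t := fun τ => by rw [ht, map_div₀, hA, hB]
    have e : A ^ 2 - n * B ^ 2 = B ^ 2 * (t ^ 2 - n) := by
      rw [ht]
      field_simp
    have hB0' : 0 < ‖B‖ := norm_pos_iff.2 hB0
    have ht1 : ‖t‖ < 1 := by
      rw [ht, norm_div, div_lt_one hB0']
      exact hgt
    rw [e]
    refine p_mul (p_sq hB0 hB) ⟨0, ?_⟩
    rw [zpow_zero, div_one]
    have e2 : t ^ 2 - n - 1 = t ^ 2 - ((n + 5) - 4) := by ring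
    rw [e2]
    exact sub_le (small htf ht1) (sub_le (hn.trans (by norm_num)) norm_four.le)

end ValG

open ValG

theorem t_VALG : S_VALG := by
  intro v x x' y e hv h5 he hx hx' hfix hfix' hee hyy hy
  have hor : ∀ τ : Au 2, τ v = v ∨ τ v = -v := by
    intro τ
    have h1 : (τ v) ^ 2 = v ^ 2 := by rw [← map_pow, hv]
    exact sq_eq_sq_iff_eq_or_eq_neg.1 h1
  have hv1 : ‖v‖ = 1 := by
    have h3 : ‖v ^ 2‖ = 1 := by
      have e1 : v ^ 2 = -1 + (-4 + (v ^ 2 + 5)) := by ring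
      rw [e1, eq_of_lt, norm_neg, norm_one]
      rw [norm_neg, norm_one]
      refine lt_of_le_of_lt (add_le ?_ (h5.trans (by norm_num : (1 / 8 : ℝ) ≤ 1 / 4))) (by norm_num)
      rw [norm_neg]
      exact norm_four.le
    rw [norm_pow] at h3
    exact (pow_eq_one_iff_of_nonneg (norm_nonneg _) two_ne_zero).1 h3
  have hv0 : v ≠ 0 := by
    rintro rfl
    rw [norm_zero] at hv1
    exact zero_ne_one hv1
  obtain ⟨t, htv⟩ : ∃ t : Au 2, t v = -v := by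
    by_contra hcon
    push Not at hcon
    have hall : ∀ τ : Au 2, τ v = v := fun τ => (hor τ).resolve_right (hcon τ)
    have h2 := sq_mod_eight hv1 hall
    have h3 : ‖(6 : PadicAlgCl 2)‖ ≤ 1 / 8 := by
      have e1 : (6 : PadicAlgCl 2) = (v ^ 2 + 5) - (v ^ 2 - 1) := by ring
      rw [e1]
      exact sub_le h5 h2
    have h4 : ‖(6 : PadicAlgCl 2)‖ = 1 / 2 := by
      have e1 : (6 : PadicAlgCl 2) = 2 + 4 := by norm_num
      rw [e1, eq_of_lt, Pool.Agent.Y715.Gi.norm_two']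
      · norm_num
      · rw [norm_four, Pool.Agent.Y715.Gi.norm_two']
        norm_num
    rw [h4] at h3
    norm_num at h3
  have h20 : (2 : PadicAlgCl 2) ≠ 0 := two_ne_zero
  have hxt : ∀ τ : Au 2, τ v = -v → τ x = x' := hfix'
  have hc1 : ∀ τ : Au 2, τ v = v → τ x' = x' := by
    intro τ h1
    have h3 := hfix' (τ * t) (by rw [AlgEquiv.mul_apply, htv, map_neg, h1])
    rwa [AlgEquiv.mul_apply, hfix' t htv] at h3
  have hc2 : ∀ τ : Au 2, τ v = -v → τ x' = x := by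
    intro τ h1
    have h3 := hfix (τ * t) (by rw [AlgEquiv.mul_apply, htv, map_neg, h1, neg_neg])
    rwa [AlgEquiv.mul_apply, hfix' t htv] at h3
  obtain ⟨A, hAdef⟩ : ∃ A, A = (x + x') / 2 := ⟨_, rfl⟩
  obtain ⟨B, hBdef⟩ : ∃ B, B = (x - x') / (2 * v) := ⟨_, rfl⟩
  have hA : ∀ τ : Au 2, τ A = A := by
    intro τ
    rw [hAdef, map_div₀, map_add, map_ofNat]
    rcases hor τ with h1 | h1
    · rw [hfix τ h1, hc1 τ h1]
    · rw [hxt τ h1, hc2 τ h1, add_comm]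
  have hB : ∀ τ : Au 2, τ B = B := by
    intro τ
    rw [hBdef, map_div₀, map_sub, map_mul, map_ofNat]
    rcases hor τ with h1 | h1
    · rw [hfix τ h1, hc1 τ h1, h1]
    · rw [hxt τ h1, hc2 τ h1, h1]
      have e : (2 : PadicAlgCl 2) * -v = -(2 * v) := by ring
      rw [e, div_neg, ← neg_div, neg_sub]
  have hxx : x * x' = A ^ 2 - v ^ 2 * B ^ 2 := by
    rw [hAdef, hBdef]
    field_simp
    ring
  have h0 : A ^ 2 - v ^ 2 * B ^ 2 ≠ 0 := by
    rw [← hxx]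
    exact mul_ne_zero hx hx'
  have hy0 : y ≠ 0 := by
    rintro rfl
    rw [zero_pow two_ne_zero] at hy
    exact mul_ne_zero he (mul_ne_zero hx hx') hy
  have h6 := p_div (p_sq hy0 hyy) (p_norm hA hB h5 h0)
  have h7 : y ^ 2 / (A ^ 2 - v ^ 2 * B ^ 2) = e := by
    rw [div_eq_iff h0, ← hy, hxx]
  rw [h7] at h6
  exact h6

end Pool.Agent.NH57.BH
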